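import Pool.Agent.H88.PSI.Defs

/-!
# PSI Chi: from characters to a residue class

`φ(d) cl d u f n = ∑_χ χ(u⁻¹) tw χ f n` for `(u, d) = 1` (orthogonality, cf. `VkClass_orth` in `Pool/Agent/H97/VK/VkClass.lean` or `swk1_orth`), `D` is
linear, Cauchy-Schwarz: `|D(cl)|^2 ≤ (1/φ(d)) ∑_χ |D(tw χ f)|^2`.
-/

set_option autoImplicit false

namespace Pool.Agent.H88.PSI

open Finset

private theorem Chi_sum {ι : Type*} (s : Finset ι) (f : ι → ℕ → ℂ) (H H1 x : ℕ) :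
    D (fun n => ∑ i ∈ s, f i n) H H1 x = ∑ i ∈ s, D (f i) H H1 x := by
  unfold D W
  rw [sum_sub_distrib, sum_comm, sum_div, sum_comm (s := Ioc x (x + H1)), sum_div]

private theorem Chi_smul (c : ℂ) (f : ℕ → ℂ) (H H1 x : ℕ) :
    D (fun n => c * f n) H H1 x = c * D f H H1 x := by
  unfold D W
  rw [← mul_sum, ← mul_sum]
  ring

private theorem Chi_orth (f : ArithmeticFunction ℝ) {d u : ℕ} (hd : 1 ≤ d) (hu : Nat.Coprime u d)
    (n : ℕ) : (d.totient : ℂ) * cl d u f n =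
      ∑ χ : DirichletCharacter ℂ d, χ ((u : ZMod d)⁻¹) * tw χ f n := by
  have : NeZero d := ⟨by omega⟩
  have hun : IsUnit (u : ZMod d) := (ZMod.isUnit_iff_coprime u d).mpr hu
  have h1 : ∀ χ : DirichletCharacter ℂ d,
      χ ((u : ZMod d)⁻¹) * tw χ f n = (χ ((u : ZMod d)⁻¹) * χ (n : ZMod d)) * ((f n : ℝ) : ℂ) := by
    intro χ
    show χ ((u : ZMod d)⁻¹) * (((f n : ℝ) : ℂ) * χ (n : ZMod d)) = _
    ring
  simp only [h1]
  rw [← sum_mul, DirichletCharacter.sum_char_inv_mul_char_eq ℂ hun]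
  have hiff : ((u : ZMod d) = (n : ZMod d)) ↔ n % d = u % d := by
    rw [eq_comm]
    exact ZMod.natCast_eq_natCast_iff' n u d
  unfold cl
  by_cases h : n % d = u % d
  · rw [if_pos h, if_pos (hiff.mpr h)]
  · rw [if_neg h, if_neg (fun h' => h (hiff.mp h')), mul_zero, zero_mul]

private theorem Chi_norm {d : ℕ} (χ : DirichletCharacter ℂ d) (a : ZMod d) : ‖χ a‖ ≤ 1 :=
  DirichletCharacter.norm_le_one χ a

private theorem Chi_pt (f : ArithmeticFunction ℝ) {d u : ℕ} (H H1 x : ℕ) (hd : 1 ≤ d)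
    (hu : Nat.Coprime u d) :
    (d.totient : ℝ) * ‖D (cl d u f) H H1 x‖ ^ 2 ≤
      ∑ χ : DirichletCharacter ℂ d, ‖D (tw χ f) H H1 x‖ ^ 2 := by
  have hne : NeZero d := ⟨by omega⟩
  have hφ : (0 : ℝ) < d.totient := by exact_mod_cast Nat.totient_pos.2 hd
  have h1 : (d.totient : ℂ) * D (cl d u f) H H1 x =
      ∑ χ : DirichletCharacter ℂ d, χ ((u : ZMod d)⁻¹) * D (tw χ f) H H1 x := by
    rw [← Chi_smul]
    have e : (fun n => (d.totient : ℂ) * cl d u f n) =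
        fun n => ∑ χ : DirichletCharacter ℂ d, χ ((u : ZMod d)⁻¹) * tw χ f n :=
      funext (Chi_orth f hd hu)
    rw [e, Chi_sum]
    refine sum_congr rfl fun χ _ => ?_
    exact Chi_smul _ _ _ _ _
  have h2 : (d.totient : ℝ) * ‖D (cl d u f) H H1 x‖ ≤
      ∑ χ : DirichletCharacter ℂ d, ‖D (tw χ f) H H1 x‖ := by
    have e : (d.totient : ℝ) * ‖D (cl d u f) H H1 x‖ =
        ‖(d.totient : ℂ) * D (cl d u f) H H1 x‖ := by
      rw [norm_mul, Complex.norm_natCast]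
    rw [e, h1]
    refine (norm_sum_le _ _).trans (sum_le_sum fun χ _ => ?_)
    rw [norm_mul]
    exact mul_le_of_le_one_left (norm_nonneg _) (Chi_norm χ _)
  have hcard : ((univ : Finset (DirichletCharacter ℂ d)).card : ℝ) = d.totient := by
    rw [card_univ, ← Nat.card_eq_fintype_card,
      DirichletCharacter.card_eq_totient_of_hasEnoughRootsOfUnity ℂ d]
  have h3 : (∑ χ : DirichletCharacter ℂ d, ‖D (tw χ f) H H1 x‖) ^ 2 ≤
      (d.totient : ℝ) * ∑ χ : DirichletCharacter ℂ d, ‖D (tw χ f) H H1 x‖ ^ 2 := by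
    rw [← hcard]
    exact sq_sum_le_card_mul_sum_sq
  have h4 : ((d.totient : ℝ) * ‖D (cl d u f) H H1 x‖) ^ 2 ≤
      (∑ χ : DirichletCharacter ℂ d, ‖D (tw χ f) H H1 x‖) ^ 2 :=
    pow_le_pow_left₀ (by positivity) h2 2
  have h5 : (d.totient : ℝ) * ((d.totient : ℝ) * ‖D (cl d u f) H H1 x‖ ^ 2) ≤
      (d.totient : ℝ) * ∑ χ : DirichletCharacter ℂ d, ‖D (tw χ f) H H1 x‖ ^ 2 := by
    refine le_trans (le_of_eq ?_) (h4.trans h3)
    ring
  exact le_of_mul_le_mul_left h5 hφ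

theorem chi_cl (f : ArithmeticFunction ℝ) (d u H H1 : ℕ) (S : Finset ℕ) (E : ℝ) (hd : 1 ≤ d)
    (hu : Nat.Coprime u d)
    (h : ∀ χ : DirichletCharacter ℂ d, ∑ x ∈ S, ‖D (tw χ f) H H1 x‖ ^ 2 ≤ E) :
    ∑ x ∈ S, ‖D (cl d u f) H H1 x‖ ^ 2 ≤ E := by
  have hne : NeZero d := ⟨by omega⟩
  have hφ : (0 : ℝ) < d.totient := by exact_mod_cast Nat.totient_pos.2 hd
  have hcard : ((univ : Finset (DirichletCharacter ℂ d)).card : ℝ) = d.totient := by
    rw [card_univ, ← Nat.card_eq_fintype_card,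
      DirichletCharacter.card_eq_totient_of_hasEnoughRootsOfUnity ℂ d]
  have h1 : (d.totient : ℝ) * ∑ x ∈ S, ‖D (cl d u f) H H1 x‖ ^ 2 ≤ (d.totient : ℝ) * E := by
    rw [mul_sum]
    calc ∑ x ∈ S, (d.totient : ℝ) * ‖D (cl d u f) H H1 x‖ ^ 2
        ≤ ∑ x ∈ S, ∑ χ : DirichletCharacter ℂ d, ‖D (tw χ f) H H1 x‖ ^ 2 :=
          sum_le_sum fun x _ => Chi_pt f H H1 x hd hu
      _ = ∑ χ : DirichletCharacter ℂ d, ∑ x ∈ S, ‖D (tw χ f) H H1 x‖ ^ 2 := sum_comm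
      _ ≤ ∑ χ : DirichletCharacter ℂ d, E := sum_le_sum fun χ _ => h χ
      _ = (d.totient : ℝ) * E := by rw [sum_const, nsmul_eq_mul, hcard]
  exact le_of_mul_le_mul_left h1 hφ

/-- `D` is additive -/
theorem d_sum {ι : Type*} (s : Finset ι) (f : ι → ℕ → ℂ) (H H1 x : ℕ) :
    D (fun n => ∑ i ∈ s, f i n) H H1 x = ∑ i ∈ s, D (f i) H H1 x :=
  Chi_sum s f H H1 x

theorem d_smul (c : ℂ) (f : ℕ → ℂ) (H H1 x : ℕ) :
    D (fun n => c * f n) H H1 x = c * D f H H1 x :=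
  Chi_smul c f H H1 x

end Pool.Agent.H88.PSI
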