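import Pool.Agent.H88.PSI.Kap

/-!
# PSI Conv: from windows of fixed length to logarithmic windows

`∑_{x ∈ [X, 2X)} |D(x)|^2 = ∫_X^{2X} |D(⌊x⌋)|^2 dx`; for real `x` and natural `H`: `n ∈ (⌊x⌋, ⌊x⌋ + H]` iff `x < n ≤ x + H`.  For
`X_i = X (1 + i/K) ≤ x < X_{i+1}` the window `(x, x + H]` is compared with `(x, x + H x/X_i] = (x, x e^{h_i}]`, `h_i = log(1 + H/X_i)` (`x < n ≤ x e^h` iff
`log x < log n ≤ log x + h`): the difference is a sum over `(x + H, x + H x/X_i]`, of length `≤ H/K`, with `≤ H/K + 1 ≤ 2 H/K` integers; by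
Cauchy-Schwarz and Fubini its mean square is `≤ (2H/K)(H/K) SS f N` (every `n` lies in the windows for `x` in a set of measure
`≤ 2 H/K`).  The same for `H1`.  Main part: substitution `u = log x`, `dx = e^u du ≤ 2 X du`.
-/

set_option autoImplicit false

namespace Pool.Agent.H88.PSI

open Finset MeasureTheory

/-- the sum over a real window -/
private noncomputable def convW (f : ℕ → ℂ) (N : ℕ) (s e : ℝ) : ℂ :=
  ∑ n ∈ Icc 1 N, if s < (n : ℝ) ∧ (n : ℝ) ≤ e then f n else 0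

private noncomputable def convP (f : ℕ → ℂ) (N : ℕ) (a b y : ℝ) : ℝ :=
  ∑ n ∈ Icc 1 N, (Set.Ico ((n : ℝ) - a - b) ((n : ℝ) - a)).indicator (fun _ => ‖f n‖ ^ 2) y

private theorem convP_nonneg (f : ℕ → ℂ) (N : ℕ) (a b y : ℝ) : 0 ≤ convP f N a b y :=
  sum_nonneg fun n _ => Set.indicator_nonneg (fun _ _ => by positivity) _

private theorem conv_card (N : ℕ) (a b : ℝ) (ha : 0 ≤ a) (hab : a ≤ b) :
    (((Icc 1 N).filter fun n : ℕ => a < (n : ℝ) ∧ (n : ℝ) ≤ b).card : ℝ) ≤ b - a + 1 := by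
  have h1 : ((Icc 1 N).filter fun n : ℕ => a < (n : ℝ) ∧ (n : ℝ) ≤ b) ⊆ Ioc ⌊a⌋₊ ⌊b⌋₊ := by
    intro n hn
    rw [mem_filter] at hn
    rw [mem_Ioc]
    exact ⟨(Nat.floor_lt ha).2 hn.2.1, Nat.le_floor hn.2.2⟩
  have h2 := card_le_card h1
  rw [Nat.card_Ioc] at h2
  have h3 : ⌊a⌋₊ ≤ ⌊b⌋₊ := Nat.floor_le_floor hab
  have h4 : ((⌊b⌋₊ - ⌊a⌋₊ : ℕ) : ℝ) = (⌊b⌋₊ : ℝ) - ⌊a⌋₊ := Nat.cast_sub h3
  have h5 : (⌊b⌋₊ : ℝ) ≤ b := Nat.floor_le (ha.trans hab)
  have h6 : a < ⌊a⌋₊ + 1 := Nat.lt_floor_add_one a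
  have h7 : (((Icc 1 N).filter fun n : ℕ => a < (n : ℝ) ∧ (n : ℝ) ≤ b).card : ℝ) ≤
      ((⌊b⌋₊ - ⌊a⌋₊ : ℕ) : ℝ) := by exact_mod_cast h2
  linarith

private theorem conv_diff (f : ℕ → ℂ) (N : ℕ) (K H c y : ℝ) (hK : 1 ≤ K) (hH : 0 ≤ H) (hc : 0 < c)
    (hy : c ≤ y) (hy2 : y ≤ c * (1 + 1 / K)) :
    ‖convW f N y (y + H * y / c) - convW f N y (y + H)‖ ^ 2 ≤
      (H / K + 1) * convP f N H (H / K) y := by
  have hy0 : 0 < y := by linarith
  have hK0 : 0 < K := by linarith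
  have hle : y + H ≤ y + H * y / c := by
    have : H ≤ H * y / c := by
      rw [le_div_iff₀ hc]
      exact mul_le_mul_of_nonneg_left hy hH
    linarith
  have hle2 : H * y / c ≤ H + H / K := by
    rw [div_le_iff₀ hc]
    have h1 : H * y ≤ H * (c * (1 + 1 / K)) := mul_le_mul_of_nonneg_left hy2 hH
    have h2 : H * (c * (1 + 1 / K)) = (H + H / K) * c := by ring
    linarith
  set S := (Icc 1 N).filter fun n : ℕ => y + H < (n : ℝ) ∧ (n : ℝ) ≤ y + H * y / c with hS
  have h1 : convW f N y (y + H * y / c) - convW f N y (y + H) = ∑ n ∈ S, f n := by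
    unfold convW
    rw [← sum_sub_distrib, hS, sum_filter]
    refine sum_congr rfl fun n _ => ?_
    by_cases a1 : (n : ℝ) ≤ y
    · rw [if_neg (fun h => absurd h.1 (not_lt.2 a1)), if_neg (fun h => absurd h.1 (not_lt.2 a1)),
        if_neg (fun h => absurd h.1 (not_lt.2 (by linarith))), sub_zero]
    · have a2 : y < (n : ℝ) := not_le.1 a1
      by_cases a3 : (n : ℝ) ≤ y + H
      · rw [if_pos ⟨a2, a3.trans hle⟩, if_pos ⟨a2, a3⟩, if_neg (fun h => absurd h.1 (not_lt.2 a3)),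
          sub_self]
      · by_cases a4 : (n : ℝ) ≤ y + H * y / c
        · rw [if_pos ⟨a2, a4⟩, if_neg (fun h => a3 h.2), if_pos ⟨not_le.1 a3, a4⟩, sub_zero]
        · rw [if_neg (fun h => a4 h.2), if_neg (fun h => a3 h.2), if_neg (fun h => a4 h.2),
            sub_zero]
  have h2 : ‖∑ n ∈ S, f n‖ ^ 2 ≤ (S.card : ℝ) * ∑ n ∈ S, ‖f n‖ ^ 2 :=
    (pow_le_pow_left₀ (norm_nonneg _) (norm_sum_le _ _) 2).trans sq_sum_le_card_mul_sum_sq
  have h3 : (S.card : ℝ) ≤ H / K + 1 := by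
    refine (conv_card N (y + H) (y + H * y / c) (by linarith) hle).trans ?_
    linarith
  have h4 : ∑ n ∈ S, ‖f n‖ ^ 2 ≤ convP f N H (H / K) y := by
    unfold convP
    rw [hS, sum_filter]
    refine sum_le_sum fun n _ => ?_
    split_ifs with a1
    · rw [Set.indicator_of_mem]
      exact ⟨by linarith [a1.2], by linarith [a1.1]⟩
    · exact Set.indicator_nonneg (fun _ _ => by positivity) _
  rw [h1]
  refine h2.trans (mul_le_mul h3 h4 (sum_nonneg fun _ _ => by positivity) ?_)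
  positivity

private theorem conv_W (f : ℕ → ℂ) (N H x : ℕ) (y : ℝ) (hy : (x : ℝ) ≤ y) (hy2 : y < x + 1)
    (hN : x + H ≤ N) : W f H x = convW f N y (y + H) := by
  unfold W convW
  rw [← sum_filter]
  refine sum_congr ?_ fun _ _ => rfl
  ext n
  rw [mem_Ioc, mem_filter, mem_Icc]
  constructor
  · rintro ⟨h1, h2⟩
    have h1' : (x : ℝ) + 1 ≤ n := by exact_mod_cast h1
    have h2' : (n : ℝ) ≤ x + H := by exact_mod_cast h2
    exact ⟨⟨by omega, by omega⟩, by linarith, by linarith⟩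
  · rintro ⟨⟨h1, h2⟩, h3, h4⟩
    constructor
    · by_contra h5
      have h6 : (n : ℝ) ≤ x := by exact_mod_cast not_lt.1 h5
      linarith
    · by_contra h5
      have h6 : (x : ℝ) + H + 1 ≤ n := by exact_mod_cast not_le.1 h5
      linarith

private theorem conv_G (f : ℕ → ℂ) (N : ℕ) (H H1 c y : ℝ) (hH : 0 ≤ H) (hH1 : 0 ≤ H1) (hc : 0 < c)
    (hy : 0 < y) : Gw f N (Real.log (1 + H / c)) (Real.log (1 + H1 / c)) H H1 (Real.log y) =
      convW f N y (y + H * y / c) / H - convW f N y (y + H1 * y / c) / H1 := by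
  have key : ∀ (h : ℝ), 0 ≤ h → ∀ n ∈ Icc 1 N, (Real.log y < Real.log (n : ℝ) ∧
      Real.log (n : ℝ) ≤ Real.log y + Real.log (1 + h / c)) ↔
      (y < (n : ℝ) ∧ (n : ℝ) ≤ y + h * y / c) := by
    intro h hh n hn
    have hn0 : (0 : ℝ) < n := by
      rw [mem_Icc] at hn
      exact_mod_cast hn.1
    have hp : 0 < 1 + h / c := by positivity
    rw [Real.log_lt_log_iff hy hn0, ← Real.log_mul hy.ne' hp.ne',
      Real.log_le_log_iff hn0 (by positivity)]
    have e : y * (1 + h / c) = y + h * y / c := by ring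
    rw [e]
  unfold Gw convW
  rw [sum_div, sum_div, ← sum_sub_distrib]
  refine sum_congr rfl fun n hn => ?_
  have k1 := key H hH n hn
  have k2 := key H1 hH1 n hn
  by_cases a1 : y < (n : ℝ) ∧ (n : ℝ) ≤ y + H * y / c
  · by_cases a2 : y < (n : ℝ) ∧ (n : ℝ) ≤ y + H1 * y / c
    · rw [if_pos (k1.2 a1), if_pos (k2.2 a2), if_pos a1, if_pos a2]
      push_cast
      ring
    · rw [if_pos (k1.2 a1), if_neg (fun h => a2 (k2.1 h)), if_pos a1, if_neg a2]
      push_cast
      ring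
  · by_cases a2 : y < (n : ℝ) ∧ (n : ℝ) ≤ y + H1 * y / c
    · rw [if_neg (fun h => a1 (k1.1 h)), if_pos (k2.2 a2), if_neg a1, if_pos a2]
      push_cast
      ring
    · rw [if_neg (fun h => a1 (k1.1 h)), if_neg (fun h => a2 (k2.1 h)), if_neg a1, if_neg a2]
      push_cast
      ring

private theorem conv_sq (a b : ℂ) : ‖a + b‖ ^ 2 ≤ 2 * ‖a‖ ^ 2 + 2 * ‖b‖ ^ 2 := by
  have h1 := pow_le_pow_left₀ (norm_nonneg _) (norm_add_le a b) 2
  nlinarith [sq_nonneg (‖a‖ - ‖b‖)]

private theorem conv_scale {K H : ℝ} {d : ℂ} {P : ℝ} (hK : 1 ≤ K) (hH : K ≤ H) (hP : 0 ≤ P)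
    (h : ‖d‖ ^ 2 ≤ (H / K + 1) * P) : ‖d / (H : ℂ)‖ ^ 2 ≤ 2 / (H * K) * P := by
  have pK : 0 < K := by linarith
  have pH : 0 < H := by linarith
  rw [norm_div, Complex.norm_real, Real.norm_eq_abs, abs_of_pos pH, div_pow,
    div_le_iff₀ (by positivity)]
  have h1 : 1 ≤ H / K := by rwa [le_div_iff₀ pK, one_mul]
  have h2 : (H / K + 1) * P ≤ (2 * (H / K)) * P := mul_le_mul_of_nonneg_right (by linarith) hP
  have h3 : 2 / (H * K) * P * H ^ 2 = 2 * (H / K) * P := by field_simp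
  rw [h3]
  exact h.trans h2

private theorem conv_point (f : ℕ → ℂ) (N X H H1 x : ℕ) (K c y : ℝ) (hK : 1 ≤ K) (hH : K ≤ H)
    (hH1 : H ≤ H1) (hH2 : H1 ≤ X) (hN : 4 * X ≤ N) (hx : x < 2 * X) (h1 : (x : ℝ) ≤ y)
    (h2 : y < x + 1) (hc : 0 < c) (hy : c ≤ y) (hy2 : y ≤ c * (1 + 1 / K)) :
    ‖D f H H1 x‖ ^ 2 ≤
      2 * ‖Gw f N (Real.log (1 + H / c)) (Real.log (1 + H1 / c)) H H1 (Real.log y)‖ ^ 2 +
        (8 / (H * K) * convP f N H (H / K) y + 8 / (H1 * K) * convP f N H1 (H1 / K) y) := by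
  have pH : (0 : ℝ) ≤ H := Nat.cast_nonneg H
  have pH1 : (0 : ℝ) ≤ H1 := Nat.cast_nonneg H1
  have hHH : (H : ℝ) ≤ H1 := by exact_mod_cast hH1
  have hy0 : 0 < y := by linarith
  have e1 := conv_G f N H H1 c y pH pH1 hc hy0
  have e2 := conv_W f N H x y h1 h2 (by omega)
  have e3 := conv_W f N H1 x y h1 h2 (by omega)
  have d1 := conv_scale hK hH (convP_nonneg _ _ _ _ _) (conv_diff f N K H c y hK pH hc hy hy2)
  have d2 := conv_scale hK (hH.trans hHH) (convP_nonneg _ _ _ _ _)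
    (conv_diff f N K H1 c y hK pH1 hc hy hy2)
  have e4 : D f H H1 x = Gw f N (Real.log (1 + H / c)) (Real.log (1 + H1 / c)) H H1 (Real.log y) +
      (-((convW f N y (y + H * y / c) - convW f N y (y + H)) / ((H : ℝ) : ℂ)) +
        (convW f N y (y + H1 * y / c) - convW f N y (y + H1)) / ((H1 : ℝ) : ℂ)) := by
    rw [e1]
    unfold D
    rw [e2, e3]
    push_cast
    ring
  rw [e4]
  refine (conv_sq _ _).trans ?_
  have s1 := conv_sq (-((convW f N y (y + H * y / c) - convW f N y (y + H)) / ((H : ℝ) : ℂ)))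
    ((convW f N y (y + H1 * y / c) - convW f N y (y + H1)) / ((H1 : ℝ) : ℂ))
  rw [norm_neg] at s1
  have s2 : 8 / ((H : ℝ) * K) * convP f N H (H / K) y = 4 * (2 / (H * K) * convP f N H (H / K) y) :=
    by ring
  have s3 : 8 / ((H1 : ℝ) * K) * convP f N H1 (H1 / K) y =
    4 * (2 / (H1 * K) * convP f N H1 (H1 / K) y) := by ring
  rw [s2, s3]
  linarith

private theorem convP_int (f : ℕ → ℂ) (N : ℕ) (a b : ℝ) (hb : 0 ≤ b) :
    Integrable (convP f N a b) ∧ ∫ y, convP f N a b y = b * SS f N := by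
  have h1 : ∀ n ∈ Icc 1 N, Integrable fun y : ℝ =>
      (Set.Ico ((n : ℝ) - a - b) ((n : ℝ) - a)).indicator (fun _ => ‖f n‖ ^ 2) y := fun n _ =>
    memLp_one_iff_integrable.1 (memLp_indicator_const 1 measurableSet_Ico _ (Or.inr (by simp)))
  refine ⟨integrable_finsetSum _ h1, ?_⟩
  unfold convP SS
  rw [integral_finsetSum _ h1, mul_sum]
  refine sum_congr rfl fun n _ => ?_
  rw [integral_indicator_const _ measurableSet_Ico, smul_eq_mul]
  congr 1
  rw [Real.volume_real_Ico_of_le (by linarith)]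
  ring

/-- the substitution -/
private theorem conv_subst (g : ℝ → ℝ) (hg : Integrable g) (hg0 : ∀ u, 0 ≤ g u) (a b : ℝ)
    (ha : 0 < a) (hab : a ≤ b) :
    IntegrableOn (fun y => g (Real.log y)) (Set.Ico a b) ∧
      ∫ y in Set.Ico a b, g (Real.log y) ≤ b * ∫ u, g u := by
  have hb : 0 < b := by linarith
  have him : Real.exp '' Set.Ico (Real.log a) (Real.log b) = Set.Ico a b := by
    ext y
    constructor
    · rintro ⟨u, ⟨h1, h2⟩, rfl⟩
      exact ⟨(Real.log_le_iff_le_exp ha).1 h1, (Real.lt_log_iff_exp_lt hb).1 h2⟩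
    · rintro ⟨h1, h2⟩
      have hy : 0 < y := by linarith
      exact ⟨Real.log y, ⟨Real.log_le_log ha h1, Real.log_lt_log hy h2⟩, Real.exp_log hy⟩
  have hd : ∀ x ∈ Set.Ico (Real.log a) (Real.log b),
      HasDerivWithinAt Real.exp (Real.exp x) (Set.Ico (Real.log a) (Real.log b)) x :=
    fun x _ => (Real.hasDerivAt_exp x).hasDerivWithinAt
  have hinj : Set.InjOn Real.exp (Set.Ico (Real.log a) (Real.log b)) :=
    Real.exp_injective.injOn
  have hi : IntegrableOn (fun u => |Real.exp u| • g (Real.log (Real.exp u)))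
      (Set.Ico (Real.log a) (Real.log b)) := by
    have h1 : Integrable (fun u => g u) (volume.restrict (Set.Ico (Real.log a) (Real.log b))) :=
      hg.integrableOn
    have h2 := h1.bdd_mul (c := b) (f := fun u => |Real.exp u|)
      (Real.continuous_exp.abs.aestronglyMeasurable) (by
        filter_upwards [ae_restrict_mem measurableSet_Ico] with u hu
        rw [Real.norm_eq_abs, abs_abs, abs_of_pos (Real.exp_pos u)]
        exact ((Real.lt_log_iff_exp_lt hb).1 hu.2).le)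
    refine h2.congr ?_
    filter_upwards with u
    rw [Real.log_exp, smul_eq_mul]
  constructor
  · rw [← him, integrableOn_image_iff_integrableOn_abs_deriv_smul measurableSet_Ico hd hinj]
    exact hi
  · rw [← him, integral_image_eq_integral_abs_deriv_smul measurableSet_Ico hd hinj,
      ← integral_const_mul]
    refine (setIntegral_mono_on hi (hg.const_mul b).integrableOn measurableSet_Ico
      fun u hu => ?_).trans ?_
    · rw [Real.log_exp, smul_eq_mul, abs_of_pos (Real.exp_pos u)]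
      exact mul_le_mul_of_nonneg_right ((Real.lt_log_iff_exp_lt hb).1 hu.2).le (hg0 u)
    · refine setIntegral_le_integral (hg.const_mul b) ?_
      filter_upwards with u
      exact mul_nonneg hb.le (hg0 u)

theorem conv (f : ℕ → ℂ) (N X H H1 K : ℕ) (hX : 1 ≤ X) (hK : 1 ≤ K) (hH : K ≤ H) (hH1 : H ≤ H1)
    (hH2 : H1 ≤ X) (hN : 4 * X ≤ N) :
    ∑ x ∈ Ico X (2 * X), ‖D f H H1 x‖ ^ 2
      ≤ 100 * SS f N / (K : ℝ) ^ 2 + 8 * X * ∑ i ∈ range K,
        ∫ u, ‖Gw f N (Real.log (1 + H / (X * (1 + (i : ℝ) / K))))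
          (Real.log (1 + H1 / (X * (1 + (i : ℝ) / K)))) H H1 u‖ ^ 2 := by
  have pX : (0 : ℝ) < X := by exact_mod_cast hX
  have pK : (0 : ℝ) < K := by exact_mod_cast hK
  have hK1 : (1 : ℝ) ≤ K := by exact_mod_cast hK
  have hKH : (K : ℝ) ≤ H := by exact_mod_cast hH
  have hHH : (H : ℝ) ≤ H1 := by exact_mod_cast hH1
  have pH : (0 : ℝ) < H := by linarith
  have pH1 : (0 : ℝ) < H1 := by linarith
  set c : ℕ → ℝ := fun i => X * (1 + (i : ℝ) / K) with hcdef
  have cX : ∀ i, (X : ℝ) ≤ c i := by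
    intro i
    have : (0 : ℝ) ≤ (i : ℝ) / K := by positivity
    show (X : ℝ) ≤ X * (1 + (i : ℝ) / K)
    nlinarith
  have cpos : ∀ i, 0 < c i := fun i => lt_of_lt_of_le pX (cX i)
  have cstep : ∀ i, c (i + 1) = c i + X / K := by
    intro i
    simp only [hcdef]
    push_cast
    ring
  have cle : ∀ i ∈ range K, c (i + 1) ≤ 2 * X := by
    intro i hi
    rw [mem_range] at hi
    have h1 : ((i + 1 : ℕ) : ℝ) ≤ K := by exact_mod_cast hi
    have h2 : ((i + 1 : ℕ) : ℝ) / K ≤ 1 := by rwa [div_le_one pK]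
    show (X : ℝ) * (1 + ((i + 1 : ℕ) : ℝ) / K) ≤ 2 * X
    nlinarith
  set g : ℕ → ℝ → ℝ := fun i u => ‖Gw f N (Real.log (1 + H / c i))
          (Real.log (1 + H1 / c i)) H H1 u‖ ^ 2 with hgdef
  have hlog : ∀ (h : ℝ) (i : ℕ), 0 ≤ h → 0 ≤ Real.log (1 + h / c i) := by
    intro h i hh
    refine Real.log_nonneg ?_
    have : 0 ≤ h / c i := div_nonneg hh (cpos i).le
    linarith
  have hgi : ∀ i, Integrable (g i) := by
    intro i
    have h1 := (gw_L1 f N (Real.log (1 + H / c i)) (Real.log (1 + H1 / c i)) H H1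
      (hlog _ _ pH.le) (hlog _ _ pH1.le)).2
    exact (memLp_two_iff_integrable_sq_norm h1.1).1 h1
  have hg0 : ∀ i u, 0 ≤ g i u := fun i u => by
    simp only [hgdef]
    positivity
  set Q : ℝ → ℝ := fun y => (∑ i ∈ range K,
      (Set.Ico (c i) (c (i + 1))).indicator (fun y => 2 * g i (Real.log y)) y) +
      (8 / ((H : ℝ) * K) * convP f N H (H / K) y + 8 / ((H1 : ℝ) * K) * convP f N H1 (H1 / K) y)
    with hQ
  have hs : ∀ i, IntegrableOn (fun y => g i (Real.log y)) (Set.Ico (c i) (c (i + 1))) ∧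
      ∫ y in Set.Ico (c i) (c (i + 1)), g i (Real.log y) ≤ c (i + 1) * ∫ u, g i u := fun i =>
    conv_subst (g i) (hgi i) (hg0 i) _ _ (cpos i) (by
      rw [cstep]
      have : (0 : ℝ) ≤ X / K := by positivity
      linarith)
  have hi1 : ∀ i ∈ range K, Integrable fun y =>
      (Set.Ico (c i) (c (i + 1))).indicator (fun y => 2 * g i (Real.log y)) y := by
    intro i _
    rw [integrable_indicator_iff measurableSet_Ico]
    exact (hs i).1.const_mul 2
  have hP1 := convP_int f N H ((H : ℝ) / K) (by positivity)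
  have hP2 := convP_int f N H1 ((H1 : ℝ) / K) (by positivity)
  have hi2 : Integrable fun y => 8 / ((H : ℝ) * K) * convP f N H (H / K) y := hP1.1.const_mul _
  have hi3 : Integrable fun y => 8 / ((H1 : ℝ) * K) * convP f N H1 (H1 / K) y := hP2.1.const_mul _
  have hQi : Integrable Q := (integrable_finsetSum _ hi1).add (hi2.add hi3)
  have hQ0 : ∀ y, 0 ≤ Q y := by
    intro y
    simp only [hQ]
    have := convP_nonneg f N H ((H : ℝ) / K) y
    have := convP_nonneg f N H1 ((H1 : ℝ) / K) y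
    have : 0 ≤ ∑ i ∈ range K,
      (Set.Ico (c i) (c (i + 1))).indicator (fun y => 2 * g i (Real.log y)) y :=
      sum_nonneg fun i _ => Set.indicator_nonneg (fun y _ => mul_nonneg zero_le_two (hg0 i _)) _
    positivity
  -- the pointwise bound
  have hpt : ∀ x ∈ Ico X (2 * X), ∀ y ∈ Set.Ico (x : ℝ) (x + 1), ‖D f H H1 x‖ ^ 2 ≤ Q y := by
    intro x hx y hy
    rw [mem_Ico] at hx
    have hXx : (X : ℝ) ≤ x := by exact_mod_cast hx.1
    have hx2 : (x : ℝ) + 1 ≤ 2 * X := by exact_mod_cast hx.2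
    have hz0 : 0 ≤ (y / X - 1) * K := by
      refine mul_nonneg ?_ pK.le
      have : 1 ≤ y / X := by
        rw [le_div_iff₀ pX]
        linarith [hy.1]
      linarith
    set i := ⌊(y / X - 1) * K⌋₊ with hi
    have hi1 : (i : ℝ) ≤ (y / X - 1) * K := Nat.floor_le hz0
    have hi2 : (y / X - 1) * K < i + 1 := Nat.lt_floor_add_one _
    have hci : c i ≤ y := by
      have h1 : (i : ℝ) / K ≤ y / X - 1 := by rwa [div_le_iff₀ pK]
      have h2 : (X : ℝ) * (1 + (i : ℝ) / K) ≤ X * (y / X) :=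
        mul_le_mul_of_nonneg_left (by linarith) pX.le
      rwa [mul_div_cancel₀ _ pX.ne'] at h2
    have hci2 : y < c (i + 1) := by
      have h1 : y / X - 1 < ((i + 1 : ℕ) : ℝ) / K := by
        rw [lt_div_iff₀ pK]
        push_cast
        exact hi2
      have h2 : (X : ℝ) * (y / X) < X * (1 + ((i + 1 : ℕ) : ℝ) / K) :=
        mul_lt_mul_of_pos_left (by linarith) pX
      rwa [mul_div_cancel₀ _ pX.ne'] at h2
    have hiK : i < K := by
      have h1 : (y / X - 1) * K < K := by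
        have : y / X < 2 := by
          rw [div_lt_iff₀ pX]
          linarith [hy.2]
        nlinarith
      have h2 : (i : ℝ) < K := lt_of_le_of_lt hi1 h1
      exact_mod_cast h2
    have hy2 : y ≤ c i * (1 + 1 / (K : ℝ)) := by
      have h1 : y < c i + X / K := by rw [← cstep]; exact hci2
      have h2 : (X : ℝ) / K ≤ c i / K := div_le_div_of_nonneg_right (cX i) pK.le
      have h3 : c i * (1 + 1 / (K : ℝ)) = c i + c i / K := by ring
      rw [h3]
      linarith
    have h5 := conv_point f N X H H1 x (K : ℝ) (c i) y hK1 hKH hH1 hH2 hN hx.2 hy.1 hy.2 (cpos i)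
      hci hy2
    refine h5.trans ?_
    simp only [hQ]
    refine add_le_add ?_ le_rfl
    have h6 : 2 * ‖Gw f N (Real.log (1 + H / c i)) (Real.log (1 + H1 / c i)) H H1
        (Real.log y)‖ ^ 2 = (Set.Ico (c i) (c (i + 1))).indicator
          (fun y => 2 * g i (Real.log y)) y := by
      rw [Set.indicator_of_mem (show y ∈ Set.Ico (c i) (c (i + 1)) from ⟨hci, hci2⟩)]
    rw [h6]
    exact single_le_sum (f := fun i => (Set.Ico (c i) (c (i + 1))).indicator
      (fun y => 2 * g i (Real.log y)) y) (fun j _ => Set.indicator_nonneg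
        (fun y _ => mul_nonneg zero_le_two (hg0 j _)) _) (mem_range.2 hiK)
  -- integration
  have hx1 : ∀ x ∈ Ico X (2 * X), ‖D f H H1 x‖ ^ 2 ≤ ∫ y in Set.Ico (x : ℝ) (x + 1), Q y := by
    intro x hx
    have h1 : ∫ y in Set.Ico (x : ℝ) (x + 1), ‖D f H H1 x‖ ^ 2 = ‖D f H H1 x‖ ^ 2 := by
      rw [setIntegral_const, smul_eq_mul, Real.volume_real_Ico_of_le (by linarith)]
      ring
    rw [← h1]
    refine setIntegral_mono_on (integrableOn_const (by simp)) hQi.integrableOn measurableSet_Ico ?_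
    exact hpt x hx
  have hsum : ∑ x ∈ Ico X (2 * X), ‖D f H H1 x‖ ^ 2 ≤ ∫ y, Q y := by
    refine (sum_le_sum hx1).trans ?_
    rw [← integral_biUnion_finset _ (fun _ _ => measurableSet_Ico) ?_
      (fun _ _ => hQi.integrableOn)]
    · refine setIntegral_le_integral hQi ?_
      filter_upwards with y
      exact hQ0 y
    · intro a _ b _ hab
      rw [Function.onFun, Set.disjoint_left]
      intro y h1 h2
      rcases lt_or_gt_of_ne hab with h | h
      · have h3 : (a : ℝ) + 1 ≤ b := by exact_mod_cast h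
        linarith [h1.2, h2.1]
      · have h3 : (b : ℝ) + 1 ≤ a := by exact_mod_cast h
        linarith [h1.1, h2.2]
  refine hsum.trans ?_
  have hQint : ∫ y, Q y = (∑ i ∈ range K,
      ∫ y in Set.Ico (c i) (c (i + 1)), 2 * g i (Real.log y)) +
      (8 / ((H : ℝ) * K) * ((H : ℝ) / K * SS f N) +
        8 / ((H1 : ℝ) * K) * ((H1 : ℝ) / K * SS f N)) := by
    have e0 : ∫ y, Q y = (∫ y, ∑ i ∈ range K,
        (Set.Ico (c i) (c (i + 1))).indicator (fun y => 2 * g i (Real.log y)) y) +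
        ∫ y, (8 / ((H : ℝ) * K) * convP f N H (H / K) y +
          8 / ((H1 : ℝ) * K) * convP f N H1 (H1 / K) y) :=
      integral_add (integrable_finsetSum _ hi1) (hi2.add hi3)
    rw [e0, integral_finsetSum _ hi1, integral_add hi2 hi3, integral_const_mul, integral_const_mul,
      hP1.2, hP2.2]
    congr 1
    exact sum_congr rfl fun i _ => integral_indicator measurableSet_Ico
  rw [hQint]
  have hS : 0 ≤ SS f N := sum_nonneg fun _ _ => by positivity
  have h7 : ∑ i ∈ range K, ∫ y in Set.Ico (c i) (c (i + 1)), 2 * g i (Real.log y) ≤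
      8 * X * ∑ i ∈ range K, ∫ u, g i u := by
    rw [mul_sum]
    refine sum_le_sum fun i hi => ?_
    rw [integral_const_mul]
    have h8 := (hs i).2
    have h9 : 0 ≤ ∫ u, g i u := integral_nonneg (hg0 i)
    have h10 := mul_le_mul_of_nonneg_right (cle i hi) h9
    nlinarith [mul_nonneg pX.le h9]
  have h8 : 8 / ((H : ℝ) * K) * ((H : ℝ) / K * SS f N) +
        8 / ((H1 : ℝ) * K) * ((H1 : ℝ) / K * SS f N) = 16 * (SS f N / (K : ℝ) ^ 2) := by
    field_simp
    ring
  have h9 : 0 ≤ SS f N / (K : ℝ) ^ 2 := by positivity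
  have h10 : 100 * SS f N / (K : ℝ) ^ 2 = 100 * (SS f N / (K : ℝ) ^ 2) := by ring
  rw [h8, h10]
  have h11 : ∑ i ∈ range K, ∫ u, g i u = ∑ i ∈ range K,
        ∫ u, ‖Gw f N (Real.log (1 + H / (X * (1 + (i : ℝ) / K))))
          (Real.log (1 + H1 / (X * (1 + (i : ℝ) / K)))) H H1 u‖ ^ 2 := rfl
  rw [← h11]
  linarith

end Pool.Agent.H88.PSI
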