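import Pool.Agent.H88.PSI.Dpm
import Pool.Agent.H35.W.MeanV

/-!
# PSI Mvt: mean value theorem

From `Pool.Agent.H35.W.mean_v` (`Pool/Agent/H35/W/MeanV.lean`) with `a m = √m b m` and the substitution `t ↦ 2 π t`.
`tail_int`: dyadic pieces `2^j T ≤ |t| ≤ 2^(j+1) T` (or monotone convergence): `∑_j (2^j T)^(-2) (2^(j+2) T + 4 M (1+log M)) S`.
-/

set_option autoImplicit false

namespace Pool.Agent.H88.PSI

open Finset MeasureTheory

private theorem Mvt_pt (b : ℕ → ℂ) (M : ℕ) (t : ℝ) :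
    ∑ m ∈ Icc 1 M, (((Real.sqrt m : ℝ) : ℂ) * b m) *
      (m : ℂ) ^ (-(1 / 2 : ℂ) + ((2 * Real.pi * t : ℝ) : ℂ) * Complex.I) = DP b M t := by
  unfold DP
  refine Finset.sum_congr rfl fun m hm => ?_
  have hm' := Finset.mem_Icc.1 hm
  have hm0 : (m : ℂ) ≠ 0 := by exact_mod_cast (show m ≠ 0 by omega)
  have hmr : (0 : ℝ) < m := by exact_mod_cast (show 0 < m by omega)
  rw [Complex.cpow_add _ _ hm0]
  have e1 : (m : ℂ) ^ (-(1 / 2 : ℂ)) = (((m : ℝ) ^ (-(1 / 2) : ℝ) : ℝ) : ℂ) := by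
    rw [Complex.ofReal_cpow hmr.le]
    push_cast
    rfl
  have e2 : ((Real.sqrt m : ℝ) : ℂ) * (m : ℂ) ^ (-(1 / 2 : ℂ)) = 1 := by
    rw [e1, ← Complex.ofReal_mul, Real.sqrt_eq_rpow, ← Real.rpow_add hmr]
    norm_num
  have e3 : (m : ℂ) ^ (((2 * Real.pi * t : ℝ) : ℂ) * Complex.I) =
      Pool.Agent.H91.PK.ee (t * Real.log m) := by
    unfold Pool.Agent.H91.PK.ee
    rw [Complex.cpow_def_of_ne_zero hm0, ← Complex.natCast_log]
    congr 1
    push_cast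
    ring
  rw [e3]
  calc ((Real.sqrt m : ℝ) : ℂ) * b m * ((m : ℂ) ^ (-(1 / 2 : ℂ)) *
        Pool.Agent.H91.PK.ee (t * Real.log m)) =
        (((Real.sqrt m : ℝ) : ℂ) * (m : ℂ) ^ (-(1 / 2 : ℂ))) *
          (b m * Pool.Agent.H91.PK.ee (t * Real.log m)) := by ring
    _ = _ := by rw [e2, one_mul]

private theorem Mvt_SS_nonneg (b : ℕ → ℂ) (M : ℕ) : 0 ≤ SS b M :=
  Finset.sum_nonneg fun _ _ => sq_nonneg _

private theorem Mvt_log (M : ℕ) : 0 ≤ 1 + Real.log M := by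
  have := Real.log_natCast_nonneg M
  linarith

theorem mvt (b : ℕ → ℂ) (M : ℕ) (T : ℝ) (hM : 1 ≤ M) (hT : 0 ≤ T) :
    ∫ t in Set.Icc (-T) T, ‖DP b M t‖ ^ 2 ≤ (2 * T + 4 * M * (1 + Real.log M)) * SS b M := by
  have hpi := Real.pi_pos
  have h := Pool.Agent.H35.W.mean_v (fun m => ((Real.sqrt m : ℝ) : ℂ) * b m) M
    (2 * Real.pi * T) hM (by positivity)
  have e1 : ∑ m ∈ Icc 1 M, ‖(fun m : ℕ => ((Real.sqrt m : ℝ) : ℂ) * b m) m‖ ^ 2 / m = SS b M := by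
    unfold SS
    refine Finset.sum_congr rfl fun m hm => ?_
    have hm' := Finset.mem_Icc.1 hm
    have hmr : (0 : ℝ) < m := by exact_mod_cast (show 0 < m by omega)
    show ‖((Real.sqrt m : ℝ) : ℂ) * b m‖ ^ 2 / m = _
    rw [norm_mul, Complex.norm_real, Real.norm_of_nonneg (Real.sqrt_nonneg _), mul_pow,
      Real.sq_sqrt hmr.le]
    field_simp
  rw [e1] at h
  rw [integral_Icc_eq_integral_Ioc, ← intervalIntegral.integral_of_le (by linarith : -T ≤ T)]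
  have e2 : ∫ t in (-T)..T, ‖DP b M t‖ ^ 2 = (2 * Real.pi)⁻¹ • ∫ u in
      (2 * Real.pi * -T)..(2 * Real.pi * T), ‖∑ m ∈ Icc 1 M, (((Real.sqrt m : ℝ) : ℂ) * b m) *
      (m : ℂ) ^ (-(1 / 2 : ℂ) + (u : ℂ) * Complex.I)‖ ^ 2 := by
    rw [← intervalIntegral.integral_comp_mul_left (fun u : ℝ => ‖∑ m ∈ Icc 1 M,
      (((Real.sqrt m : ℝ) : ℂ) * b m) * (m : ℂ) ^ (-(1 / 2 : ℂ) + (u : ℂ) * Complex.I)‖ ^ 2)
      (by positivity : 2 * Real.pi ≠ 0)]
    refine intervalIntegral.integral_congr fun t _ => ?_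
    show ‖DP b M t‖ ^ 2 = _
    rw [← Mvt_pt b M t]
  rw [e2, smul_eq_mul, show 2 * Real.pi * -T = -(2 * Real.pi * T) by ring]
  have h2 := mul_le_mul_of_nonneg_left h (by positivity : 0 ≤ (2 * Real.pi)⁻¹)
  refine h2.trans ?_
  rw [← mul_assoc]
  refine mul_le_mul_of_nonneg_right ?_ (Mvt_SS_nonneg b M)
  have h3 : (2 * Real.pi)⁻¹ * (2 * (2 * Real.pi * T) + 4 * M * (1 + Real.log M)) =
      2 * T + (2 * Real.pi)⁻¹ * (4 * M * (1 + Real.log M)) := by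
    field_simp
  rw [h3]
  have h4 : (2 * Real.pi)⁻¹ ≤ 1 := by
    have := Real.pi_gt_three
    exact inv_le_one_of_one_le₀ (by linarith)
  have h5 : 0 ≤ 4 * M * (1 + Real.log M) := mul_nonneg (by positivity) (Mvt_log M)
  have h6 := mul_le_mul_of_nonneg_right h4 h5
  linarith

/-- the dyadic pieces -/
private def Mvt_S (T : ℝ) (j : ℕ) : Set ℝ := {t | T < |t| ∧ 2 ^ j * T ≤ |t| ∧ |t| < 2 ^ (j + 1) * T}

private theorem Mvt_meas (T : ℝ) (j : ℕ) : MeasurableSet (Mvt_S T j) := by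
  unfold Mvt_S
  have h : Measurable fun t : ℝ => |t| := continuous_abs.measurable
  exact (measurableSet_lt measurable_const h).inter
    ((measurableSet_le measurable_const h).inter (measurableSet_lt h measurable_const))

private theorem Mvt_union {T : ℝ} (hT : 1 ≤ T) : ⋃ j, Mvt_S T j = {t : ℝ | T < |t|} := by
  have hT0 : 0 < T := by linarith
  ext t
  rw [Set.mem_iUnion]
  constructor
  · rintro ⟨j, h, -, -⟩
    exact h
  · intro h
    have h' : T < |t| := h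
    obtain ⟨j, h1, h2⟩ := exists_nat_pow_near (x := |t| / T) (y := (2 : ℝ))
      (by rw [le_div_iff₀ hT0]; linarith) (by norm_num)
    rw [le_div_iff₀ hT0] at h1
    rw [div_lt_iff₀ hT0] at h2
    exact ⟨j, h', h1, h2⟩

private theorem Mvt_disj {T : ℝ} (hT : 1 ≤ T) : Pairwise (Function.onFun Disjoint (Mvt_S T)) := by
  have key : ∀ i j : ℕ, i < j → Disjoint (Mvt_S T i) (Mvt_S T j) := by
    intro i j hij
    rw [Set.disjoint_left]
    rintro t ⟨-, -, h1⟩ ⟨-, h2, -⟩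
    have h3 : (2 : ℝ) ^ (i + 1) ≤ 2 ^ j := pow_le_pow_right₀ (by norm_num) hij
    have h4 := mul_le_mul_of_nonneg_right h3 (by linarith : 0 ≤ T)
    linarith
  intro i j hij
  rcases lt_or_gt_of_ne hij with h | h
  · exact key i j h
  · exact (key j i h).symm

private theorem Mvt_sub {T : ℝ} (j : ℕ) :
    Mvt_S T j ⊆ Set.Icc (-(2 ^ (j + 1) * T)) (2 ^ (j + 1) * T) := by
  rintro t ⟨-, -, h⟩
  exact ⟨(abs_lt.1 h).1.le, (abs_lt.1 h).2.le⟩

private theorem Mvt_int (b : ℕ → ℂ) (M : ℕ) {T : ℝ} (hT : 1 ≤ T) (j : ℕ) :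
    IntegrableOn (fun t => ‖DP b M t‖ ^ 2 / t ^ 2) (Mvt_S T j) := by
  have hms : Measurable (fun t => ‖DP b M t‖ ^ 2 / t ^ 2) :=
    (((dp_cont b M).norm.pow 2).measurable).div (measurable_id.pow_const 2)
  refine Measure.integrableOn_of_bounded (M := (∑ n ∈ Icc 1 M, ‖b n‖) ^ 2) ?_
    hms.aestronglyMeasurable ?_
  · refine ((measure_mono (Mvt_sub j)).trans_lt ?_).ne
    rw [Real.volume_Icc]
    exact ENNReal.ofReal_lt_top
  · refine (ae_restrict_iff' (Mvt_meas T j)).2 (Filter.Eventually.of_forall fun t ht => ?_)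
    have h1 : 1 ≤ |t| := hT.trans ht.1.le
    have h2 : 1 ≤ t ^ 2 := by
      rw [← sq_abs]
      nlinarith
    rw [Real.norm_of_nonneg (by positivity)]
    refine (div_le_self (sq_nonneg _) h2).trans ?_
    exact pow_le_pow_left₀ (norm_nonneg _) (dp_norm_le b M t) 2

private theorem Mvt_piece (b : ℕ → ℂ) (M : ℕ) {T : ℝ} (hM : 1 ≤ M) (hT : 1 ≤ T) (j : ℕ) :
    ∫ t in Mvt_S T j, ‖DP b M t‖ ^ 2 / t ^ 2 ≤
      (4 / T * (1 / 2) ^ j + 4 * M * (1 + Real.log M) / T ^ 2 * (1 / 4) ^ j) * SS b M := by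
  have hT0 : 0 < T := by linarith
  have hj : (0 : ℝ) < 2 ^ j := by positivity
  have hcont : Continuous fun t => ‖DP b M t‖ ^ 2 := (dp_cont b M).norm.pow 2
  have hI : IntegrableOn (fun t => ‖DP b M t‖ ^ 2)
      (Set.Icc (-(2 ^ (j + 1) * T)) (2 ^ (j + 1) * T)) := hcont.integrableOn_Icc
  have h1 : ∫ t in Mvt_S T j, ‖DP b M t‖ ^ 2 / t ^ 2 ≤
      ∫ t in Mvt_S T j, ‖DP b M t‖ ^ 2 * (1 / (2 ^ j * T) ^ 2) := by
    refine setIntegral_mono_on (Mvt_int b M hT j) ((hI.mono_set (Mvt_sub j)).mul_const _)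
      (Mvt_meas T j) fun t ht => ?_
    rw [div_eq_mul_one_div]
    refine mul_le_mul_of_nonneg_left ?_ (sq_nonneg _)
    refine one_div_le_one_div_of_le (by positivity) ?_
    rw [← sq_abs t]
    exact pow_le_pow_left₀ (by positivity) ht.2.1 2
  have h2 : ∫ t in Mvt_S T j, ‖DP b M t‖ ^ 2 * (1 / (2 ^ j * T) ^ 2) =
      (∫ t in Mvt_S T j, ‖DP b M t‖ ^ 2) * (1 / (2 ^ j * T) ^ 2) := integral_mul_const _ _
  have h3 : ∫ t in Mvt_S T j, ‖DP b M t‖ ^ 2 ≤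
      ∫ t in Set.Icc (-(2 ^ (j + 1) * T)) (2 ^ (j + 1) * T), ‖DP b M t‖ ^ 2 :=
    setIntegral_mono_set hI (Filter.Eventually.of_forall fun _ => sq_nonneg _)
      (Mvt_sub j).eventuallyLE
  have h4 := mvt b M (2 ^ (j + 1) * T) hM (by positivity)
  rw [h2] at h1
  refine h1.trans ((mul_le_mul_of_nonneg_right (h3.trans h4) (by positivity)).trans (le_of_eq ?_))
  have e1 : (1 / 2 : ℝ) ^ j = 1 / 2 ^ j := by rw [one_div_pow]
  have e2 : (1 / 4 : ℝ) ^ j = 1 / (2 ^ j * 2 ^ j) := by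
    rw [one_div_pow, ← mul_pow]
    norm_num
  rw [e1, e2, pow_succ]
  field_simp
  ring

theorem tail_int (b : ℕ → ℂ) (M : ℕ) (T : ℝ) (hM : 1 ≤ M) (hT : 1 ≤ T) :
    IntegrableOn (fun t => ‖DP b M t‖ ^ 2 / t ^ 2) {t : ℝ | T < |t|} ∧
      ∫ t in {t : ℝ | T < |t|}, ‖DP b M t‖ ^ 2 / t ^ 2
        ≤ 100 * (1 / T + M * (1 + Real.log M) / T ^ 2) * SS b M := by
  have hT0 : 0 < T := by linarith
  have hK : 0 ≤ 4 * (M : ℝ) * (1 + Real.log M) := mul_nonneg (by positivity) (Mvt_log M)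
  have hS := Mvt_SS_nonneg b M
  have hg2 : HasSum (fun j : ℕ => (1 / 2 : ℝ) ^ j) 2 := hasSum_geometric_two
  have hg4 : HasSum (fun j : ℕ => (1 / 4 : ℝ) ^ j) (4 / 3) := by
    have h := hasSum_geometric_of_lt_one (r := (1 / 4 : ℝ)) (by norm_num) (by norm_num)
    have e : (1 - (1 / 4 : ℝ))⁻¹ = 4 / 3 := by norm_num
    rwa [e] at h
  have hsum := ((hg2.mul_left (4 / T)).add
    (hg4.mul_left (4 * M * (1 + Real.log M) / T ^ 2))).mul_right (SS b M)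
  have hnn : ∀ j, 0 ≤ ∫ t in Mvt_S T j, ‖DP b M t‖ ^ 2 / t ^ 2 := fun j =>
    setIntegral_nonneg (Mvt_meas T j) fun t _ => by positivity
  have hint : IntegrableOn (fun t => ‖DP b M t‖ ^ 2 / t ^ 2) (⋃ j, Mvt_S T j) := by
    refine integrableOn_iUnion_of_summable_integral_norm (Mvt_int b M hT) ?_
    have e : (fun j => ∫ t in Mvt_S T j, ‖‖DP b M t‖ ^ 2 / t ^ 2‖) =
        fun j => ∫ t in Mvt_S T j, ‖DP b M t‖ ^ 2 / t ^ 2 := by
      funext j
      refine setIntegral_congr_fun (Mvt_meas T j) fun t _ => ?_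
      exact Real.norm_of_nonneg (by positivity)
    rw [e]
    exact Summable.of_nonneg_of_le hnn (Mvt_piece b M hM hT) hsum.summable
  have h1 := hasSum_integral_iUnion (Mvt_meas T) (Mvt_disj hT) hint
  rw [Mvt_union hT] at hint h1
  refine ⟨hint, ?_⟩
  refine (hasSum_le (Mvt_piece b M hM hT) h1 hsum).trans ?_
  refine mul_le_mul_of_nonneg_right ?_ hS
  have h2 : 0 ≤ (M : ℝ) * (1 + Real.log M) / T ^ 2 :=
    div_nonneg (mul_nonneg (by positivity) (Mvt_log M)) (by positivity)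
  have h3 : 0 ≤ 1 / T := by positivity
  have h4 : 4 / T * 2 = 8 * (1 / T) := by ring
  have h5 : 4 * (M : ℝ) * (1 + Real.log M) / T ^ 2 * (4 / 3) =
      16 / 3 * (M * (1 + Real.log M) / T ^ 2) := by ring
  rw [h4, h5]
  linarith

end Pool.Agent.H88.PSI
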