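import Pool.Agent.H88.PSI.Kap
import Pool.Agent.H88.PSI.Mvt
import Pool.Agent.H76.EHB.Planch

/-!
# PSI Pars: Plancherel for the logarithmic windows

`Pool.Agent.H76.EHB.planch` (`Pool/Agent/H76/EHB/Planch.lean`) with `gw_four`, `gw_L1`; `t ↦ -t`.  The weight `w(t) = |kp hs t/H - kp hl t/H1|^2` is
* `≤ ((1 + 8|t|) H1/X^2)^2` (`kp_sub`, `hd`, `hs^2/H ≤ H/X^2`, `hl^2/H1 ≤ H1/X^2`) for `|t| ≤ T0`, where also `|DP|^2 ≤ N SS`;
* `≤ (2/X)^2` always (`kp_le`);
* `≤ (1/(|t| H))^2` for `t ≠ 0` (`kp_inv`, `H ≤ H1`), used with `tail_int` for `|t| > T`.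
-/

set_option autoImplicit false

namespace Pool.Agent.H88.PSI

open Finset MeasureTheory
open Pool.Agent.H91.PK (ee)

private theorem pars_dp (f : ℕ → ℂ) (N : ℕ) (t : ℝ) : ‖DP f N t‖ ^ 2 ≤ N * SS f N := by
  have h1 := dp_norm_le f N t
  have h2 : (∑ n ∈ Icc 1 N, ‖f n‖) ^ 2 ≤ ((Icc 1 N).card : ℝ) * ∑ n ∈ Icc 1 N, ‖f n‖ ^ 2 :=
    sq_sum_le_card_mul_sum_sq
  rw [Nat.card_Icc, Nat.add_sub_cancel] at h2
  exact (pow_le_pow_left₀ (norm_nonneg _) h1 2).trans h2

private theorem pars_SS (f : ℕ → ℂ) (N : ℕ) : 0 ≤ SS f N :=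
  sum_nonneg fun _ _ => by positivity

/-- the weight near zero -/
private theorem pars_w0 {X H H1 hs hl t : ℝ} (hX : 1 ≤ X) (hH : 1 ≤ H)
    (hH1 : H ≤ H1) (h1 : 0 ≤ hs) (h2 : hs ≤ H / X) (h3 : 0 ≤ hl) (h4 : hl ≤ H1 / X)
    (hd : |hs / H - hl / H1| ≤ H1 / X ^ 2) :
    ‖kp hs t / (H : ℂ) - kp hl t / (H1 : ℂ)‖ ≤ (1 + 8 * |t|) * (H1 / X ^ 2) := by
  have pH : 0 < H := by linarith
  have pH1 : 0 < H1 := by linarith
  have pX : 0 < X := by linarith
  have e1 : kp hs t / (H : ℂ) - kp hl t / (H1 : ℂ) =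
      (kp hs t - hs) / (H : ℂ) - (kp hl t - hl) / (H1 : ℂ) + ((hs / H - hl / H1 : ℝ) : ℂ) := by
    push_cast
    ring
  have n1 : ‖(kp hs t - hs) / (H : ℂ)‖ ≤ 4 * |t| * (H / X ^ 2) := by
    rw [norm_div, Complex.norm_real, Real.norm_eq_abs, abs_of_pos pH, div_le_iff₀ pH]
    refine (kp_sub hs t h1).trans ?_
    have e2 : hs ^ 2 ≤ (H / X) ^ 2 := pow_le_pow_left₀ h1 h2 2
    have e3 : 4 * |t| * (H / X ^ 2) * H = 4 * |t| * (H / X) ^ 2 := by
      field_simp
    rw [e3]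
    exact mul_le_mul_of_nonneg_left e2 (by positivity)
  have n2 : ‖(kp hl t - hl) / (H1 : ℂ)‖ ≤ 4 * |t| * (H1 / X ^ 2) := by
    rw [norm_div, Complex.norm_real, Real.norm_eq_abs, abs_of_pos pH1, div_le_iff₀ pH1]
    refine (kp_sub hl t h3).trans ?_
    have e2 : hl ^ 2 ≤ (H1 / X) ^ 2 := pow_le_pow_left₀ h3 h4 2
    have e3 : 4 * |t| * (H1 / X ^ 2) * H1 = 4 * |t| * (H1 / X) ^ 2 := by
      field_simp
    rw [e3]
    exact mul_le_mul_of_nonneg_left e2 (by positivity)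
  have n3 : ‖((hs / H - hl / H1 : ℝ) : ℂ)‖ ≤ H1 / X ^ 2 := by
    rw [Complex.norm_real, Real.norm_eq_abs]
    exact hd
  have n4 : 4 * |t| * (H / X ^ 2) ≤ 4 * |t| * (H1 / X ^ 2) := by
    refine mul_le_mul_of_nonneg_left ?_ (by positivity)
    exact div_le_div_of_nonneg_right hH1 (by positivity)
  rw [e1]
  refine (norm_add_le _ _).trans ?_
  have n5 := norm_sub_le ((kp hs t - hs) / (H : ℂ)) ((kp hl t - hl) / (H1 : ℂ))
  nlinarith

/-- the weight everywhere -/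
private theorem pars_w1 {X H H1 hs hl t : ℝ} (hX : 1 ≤ X) (hH : 1 ≤ H)
    (hH1 : H ≤ H1) (h1 : 0 ≤ hs) (h2 : hs ≤ H / X) (h3 : 0 ≤ hl) (h4 : hl ≤ H1 / X) :
    ‖kp hs t / (H : ℂ) - kp hl t / (H1 : ℂ)‖ ≤ 2 / X := by
  have pH : 0 < H := by linarith
  have pH1 : 0 < H1 := by linarith
  have pX : 0 < X := by linarith
  have n1 : ‖kp hs t / (H : ℂ)‖ ≤ 1 / X := by
    rw [norm_div, Complex.norm_real, Real.norm_eq_abs, abs_of_pos pH, div_le_iff₀ pH]
    refine (kp_le hs t h1).trans (h2.trans (le_of_eq ?_))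
    ring
  have n2 : ‖kp hl t / (H1 : ℂ)‖ ≤ 1 / X := by
    rw [norm_div, Complex.norm_real, Real.norm_eq_abs, abs_of_pos pH1, div_le_iff₀ pH1]
    refine (kp_le hl t h3).trans (h4.trans (le_of_eq ?_))
    ring
  refine (norm_sub_le _ _).trans ?_
  have e : 2 / X = 1 / X + 1 / X := by ring
  rw [e]
  exact add_le_add n1 n2

/-- the weight far from zero -/
private theorem pars_w2 {H H1 hs hl t : ℝ} (hH : 1 ≤ H) (hH1 : H ≤ H1) (ht : t ≠ 0) :
    ‖kp hs t / (H : ℂ) - kp hl t / (H1 : ℂ)‖ ≤ 1 / (|t| * H) := by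
  have pH : 0 < H := by linarith
  have pH1 : 0 < H1 := by linarith
  have pt : 0 < |t| := abs_pos.2 ht
  have n1 : ‖kp hs t / (H : ℂ)‖ ≤ 1 / (2 * |t| * H) := by
    rw [norm_div, Complex.norm_real, Real.norm_eq_abs, abs_of_pos pH, div_le_iff₀ pH]
    refine (kp_inv hs t ht).trans (le_of_eq ?_)
    field_simp
  have n2 : ‖kp hl t / (H1 : ℂ)‖ ≤ 1 / (2 * |t| * H) := by
    rw [norm_div, Complex.norm_real, Real.norm_eq_abs, abs_of_pos pH1]
    have e1 := kp_inv hl t ht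
    refine (div_le_div_of_nonneg_right e1 pH1.le).trans ?_
    rw [div_div]
    refine one_div_le_one_div_of_le (by positivity) ?_
    exact mul_le_mul_of_nonneg_left hH1 (by positivity)
  refine (norm_sub_le _ _).trans ?_
  have e : 1 / (|t| * H) = 1 / (2 * |t| * H) + 1 / (2 * |t| * H) := by
    field_simp
    norm_num
  rw [e]
  exact add_le_add n1 n2

theorem pars (f : ℕ → ℂ) (N : ℕ) (X H H1 hs hl T0 T : ℝ) (hN : 1 ≤ N) (hX : 1 ≤ X) (hH : 1 ≤ H)
    (hH1 : H ≤ H1) (hH2 : H1 ≤ X) (h1 : 0 ≤ hs) (h2 : hs ≤ H / X) (h3 : 0 ≤ hl) (h4 : hl ≤ H1 / X)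
    (hd : |hs / H - hl / H1| ≤ H1 / X ^ 2) (hT0 : 1 ≤ T0) (hT : T0 ≤ T) :
    ∫ u, ‖Gw f N hs hl H H1 u‖ ^ 2
      ≤ 1000 * (T0 ^ 3 * H1 ^ 2 * N / X ^ 4
          + 1 / H ^ 2 * (1 / T + N * (1 + Real.log N) / T ^ 2)) * SS f N
        + 4 / X ^ 2 * ∫ t in {t : ℝ | T0 ≤ |t| ∧ |t| ≤ T}, ‖DP f N t‖ ^ 2 := by
  have _ := hH2
  have pX : 0 < X := by linarith
  have pH : 0 < H := by linarith
  have pH1 : 0 < H1 := by linarith
  have pT : 1 ≤ T := by linarith
  obtain ⟨i1, i2⟩ := gw_L1 f N hs hl H H1 h1 h3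
  obtain ⟨p1, p2⟩ := Pool.Agent.H76.EHB.planch (Gw f N hs hl H H1) i1 i2
  set Φ : ℝ → ℝ := fun t => ‖DP f N t * (kp hs (-t) / (H : ℂ) - kp hl (-t) / (H1 : ℂ))‖ ^ 2
    with hΦ
  have e1 : (fun ξ : ℝ => ‖∫ u, Gw f N hs hl H H1 u * ee (-(u * ξ))‖ ^ 2) =
      fun ξ => Φ (-ξ) := by
    funext ξ
    rw [gw_four f N hs hl H H1 ξ h1 h3, hΦ]
    simp only [neg_neg]
  rw [e1] at p1
  have e1' : ∫ ξ : ℝ, ‖∫ u, Gw f N hs hl H H1 u * ee (-(u * ξ))‖ ^ 2 = ∫ ξ, Φ (-ξ) := by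
    rw [e1]
  rw [e1', integral_neg_eq_self Φ volume] at p2
  have p3 : Integrable Φ := by
    have := p1.comp_neg
    simpa using this
  rw [← p2]
  -- the three sets
  set A : Set ℝ := {t | |t| < T0} with hA
  set B : Set ℝ := {t | T0 ≤ |t| ∧ |t| ≤ T} with hB
  set C : Set ℝ := {t | T < |t|} with hC
  have mA : MeasurableSet A := measurableSet_lt continuous_abs.measurable measurable_const
  have mC : MeasurableSet C := measurableSet_lt measurable_const continuous_abs.measurable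
  have mB : MeasurableSet B :=
    (measurableSet_le measurable_const continuous_abs.measurable).inter
      (measurableSet_le continuous_abs.measurable measurable_const)
  have hU : A ∪ (B ∪ C) = Set.univ := by
    ext t
    simp only [hA, hB, hC, Set.mem_union, Set.mem_ofPred_eq, Set.mem_univ, iff_true]
    rcases lt_or_ge |t| T0 with h | h
    · exact Or.inl h
    · rcases le_or_gt |t| T with h' | h'
      · exact Or.inr (Or.inl ⟨h, h'⟩)
      · exact Or.inr (Or.inr h')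
  have dBC : Disjoint B C := by
    rw [Set.disjoint_left]
    intro t ht ht'
    exact absurd ht.2 (not_le.2 ht')
  have dA : Disjoint A (B ∪ C) := by
    rw [Set.disjoint_left]
    rintro t ht (ht' | ht')
    · exact absurd ht'.1 (not_le.2 ht)
    · have a1 : |t| < T0 := ht
      have a2 : T < |t| := ht'
      linarith
  have hsplit : ∫ t, Φ t = (∫ t in A, Φ t) + ((∫ t in B, Φ t) + ∫ t in C, Φ t) := by
    rw [← setIntegral_univ, ← hU, setIntegral_union dA (mB.union mC) p3.integrableOn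
      p3.integrableOn, setIntegral_union dBC mC p3.integrableOn p3.integrableOn]
  rw [hsplit]
  have hS := pars_SS f N
  have hNN : (0 : ℝ) ≤ N := Nat.cast_nonneg N
  have hlog : 0 ≤ Real.log N := Real.log_natCast_nonneg N
  -- near zero
  have bA : ∫ t in A, Φ t ≤ 1000 * (T0 ^ 3 * H1 ^ 2 * N / X ^ 4) * SS f N := by
    have hsub : A ⊆ Set.Icc (-T0) T0 := by
      intro t ht
      have a1 : |t| < T0 := ht
      exact abs_le.1 a1.le
    have hvol : volume (Set.Icc (-T0) T0) = ENNReal.ofReal (2 * T0) := by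
      rw [Real.volume_Icc]
      congr 1
      ring
    have hfin : volume A ≤ ENNReal.ofReal (2 * T0) := hvol ▸ measure_mono hsub
    have hc : ∀ t ∈ A, Φ t ≤ N * SS f N * ((9 * T0) * (H1 / X ^ 2)) ^ 2 := by
      intro t ht
      have a1 : |t| < T0 := ht
      have a2 := pars_w0 (t := -t) hX hH hH1 h1 h2 h3 h4 hd
      rw [abs_neg] at a2
      have a3 : (1 + 8 * |t|) * (H1 / X ^ 2) ≤ (9 * T0) * (H1 / X ^ 2) := by
        refine mul_le_mul_of_nonneg_right ?_ (by positivity)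
        linarith
      rw [hΦ]
      simp only [norm_mul, mul_pow (‖DP f N t‖)]
      refine mul_le_mul (pars_dp f N t) (pow_le_pow_left₀ (norm_nonneg _) (a2.trans a3) 2)
        (by positivity) (by positivity)
    have hlt : volume A < ⊤ := lt_of_le_of_lt hfin ENNReal.ofReal_lt_top
    refine (setIntegral_mono_on p3.integrableOn (integrableOn_const hlt.ne) mA hc).trans ?_
    rw [setIntegral_const, smul_eq_mul]
    have hreal : volume.real A ≤ 2 * T0 := by
      unfold Measure.real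
      refine ENNReal.toReal_le_of_le_ofReal (by positivity) hfin
    refine (mul_le_mul_of_nonneg_right hreal (by positivity)).trans ?_
    have e2 : 2 * T0 * (N * SS f N * ((9 * T0) * (H1 / X ^ 2)) ^ 2) =
        162 * ((T0 ^ 3 * H1 ^ 2 * N / X ^ 4) * SS f N) := by
      field_simp
      ring
    rw [e2, mul_assoc (1000 : ℝ)]
    refine mul_le_mul_of_nonneg_right (by norm_num) (by positivity)
  -- the middle part
  have hcont : Continuous fun t => ‖DP f N t‖ ^ 2 := (dp_cont f N).norm.pow 2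
  have iB : IntegrableOn (fun t => ‖DP f N t‖ ^ 2) B := by
    refine (hcont.continuousOn.integrableOn_compact (isCompact_Icc (a := -T) (b := T))).mono_set ?_
    intro t ht
    exact abs_le.1 ht.2
  have bB : ∫ t in B, Φ t ≤ 4 / X ^ 2 * ∫ t in B, ‖DP f N t‖ ^ 2 := by
    rw [← integral_const_mul]
    refine setIntegral_mono_on p3.integrableOn (iB.const_mul _) mB fun t _ => ?_
    have a2 := pars_w1 (t := -t) hX hH hH1 h1 h2 h3 h4
    rw [hΦ]
    simp only [norm_mul, mul_pow (‖DP f N t‖)]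
    rw [mul_comm]
    refine mul_le_mul_of_nonneg_right ?_ (by positivity)
    refine (pow_le_pow_left₀ (norm_nonneg _) a2 2).trans (le_of_eq ?_)
    ring
  -- the tail
  obtain ⟨iC, bC0⟩ := tail_int f N T hN pT
  have bC : ∫ t in C, Φ t ≤ 1000 * (1 / H ^ 2 * (1 / T + N * (1 + Real.log N) / T ^ 2)) *
      SS f N := by
    have hc : ∀ t ∈ C, Φ t ≤ 1 / H ^ 2 * (‖DP f N t‖ ^ 2 / t ^ 2) := by
      intro t ht
      have a1 : T < |t| := ht
      have a0 : t ≠ 0 := by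
        rintro rfl
        rw [abs_zero] at a1
        linarith
      have a2 := pars_w2 (t := -t) (hs := hs) (hl := hl) hH hH1 (neg_ne_zero.2 a0)
      rw [abs_neg] at a2
      rw [hΦ]
      simp only [norm_mul, mul_pow (‖DP f N t‖)]
      have a3 : (1 / (|t| * H)) ^ 2 = 1 / H ^ 2 * (1 / t ^ 2) := by
        rw [div_pow, mul_pow, sq_abs]
        field_simp
      have a4 := pow_le_pow_left₀ (norm_nonneg _) a2 2
      rw [a3] at a4
      refine (mul_le_mul_of_nonneg_left a4 (by positivity)).trans (le_of_eq ?_)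
      ring
    refine (setIntegral_mono_on p3.integrableOn (iC.const_mul _) mC hc).trans ?_
    rw [integral_const_mul]
    refine (mul_le_mul_of_nonneg_left bC0 (by positivity)).trans ?_
    have e2 : 1 / H ^ 2 * (100 * (1 / T + N * (1 + Real.log N) / T ^ 2) * SS f N) =
        100 * ((1 / H ^ 2 * (1 / T + N * (1 + Real.log N) / T ^ 2)) * SS f N) := by ring
    rw [e2, mul_assoc (1000 : ℝ)]
    refine mul_le_mul_of_nonneg_right (by norm_num) (by positivity)
  have e3 : 1000 * (T0 ^ 3 * H1 ^ 2 * N / X ^ 4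
          + 1 / H ^ 2 * (1 / T + N * (1 + Real.log N) / T ^ 2)) * SS f N =
      1000 * (T0 ^ 3 * H1 ^ 2 * N / X ^ 4) * SS f N +
        1000 * (1 / H ^ 2 * (1 / T + N * (1 + Real.log N) / T ^ 2)) * SS f N := by ring
  rw [e3]
  linarith

end Pool.Agent.H88.PSI
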