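import Pool.Agent.H88.PSI.Defs
import Pool.Agent.H87T.VdcTwo

/-!
# PSI Ker: the kernel `∑_{n ≤ M} n^{2 π i u}`

`|∑_{n ≤ M} ee(u log n)| ≤ C log X (M/(1+|u|) + √|u|)` for `M ≤ X`, `X ≥ 3`.
`|u| ≤ 1`: trivial.  `|u| ≥ 1` (conjugation: `u ≥ 1` or `u ≤ -1` as convenient): split `[1, M]` into `≤ 2 log X + 1` dyadic pieces
`(N, min(2N, M)]`, `N = 2^i`.  If `|u| ≥ N/10`: second derivative test `Pool.Agent.H87T.vdc_two`
(`Pool/Agent/H87T/VdcTwo.lean`) for `φ(n) = -2π|u| log(N + 1 + n)` (second differences between `c |u|/N^2` and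
`C |u|/N^2`; if `2π|u| ≥ N^2` the trivial bound `N ≤ √(2π|u|)` is enough): `≤ C √|u|`.  If `|u| < N/10`: Kuz'min-Landau
`Pool.Agent.H87T.kusmin` with `θ = c|u|/N`: `≤ C N/|u|`.
-/

set_option autoImplicit false

namespace Pool.Agent.H88.PSI

open Finset
open Pool.Agent.H91.PK (ee)

private theorem Ker_ee (t : ℝ) : ee t = Pool.Agent.H87T.ei (2 * Real.pi * t) := by
  unfold Pool.Agent.H91.PK.ee Pool.Agent.H87T.ei
  congr 1
  push_cast
  ring

private theorem Ker_norm (t : ℝ) : ‖ee t‖ = 1 := by
  rw [Ker_ee]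
  unfold Pool.Agent.H87T.ei
  exact Complex.norm_exp_ofReal_mul_I _

private theorem Ker_conj (t : ℝ) : (starRingEnd ℂ) (ee t) = ee (-t) := by
  unfold Pool.Agent.H91.PK.ee
  rw [← Complex.exp_conj]
  congr 1
  simp only [map_mul, Complex.conj_ofReal, Complex.conj_I, map_ofNat]
  push_cast
  ring

private theorem Ker_log1 {a : ℝ} (ha : 0 < a) :
    1 / (a + 1) ≤ Real.log (a + 1) - Real.log a ∧ Real.log (a + 1) - Real.log a ≤ 1 / a := by
  rw [← Real.log_div (by linarith) ha.ne']
  have hx : 0 < (a + 1) / a := by positivity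
  constructor
  · have h := Real.one_sub_inv_le_log_of_pos hx
    have e : 1 - ((a + 1) / a)⁻¹ = 1 / (a + 1) := by
      field_simp
      ring
    rwa [e] at h
  · have h := Real.log_le_sub_one_of_pos hx
    have e : (a + 1) / a - 1 = 1 / a := by
      field_simp
      ring
    rwa [e] at h

private theorem Ker_log2 {a : ℝ} (ha : 0 < a) :
    1 / (a + 1) ^ 2 ≤ 2 * Real.log (a + 1) - Real.log a - Real.log (a + 2) ∧
      2 * Real.log (a + 1) - Real.log a - Real.log (a + 2) ≤ 1 / (a * (a + 2)) := by
  have e0 : 2 * Real.log (a + 1) - Real.log a - Real.log (a + 2) =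
      Real.log ((a + 1) ^ 2 / (a * (a + 2))) := by
    rw [Real.log_div (by positivity) (by positivity), Real.log_pow,
      Real.log_mul ha.ne' (by positivity)]
    push_cast
    ring
  rw [e0]
  have hx : 0 < (a + 1) ^ 2 / (a * (a + 2)) := by positivity
  constructor
  · have h := Real.one_sub_inv_le_log_of_pos hx
    have e : 1 - ((a + 1) ^ 2 / (a * (a + 2)))⁻¹ = 1 / (a + 1) ^ 2 := by
      field_simp
      ring
    rwa [e] at h
  · have h := Real.log_le_sub_one_of_pos hx
    have e : (a + 1) ^ 2 / (a * (a + 2)) - 1 = 1 / (a * (a + 2)) := by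
      field_simp
      ring
    rwa [e] at h

/-- one block -/
private theorem Ker_block (N I : ℕ) (v : ℝ) (hN : 1 ≤ N) (hI : I ≤ 2 * N) (hv : 1 ≤ v) :
    ‖∑ j ∈ range I, ee (-(v * Real.log ((N + 1 + j : ℕ) : ℝ)))‖ ≤
      4000 * (N / (1 + v) + Real.sqrt v) := by
  have hpi := Real.pi_pos
  have hpi3 := Real.pi_gt_three
  have hpi4 := Real.pi_lt_four
  have hv0 : 0 < v := by linarith
  have hNR : (1 : ℝ) ≤ N := by exact_mod_cast hN
  have hsv : 1 ≤ Real.sqrt v := Real.one_le_sqrt.mpr hv
  have hsvv : Real.sqrt v * Real.sqrt v = v := Real.mul_self_sqrt hv0.le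
  set φ : ℕ → ℝ := fun j => 2 * Real.pi * (-(v * Real.log ((N + 1 + j : ℕ) : ℝ))) with hφ
  have hsum : ∑ j ∈ range I, ee (-(v * Real.log ((N + 1 + j : ℕ) : ℝ))) =
      ∑ j ∈ range I, Pool.Agent.H87T.ei (φ j) := Finset.sum_congr rfl fun j _ => Ker_ee _
  rw [hsum]
  have hcast : ∀ j : ℕ, ((N + 1 + j : ℕ) : ℝ) = (N : ℝ) + 1 + j := fun j => by push_cast; ring
  -- first differences
  have hd1 : ∀ n : ℕ, φ (n + 1) - φ n =
      -(2 * Real.pi * v * (Real.log ((N : ℝ) + 1 + n + 1) - Real.log ((N : ℝ) + 1 + n))) := by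
    intro n
    simp only [hφ, hcast]
    push_cast
    rw [show (N : ℝ) + 1 + ((n : ℝ) + 1) = (N : ℝ) + 1 + n + 1 by ring]
    ring
  have hd2 : ∀ n : ℕ, (φ (n + 2) - φ (n + 1)) - (φ (n + 1) - φ n) =
      2 * Real.pi * v * (2 * Real.log ((N : ℝ) + 1 + n + 1) - Real.log ((N : ℝ) + 1 + n) -
        Real.log ((N : ℝ) + 1 + n + 2)) := by
    intro n
    have h1 := hd1 n
    have h2 := hd1 (n + 1)
    rw [show n + 1 + 1 = n + 2 from rfl] at h2
    rw [h1, h2]
    push_cast
    rw [show (N : ℝ) + 1 + ((n : ℝ) + 1) + 1 = (N : ℝ) + 1 + n + 2 by ring,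
      show (N : ℝ) + 1 + ((n : ℝ) + 1) = (N : ℝ) + 1 + n + 1 by ring]
    ring
  have hapos : ∀ n : ℕ, (0 : ℝ) < (N : ℝ) + 1 + n := fun n => by positivity
  have hIR : (I : ℝ) ≤ 2 * N := by exact_mod_cast hI
  have htriv : ‖∑ j ∈ range I, Pool.Agent.H87T.ei (φ j)‖ ≤ 2 * N := by
    refine (norm_sum_le _ _).trans ?_
    have : ∀ j ∈ range I, ‖Pool.Agent.H87T.ei (φ j)‖ = 1 := fun j _ => by
      unfold Pool.Agent.H87T.ei
      exact Complex.norm_exp_ofReal_mul_I _
    rw [Finset.sum_congr rfl this, Finset.sum_const, Finset.card_range, nsmul_eq_mul, mul_one]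
    exact hIR
  have hq : 0 ≤ (N : ℝ) / (1 + v) := by positivity
  rcases lt_or_ge (10 * v) N with hcase | hcase
  · -- Kusmin - Landau
    have hk := Pool.Agent.H87T.kusmin φ I (-1) (2 * Real.pi * v / (3 * N)) (by positivity)
      (by
        rw [div_le_iff₀ (by positivity)]
        nlinarith)
      (by
        intro n hn
        have hn' : (n : ℝ) + 1 + 1 ≤ I := by exact_mod_cast hn
        obtain ⟨g1, g2⟩ := Ker_log1 (hapos n)
        have hn0 : (0 : ℝ) ≤ n := Nat.cast_nonneg n
        rw [hd1]
        have u1 : Real.log ((N : ℝ) + 1 + n + 1) - Real.log ((N : ℝ) + 1 + n) ≤ 1 / N := by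
          refine g2.trans ?_
          exact one_div_le_one_div_of_le (by linarith) (by linarith)
        have u2 : 1 / (3 * (N : ℝ)) ≤
            Real.log ((N : ℝ) + 1 + n + 1) - Real.log ((N : ℝ) + 1 + n) := by
          refine le_trans ?_ g1
          exact one_div_le_one_div_of_le (by linarith) (by linarith)
        have hpv : 0 < 2 * Real.pi * v := by positivity
        have w1 := mul_le_mul_of_nonneg_left u1 hpv.le
        have w2 := mul_le_mul_of_nonneg_left u2 hpv.le
        have e1 : 2 * Real.pi * v * (1 / (3 * (N : ℝ))) = 2 * Real.pi * v / (3 * N) := by ring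
        rw [e1] at w2
        constructor
        · push_cast
          have e2 : 2 * Real.pi * v * (1 / (N : ℝ)) + 2 * Real.pi * v / (3 * N) ≤
              2 * Real.pi := by
            have e3 : 2 * Real.pi * v * (1 / (N : ℝ)) + 2 * Real.pi * v / (3 * N) =
                2 * Real.pi * ((4 / 3) * v / N) := by
              field_simp
              ring
            rw [e3]
            have e4 : (4 / 3) * v / N ≤ 1 := by
              rw [div_le_one (by linarith)]
              linarith
            nlinarith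
          linarith
        · push_cast
          linarith)
      (by
        intro n hn
        have h1 := hd2 n
        have h2 := (Ker_log2 (hapos n)).1
        have h3 : (0 : ℝ) ≤ 1 / ((N : ℝ) + 1 + n + 1) ^ 2 := by positivity
        have h4 : 0 ≤ 2 * Real.pi * v * (2 * Real.log ((N : ℝ) + 1 + n + 1) -
            Real.log ((N : ℝ) + 1 + n) - Real.log ((N : ℝ) + 1 + n + 2)) :=
          mul_nonneg (by positivity) (h3.trans h2)
        linarith)
    refine hk.trans ?_
    have e1 : 9 / (2 * Real.pi * v / (3 * (N : ℝ))) = (27 / (2 * Real.pi)) * (N / v) := by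
      field_simp
      ring
    rw [e1]
    have e2 : (N : ℝ) / v ≤ 2 * (N / (1 + v)) := by
      rw [div_le_iff₀ hv0, mul_comm 2, mul_assoc, div_mul_eq_mul_div, le_div_iff₀ (by linarith)]
      nlinarith
    have e3 : 27 / (2 * Real.pi) ≤ 9 := by
      rw [div_le_iff₀ (by positivity)]
      nlinarith
    have e4 : (0 : ℝ) ≤ N / v := by positivity
    have e5 : (27 / (2 * Real.pi)) * ((N : ℝ) / v) ≤ 9 * (2 * (N / (1 + v))) :=
      mul_le_mul e3 e2 e4 (by norm_num)
    have : 0 ≤ Real.sqrt v := by linarith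
    nlinarith
  · rcases lt_or_ge (9 * (N : ℝ) ^ 2) (2 * Real.pi * v) with hc2 | hc2
    · -- trivial bound
      have h1 : (N : ℝ) ≤ Real.sqrt v := by
        apply Real.le_sqrt_of_sq_le
        nlinarith
      nlinarith
    · -- second derivative test
      have hN2 : (0 : ℝ) < 9 * (N : ℝ) ^ 2 := by positivity
      set lam : ℝ := 2 * Real.pi * v / (9 * N ^ 2) with hlam
      have hlam0 : 0 < lam := by positivity
      have hv2 := Pool.Agent.H87T.vdc_two φ I lam 9 hlam0
        (by rw [hlam, div_le_one hN2]; exact hc2) (by norm_num)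
        (by
          intro n hn
          have hn' : (n : ℝ) + 2 + 1 ≤ I := by exact_mod_cast hn
          have hn0 : (0 : ℝ) ≤ n := Nat.cast_nonneg n
          have e0 : Pool.Agent.H87T.dif 2 φ n = (φ (n + 2) - φ (n + 1)) - (φ (n + 1) - φ n) := rfl
          rw [e0, hd2]
          obtain ⟨g1, g2⟩ := Ker_log2 (hapos n)
          have u1 : 1 / (9 * (N : ℝ) ^ 2) ≤ 2 * Real.log ((N : ℝ) + 1 + n + 1) -
              Real.log ((N : ℝ) + 1 + n) - Real.log ((N : ℝ) + 1 + n + 2) := by
            refine le_trans ?_ g1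
            apply one_div_le_one_div_of_le (by positivity)
            have : (N : ℝ) + 1 + n + 1 ≤ 3 * N := by linarith
            calc ((N : ℝ) + 1 + n + 1) ^ 2 ≤ (3 * N) ^ 2 :=
                  pow_le_pow_left₀ (by positivity) this 2
              _ = 9 * (N : ℝ) ^ 2 := by ring
          have u2 : 2 * Real.log ((N : ℝ) + 1 + n + 1) -
              Real.log ((N : ℝ) + 1 + n) - Real.log ((N : ℝ) + 1 + n + 2) ≤ 1 / (N : ℝ) ^ 2 := by
            refine g2.trans ?_
            apply one_div_le_one_div_of_le (by positivity)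
            nlinarith
          have hpv : 0 < 2 * Real.pi * v := by positivity
          have w1 := mul_le_mul_of_nonneg_left u1 hpv.le
          have w2 := mul_le_mul_of_nonneg_left u2 hpv.le
          constructor
          · rw [hlam]
            refine le_trans (le_of_eq ?_) w1
            ring
          · refine w2.trans (le_of_eq ?_)
            rw [hlam]
            field_simp)
      refine hv2.trans ?_
      -- `√lam = √(2 π v)/(3 N)`
      have hs : Real.sqrt lam = Real.sqrt (2 * Real.pi) * Real.sqrt v / (3 * N) := by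
        rw [hlam, Real.sqrt_div (by positivity), Real.sqrt_mul (by positivity)]
        congr 1
        rw [show (9 : ℝ) * (N : ℝ) ^ 2 = (3 * N) ^ 2 by ring]
        exact Real.sqrt_sq (by positivity)
      have hs2 : Real.sqrt (2 * Real.pi) ≤ 3 := by
        rw [Real.sqrt_le_left (by norm_num)]
        linarith
      have hs1 : 2 ≤ Real.sqrt (2 * Real.pi) := by
        apply Real.le_sqrt_of_sq_le
        linarith
      have hs0 : 0 < Real.sqrt (2 * Real.pi) := by linarith
      have hsv0 : 0 < Real.sqrt v := by linarith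
      have k1 : 9 * (I : ℝ) * Real.sqrt lam ≤ 18 * Real.sqrt v := by
        rw [hs]
        calc 9 * (I : ℝ) * (Real.sqrt (2 * Real.pi) * Real.sqrt v / (3 * N)) ≤
            9 * (2 * N) * (3 * Real.sqrt v / (3 * N)) := by
              apply mul_le_mul _ _ (by positivity) (by positivity)
              · linarith
              · apply div_le_div_of_nonneg_right _ (by positivity)
                exact mul_le_mul_of_nonneg_right hs2 hsv0.le
          _ = 18 * Real.sqrt v := by
              field_simp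
              ring
      have k2 : 1 / Real.sqrt lam ≤ 15 * Real.sqrt v := by
        rw [hs, one_div_div, div_le_iff₀ (by positivity)]
        have : 3 * (N : ℝ) ≤ 30 * v := by linarith
        calc 3 * (N : ℝ) ≤ 30 * v := this
          _ = 15 * Real.sqrt v * (2 * Real.sqrt v) := by
              rw [show 15 * Real.sqrt v * (2 * Real.sqrt v) =
                30 * (Real.sqrt v * Real.sqrt v) by ring, hsvv]
          _ ≤ 15 * Real.sqrt v * (Real.sqrt (2 * Real.pi) * Real.sqrt v) := by
              apply mul_le_mul_of_nonneg_left _ (by positivity)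
              exact mul_le_mul_of_nonneg_right hs1 hsv0.le
      have k4 : (100 : ℝ) * (9 * I * Real.sqrt lam + 1 / Real.sqrt lam) ≤
          100 * (18 * Real.sqrt v + 15 * Real.sqrt v) := by linarith
      linarith

/-- the dyadic induction -/
private theorem Ker_ind (v : ℝ) (hv : 1 ≤ v) (M : ℕ) (hM : 1 ≤ M) :
    ‖∑ n ∈ Icc 1 M, ee (-(v * Real.log n))‖ ≤
      4000 * M / (1 + v) + 4000 * (Nat.log 2 M) * Real.sqrt v + 1 := by
  induction M using Nat.strong_induction_on with
  | _ M ih =>
    have hsv : 1 ≤ Real.sqrt v := Real.one_le_sqrt.mpr hv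
    rcases Nat.lt_or_ge M 2 with h | h
    · have h1 : M = 1 := by omega
      subst h1
      rw [Finset.Icc_self, Finset.sum_singleton, Ker_norm]
      have : 0 ≤ 4000 * ((1 : ℕ) : ℝ) / (1 + v) := by positivity
      have h2 : 0 ≤ 4000 * ((Nat.log 2 1 : ℕ) : ℝ) * Real.sqrt v := by positivity
      linarith
    · obtain ⟨K, hK⟩ : ∃ K, K = M / 2 := ⟨_, rfl⟩
      have hK1 : 1 ≤ K := by omega
      have ih' := ih K (by omega) hK1
      have hb := Ker_block K (M - K) v hK1 (by omega) hv
      have hsplit : ∑ n ∈ Icc 1 M, ee (-(v * Real.log n)) =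
          ∑ n ∈ Icc 1 K, ee (-(v * Real.log n)) +
            ∑ j ∈ range (M - K), ee (-(v * Real.log ((K + 1 + j : ℕ) : ℝ))) := by
        have h1 : Icc 1 M = Ico 1 (M + 1) := by ext n; simp only [mem_Icc, mem_Ico]; omega
        have h2 : Icc 1 K = Ico 1 (K + 1) := by ext n; simp only [mem_Icc, mem_Ico]; omega
        rw [h1, h2, ← Finset.sum_Ico_consecutive _ (show 1 ≤ K + 1 by omega)
          (show K + 1 ≤ M + 1 by omega)]
        congr 1
        rw [Finset.sum_Ico_eq_sum_range]
        have h3 : M + 1 - (K + 1) = M - K := by omega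
        rw [h3]
      rw [hsplit]
      refine (norm_add_le _ _).trans ((add_le_add ih' hb).trans ?_)
      have hlog : Nat.log 2 M = Nat.log 2 K + 1 := by
        rw [hK, Nat.log_div_base]
        have : 1 ≤ Nat.log 2 M := Nat.log_pos (by norm_num) h
        omega
      have hKM : 2 * (K : ℝ) ≤ M := by
        have : 2 * K ≤ M := by omega
        exact_mod_cast this
      rw [hlog]
      push_cast
      have h5 : 4000 * (K : ℝ) / (1 + v) + 4000 * (K / (1 + v)) ≤ 4000 * M / (1 + v) := by
        have : 4000 * (K : ℝ) / (1 + v) + 4000 * (K / (1 + v)) = 4000 * (2 * K) / (1 + v) := by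
          ring
        rw [this]
        exact div_le_div_of_nonneg_right (by linarith) (by linarith)
      linarith

theorem ker : ∃ C : ℝ, 1 ≤ C ∧ ∀ (X M : ℕ) (u : ℝ), 3 ≤ X → M ≤ X →
    ‖∑ n ∈ Icc 1 M, ee (u * Real.log n)‖
      ≤ C * Real.log X * (M / (1 + |u|) + Real.sqrt |u|) := by
  refine ⟨10000, by norm_num, fun X M u hX hMX => ?_⟩
  have hXR : (3 : ℝ) ≤ X := by exact_mod_cast hX
  have hlogX : 1 ≤ Real.log X := by
    rw [Real.le_log_iff_exp_le (by linarith)]
    exact (Real.exp_one_lt_d9.le.trans (by norm_num)).trans hXR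
  have hM0 : (0 : ℝ) ≤ M := Nat.cast_nonneg M
  have hu0 := abs_nonneg u
  have hsu := Real.sqrt_nonneg |u|
  have hq : 0 ≤ (M : ℝ) / (1 + |u|) := by positivity
  rcases lt_or_ge |u| 1 with hu | hu
  · -- trivial
    have h1 : ‖∑ n ∈ Icc 1 M, ee (u * Real.log n)‖ ≤ M := by
      refine (norm_sum_le _ _).trans ?_
      rw [Finset.sum_congr rfl fun n _ => Ker_norm _, Finset.sum_const, Nat.card_Icc,
        nsmul_eq_mul, mul_one]
      simp
    have h2 : (M : ℝ) ≤ 2 * (M / (1 + |u|)) := by
      rw [mul_div_assoc', le_div_iff₀ (by linarith)]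
      nlinarith
    calc ‖∑ n ∈ Icc 1 M, ee (u * Real.log n)‖ ≤ M := h1
      _ ≤ 2 * (M / (1 + |u|)) := h2
      _ ≤ 10000 * Real.log X * (M / (1 + |u|)) := by
          apply mul_le_mul_of_nonneg_right _ hq
          linarith
      _ ≤ 10000 * Real.log X * (M / (1 + |u|) + Real.sqrt |u|) := by
          apply mul_le_mul_of_nonneg_left _ (by positivity)
          linarith
  · rcases Nat.eq_zero_or_pos M with h0 | hM1
    · subst h0
      simp only [Finset.Icc_eq_empty_of_lt (show 0 < 1 by norm_num), Finset.sum_empty, norm_zero]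
      positivity
    -- reduction to `-|u|`
    have hred : ‖∑ n ∈ Icc 1 M, ee (u * Real.log n)‖ =
        ‖∑ n ∈ Icc 1 M, ee (-(|u| * Real.log n))‖ := by
      rcases le_or_gt 0 u with hu1 | hu1
      · rw [abs_of_nonneg hu1, ← RCLike.norm_conj, map_sum]
        congr 1
        exact Finset.sum_congr rfl fun n _ => Ker_conj _
      · rw [abs_of_neg hu1]
        congr 1
        refine Finset.sum_congr rfl fun n _ => ?_
        congr 1
        ring
    rw [hred]
    refine (Ker_ind |u| hu M hM1).trans ?_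
    have hsv : 1 ≤ Real.sqrt |u| := Real.one_le_sqrt.mpr hu
    have hlogM : (Nat.log 2 M : ℝ) ≤ 2 * Real.log X := by
      have h1 : (2 : ℝ) ^ Nat.log 2 M ≤ X := by
        have h2 : 2 ^ Nat.log 2 M ≤ M := Nat.pow_log_le_self 2 (by omega)
        exact_mod_cast h2.trans hMX
      have h3 : (Nat.log 2 M : ℝ) * Real.log 2 ≤ Real.log X := by
        rw [← Real.log_pow]
        exact Real.log_le_log (by positivity) h1
      have h4 : (1 / 2 : ℝ) ≤ Real.log 2 := by
        have := Real.log_two_gt_d9
        linarith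
      have h5 : (0 : ℝ) ≤ Nat.log 2 M := Nat.cast_nonneg _
      nlinarith
    have k1 : 4000 * (M : ℝ) / (1 + |u|) ≤ 10000 * Real.log X * (M / (1 + |u|)) := by
      have : 4000 * (M : ℝ) / (1 + |u|) = 4000 * (M / (1 + |u|)) := by ring
      rw [this]
      apply mul_le_mul_of_nonneg_right _ hq
      linarith
    have k2 : 4000 * (Nat.log 2 M : ℝ) * Real.sqrt |u| ≤
        8000 * Real.log X * Real.sqrt |u| := by
      apply mul_le_mul_of_nonneg_right _ hsu
      linarith
    have k3 : 1 ≤ 2000 * Real.log X * Real.sqrt |u| := by nlinarith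
    have k4 : 10000 * Real.log X * (M / (1 + |u|) + Real.sqrt |u|) =
        10000 * Real.log X * (M / (1 + |u|)) + (8000 * Real.log X * Real.sqrt |u| +
          2000 * Real.log X * Real.sqrt |u|) := by ring
    rw [k4]
    linarith

end Pool.Agent.H88.PSI
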