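import Pool.Agent.H88.PSI.HuxT
import Pool.Agent.H80.LV.Defs
import Pool.Agent.H91.PK.DiA

/-!
# PSI HuxR: the theorem in the form used by the Goldbach part (all classes, real numbers)
-/

set_option autoImplicit false

namespace Pool.Agent.H88.PSI

open Finset
open Pool.Agent.H91.EHA (Lam)

private theorem HuxR_nonneg (n : ℕ) : 0 ≤ Lam n := ArithmeticFunction.vonMangoldt_nonneg

private theorem HuxR_le {n X : ℕ} (hn : n ≤ X) : Lam n ≤ Real.log X := by
  have h1 : Lam n ≤ Real.log n := ArithmeticFunction.vonMangoldt_le_log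
  rcases Nat.eq_zero_or_pos n with h0 | h0
  · rw [h0] at h1 ⊢
    refine h1.trans ?_
    simp only [Nat.cast_zero, Real.log_zero]
    exact Real.log_natCast_nonneg X
  · exact h1.trans (Real.log_le_log (by exact_mod_cast h0) (by exact_mod_cast hn))

/-- prime powers in a class not coprime to the modulus -/
private theorem HuxR_non (d c x H : ℕ) (hd : 1 ≤ d) (hc : ¬ Nat.Coprime c d) (hx : 1 ≤ x) :
    ∑ n ∈ (Ioc x (x + H)).filter (fun n => n % d = c % d), Lam n
      ≤ d * Real.log ((x + H : ℕ) : ℝ) := by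
  have h2 : ∑ n ∈ (Ioc x (x + H)).filter (fun n => n % d = c % d), Lam n ≤
      ∑ n ∈ (Icc 1 (x + H)).filter (fun n => ¬ Nat.Coprime n d), ArithmeticFunction.vonMangoldt n := by
    refine sum_le_sum_of_subset_of_nonneg ?_ (fun _ _ _ => ArithmeticFunction.vonMangoldt_nonneg)
    intro n hn
    rw [mem_filter, mem_Ioc] at hn
    rw [mem_filter, mem_Icc]
    refine ⟨⟨by omega, hn.1.2⟩, fun hc' => hc ?_⟩
    have h3 : Nat.gcd n d = Nat.gcd c d := Nat.ModEq.gcd_eq hn.2
    rw [Nat.Coprime, ← h3]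
    exact hc'
  have h4 := Pool.Agent.H91.PK.DiA_psi_noncoprime (N := x + H) (d := d) (by omega) hd
  have h5 : (d.primeFactors.card : ℝ) ≤ d := by
    have : d.primeFactors.card ≤ (Icc 1 d).card := by
      refine card_le_card fun p hp => ?_
      rw [mem_Icc]
      exact ⟨(Nat.prime_of_mem_primeFactors hp).one_le,
        Nat.le_of_dvd hd (Nat.dvd_of_mem_primeFactors hp)⟩
    rw [Nat.card_Icc, Nat.add_sub_cancel] at this
    exact_mod_cast this
  exact (h2.trans h4).trans (mul_le_mul_of_nonneg_right h5 (Real.log_natCast_nonneg _))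

private theorem HuxR_W (d c x H : ℕ) : W (cl d c La) H x
    = ((∑ n ∈ (Ioc x (x + H)).filter (fun n => n % d = c % d), Lam n : ℝ) : ℂ) := by
  unfold W cl
  rw [← sum_filter]
  push_cast
  rfl

private theorem HuxR_sq (d c x H : ℕ) (m : ℝ) :
    ((∑ n ∈ (Ioc x (x + H)).filter (fun n => n % d = c % d), Lam n) - m) ^ 2
      = ‖W (cl d c La) H x - (m : ℂ)‖ ^ 2 := by
  rw [HuxR_W, ← Complex.ofReal_sub, Complex.norm_real, Real.norm_eq_abs, sq_abs]

theorem hux_r (th : ℝ) (hth : 1 / 6 < th) (A B : ℕ) : ∃ N0 : ℕ, ∀ N : ℕ, N0 ≤ N → ∀ H : ℕ,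
    (N : ℝ) ^ th ≤ H → (H : ℝ) ≤ (N : ℝ) ^ (1 / 3 : ℝ) →
    ∀ d c : ℕ, 1 ≤ d → (d : ℝ) ≤ Real.log N ^ B →
      ∑ x ∈ Ioc N (2 * N), ((∑ n ∈ (Ioc x (x + H)).filter (fun n => n % d = c % d), Lam n)
        - (if Nat.Coprime c d then (H : ℝ) / d.totient else 0)) ^ 2
          ≤ N * (H : ℝ) ^ 2 / Real.log N ^ A := by
  obtain ⟨N1, h1⟩ := hux (th - 1 / 6) (by linarith) (A + 1) B
  obtain ⟨N2, h2⟩ := Pool.Agent.H80.LV.log_ge 2
  obtain ⟨N3, h3⟩ := Pool.Agent.H80.LV.log_pow_le (1 / 3) 72 (by norm_num) (by norm_num) (A + 2 * B + 2)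
  refine ⟨max (max N1 N2) (max N3 3), ?_⟩
  intro N hN H hH1 hH2 d c hd hdB
  simp only [max_le_iff] at hN
  obtain ⟨⟨hN1, hN2⟩, hN3, hN4⟩ := hN
  have hL := h2 N hN2
  have hP := h3 N hN3
  have hNr : (3 : ℝ) ≤ N := by exact_mod_cast hN4
  have hN0 : (0 : ℝ) < N := by linarith
  have hN1' : (1 : ℝ) ≤ N := by linarith
  set L := Real.log N with hLdef
  have hL1 : 1 ≤ L := by linarith
  have hL0 : 0 < L := by linarith
  have hHN : (H : ℝ) ≤ N := by
    refine hH2.trans ?_
    nth_rewrite 2 [← Real.rpow_one (N : ℝ)]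
    exact Real.rpow_le_rpow_of_exponent_le hN1' (by norm_num)
  have hHNn : H ≤ N := by exact_mod_cast hHN
  have hH16 : (N : ℝ) ^ (1 / 6 : ℝ) ≤ H :=
    (Real.rpow_le_rpow_of_exponent_le hN1' hth.le).trans hH1
  have hHsq : (N : ℝ) ^ (1 / 3 : ℝ) ≤ (H : ℝ) ^ 2 := by
    have h4 := pow_le_pow_left₀ (by positivity) hH16 2
    rw [← Real.rpow_natCast, ← Real.rpow_mul hN0.le] at h4
    rw [show (1 / 6 : ℝ) * ((2 : ℕ) : ℝ) = 1 / 3 by push_cast; norm_num] at h4
    exact h4
  have hHpos : (0 : ℝ) < H := lt_of_lt_of_le (by positivity) hH16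
  have hlog3 : ∀ x ∈ Ioc N (2 * N), Real.log ((x + H : ℕ) : ℝ) ≤ 3 * L := by
    intro x hx
    rw [mem_Ioc] at hx
    have h4 : ((x + H : ℕ) : ℝ) ≤ (N : ℝ) ^ 2 := by
      have h5 : ((x + H : ℕ) : ℝ) ≤ 3 * N := by
        have : x + H ≤ 3 * N := by omega
        exact_mod_cast this
      nlinarith
    have h6 : Real.log ((x + H : ℕ) : ℝ) ≤ Real.log ((N : ℝ) ^ 2) := by
      apply Real.log_le_log _ h4
      have : 0 < x + H := by omega
      exact_mod_cast this
    rw [Real.log_pow] at h6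
    push_cast at h6
    push_cast
    linarith
  have hLp : 0 < L ^ A := by positivity
  by_cases hc : Nat.Coprime c d
  · simp only [if_pos hc]
    have hm := h1 N hN1 d c H hd hdB hc (by rw [show 1 / 6 + (th - 1 / 6) = th by ring]; exact hH1) hH2
    have e1 : ∑ x ∈ Ico N (2 * N), ‖W (cl d c La) H x - (H : ℂ) / (d.totient : ℂ)‖ ^ 2
        = ∑ x ∈ Ico N (2 * N), ((∑ n ∈ (Ioc x (x + H)).filter (fun n => n % d = c % d), Lam n)
          - (H : ℝ) / d.totient) ^ 2 := by
      apply sum_congr rfl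
      intro x _
      rw [HuxR_sq]
      push_cast
      rfl
    rw [e1] at hm
    have hsub : ∑ x ∈ Ioc N (2 * N), ((∑ n ∈ (Ioc x (x + H)).filter (fun n => n % d = c % d), Lam n)
          - (H : ℝ) / d.totient) ^ 2
        ≤ (∑ x ∈ Ico N (2 * N), ((∑ n ∈ (Ioc x (x + H)).filter (fun n => n % d = c % d), Lam n)
          - (H : ℝ) / d.totient) ^ 2) + ((∑ n ∈ (Ioc (2 * N) (2 * N + H)).filter (fun n => n % d = c % d), Lam n)
          - (H : ℝ) / d.totient) ^ 2 := by
      have h4 : Ioc N (2 * N) ⊆ insert (2 * N) (Ico N (2 * N)) := by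
        intro x hx
        rw [mem_Ioc] at hx
        rw [mem_insert, mem_Ico]
        omega
      refine (sum_le_sum_of_subset_of_nonneg h4 (fun _ _ _ => sq_nonneg _)).trans ?_
      rw [sum_insert (by simp)]
      linarith
    have hone : ((∑ n ∈ (Ioc (2 * N) (2 * N + H)).filter (fun n => n % d = c % d), Lam n)
          - (H : ℝ) / d.totient) ^ 2 ≤ 9 * L ^ 2 * (H : ℝ) ^ 2 := by
      have h5 : 0 ≤ ∑ n ∈ (Ioc (2 * N) (2 * N + H)).filter (fun n => n % d = c % d), Lam n :=
        sum_nonneg fun n _ => HuxR_nonneg n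
      have h6 : ∑ n ∈ (Ioc (2 * N) (2 * N + H)).filter (fun n => n % d = c % d), Lam n ≤ H * (3 * L) := by
        calc ∑ n ∈ (Ioc (2 * N) (2 * N + H)).filter (fun n => n % d = c % d), Lam n
            ≤ ∑ n ∈ Ioc (2 * N) (2 * N + H), Lam n :=
              sum_le_sum_of_subset_of_nonneg (filter_subset _ _) (fun n _ _ => HuxR_nonneg n)
          _ ≤ ∑ n ∈ Ioc (2 * N) (2 * N + H), 3 * L := by
              apply sum_le_sum
              intro n hn
              rw [mem_Ioc] at hn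
              exact (HuxR_le hn.2).trans (hlog3 (2 * N) (by rw [mem_Ioc]; omega))
          _ = H * (3 * L) := by rw [sum_const, Nat.card_Ioc, Nat.add_sub_cancel_left, nsmul_eq_mul]
      have h7 : (H : ℝ) / d.totient ≤ H := by
        apply div_le_self hHpos.le
        exact_mod_cast Nat.totient_pos.2 (by omega : 0 < d)
      have h8 : 0 ≤ (H : ℝ) / d.totient := by positivity
      have h9 : |(∑ n ∈ (Ioc (2 * N) (2 * N + H)).filter (fun n => n % d = c % d), Lam n)
          - (H : ℝ) / d.totient| ≤ 3 * L * H := by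
        rw [abs_le]
        constructor
        · nlinarith
        · linarith
      calc _ = |(∑ n ∈ (Ioc (2 * N) (2 * N + H)).filter (fun n => n % d = c % d), Lam n)
          - (H : ℝ) / d.totient| ^ 2 := (sq_abs _).symm
        _ ≤ (3 * L * H) ^ 2 := pow_le_pow_left₀ (abs_nonneg _) h9 2
        _ = 9 * L ^ 2 * (H : ℝ) ^ 2 := by ring
    have h10 : N * (H : ℝ) ^ 2 / L ^ (A + 1) ≤ N * (H : ℝ) ^ 2 / L ^ A / 2 := by
      rw [div_div]
      apply div_le_div_of_nonneg_left (by positivity) (by positivity)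
      rw [pow_succ]
      exact mul_le_mul_of_nonneg_left hL hLp.le
    have h11 : 9 * L ^ 2 * (H : ℝ) ^ 2 ≤ N * (H : ℝ) ^ 2 / L ^ A / 2 := by
      rw [div_div, le_div_iff₀ (by positivity)]
      have h12 : 18 * L ^ (A + 2) ≤ N := by
        have h13 : L ^ (A + 2) ≤ L ^ (A + 2 * B + 2) := pow_le_pow_right₀ hL1 (by omega)
        have h14 : (N : ℝ) ^ (1 / 3 : ℝ) ≤ N := by
          nth_rewrite 2 [← Real.rpow_one (N : ℝ)]
          exact Real.rpow_le_rpow_of_exponent_le hN1' (by norm_num)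
        have h15 : 0 < L ^ (A + 2 * B + 2) := by positivity
        linarith
      calc 9 * L ^ 2 * (H : ℝ) ^ 2 * (L ^ A * 2) = (18 * L ^ (A + 2)) * (H : ℝ) ^ 2 := by
            rw [pow_add]; ring
        _ ≤ N * (H : ℝ) ^ 2 := mul_le_mul_of_nonneg_right h12 (by positivity)
    linarith
  · simp only [if_neg hc, sub_zero]
    have h5 : ∀ x ∈ Ioc N (2 * N), (∑ n ∈ (Ioc x (x + H)).filter (fun n => n % d = c % d), Lam n) ^ 2
        ≤ (H : ℝ) ^ 2 / L ^ A := by
      intro x hx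
      have hx' := mem_Ioc.1 hx
      have h6 := HuxR_non d c x H hd hc (by omega)
      have h7 := hlog3 x hx
      have h8 : 0 ≤ ∑ n ∈ (Ioc x (x + H)).filter (fun n => n % d = c % d), Lam n :=
        sum_nonneg fun n _ => HuxR_nonneg n
      have h9 : ∑ n ∈ (Ioc x (x + H)).filter (fun n => n % d = c % d), Lam n ≤ L ^ B * (3 * L) := by
        refine h6.trans ?_
        exact mul_le_mul hdB h7 (Real.log_natCast_nonneg _) (by positivity)
      have h10 := pow_le_pow_left₀ h8 h9 2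
      refine h10.trans ?_
      rw [le_div_iff₀ hLp]
      calc (L ^ B * (3 * L)) ^ 2 * L ^ A = 9 * L ^ (A + 2 * B + 2) := by
            rw [pow_add, pow_add, pow_mul']; ring
        _ ≤ 72 * L ^ (A + 2 * B + 2) := by
            have : 0 < L ^ (A + 2 * B + 2) := by positivity
            linarith
        _ ≤ (H : ℝ) ^ 2 := hP.trans hHsq
    refine (sum_le_sum h5).trans ?_
    rw [sum_const, Nat.card_Ioc, nsmul_eq_mul]
    rw [show 2 * N - N = N by omega]
    rw [mul_div_assoc]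

end Pool.Agent.H88.PSI
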