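import Pool.Agent.H88.PSI.Defs

/-!
# PSI Cov: if the product is large, some factor is large

Otherwise every `i` has `v i ≤ 2 L X^(κ/24) (N i)^(s-κ)` (if `N i < X^(κ/24)` by `v i ≤ 2 L N i` and `(N i)^(s-κ) ≥ 1`; if not by `v i < (N i)^(s-κ)`), so
`∏ v i ≤ (2 L)^6 X^(κ/4) (3 X)^(s-κ) ≤ 9 (2 L)^6 X^(s-3κ/4) ≤ X^(s-κ/4)` (`r ≤ 6`; factors `2 L X^(κ/24) ≥ 1`), a contradiction.
-/

set_option autoImplicit false

namespace Pool.Agent.H88.PSI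

open Finset

private theorem Cov_large {κ : ℝ} (hκ : 0 < κ) : ∃ X0 : ℕ, ∀ X : ℕ, X0 ≤ X →
    3 * (2 * Real.log X) ^ 6 ≤ (X : ℝ) ^ (κ / 2) := by
  have h1 := (isLittleO_log_rpow_rpow_atTop (6 : ℝ) (by positivity : 0 < κ / 2)).bound
    (by norm_num : (0 : ℝ) < 1 / 192)
  have h2 : ∀ᶠ X : ℕ in Filter.atTop, ‖Real.log (X : ℝ) ^ (6 : ℝ)‖ ≤
      1 / 192 * ‖(X : ℝ) ^ (κ / 2)‖ := tendsto_natCast_atTop_atTop.eventually h1
  obtain ⟨X0, hX0⟩ := Filter.eventually_atTop.mp (h2.and (Filter.eventually_ge_atTop 1))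
  refine ⟨X0, fun X hX => ?_⟩
  obtain ⟨h3, h4⟩ := hX0 X hX
  have h5 : (0 : ℝ) ≤ (X : ℝ) ^ (κ / 2) := Real.rpow_nonneg (Nat.cast_nonneg _) _
  rw [Real.norm_of_nonneg h5] at h3
  have h6 : Real.log (X : ℝ) ^ (6 : ℝ) = Real.log (X : ℝ) ^ 6 := by
    rw [← Real.rpow_natCast]
    norm_num
  rw [h6] at h3
  have h7 := (le_abs_self _).trans h3
  have h8 : 3 * (2 * Real.log (X : ℝ)) ^ 6 = 192 * Real.log (X : ℝ) ^ 6 := by ring
  rw [h8]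
  linarith

theorem cov (κ : ℝ) (hκ : 0 < κ) (hκ' : κ ≤ 1 / 4) : ∃ X0 : ℕ, ∀ X : ℕ, X0 ≤ X →
    ∀ (r : ℕ) (N : Fin r → ℕ) (v : Fin r → ℝ) (s : ℝ), r ≤ 6 → (∀ i, 1 ≤ N i) →
    ∏ i, N i ≤ 3 * X → (∀ i, 0 ≤ v i) → (∀ i, v i ≤ 2 * Real.log X * N i) → 1 / 2 ≤ s →
    s ≤ 1 + κ → (X : ℝ) ^ (s - κ / 4) < ∏ i, v i →
    ∃ i, (X : ℝ) ^ (κ / 24) ≤ N i ∧ (N i : ℝ) ^ (s - κ) ≤ v i := by
  obtain ⟨X0, hX0⟩ := Cov_large hκ
  refine ⟨max X0 2, fun X hX r N v s hr hN hprod hv0 hv hs hs' hbig => ?_⟩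
  have hlarge := hX0 X ((le_max_left _ _).trans hX)
  have hX2 : 2 ≤ X := (le_max_right _ _).trans hX
  have hXr : (2 : ℝ) ≤ X := by exact_mod_cast hX2
  have hX0' : (0 : ℝ) < X := by linarith
  have hL : 1 ≤ 2 * Real.log X := by
    have h1 : Real.log 2 ≤ Real.log X := Real.log_le_log (by norm_num) hXr
    have h2 := Real.log_two_gt_d9
    linarith
  have he : 0 ≤ s - κ := by linarith
  have hXk : 1 ≤ (X : ℝ) ^ (κ / 24) := Real.one_le_rpow (by linarith) (by positivity)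
  by_contra hcon
  push Not at hcon
  obtain ⟨B, hB⟩ : ∃ B, B = 2 * Real.log X * (X : ℝ) ^ (κ / 24) := ⟨_, rfl⟩
  have hB1 : 1 ≤ B := by
    rw [hB]
    exact one_le_mul_of_one_le_of_one_le hL hXk
  have hNe : ∀ i, 1 ≤ (N i : ℝ) ^ (s - κ) := fun i =>
    Real.one_le_rpow (by exact_mod_cast hN i) he
  have key : ∀ i, v i ≤ B * (N i : ℝ) ^ (s - κ) := by
    intro i
    rcases lt_or_ge (N i : ℝ) ((X : ℝ) ^ (κ / 24)) with h1 | h1
    · have h2 : v i ≤ B := by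
        refine (hv i).trans ?_
        rw [hB]
        exact mul_le_mul_of_nonneg_left h1.le (by linarith)
      have h3 : B ≤ B * (N i : ℝ) ^ (s - κ) := le_mul_of_one_le_right (by linarith) (hNe i)
      exact h2.trans h3
    · have h2 := (hcon i h1).le
      have h3 : (N i : ℝ) ^ (s - κ) ≤ B * (N i : ℝ) ^ (s - κ) :=
        le_mul_of_one_le_left (by linarith [hNe i]) hB1
      exact h2.trans h3
  have h1 : ∏ i, v i ≤ B ^ 6 * (3 * (X : ℝ)) ^ (s - κ) := by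
    refine (Finset.prod_le_prod (fun i _ => hv0 i) fun i _ => key i).trans ?_
    rw [Finset.prod_mul_distrib, Finset.prod_const, Finset.card_univ, Fintype.card_fin]
    refine mul_le_mul (pow_le_pow_right₀ hB1 hr) ?_
      (Finset.prod_nonneg fun i _ => by linarith [hNe i]) (by positivity)
    rw [Real.finsetProd_rpow _ _ fun i _ => Nat.cast_nonneg _]
    refine Real.rpow_le_rpow (Finset.prod_nonneg fun i _ => Nat.cast_nonneg _) ?_ he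
    exact_mod_cast hprod
  have h2 : (3 * (X : ℝ)) ^ (s - κ) ≤ 3 * (X : ℝ) ^ (s - κ) := by
    rw [Real.mul_rpow (by norm_num) hX0'.le]
    refine mul_le_mul_of_nonneg_right ?_ (Real.rpow_nonneg hX0'.le _)
    calc (3 : ℝ) ^ (s - κ) ≤ (3 : ℝ) ^ (1 : ℝ) :=
          Real.rpow_le_rpow_of_exponent_le (by norm_num) (by linarith)
      _ = 3 := Real.rpow_one 3
  have h3 : B ^ 6 = (2 * Real.log X) ^ 6 * (X : ℝ) ^ (κ / 4) := by
    rw [hB, mul_pow, ← Real.rpow_natCast ((X : ℝ) ^ (κ / 24)) 6, ← Real.rpow_mul hX0'.le]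
    congr 2
    push_cast
    ring
  have h4 : B ^ 6 * (3 * (X : ℝ) ^ (s - κ)) ≤ (X : ℝ) ^ (s - κ / 4) := by
    have e1 : B ^ 6 * (3 * (X : ℝ) ^ (s - κ)) =
        3 * (2 * Real.log X) ^ 6 * ((X : ℝ) ^ (κ / 4) * (X : ℝ) ^ (s - κ)) := by
      rw [h3]
      ring
    have e2 : (X : ℝ) ^ (s - κ / 4) = (X : ℝ) ^ (κ / 2) * ((X : ℝ) ^ (κ / 4) * (X : ℝ) ^ (s - κ)) := by
      rw [← Real.rpow_add hX0', ← Real.rpow_add hX0']
      congr 1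
      ring
    rw [e1, e2]
    exact mul_le_mul_of_nonneg_right hlarge
      (mul_nonneg (Real.rpow_nonneg hX0'.le _) (Real.rpow_nonneg hX0'.le _))
  have h5 : B ^ 6 * (3 * (X : ℝ)) ^ (s - κ) ≤ B ^ 6 * (3 * (X : ℝ) ^ (s - κ)) :=
    mul_le_mul_of_nonneg_left h2 (by positivity)
  linarith

end Pool.Agent.H88.PSI
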