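import Pool.Agent.H88.PSI.Defs

/-!
# PSI Dpm: multiplicativity of the Dirichlet polynomials and of the twist

`ee (t log (m n)) = ee (t log m) ee (t log n)`, `(f * g)(n) = ∑_{ab = n} f(a) g(b)`; a pair `(a, b)` with
`f a ≠ 0`, `g b ≠ 0` has `1 ≤ a ≤ N`, `1 ≤ b ≤ M`.
-/

set_option autoImplicit false

namespace Pool.Agent.H88.PSI

open Finset

private theorem Dpm_ee_add (x y : ℝ) : Pool.Agent.H91.PK.ee (x + y) = Pool.Agent.H91.PK.ee x * Pool.Agent.H91.PK.ee y := by
  unfold Pool.Agent.H91.PK.ee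
  rw [← Complex.exp_add]
  congr 1
  push_cast
  ring

private theorem Dpm_norm_ee (x : ℝ) : ‖Pool.Agent.H91.PK.ee x‖ = 1 := by
  unfold Pool.Agent.H91.PK.ee
  have h1 : 2 * (Real.pi : ℂ) * (x : ℂ) * Complex.I = ((2 * Real.pi * x : ℝ) : ℂ) * Complex.I := by
    push_cast
    ring
  rw [h1, Complex.norm_exp_ofReal_mul_I]

private theorem Dpm_supp {f g : ArithmeticFunction ℂ} {N M : ℕ} (hf : ∀ n, f n ≠ 0 → n ≤ N)
    (hg : ∀ n, g n ≠ 0 → n ≤ M) (n : ℕ) (h : (f * g) n ≠ 0) : n ≤ N * M := by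
  rw [ArithmeticFunction.mul_apply] at h
  obtain ⟨p, hp, hne⟩ := Finset.exists_ne_zero_of_sum_ne_zero h
  rw [Nat.mem_divisorsAntidiagonal] at hp
  rw [← hp.1]
  exact Nat.mul_le_mul (hf _ (left_ne_zero_of_mul hne)) (hg _ (right_ne_zero_of_mul hne))

theorem dp_mul (f g : ArithmeticFunction ℂ) (N M : ℕ) (hf : ∀ n, f n ≠ 0 → n ≤ N)
    (hg : ∀ n, g n ≠ 0 → n ≤ M) (t : ℝ) :
    DP (⇑(f * g)) (N * M) t = DP f N t * DP g M t := by
  classical
  unfold DP
  rw [Finset.sum_mul_sum, ← Finset.sum_product']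
  rw [← Finset.sum_fiberwise_of_maps_to (s := Icc 1 N ×ˢ Icc 1 M) (t := Icc 1 (N * M))
    (g := fun p => p.1 * p.2)]
  · refine Finset.sum_congr rfl fun n hn => ?_
    rw [Finset.mem_Icc] at hn
    rw [ArithmeticFunction.mul_apply, Finset.sum_mul]
    symm
    refine (Finset.sum_subset (fun p hp => ?_) fun p hp hp' => ?_).trans
      (Finset.sum_congr rfl fun p hp => ?_)
    · rw [Finset.mem_filter, Finset.mem_product, Finset.mem_Icc, Finset.mem_Icc] at hp
      rw [Nat.mem_divisorsAntidiagonal]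
      exact ⟨hp.2, by omega⟩
    · rw [Nat.mem_divisorsAntidiagonal] at hp
      rw [Finset.mem_filter, Finset.mem_product, Finset.mem_Icc, Finset.mem_Icc] at hp'
      have h1 : 1 ≤ p.1 := by
        rcases Nat.eq_zero_or_pos p.1 with h | h
        · rw [h, zero_mul] at hp
          omega
        · exact h
      have h2 : 1 ≤ p.2 := by
        rcases Nat.eq_zero_or_pos p.2 with h | h
        · rw [h, mul_zero] at hp
          omega
        · exact h
      by_cases h3 : f p.1 = 0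
      · rw [h3]
        ring
      · by_cases h4 : g p.2 = 0
        · rw [h4]
          ring
        · exact absurd ⟨⟨⟨h1, hf _ h3⟩, ⟨h2, hg _ h4⟩⟩, hp.1⟩ hp'
    · rw [Nat.mem_divisorsAntidiagonal] at hp
      have h1 : p.1 ≠ 0 := by
        intro h
        rw [h, zero_mul] at hp
        omega
      have h2 : p.2 ≠ 0 := by
        intro h
        rw [h, mul_zero] at hp
        omega
      rw [← hp.1, Nat.cast_mul, Real.log_mul (by exact_mod_cast h1) (by exact_mod_cast h2),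
        mul_add, Dpm_ee_add]
      ring
  · intro p hp
    rw [Finset.mem_product, Finset.mem_Icc, Finset.mem_Icc] at hp
    rw [Finset.mem_Icc]
    exact ⟨Nat.mul_pos hp.1.1 hp.2.1, Nat.mul_le_mul hp.1.2 hp.2.2⟩

private theorem Dpm_one (t : ℝ) : DP (⇑(1 : ArithmeticFunction ℂ)) 1 t = 1 := by
  unfold DP
  have h1 : Pool.Agent.H91.PK.ee 0 = 1 := by
    unfold Pool.Agent.H91.PK.ee
    simp
  simp [h1]

private theorem Dpm_pow_supp (f : ArithmeticFunction ℂ) (N k : ℕ) (hf : ∀ n, f n ≠ 0 → n ≤ N) :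
    ∀ n, (f ^ k) n ≠ 0 → n ≤ N ^ k := by
  induction k with
  | zero =>
    intro n hn
    rw [pow_zero] at hn ⊢
    by_contra hcon
    exact hn (ArithmeticFunction.one_apply_ne (by omega))
  | succ k ih =>
    intro n hn
    rw [pow_succ] at hn ⊢
    exact Dpm_supp ih hf n hn

theorem dp_pow (f : ArithmeticFunction ℂ) (N k : ℕ) (hf : ∀ n, f n ≠ 0 → n ≤ N) (t : ℝ) :
    DP (⇑(f ^ k)) (N ^ k) t = DP f N t ^ k := by
  induction k with
  | zero => simpa using Dpm_one t
  | succ k ih =>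
    rw [pow_succ, pow_succ, dp_mul _ _ _ _ (Dpm_pow_supp f N k hf) hf, ih, pow_succ]

private theorem Dpm_prod_supp {ι : Type*} [DecidableEq ι] (s : Finset ι)
    (f : ι → ArithmeticFunction ℂ) (N : ι → ℕ) (hf : ∀ i ∈ s, ∀ n, f i n ≠ 0 → n ≤ N i) :
    ∀ n, (∏ i ∈ s, f i) n ≠ 0 → n ≤ ∏ i ∈ s, N i := by
  induction s using Finset.induction_on with
  | empty =>
    intro n hn
    rw [Finset.prod_empty] at hn ⊢
    by_contra hcon
    exact hn (ArithmeticFunction.one_apply_ne (by omega))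
  | insert a s ha ih =>
    intro n hn
    rw [Finset.prod_insert ha] at hn ⊢
    exact Dpm_supp (hf a (Finset.mem_insert_self a s))
      (ih fun i hi => hf i (Finset.mem_insert_of_mem hi)) n hn

theorem dp_prod {ι : Type*} [DecidableEq ι] (s : Finset ι) (f : ι → ArithmeticFunction ℂ) (N : ι → ℕ)
    (hf : ∀ i ∈ s, ∀ n, f i n ≠ 0 → n ≤ N i) (t : ℝ) :
    DP (⇑(∏ i ∈ s, f i)) (∏ i ∈ s, N i) t = ∏ i ∈ s, DP (f i) (N i) t := by
  induction s using Finset.induction_on with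
  | empty => simpa using Dpm_one t
  | insert a s ha ih =>
    have h1 : ∀ i ∈ s, ∀ n, f i n ≠ 0 → n ≤ N i := fun i hi => hf i (Finset.mem_insert_of_mem hi)
    rw [Finset.prod_insert ha, Finset.prod_insert ha, Finset.prod_insert ha,
      dp_mul _ _ _ _ (hf a (Finset.mem_insert_self a s)) (Dpm_prod_supp s f N h1), ih h1]

theorem dp_cont (f : ℕ → ℂ) (N : ℕ) : Continuous (DP f N) := by
  have h1 : DP f N = fun t => ∑ n ∈ Icc 1 N, f n * Pool.Agent.H91.PK.ee (t * Real.log n) := rfl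
  rw [h1]
  refine continuous_finsetSum _ fun n _ => continuous_const.mul ?_
  unfold Pool.Agent.H91.PK.ee
  fun_prop

theorem dp_norm_le (f : ℕ → ℂ) (N : ℕ) (t : ℝ) : ‖DP f N t‖ ≤ ∑ n ∈ Icc 1 N, ‖f n‖ := by
  unfold DP
  refine (norm_sum_le _ _).trans (Finset.sum_le_sum fun n _ => ?_)
  rw [norm_mul, Dpm_norm_ee, mul_one]

theorem tw_mul {d : ℕ} (χ : DirichletCharacter ℂ d) (f g : ArithmeticFunction ℝ) :
    tw χ (f * g) = tw χ f * tw χ g := by
  ext n
  rw [ArithmeticFunction.mul_apply]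
  have h1 : tw χ (f * g) n = (((f * g) n : ℝ) : ℂ) * χ (n : ZMod d) := rfl
  rw [h1, ArithmeticFunction.mul_apply]
  push_cast
  rw [Finset.sum_mul]
  refine Finset.sum_congr rfl fun p hp => ?_
  rw [Nat.mem_divisorsAntidiagonal] at hp
  have h2 : tw χ f p.1 = ((f p.1 : ℝ) : ℂ) * χ (p.1 : ZMod d) := rfl
  have h3 : tw χ g p.2 = ((g p.2 : ℝ) : ℂ) * χ (p.2 : ZMod d) := rfl
  rw [h2, h3, ← hp.1, Nat.cast_mul, map_mul]
  ring

theorem tw_prod {d : ℕ} (χ : DirichletCharacter ℂ d) {ι : Type*} [DecidableEq ι] (s : Finset ι)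
    (f : ι → ArithmeticFunction ℝ) (hd : d ≠ 0) : tw χ (∏ i ∈ s, f i) = ∏ i ∈ s, tw χ (f i) := by
  induction s using Finset.induction_on with
  | empty =>
    rw [Finset.prod_empty, Finset.prod_empty]
    ext n
    have h1 : tw χ 1 n = ((((1 : ArithmeticFunction ℝ) n : ℝ)) : ℂ) * χ (n : ZMod d) := rfl
    rw [h1]
    by_cases h2 : n = 1
    · subst h2
      simp
    · rw [ArithmeticFunction.one_apply_ne h2, ArithmeticFunction.one_apply_ne h2]
      simp
  | insert a s ha ih => rw [Finset.prod_insert ha, Finset.prod_insert ha, tw_mul, ih]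

end Pool.Agent.H88.PSI
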