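import Pool.Agent.H88.PSI.Defs
import Pool.Agent.H92.EH3.DivBound

/-!
# PSI Pw: pointwise bounds, supports, divisor bounds

`|(f * g)(n)| ≤ ∑_{d ∣ n} |f(d)| |g(n/d)|` and `tau d ≤ tau n` for `d ∣ n`, `n ≠ 0`.
`tau_eps`: from `∑_{m ≤ n} tau(m)^j ≤ n (1 + log n)^(2^j)` (`Pool.Agent.H35.U.tau_pow` in
`Pool/Agent/H35/U/TauM.lean`) with `j ≥ 2/e`, or from any divisor bound of the pool (`H92/EH3/DivBound.lean`).
-/

set_option autoImplicit false

namespace Pool.Agent.H88.PSI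

open Finset

private theorem Pw_tau_nonneg (n : ℕ) : 0 ≤ tau n := by
  unfold tau
  positivity

private theorem Pw_tau_one_le {n : ℕ} (hn : n ≠ 0) : 1 ≤ tau n := by
  unfold tau
  have : 0 < n.divisors.card := by
    rw [Finset.card_pos]
    exact ⟨1, Nat.one_mem_divisors.2 hn⟩
  exact_mod_cast this

private theorem Pw_tau_dvd {d n : ℕ} (h : d ∣ n) (hn : n ≠ 0) : tau d ≤ tau n := by
  unfold tau
  exact_mod_cast Finset.card_le_card (Nat.divisors_subset_of_dvd hn h)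

private theorem Pw_card (n : ℕ) : (n.divisorsAntidiagonal.card : ℝ) = tau n := by
  unfold tau
  have h := Nat.sum_divisorsAntidiagonal (fun _ _ => (1:ℝ)) (n := n)
  simp only [Finset.sum_const, nsmul_eq_mul, mul_one] at h
  exact h

private theorem Pw_mul {R : Type*} [NormedCommRing R] (f g : ArithmeticFunction R) (A B : ℝ)
    (hA : 0 ≤ A) (hB : 0 ≤ B) (a b : ℕ) (hf : ∀ n, ‖f n‖ ≤ A * tau n ^ a)
    (hg : ∀ n, ‖g n‖ ≤ B * tau n ^ b) (n : ℕ) : ‖(f * g) n‖ ≤ A * B * tau n ^ (a + b + 1) := by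
  have ht := Pw_tau_nonneg n
  rcases Nat.eq_zero_or_pos n with h0 | h0
  · subst h0
    rw [ArithmeticFunction.map_zero, norm_zero]
    positivity
  · rw [ArithmeticFunction.mul_apply]
    refine (norm_sum_le _ _).trans ?_
    have h1 : ∀ x ∈ n.divisorsAntidiagonal, ‖f x.1 * g x.2‖ ≤ A * B * tau n ^ (a + b) := by
      intro x hx
      rw [Nat.mem_divisorsAntidiagonal] at hx
      have hx1 : tau x.1 ≤ tau n := Pw_tau_dvd ⟨x.2, hx.1.symm⟩ hx.2
      have hx2 : tau x.2 ≤ tau n := Pw_tau_dvd ⟨x.1, by rw [mul_comm]; exact hx.1.symm⟩ hx.2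
      have h2 : ‖f x.1‖ ≤ A * tau n ^ a := (hf x.1).trans
        (mul_le_mul_of_nonneg_left (pow_le_pow_left₀ (Pw_tau_nonneg _) hx1 a) hA)
      have h3 : ‖g x.2‖ ≤ B * tau n ^ b := (hg x.2).trans
        (mul_le_mul_of_nonneg_left (pow_le_pow_left₀ (Pw_tau_nonneg _) hx2 b) hB)
      calc ‖f x.1 * g x.2‖ ≤ ‖f x.1‖ * ‖g x.2‖ := norm_mul_le _ _
        _ ≤ (A * tau n ^ a) * (B * tau n ^ b) :=
            mul_le_mul h2 h3 (norm_nonneg _) (by positivity)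
        _ = A * B * tau n ^ (a + b) := by rw [pow_add]; ring
    refine (Finset.sum_le_sum h1).trans (le_of_eq ?_)
    rw [Finset.sum_const, nsmul_eq_mul, Pw_card, pow_succ]
    ring

/-- products of bounded functions -/
theorem prod_bd {r : ℕ} (f : Fin r → ArithmeticFunction ℂ) (L : ℝ) (hL : 1 ≤ L)
    (h : ∀ i n, ‖f i n‖ ≤ L) (n : ℕ) : ‖(∏ i, f i) n‖ ≤ L ^ r * tau n ^ r := by
  have key : ∀ s : Finset (Fin r), ∀ n : ℕ, ‖(∏ i ∈ s, f i) n‖ ≤ L ^ s.card * tau n ^ s.card := by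
    intro s
    induction s using Finset.induction_on with
    | empty =>
      intro n
      rw [Finset.prod_empty, Finset.card_empty, pow_zero, pow_zero, mul_one,
        ArithmeticFunction.one_apply]
      split_ifs
      · rw [norm_one]
      · rw [norm_zero]
        exact zero_le_one
    | insert i s hi ih =>
      intro n
      rw [Finset.prod_insert hi, Finset.card_insert_of_notMem hi]
      have h1 := Pw_mul (f i) (∏ i ∈ s, f i) L (L ^ s.card) (by linarith) (by positivity) 0 s.card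
        (fun m => by rw [pow_zero, mul_one]; exact h i m) ih n
      refine h1.trans (le_of_eq ?_)
      rw [zero_add, pow_succ L]
      ring
  have h2 := key univ n
  rw [Finset.card_univ, Fintype.card_fin] at h2
  exact h2

/-- products of functions supported on `[N i, 2 N i)` -/
theorem prod_supp {r : ℕ} (f : Fin r → ArithmeticFunction ℂ) (N : Fin r → ℕ)
    (h : ∀ i n, f i n ≠ 0 → N i ≤ n ∧ n < 2 * N i) (n : ℕ) (hn : (∏ i, f i) n ≠ 0) :
    ∏ i, N i ≤ n ∧ n ≤ ∏ i, (2 * N i) := by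
  have key : ∀ s : Finset (Fin r), ∀ n : ℕ, (∏ i ∈ s, f i) n ≠ 0 →
      ∏ i ∈ s, N i ≤ n ∧ n ≤ ∏ i ∈ s, (2 * N i) := by
    intro s
    induction s using Finset.induction_on with
    | empty =>
      intro n hn
      rw [Finset.prod_empty, ArithmeticFunction.one_apply] at hn
      rw [Finset.prod_empty, Finset.prod_empty]
      split_ifs at hn with h1
      · omega
      · exact absurd rfl hn
    | insert i s hi ih =>
      intro n hn
      rw [Finset.prod_insert hi, ArithmeticFunction.mul_apply] at hn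
      obtain ⟨x, hx, hne⟩ := Finset.exists_ne_zero_of_sum_ne_zero hn
      rw [Nat.mem_divisorsAntidiagonal] at hx
      have h1 := h i x.1 (left_ne_zero_of_mul hne)
      have h2 := ih x.2 (right_ne_zero_of_mul hne)
      rw [Finset.prod_insert hi, Finset.prod_insert hi, ← hx.1]
      exact ⟨Nat.mul_le_mul h1.1 h2.1, Nat.mul_le_mul h1.2.le h2.2⟩
  exact key univ n hn

private theorem Pw_sub (f g : ArithmeticFunction ℝ) (n : ℕ) : (f - g) n = f n - g n := by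
  rw [sub_eq_add_neg, ArithmeticFunction.add_apply, sub_eq_add_neg]
  rfl

private theorem Pw_seg2 (w : ℕ) (n : ℕ) : ‖seg 2 1 (2 ^ w) n‖ ≤ 1 * tau n ^ 0 := by
  rw [pow_zero, mul_one]
  show ‖if n ≠ 0 ∧ 1 ≤ n ∧ n < 2 ^ w then kf 2 n else 0‖ ≤ 1
  split_ifs
  · have h1 : kf 2 n = ((ArithmeticFunction.moebius n : ℤ) : ℝ) := by
      unfold kf
      rw [if_neg (by decide), if_neg (by decide)]
    rw [h1, Real.norm_eq_abs, ← Int.cast_abs]
    exact_mod_cast ArithmeticFunction.abs_moebius_le_one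
  · rw [norm_zero]
    exact zero_le_one

private theorem Pw_hi0 (n : ℕ) : ‖hi 0 1 n‖ ≤ 1 * tau n ^ 0 := by
  rw [pow_zero, mul_one]
  show ‖if n ≠ 0 ∧ 1 ≤ n then kf 0 n else 0‖ ≤ 1
  split_ifs
  · have h1 : kf 0 n = 1 := by
      unfold kf
      rw [if_pos rfl]
    rw [h1, norm_one]
  · rw [norm_zero]
    exact zero_le_one

private theorem Pw_seg0 (y : ℕ) (n : ℕ) : ‖seg 0 1 (2 ^ y) n‖ ≤ 1 := by
  show ‖if n ≠ 0 ∧ 1 ≤ n ∧ n < 2 ^ y then kf 0 n else 0‖ ≤ 1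
  split_ifs
  · have h1 : kf 0 n = 1 := by
      unfold kf
      rw [if_pos rfl]
    rw [h1, norm_one]
  · rw [norm_zero]
    exact zero_le_one

private theorem Pw_seg1 (y : ℕ) (n : ℕ) : ‖seg 1 1 (2 ^ y) n‖ ≤ (y : ℝ) * tau n ^ 0 := by
  rw [pow_zero, mul_one]
  show ‖if n ≠ 0 ∧ 1 ≤ n ∧ n < 2 ^ y then kf 1 n else 0‖ ≤ (y : ℝ)
  split_ifs with h
  · have h1 : kf 1 n = Real.log n := by
      unfold kf
      rw [if_neg (by decide), if_pos rfl]
    have hn1 : (1 : ℝ) ≤ n := by exact_mod_cast h.2.1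
    rw [h1, Real.norm_eq_abs, abs_of_nonneg (Real.log_nonneg hn1)]
    have h2 : (n : ℝ) ≤ 2 ^ y := by exact_mod_cast h.2.2.le
    have h3 : Real.log n ≤ Real.log ((2 : ℝ) ^ y) := Real.log_le_log (by linarith) h2
    rw [Real.log_pow] at h3
    have h4 : Real.log 2 ≤ 1 := by
      have := Real.log_two_lt_d9
      linarith
    have h5 : (0 : ℝ) ≤ y := Nat.cast_nonneg y
    nlinarith
  · rw [norm_zero]
    exact Nat.cast_nonneg y

private theorem Pw_hs (y : ℕ) (n : ℕ) : ‖(hi 0 1 + seg 0 1 (2 ^ y)) n‖ ≤ 2 * tau n ^ 0 := by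
  rw [ArithmeticFunction.add_apply]
  have h1 := Pw_hi0 n
  have h2 := Pw_seg0 y n
  rw [pow_zero, mul_one] at h1 ⊢
  refine (norm_add_le _ _).trans ?_
  linarith

private theorem Pw_sq (w : ℕ) (n : ℕ) : ‖(seg 2 1 (2 ^ w) ^ 2) n‖ ≤ 1 * tau n ^ 1 := by
  rw [pow_two]
  have h := Pw_mul (seg 2 1 (2 ^ w)) (seg 2 1 (2 ^ w)) 1 1 zero_le_one zero_le_one 0 0 (Pw_seg2 w)
    (Pw_seg2 w) n
  simpa using h

private theorem Pw_cube (w : ℕ) (n : ℕ) : ‖(seg 2 1 (2 ^ w) ^ 3) n‖ ≤ 1 * tau n ^ 2 := by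
  rw [pow_succ]
  have h := Pw_mul (seg 2 1 (2 ^ w) ^ 2) (seg 2 1 (2 ^ w)) 1 1 zero_le_one zero_le_one 1 0 (Pw_sq w)
    (Pw_seg2 w) n
  simpa using h

/-- the coefficients `cA` -/
theorem cA_bd (w n : ℕ) : |cA w n| ≤ 7 * tau n ^ 5 := by
  rcases Nat.eq_zero_or_pos n with h0 | h0
  · subst h0
    rw [ArithmeticFunction.map_zero, abs_zero]
    have := Pw_tau_nonneg 0
    positivity
  · have ht := Pw_tau_one_le (n := n) (by omega)
    have h1 := Pw_seg2 w n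
    have h2 := Pw_mul (hi 0 1) (seg 2 1 (2 ^ w) ^ 2) 1 1 zero_le_one zero_le_one 0 1 Pw_hi0
      (Pw_sq w) n
    have h3 : ∀ n, ‖(hi 0 1 ^ 2) n‖ ≤ 1 * tau n ^ 1 := by
      intro n
      rw [pow_two]
      have h := Pw_mul (hi 0 1) (hi 0 1) 1 1 zero_le_one zero_le_one 0 0 Pw_hi0 Pw_hi0 n
      simpa using h
    have h4 := Pw_mul (hi 0 1 ^ 2) (seg 2 1 (2 ^ w) ^ 3) 1 1 zero_le_one zero_le_one 1 2 h3
      (Pw_cube w) n
    rw [Real.norm_eq_abs] at h1 h2 h4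
    have e : cA w n = 3 * seg 2 1 (2 ^ w) n - 3 * (hi 0 1 * seg 2 1 (2 ^ w) ^ 2) n +
        (hi 0 1 ^ 2 * seg 2 1 (2 ^ w) ^ 3) n := by
      unfold cA
      rw [ArithmeticFunction.add_apply, Pw_sub]
      rfl
    rw [e]
    have p1 : tau n ^ 0 ≤ tau n ^ 5 := pow_le_pow_right₀ ht (by norm_num)
    have p2 : tau n ^ (0 + 1 + 1) ≤ tau n ^ 5 := pow_le_pow_right₀ ht (by norm_num)
    have p3 : tau n ^ (1 + 2 + 1) ≤ tau n ^ 5 := pow_le_pow_right₀ ht (by norm_num)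
    have q1 := abs_le.1 h1
    have q2 := abs_le.1 h2
    have q4 := abs_le.1 h4
    rw [abs_le]
    constructor <;> linarith [q1.1, q1.2, q2.1, q2.2, q4.1, q4.2]

/-- the coefficients `cB` -/
theorem cB_bd (y w n : ℕ) : |cB y w n| ≤ 5 * (y + 1) * tau n ^ 5 := by
  rcases Nat.eq_zero_or_pos n with h0 | h0
  · subst h0
    rw [ArithmeticFunction.map_zero, abs_zero]
    have := Pw_tau_nonneg 0
    positivity
  · have ht := Pw_tau_one_le (n := n) (by omega)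
    have hy : (0 : ℝ) ≤ y := Nat.cast_nonneg y
    have h1 := Pw_mul (seg 1 1 (2 ^ y)) (hi 0 1 + seg 0 1 (2 ^ y)) y 2 hy (by norm_num) 0 0
      (Pw_seg1 y) (Pw_hs y)
    have h2 := Pw_mul (seg 1 1 (2 ^ y) * (hi 0 1 + seg 0 1 (2 ^ y))) (seg 2 1 (2 ^ w) ^ 3) (y * 2) 1
      (by positivity) zero_le_one (0 + 0 + 1) 2 h1 (Pw_cube w) n
    have h3 := Pw_mul (seg 1 1 (2 ^ y)) (seg 2 1 (2 ^ w) ^ 2) y 1 hy zero_le_one 0 1 (Pw_seg1 y)
      (Pw_sq w) n
    rw [Real.norm_eq_abs] at h2 h3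
    have e : cB y w n = (seg 1 1 (2 ^ y) * (hi 0 1 + seg 0 1 (2 ^ y)) * seg 2 1 (2 ^ w) ^ 3) n -
        3 * (seg 1 1 (2 ^ y) * seg 2 1 (2 ^ w) ^ 2) n := by
      unfold cB
      rw [Pw_sub]
      rfl
    rw [e]
    have p2 : tau n ^ (0 + 1 + 1) ≤ tau n ^ 5 := pow_le_pow_right₀ ht (by norm_num)
    have p3 : tau n ^ (0 + 0 + 1 + 2 + 1) ≤ tau n ^ 5 := pow_le_pow_right₀ ht (by norm_num)
    have r2 : (y : ℝ) * 1 * tau n ^ (0 + 1 + 1) ≤ y * tau n ^ 5 := by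
      rw [mul_one]
      exact mul_le_mul_of_nonneg_left p2 hy
    have r3 : (y : ℝ) * 2 * 1 * tau n ^ (0 + 0 + 1 + 2 + 1) ≤ 2 * (y * tau n ^ 5) := by
      have := mul_le_mul_of_nonneg_left p3 hy
      linarith
    have r4 : 0 ≤ tau n ^ 5 := by positivity
    have q2 := abs_le.1 h2
    have q3 := abs_le.1 h3
    rw [abs_le]
    constructor <;> linarith [q2.1, q2.2, q3.1, q3.2]

/-- divisor bound -/
theorem tau_eps (e : ℝ) (he : 0 < e) : ∃ C : ℝ, 1 ≤ C ∧ ∀ n : ℕ, tau n ≤ C * (n : ℝ) ^ e + C := by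
  obtain ⟨C, hC, h⟩ := Pool.Agent.H92.EH.div_bound e he
  refine ⟨C, hC, fun n => ?_⟩
  have hn : (0 : ℝ) ≤ (n : ℝ) ^ e := Real.rpow_nonneg (Nat.cast_nonneg n) e
  rcases Nat.eq_zero_or_pos n with h0 | h0
  · subst h0
    unfold tau
    rw [Nat.divisors_zero, Finset.card_empty, Nat.cast_zero]
    have h2 : (0 : ℝ) ≤ (0 : ℝ) ^ e := Real.rpow_nonneg le_rfl e
    have h3 : 0 ≤ C * (0 : ℝ) ^ e := mul_nonneg (by linarith) h2
    linarith
  · have h1 := h n h0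
    unfold tau
    linarith

open scoped Pointwise in
private theorem Pw_tau_mul_le (d e : ℕ) :
    (d * e).divisors.card ≤ d.divisors.card * e.divisors.card := by
  rw [Nat.divisors_mul]
  exact card_mul_le

private noncomputable def Pw_S (k n : ℕ) : ℝ := ∑ m ∈ Icc 1 n, (m.divisors.card : ℝ) ^ k / m

private theorem Pw_S_nonneg (k n : ℕ) : 0 ≤ Pw_S k n :=
  sum_nonneg fun _ _ => by positivity

private theorem Pw_S_succ (k n : ℕ) : Pw_S (k + 1) n ≤ Pw_S k n ^ 2 := by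
  obtain ⟨f, hf⟩ : ∃ f : ℕ × ℕ → ℝ, f = fun p => ((p.1.divisors.card : ℝ) ^ k / p.1) *
      ((p.2.divisors.card : ℝ) ^ k / p.2) := ⟨_, rfl⟩
  have hf0 : ∀ p, 0 ≤ f p := fun p => by rw [hf]; positivity
  have h1 : Pw_S k n ^ 2 = ∑ p ∈ Icc 1 n ×ˢ Icc 1 n, f p := by
    unfold Pw_S
    rw [sq, sum_mul_sum, sum_product, hf]
  have h2 : ∀ m ∈ Icc 1 n, (m.divisors.card : ℝ) ^ (k + 1) / m ≤
      ∑ p ∈ ((Icc 1 n ×ˢ Icc 1 n).filter (fun p => p.1 * p.2 ∈ Icc 1 n)).filter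
        (fun p => p.1 * p.2 = m), f p := by
    intro m hm
    have hm' := mem_Icc.1 hm
    have e1 : ((Icc 1 n ×ˢ Icc 1 n).filter (fun p => p.1 * p.2 ∈ Icc 1 n)).filter
        (fun p => p.1 * p.2 = m) = m.divisorsAntidiagonal := by
      ext p
      rw [mem_filter, mem_filter, mem_product, mem_Icc, mem_Icc, Nat.mem_divisorsAntidiagonal]
      constructor
      · rintro ⟨_, h⟩
        exact ⟨h, by omega⟩
      · rintro ⟨h, _⟩
        have hp1 : 1 ≤ p.1 := Nat.one_le_iff_ne_zero.2 (by rintro h0; rw [h0, zero_mul] at h; omega)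
        have hp2 : 1 ≤ p.2 := Nat.one_le_iff_ne_zero.2 (by rintro h0; rw [h0, mul_zero] at h; omega)
        have h3 : p.1 ≤ m := h ▸ Nat.le_mul_of_pos_right _ hp2
        have h4 : p.2 ≤ m := h ▸ Nat.le_mul_of_pos_left _ hp1
        exact ⟨⟨⟨⟨hp1, by omega⟩, ⟨hp2, by omega⟩⟩, h ▸ hm⟩, h⟩
    rw [e1]
    have e2 : (m.divisors.card : ℝ) = ∑ _p ∈ m.divisorsAntidiagonal, (1:ℝ) := by
      rw [Nat.sum_divisorsAntidiagonal (fun _ _ => (1:ℝ))]
      simp
    have e3 : (m.divisors.card : ℝ) ^ (k + 1) / m =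
        ∑ _p ∈ m.divisorsAntidiagonal, (m.divisors.card : ℝ) ^ k / m := by
      rw [← mul_one ((m.divisors.card : ℝ) ^ k / m), ← mul_sum, ← e2, pow_succ]
      ring
    rw [e3]
    refine sum_le_sum fun p hp => ?_
    rw [Nat.mem_divisorsAntidiagonal] at hp
    rw [hf]
    have h5 := Pw_tau_mul_le p.1 p.2
    rw [hp.1] at h5
    have h6 : (m.divisors.card : ℝ) ≤ (p.1.divisors.card : ℝ) * (p.2.divisors.card : ℝ) := by
      exact_mod_cast h5
    have h7 : (m : ℝ) = (p.1 : ℝ) * p.2 := by rw [← hp.1]; push_cast; rfl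
    show (m.divisors.card : ℝ) ^ k / m ≤ ((p.1.divisors.card : ℝ) ^ k / p.1) *
      ((p.2.divisors.card : ℝ) ^ k / p.2)
    rw [div_mul_div_comm, ← mul_pow, ← h7]
    exact div_le_div_of_nonneg_right (pow_le_pow_left₀ (by positivity) h6 k) (by positivity)
  rw [h1]
  unfold Pw_S
  calc ∑ m ∈ Icc 1 n, (m.divisors.card : ℝ) ^ (k + 1) / m
      ≤ ∑ m ∈ Icc 1 n, ∑ p ∈ ((Icc 1 n ×ˢ Icc 1 n).filter (fun p => p.1 * p.2 ∈ Icc 1 n)).filter
        (fun p => p.1 * p.2 = m), f p := sum_le_sum h2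
    _ = ∑ p ∈ (Icc 1 n ×ˢ Icc 1 n).filter (fun p => p.1 * p.2 ∈ Icc 1 n), f p :=
        sum_fiberwise_of_maps_to (fun p hp => (mem_filter.1 hp).2) f
    _ ≤ ∑ p ∈ Icc 1 n ×ˢ Icc 1 n, f p :=
        sum_le_sum_of_subset_of_nonneg (filter_subset _ _) (fun p _ _ => hf0 p)

private theorem Pw_S_zero (n : ℕ) : Pw_S 0 n ≤ 1 + Real.log n := by
  have h := harmonic_le_one_add_log n
  refine le_trans (le_of_eq ?_) h
  unfold Pw_S
  rw [harmonic_eq_sum_Icc]
  push_cast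
  refine sum_congr rfl fun m _ => ?_
  rw [pow_zero, one_div]

private theorem Pw_S_pow (n k : ℕ) : Pw_S k n ≤ (1 + Real.log n) ^ (2 ^ k) := by
  induction k with
  | zero => simpa using Pw_S_zero n
  | succ k ih =>
    refine (Pw_S_succ k n).trans ?_
    rw [pow_succ 2 k, pow_mul]
    exact pow_le_pow_left₀ (Pw_S_nonneg k n) ih 2


/-- moments of the divisor function -/
theorem tau_mom (j n : ℕ) : ∑ m ∈ Icc 1 n, tau m ^ j ≤ n * (1 + Real.log n) ^ (2 ^ j) := by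
  have h1 : ∑ m ∈ Icc 1 n, tau m ^ j ≤ n * Pw_S j n := by
    unfold Pw_S
    rw [mul_sum]
    refine sum_le_sum fun m hm => ?_
    have hm' := mem_Icc.1 hm
    have hm0 : (0:ℝ) < m := by exact_mod_cast hm'.1
    have hmn : (m:ℝ) ≤ n := by exact_mod_cast hm'.2
    unfold tau
    rw [← mul_div_assoc, le_div_iff₀ hm0, mul_comm]
    exact mul_le_mul_of_nonneg_right hmn (by positivity)
  exact h1.trans (mul_le_mul_of_nonneg_left (Pw_S_pow n j) (by positivity))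

/-- the same with weights `1/m` (see the private `tau_S_pow` in `Pool/Agent/H80/LV/Tau4.lean`) -/
theorem tau_momd (j n : ℕ) : ∑ m ∈ Icc 1 n, tau m ^ j / m ≤ (1 + Real.log n) ^ (2 ^ j) := by
  exact Pw_S_pow n j

end Pool.Agent.H88.PSI
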