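import Pool.Agent.H88.PSI.Defs

/-!
# PSI Dy: dyadic decomposition of the truncated products

`lot k y w = ∑_{j < top k y w} pc k j` (every `1 ≤ n < 2^b` lies in exactly one `[2^j, 2^(j+1))`), then
`Finset.prod_univ_sum`.
-/

set_option autoImplicit false

namespace Pool.Agent.H88.PSI

open Finset

private theorem Dy_seg (k : Fin 3) (b : ℕ) :
    seg k 1 (2 ^ b) = ∑ j ∈ range b, pc k j := by
  induction b with
  | zero =>
    ext n
    rw [Finset.range_zero, Finset.sum_empty, ArithmeticFunction.zero_apply]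
    show (if n ≠ 0 ∧ 1 ≤ n ∧ n < 2 ^ 0 then kf k n else 0) = 0
    rw [if_neg]
    rw [pow_zero]
    omega
  | succ b ih =>
    rw [Finset.sum_range_succ, ← ih]
    ext n
    rw [ArithmeticFunction.add_apply]
    show (if n ≠ 0 ∧ 1 ≤ n ∧ n < 2 ^ (b + 1) then kf k n else 0) =
      (if n ≠ 0 ∧ 1 ≤ n ∧ n < 2 ^ b then kf k n else 0) +
      (if n ≠ 0 ∧ 2 ^ b ≤ n ∧ n < 2 ^ (b + 1) then kf k n else 0)
    have h0 : 0 < 2 ^ b := by positivity
    have h1 : 2 ^ (b + 1) = 2 * 2 ^ b := by ring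
    by_cases h : n < 2 ^ b
    · rw [if_neg (show ¬ (n ≠ 0 ∧ 2 ^ b ≤ n ∧ n < 2 ^ (b + 1)) by omega), add_zero]
      by_cases hn : n = 0
      · rw [if_neg (by omega), if_neg (by omega)]
      · rw [if_pos (by omega), if_pos (by omega)]
    · rw [if_neg (show ¬ (n ≠ 0 ∧ 1 ≤ n ∧ n < 2 ^ b) by omega), zero_add]
      by_cases hn : n < 2 ^ (b + 1)
      · rw [if_pos (by omega), if_pos (by omega)]
      · rw [if_neg (by omega), if_neg (by omega)]

theorem tp_dy {r : ℕ} (κ : Fin r → Fin 3) (y w : ℕ) :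
    Tp κ y w = ∑ j ∈ Fintype.piFinset (fun i => range (top (κ i) y w)), Pp κ j := by
  unfold Tp Pp lot
  simp only [Dy_seg]
  exact Finset.prod_univ_sum _ _

end Pool.Agent.H88.PSI
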