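import Pool.Agent.H88.PSI.Defs

/-!
# PSI HB: the Heath-Brown identity (k = 3)

`M = seg 2 1 (2^w)` (`μ` on `[1, 2^w)`), `Z = hi 0 1` (`1` on `n ≥ 1`), `G = hi 1 1` (`log`).
`(1 - Z M)(n) = 0` for `n < 2^w`, so `La (1 - Z M)^3` vanishes at `n < (2^w)^3`; `La Z = G`; so
`La = 3 G M - 3 G Z M^2 + G Z^2 M^3` there.  Split `G = hi 1 Y + seg 1 1 Y`, `Z = hi 0 Y + seg 0 1 Y`, `Y = 2^y`, in the
part with `seg 1 1 Y`; `seg 1 1 Y * M` vanishes at `n ≥ 2^y 2^w`.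
-/

set_option autoImplicit false

namespace Pool.Agent.H88.PSI

open ArithmeticFunction in
private theorem HB_vanish {f g : ArithmeticFunction ℝ} {a b n : ℕ} (hf : ∀ m < a, f m = 0)
    (hg : ∀ m < b, g m = 0) (hn : n < a * b) : (f * g) n = 0 := by
  rw [ArithmeticFunction.mul_apply]
  refine Finset.sum_eq_zero fun x hx => ?_
  have h1 : x.1 * x.2 = n := (Nat.mem_divisorsAntidiagonal.1 hx).1
  rcases lt_or_ge x.1 a with h2 | h2
  · rw [hf _ h2, zero_mul]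
  · rcases lt_or_ge x.2 b with h3 | h3
    · rw [hg _ h3, mul_zero]
    · exact absurd (Nat.mul_le_mul h2 h3) (by omega)

private theorem HB_vanish' {f g : ArithmeticFunction ℝ} {a b n : ℕ} (hf : ∀ m, a ≤ m → f m = 0)
    (hg : ∀ m, b ≤ m → g m = 0) (hn : a * b ≤ n) (hn0 : n ≠ 0) : (f * g) n = 0 := by
  rw [ArithmeticFunction.mul_apply]
  refine Finset.sum_eq_zero fun x hx => ?_
  have h1 : x.1 * x.2 = n := (Nat.mem_divisorsAntidiagonal.1 hx).1
  rcases lt_or_ge x.1 a with h2 | h2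
  · rcases lt_or_ge x.2 b with h3 | h3
    · exfalso
      have h4 : x.1 * x.2 ≤ x.1 * b := Nat.mul_le_mul_left _ h3.le
      have h5 : x.1 * b ≤ a * b := Nat.mul_le_mul_right _ h2.le
      have h6 : 0 < x.1 := by
        rcases Nat.eq_zero_or_pos x.1 with h | h
        · rw [h, zero_mul] at h1
          exact absurd h1.symm hn0
        · exact h
      have h7 : x.1 * x.2 < x.1 * b := Nat.mul_lt_mul_of_pos_left h3 h6
      omega
    · rw [hg _ h3, mul_zero]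
  · rw [hf _ h2, zero_mul]

private theorem HB_three (f : ArithmeticFunction ℝ) : (3 : ℝ) • f = 3 * f := by
  have h : (3 : ArithmeticFunction ℝ) * f = f + f + f := by ring
  rw [h]
  ext n
  simp only [ArithmeticFunction.add_apply]
  rw [show ((3 : ℝ) • f) n = 3 * f n from rfl]
  ring

private theorem HB_Z : hi 0 1 = ((ArithmeticFunction.zeta : ArithmeticFunction ℕ) :
    ArithmeticFunction ℝ) := by
  ext n
  rw [ArithmeticFunction.natCoe_apply, ArithmeticFunction.zeta_apply]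
  show (if n ≠ 0 ∧ 1 ≤ n then kf 0 n else 0) = _
  by_cases hn : n = 0
  · simp [hn]
  · have : 1 ≤ n := Nat.one_le_iff_ne_zero.2 hn
    simp [hn, this, kf]

private theorem HB_G : La * hi 0 1 = hi 1 1 := by
  rw [HB_Z]
  unfold La
  rw [ArithmeticFunction.vonMangoldt_mul_zeta]
  ext n
  rw [ArithmeticFunction.log_apply]
  show _ = (if n ≠ 0 ∧ 1 ≤ n then kf 1 n else 0)
  by_cases hn : n = 0
  · simp [hn]
  · have : 1 ≤ n := Nat.one_le_iff_ne_zero.2 hn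
    simp [hn, this, kf]

private theorem HB_ZM (w n : ℕ) (hn : n < 2 ^ w) : (1 - hi 0 1 * seg 2 1 (2 ^ w)) n = 0 := by
  have h1 : (hi 0 1 * ((ArithmeticFunction.moebius : ArithmeticFunction ℤ) :
      ArithmeticFunction ℝ)) = 1 := by
    rw [HB_Z]
    exact ArithmeticFunction.coe_zeta_mul_coe_moebius
  have h2 : (hi 0 1 * seg 2 1 (2 ^ w)) n = (1 : ArithmeticFunction ℝ) n := by
    rw [← h1, ArithmeticFunction.mul_apply, ArithmeticFunction.mul_apply]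
    refine Finset.sum_congr rfl fun x hx => ?_
    obtain ⟨h3, h4⟩ := Nat.mem_divisorsAntidiagonal.1 hx
    congr 1
    have h5 : x.2 ≠ 0 := by
      intro h
      rw [h, mul_zero] at h3
      exact h4 h3.symm
    have h6 : x.2 ∣ n := ⟨x.1, by rw [← h3, mul_comm]⟩
    have h7 : x.2 ≤ n := Nat.le_of_dvd (Nat.pos_of_ne_zero h4) h6
    rw [ArithmeticFunction.intCoe_apply]
    show (if x.2 ≠ 0 ∧ 1 ≤ x.2 ∧ x.2 < 2 ^ w then kf 2 x.2 else 0) = _
    rw [if_pos ⟨h5, Nat.one_le_iff_ne_zero.2 h5, lt_of_le_of_lt h7 hn⟩]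
    simp [kf]
  have h3 : (1 - hi 0 1 * seg 2 1 (2 ^ w)) n =
      (1 : ArithmeticFunction ℝ) n - (hi 0 1 * seg 2 1 (2 ^ w)) n := rfl
  rw [h3, h2, sub_self]

private theorem HB_split (k : Fin 3) (Y : ℕ) : hi k 1 = hi k Y + seg k 1 Y := by
  ext n
  rw [ArithmeticFunction.add_apply]
  show (if n ≠ 0 ∧ 1 ≤ n then kf k n else 0) =
    (if n ≠ 0 ∧ Y ≤ n then kf k n else 0) + (if n ≠ 0 ∧ 1 ≤ n ∧ n < Y then kf k n else 0)
  by_cases hn : n = 0
  · simp [hn]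
  · have h1 : 1 ≤ n := Nat.one_le_iff_ne_zero.2 hn
    rcases lt_or_ge n Y with h2 | h2
    · simp [hn, h1, h2, not_le.2 h2]
    · simp [hn, h1, h2, not_lt.2 h2]

private theorem HB_T4 (y w : ℕ) : Tp k4 y w =
    seg 1 1 (2 ^ y) * seg 0 1 (2 ^ y) * seg 2 1 (2 ^ w) * seg 2 1 (2 ^ w) := by
  unfold Tp
  rw [Fin.prod_univ_four]
  rfl

private theorem HB_T6 (y w : ℕ) : Tp k6 y w =
    seg 1 1 (2 ^ y) * seg 0 1 (2 ^ y) * seg 0 1 (2 ^ y) * seg 2 1 (2 ^ w) * seg 2 1 (2 ^ w) *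
      seg 2 1 (2 ^ w) := by
  unfold Tp
  rw [Fin.prod_univ_six]
  rfl

theorem hb (y w n : ℕ) (h1 : n < (2 ^ w) ^ 3) (h2 : 2 ^ y * 2 ^ w ≤ n) :
    La n = (hi 1 (2 ^ y) * cA w) n + (hi 0 (2 ^ y) * cB y w) n
      - 3 * (Tp k4 y w) n + (Tp k6 y w) n := by
  set M := seg 2 1 (2 ^ w) with hM
  set Z := hi 0 1 with hZ
  set Zh := hi 0 (2 ^ y) with hZh
  set Zl := seg 0 1 (2 ^ y) with hZl
  set g := seg 1 1 (2 ^ y) with hg
  set Gh := hi 1 (2 ^ y) with hGh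
  have eZ : Z = Zh + Zl := HB_split 0 (2 ^ y)
  have eG : La * Z = Gh + g := by
    rw [hZ, HB_G]
    exact HB_split 1 (2 ^ y)
  have v1 : ∀ m < 2 ^ w, (1 - Z * M) m = 0 := fun m hm => HB_ZM w m hm
  have v2 : ∀ m < 2 ^ w * 2 ^ w, ((1 - Z * M) * (1 - Z * M)) m = 0 :=
    fun m hm => HB_vanish v1 v1 hm
  have v3 : ∀ m < 2 ^ w * 2 ^ w * 2 ^ w, ((1 - Z * M) * (1 - Z * M) * (1 - Z * M)) m = 0 :=
    fun m hm => HB_vanish v2 v1 hm
  have v4 : (La * ((1 - Z * M) * (1 - Z * M) * (1 - Z * M))) n = 0 := by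
    refine HB_vanish (a := 1) (b := 2 ^ w * 2 ^ w * 2 ^ w) ?_ v3 ?_
    · intro m hm
      have : m = 0 := by omega
      rw [this]
      exact ArithmeticFunction.map_zero
    · calc n < (2 ^ w) ^ 3 := h1
        _ = 1 * (2 ^ w * 2 ^ w * 2 ^ w) := by ring
  have hn0 : n ≠ 0 := by
    have : 0 < 2 ^ y * 2 ^ w := by positivity
    omega
  have v5 : (g * M) n = 0 := by
    refine HB_vanish' (a := 2 ^ y) (b := 2 ^ w) ?_ ?_ h2 hn0
    · intro m hm
      show (if m ≠ 0 ∧ 1 ≤ m ∧ m < 2 ^ y then kf 1 m else 0) = 0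
      rw [if_neg]
      rintro ⟨_, _, h⟩
      omega
    · intro m hm
      show (if m ≠ 0 ∧ 1 ≤ m ∧ m < 2 ^ w then kf 2 m else 0) = 0
      rw [if_neg]
      rintro ⟨_, _, h⟩
      omega
  have key : La = Gh * cA w + Zh * cB y w - 3 * Tp k4 y w + Tp k6 y w + 3 * (g * M) +
      La * ((1 - Z * M) * (1 - Z * M) * (1 - Z * M)) := by
    have e1 : La * ((1 - Z * M) * (1 - Z * M) * (1 - Z * M)) =
        La - (La * Z) * (3 * M - 3 * (Z * M ^ 2) + Z ^ 2 * M ^ 3) := by ring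
    have e2 : cA w = 3 * M - 3 * (Z * M ^ 2) + Z ^ 2 * M ^ 3 := by
      unfold cA
      rw [HB_three, HB_three]
    have e3 : cB y w = g * (Z + Zl) * M ^ 3 - 3 * (g * M ^ 2) := by
      unfold cB
      rw [HB_three]
    rw [e1, eG, HB_T4, HB_T6, e2, e3, eZ]
    ring
  have e4 : ∀ f : ArithmeticFunction ℝ, (3 * f) n = 3 * f n := by
    intro f
    rw [← HB_three]
    rfl
  calc La n = (Gh * cA w + Zh * cB y w - 3 * Tp k4 y w + Tp k6 y w + 3 * (g * M) +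
      La * ((1 - Z * M) * (1 - Z * M) * (1 - Z * M))) n := by rw [← key]
    _ = (Gh * cA w) n + (Zh * cB y w) n - (3 * Tp k4 y w) n + (Tp k6 y w) n + (3 * (g * M)) n +
      (La * ((1 - Z * M) * (1 - Z * M) * (1 - Z * M))) n := rfl
    _ = _ := by
      rw [e4, e4, v4, v5]
      ring

end Pool.Agent.H88.PSI
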