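import Pool.Agent.H88.PSI.BoxC
import Pool.Agent.H88.PSI.Chi
import Pool.Agent.H88.PSI.Dy

/-!
# PSI Tii: the terms of type II

`tp_dy`: `cl d u (Tp κ y w)` (and `tw χ (Tp κ y w)`) is a sum over `≤ (2 L)^6` boxes `j` (`y, w ≤ 2 L`), Cauchy-Schwarz:
`|D(Tp)|^2 ≤ (2L)^6 ∑_j |D(Pp)|^2`; `box_c` with `A + 13`; `chi_cl`.
-/

set_option autoImplicit false

namespace Pool.Agent.H88.PSI

open Finset

private theorem Tii_sum {ι : Type*} (s : Finset ι) (f : ι → ArithmeticFunction ℝ) (n : ℕ) :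
    (∑ i ∈ s, f i) n = ∑ i ∈ s, f i n := by
  classical
  induction s using Finset.induction_on with
  | empty => rw [Finset.sum_empty, Finset.sum_empty, ArithmeticFunction.zero_apply]
  | insert i s hi ih =>
    rw [Finset.sum_insert hi, Finset.sum_insert hi, ArithmeticFunction.add_apply, ih]

private theorem Tii_tw {ι : Type*} {d : ℕ} (χ : DirichletCharacter ℂ d) (s : Finset ι)
    (f : ι → ArithmeticFunction ℝ) :
    (⇑(tw χ (∑ i ∈ s, f i)) : ℕ → ℂ) = fun n => ∑ i ∈ s, (tw χ (f i)) n := by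
  funext n
  show ((((∑ i ∈ s, f i) n : ℝ) : ℂ)) * χ (n : ZMod d) =
    ∑ i ∈ s, ((f i n : ℝ) : ℂ) * χ (n : ZMod d)
  rw [Tii_sum, Complex.ofReal_sum, Finset.sum_mul]

private theorem Tii_cs {ι : Type*} (s : Finset ι) (a : ι → ℂ) :
    ‖∑ i ∈ s, a i‖ ^ 2 ≤ (s.card : ℝ) * ∑ i ∈ s, ‖a i‖ ^ 2 :=
  (pow_le_pow_left₀ (norm_nonneg _) (norm_sum_le _ _) 2).trans sq_sum_le_card_mul_sum_sq

private theorem Tii_exp {X b : ℕ} (hX : 1 ≤ X) (h : (2 : ℝ) ^ b ≤ (X : ℝ) ^ (11 / 24 : ℝ)) :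
    (b : ℝ) ≤ Real.log X := by
  have hX0 : (0 : ℝ) < X := by exact_mod_cast hX
  have h1 := Real.log_le_log (by positivity) h
  rw [Real.log_pow, Real.log_rpow hX0] at h1
  have h2 := Real.log_two_gt_d9
  have h3 : 0 ≤ Real.log X := Real.log_natCast_nonneg X
  have h4 : (b : ℝ) * (1 / 2) ≤ (b : ℝ) * Real.log 2 :=
    mul_le_mul_of_nonneg_left (by linarith) (by positivity)
  linarith

theorem tii (e : ℝ) (he : 0 < e) (A B : ℕ) : ∃ A0 : ℕ, ∀ A1 : ℕ, A0 ≤ A1 → ∃ X0 : ℕ,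
    ∀ X : ℕ, X0 ≤ X → ∀ (r d u H H1 y w : ℕ) (κ : Fin r → Fin 3), r ≤ 6 → 1 ≤ d →
    (d : ℝ) ≤ Real.log X ^ B → Nat.Coprime u d →
    (X : ℝ) ^ (1 / 6 + e) ≤ H → (H : ℝ) ≤ (X : ℝ) ^ (1 / 3 : ℝ) → H1 = ⌊X / Real.log X ^ A1⌋₊ →
    (2 : ℝ) ^ y ≤ (X : ℝ) ^ (11 / 24 : ℝ) → (2 : ℝ) ^ w ≤ (X : ℝ) ^ (11 / 24 : ℝ) →
    ∑ x ∈ Ico X (2 * X), ‖D (cl d u (Tp κ y w)) H H1 x‖ ^ 2 ≤ X / Real.log X ^ A := by
  obtain ⟨A0, hA0⟩ := box_c e he (A + 12) B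
  refine ⟨A0, fun A1 hA1 => ?_⟩
  obtain ⟨X0, hX0⟩ := hA0 A1 hA1
  refine ⟨max X0 3, fun X hX r d u H H1 y w κ hr hd hdB hu hH hH' hH1 hy hw => ?_⟩
  have hXX0 : X0 ≤ X := (le_max_left _ _).trans hX
  have hX3 : 3 ≤ X := (le_max_right _ _).trans hX
  have hX1 : 1 ≤ X := by omega
  have hXr : (0 : ℝ) < X := by exact_mod_cast hX1
  have hL1 : 1 ≤ Real.log X := by
    rw [Real.le_log_iff_exp_le hXr]
    have h1 : Real.exp 1 ≤ 3 := by linarith [Real.exp_one_lt_d9]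
    exact h1.trans (by exact_mod_cast hX3)
  set L := Real.log X with hL
  set S := Fintype.piFinset (fun i => range (top (κ i) y w)) with hS
  have hcard : (S.card : ℝ) ≤ L ^ 6 := by
    rw [hS, Fintype.card_piFinset]
    push_cast
    simp only [Finset.card_range]
    have h1 : ∀ i : Fin r, ((top (κ i) y w : ℕ) : ℝ) ≤ L := by
      intro i
      unfold top
      split_ifs
      · exact Tii_exp hX1 hw
      · exact Tii_exp hX1 hy
    calc ∏ i : Fin r, ((top (κ i) y w : ℕ) : ℝ) ≤ ∏ _i : Fin r, L :=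
          Finset.prod_le_prod (fun i _ => Nat.cast_nonneg _) (fun i _ => h1 i)
      _ = L ^ r := by rw [Finset.prod_const, Finset.card_univ, Fintype.card_fin]
      _ ≤ L ^ 6 := pow_le_pow_right₀ hL1 hr
  refine chi_cl (Tp κ y w) d u H H1 (Ico X (2 * X)) _ hd hu ?_
  intro χ
  have hbox : ∀ j ∈ S, ∑ x ∈ Ico X (2 * X), ‖D (tw χ (Pp κ j)) H H1 x‖ ^ 2 ≤
      X / L ^ (A + 12) := by
    intro j hj
    rw [hS, Fintype.mem_piFinset] at hj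
    refine hX0 X hXX0 r d H H1 χ κ j hr hd hdB hH hH' hH1 ?_
    intro i
    have h1 := hj i
    rw [Finset.mem_range] at h1
    unfold top at h1
    split_ifs at h1 with h2
    · exact (pow_le_pow_right₀ (by norm_num) h1.le).trans hw
    · exact (pow_le_pow_right₀ (by norm_num) h1.le).trans hy
  have hD : ∀ x, D (tw χ (Tp κ y w)) H H1 x = ∑ j ∈ S, D (tw χ (Pp κ j)) H H1 x := by
    intro x
    rw [tp_dy, Tii_tw]
    exact d_sum S (fun j => (⇑(tw χ (Pp κ j)) : ℕ → ℂ)) H H1 x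
  have hL0 : 0 < L := by linarith
  calc ∑ x ∈ Ico X (2 * X), ‖D (tw χ (Tp κ y w)) H H1 x‖ ^ 2
      ≤ ∑ x ∈ Ico X (2 * X), (S.card : ℝ) * ∑ j ∈ S, ‖D (tw χ (Pp κ j)) H H1 x‖ ^ 2 := by
        refine Finset.sum_le_sum fun x _ => ?_
        rw [hD]
        exact Tii_cs S _
    _ = (S.card : ℝ) * ∑ j ∈ S, ∑ x ∈ Ico X (2 * X), ‖D (tw χ (Pp κ j)) H H1 x‖ ^ 2 := by
        rw [← Finset.mul_sum, Finset.sum_comm]
    _ ≤ (S.card : ℝ) * ∑ _j ∈ S, (X : ℝ) / L ^ (A + 12) := by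
        refine mul_le_mul_of_nonneg_left (Finset.sum_le_sum hbox) (Nat.cast_nonneg _)
    _ = (S.card : ℝ) * S.card * (X / L ^ (A + 12)) := by
        rw [Finset.sum_const, nsmul_eq_mul]
        ring
    _ ≤ L ^ 6 * L ^ 6 * (X / L ^ (A + 12)) := by gcongr
    _ = X / L ^ A := by
        rw [pow_add]
        field_simp

end Pool.Agent.H88.PSI
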