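import Pool.Agent.H88.PSI.Ti
import Pool.Agent.H88.PSI.Tii
import Pool.Agent.H88.PSI.HB

/-!
# PSI Asm: short average of `Λ` minus long average

`y` maximal with `2^y ≤ X^(11/24)`, `w` with `2 X^(1/3) ≤ 2^w ≤ 4 X^(1/3)`; `hb` for `X < n ≤ 3X`; `ti` for `cA` (`k = 1`) and `cB` (`k = 0`)
(`cA_bd`, `cB_bd`, `5 (y+1) ≤ 20 L`), `tii` for `k4`, `k6`; `A0` = maximum, `A1 = A0`; `|a+b-3c+e|^2 ≤ 4(|a|^2+|b|^2+9|c|^2+|e|^2)`.
-/

set_option autoImplicit false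

namespace Pool.Agent.H88.PSI

open Finset

private theorem Asm_congr {X H H1 x : ℕ} (h1 : X ≤ x) (h2 : x < 2 * X) (hH : H ≤ X) (hH1 : H1 ≤ X)
    {f g : ℕ → ℂ} (h : ∀ n, X < n → n ≤ 3 * X → f n = g n) : D f H H1 x = D g H H1 x := by
  unfold D W
  have e1 : ∑ n ∈ Ioc x (x + H), f n = ∑ n ∈ Ioc x (x + H), g n := by
    refine Finset.sum_congr rfl fun n hn => ?_
    rw [Finset.mem_Ioc] at hn
    exact h n (by omega) (by omega)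
  have e2 : ∑ n ∈ Ioc x (x + H1), f n = ∑ n ∈ Ioc x (x + H1), g n := by
    refine Finset.sum_congr rfl fun n hn => ?_
    rw [Finset.mem_Ioc] at hn
    exact h n (by omega) (by omega)
  rw [e1, e2]

private theorem Asm_lin (a b c e : ℕ → ℂ) (H H1 x : ℕ) :
    D (fun n => a n + b n - 3 * c n + e n) H H1 x =
      D a H H1 x + D b H H1 x - 3 * D c H H1 x + D e H H1 x := by
  unfold D W
  simp only [Finset.sum_add_distrib, Finset.sum_sub_distrib, ← Finset.mul_sum]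
  ring

private theorem Asm_norm (a b c e : ℂ) :
    ‖a + b - 3 * c + e‖ ^ 2 ≤ 4 * (‖a‖ ^ 2 + ‖b‖ ^ 2 + 9 * ‖c‖ ^ 2 + ‖e‖ ^ 2) := by
  have h1 : ‖a + b - 3 * c + e‖ ≤ ‖a‖ + ‖b‖ + 3 * ‖c‖ + ‖e‖ := by
    have h2 := norm_add_le (a + b - 3 * c) e
    have h3 := norm_sub_le (a + b) (3 * c)
    have h4 := norm_add_le a b
    have h5 : ‖3 * c‖ = 3 * ‖c‖ := by rw [norm_mul]; norm_num
    linarith
  have h2 : ‖a + b - 3 * c + e‖ ^ 2 ≤ (‖a‖ + ‖b‖ + 3 * ‖c‖ + ‖e‖) ^ 2 :=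
    pow_le_pow_left₀ (norm_nonneg _) h1 2
  refine h2.trans ?_
  nlinarith [sq_nonneg (‖a‖ - ‖b‖), sq_nonneg (‖a‖ - 3 * ‖c‖), sq_nonneg (‖a‖ - ‖e‖),
    sq_nonneg (‖b‖ - 3 * ‖c‖), sq_nonneg (‖b‖ - ‖e‖), sq_nonneg (3 * ‖c‖ - ‖e‖)]

private theorem Asm_log {z : ℝ} (hz : 1 ≤ z) : ∃ y : ℕ, (2 : ℝ) ^ y ≤ z ∧ z < 2 * (2 : ℝ) ^ y := by
  have h0 : ⌊z⌋₊ ≠ 0 := by
    have : 1 ≤ ⌊z⌋₊ := Nat.le_floor (by exact_mod_cast hz)
    omega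
  refine ⟨Nat.log 2 ⌊z⌋₊, ?_, ?_⟩
  · have h1 : 2 ^ Nat.log 2 ⌊z⌋₊ ≤ ⌊z⌋₊ := Nat.pow_log_le_self 2 h0
    have h2 : ((2 ^ Nat.log 2 ⌊z⌋₊ : ℕ) : ℝ) ≤ (⌊z⌋₊ : ℝ) := by exact_mod_cast h1
    have h3 : (⌊z⌋₊ : ℝ) ≤ z := Nat.floor_le (by linarith)
    push_cast at h2
    linarith
  · have h1 : ⌊z⌋₊ < 2 ^ (Nat.log 2 ⌊z⌋₊ + 1) := Nat.lt_pow_succ_log_self (by norm_num) _
    have h2 := (Nat.floor_lt (by linarith)).1 h1
    push_cast at h2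
    rw [pow_succ] at h2
    linarith

theorem asm (e : ℝ) (he : 0 < e) (A B : ℕ) : ∃ A0 : ℕ, ∀ A1 : ℕ, A0 ≤ A1 → ∃ X0 : ℕ,
    ∀ X : ℕ, X0 ≤ X → ∀ (d u H H1 : ℕ), 1 ≤ d →
    (d : ℝ) ≤ Real.log X ^ B → Nat.Coprime u d →
    (X : ℝ) ^ (1 / 6 + e) ≤ H → (H : ℝ) ≤ (X : ℝ) ^ (1 / 3 : ℝ) → H1 = ⌊X / Real.log X ^ A1⌋₊ →
    ∑ x ∈ Ico X (2 * X), ‖D (cl d u La) H H1 x‖ ^ 2 ≤ X / Real.log X ^ A := by
  obtain ⟨a1, h1⟩ := ti (A + 1) B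
  obtain ⟨a2, h2⟩ := tii e he (A + 1) B
  refine ⟨max a1 a2, fun A1 hA1 => ?_⟩
  obtain ⟨X1, h3⟩ := h1 A1 ((le_max_left _ _).trans hA1)
  obtain ⟨X2, h4⟩ := h2 A1 ((le_max_right _ _).trans hA1)
  obtain ⟨X3, h5⟩ : ∃ X3 : ℕ, ∀ X : ℕ, X3 ≤ X → (48 : ℝ) ≤ Real.log X := by
    have := Real.tendsto_log_atTop.comp tendsto_natCast_atTop_atTop
    exact Filter.eventually_atTop.1 (this.eventually (Filter.eventually_ge_atTop 48))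
  obtain ⟨X4, h6⟩ : ∃ X4 : ℕ, ∀ X : ℕ, X4 ≤ X → (4 : ℝ) ≤ (X : ℝ) ^ (1 / 8 : ℝ) := by
    have := (tendsto_rpow_atTop (show (0 : ℝ) < 1 / 8 by norm_num)).comp
      tendsto_natCast_atTop_atTop
    exact Filter.eventually_atTop.1 (this.eventually (Filter.eventually_ge_atTop 4))
  refine ⟨X1 + X2 + X3 + X4 + 1, fun X hX d u H H1 hd hdB hu hH hH' hH1 => ?_⟩
  have hL := h5 X (by omega)
  have hX8 := h6 X (by omega)
  have hXN : 1 ≤ X := by omega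
  have hX1 : (1 : ℝ) ≤ X := by exact_mod_cast hXN
  have hX0 : (0 : ℝ) < X := by linarith
  obtain ⟨y, hy1, hy2⟩ := Asm_log (z := (X : ℝ) ^ (11 / 24 : ℝ))
    (Real.one_le_rpow hX1 (by norm_num))
  obtain ⟨w, hw1, hw2⟩ := Asm_log (z := (X : ℝ) ^ (1 / 3 : ℝ))
    (Real.one_le_rpow hX1 (by norm_num))
  -- sizes
  have hww : (2 : ℝ) ^ (w + 2) ≤ (X : ℝ) ^ (11 / 24 : ℝ) := by
    rw [pow_add]
    have e1 : (X : ℝ) ^ (11 / 24 : ℝ) = (X : ℝ) ^ (1 / 3 : ℝ) * (X : ℝ) ^ (1 / 8 : ℝ) := by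
      rw [← Real.rpow_add hX0]
      norm_num
    rw [e1]
    have e2 : (0 : ℝ) ≤ (X : ℝ) ^ (1 / 3 : ℝ) := by positivity
    have e3 : (0 : ℝ) < 2 ^ w := by positivity
    nlinarith
  have hcube : (8 : ℝ) * X ≤ ((2 : ℝ) ^ (w + 2)) ^ 3 := by
    have e1 : ((X : ℝ) ^ (1 / 3 : ℝ)) ^ 3 = X := by
      rw [← Real.rpow_natCast, ← Real.rpow_mul hX0.le]
      norm_num
    have e2 : 2 * (X : ℝ) ^ (1 / 3 : ℝ) ≤ (2 : ℝ) ^ (w + 2) := by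
      rw [pow_add]
      linarith
    calc (8 : ℝ) * X = (2 * (X : ℝ) ^ (1 / 3 : ℝ)) ^ 3 := by rw [mul_pow, e1]; norm_num
      _ ≤ _ := pow_le_pow_left₀ (by positivity) e2 3
  have hyw : (2 : ℝ) ^ y * (2 : ℝ) ^ (w + 2) ≤ X := by
    have e1 : (2 : ℝ) ^ (w + 2) ≤ 4 * (X : ℝ) ^ (1 / 3 : ℝ) := by
      rw [pow_add]
      linarith
    have e2 : (X : ℝ) ^ (11 / 24 : ℝ) * (4 * (X : ℝ) ^ (1 / 3 : ℝ)) ≤ X := by
      have e3 : (X : ℝ) ^ (1 / 12 : ℝ) * ((X : ℝ) ^ (11 / 24 : ℝ) * ((X : ℝ) ^ (1 / 8 : ℝ) *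
          (X : ℝ) ^ (1 / 3 : ℝ))) = X := by
        rw [← Real.rpow_add hX0, ← Real.rpow_add hX0, ← Real.rpow_add hX0]
        norm_num
      have e4 : (1 : ℝ) ≤ (X : ℝ) ^ (1 / 12 : ℝ) := Real.one_le_rpow hX1 (by norm_num)
      have e5 : (X : ℝ) ^ (11 / 24 : ℝ) * (4 * (X : ℝ) ^ (1 / 3 : ℝ)) ≤
          (X : ℝ) ^ (11 / 24 : ℝ) * ((X : ℝ) ^ (1 / 8 : ℝ) * (X : ℝ) ^ (1 / 3 : ℝ)) :=
        mul_le_mul_of_nonneg_left (mul_le_mul_of_nonneg_right hX8 (by positivity)) (by positivity)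
      have e6 : 1 * ((X : ℝ) ^ (11 / 24 : ℝ) * ((X : ℝ) ^ (1 / 8 : ℝ) * (X : ℝ) ^ (1 / 3 : ℝ))) ≤
          (X : ℝ) ^ (1 / 12 : ℝ) * ((X : ℝ) ^ (11 / 24 : ℝ) * ((X : ℝ) ^ (1 / 8 : ℝ) *
          (X : ℝ) ^ (1 / 3 : ℝ))) := mul_le_mul_of_nonneg_right e4 (by positivity)
      rw [e3, one_mul] at e6
      exact e5.trans e6
    exact (mul_le_mul hy1 e1 (by positivity) (by positivity)).trans e2
  have hHX : H ≤ X := by
    have e1 : (H : ℝ) ≤ X := by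
      refine hH'.trans ?_
      calc (X : ℝ) ^ (1 / 3 : ℝ) ≤ (X : ℝ) ^ (1 : ℝ) :=
            Real.rpow_le_rpow_of_exponent_le hX1 (by norm_num)
        _ = X := Real.rpow_one _
    exact_mod_cast e1
  have hH1X : H1 ≤ X := by
    rw [hH1]
    refine Nat.floor_le_of_le ?_
    exact div_le_self hX0.le (one_le_pow₀ (by linarith))
  have hH6 : (X : ℝ) ^ (1 / 6 : ℝ) ≤ H :=
    (Real.rpow_le_rpow_of_exponent_le hX1 (by linarith)).trans hH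
  have hyL : ((y : ℝ) + 1) ≤ 4 * Real.log X := by
    have e1 : Real.log ((2 : ℝ) ^ y) ≤ Real.log ((X : ℝ) ^ (11 / 24 : ℝ)) :=
      Real.log_le_log (by positivity) hy1
    rw [Real.log_pow, Real.log_rpow hX0] at e1
    have e2 := Real.log_two_gt_d9
    have e3 : (0 : ℝ) ≤ y := Nat.cast_nonneg y
    nlinarith
  -- the four terms
  have t1 := h3 X (by omega) d u H H1 (2 ^ y) 1 (cA (w + 2)) (by decide) hd hdB hu hH6 hH' hH1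
    (by push_cast; linarith) (fun m => by
      refine (cA_bd (w + 2) m).trans ?_
      have e1 : 0 ≤ tau m ^ 5 := by unfold tau; positivity
      nlinarith)
  have t2 := h3 X (by omega) d u H H1 (2 ^ y) 0 (cB y (w + 2)) (by decide) hd hdB hu hH6 hH' hH1
    (by push_cast; linarith) (fun m => by
      refine (cB_bd y (w + 2) m).trans ?_
      have e1 : 0 ≤ tau m ^ 5 := by unfold tau; positivity
      nlinarith)
  have t3 := h4 X (by omega) 4 d u H H1 y (w + 2) k4 (by norm_num) hd hdB hu hH hH' hH1 hy1 hww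
  have t4 := h4 X (by omega) 6 d u H H1 y (w + 2) k6 (by norm_num) hd hdB hu hH hH' hH1 hy1 hww
  set f1 : ℕ → ℂ := cl d u (hi 1 (2 ^ y) * cA (w + 2)) with hf1
  set f2 : ℕ → ℂ := cl d u (hi 0 (2 ^ y) * cB y (w + 2)) with hf2
  set f3 : ℕ → ℂ := cl d u (Tp k4 y (w + 2)) with hf3
  set f4 : ℕ → ℂ := cl d u (Tp k6 y (w + 2)) with hf4
  have hid : ∀ n, X < n → n ≤ 3 * X → cl d u La n = f1 n + f2 n - 3 * f3 n + f4 n := by
    intro n hn1 hn2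
    have e1 : n < (2 ^ (w + 2)) ^ 3 := by
      have e2 : (n : ℝ) < ((2 : ℝ) ^ (w + 2)) ^ 3 := by
        have e3 : (n : ℝ) ≤ 3 * X := by exact_mod_cast hn2
        linarith
      exact_mod_cast e2
    have e2 : 2 ^ y * 2 ^ (w + 2) ≤ n := by
      have e3 : ((2 : ℝ) ^ y * (2 : ℝ) ^ (w + 2)) ≤ n := by
        have e4 : (X : ℝ) ≤ n := by exact_mod_cast hn1.le
        linarith
      exact_mod_cast e3
    have e3 := hb y (w + 2) n e1 e2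
    simp only [hf1, hf2, hf3, hf4, cl]
    by_cases e4 : n % d = u % d
    · rw [if_pos e4, if_pos e4, if_pos e4, if_pos e4, if_pos e4, e3]
      push_cast
      ring
    · rw [if_neg e4, if_neg e4, if_neg e4, if_neg e4, if_neg e4]
      ring
  have hpt : ∀ x ∈ Ico X (2 * X), ‖D (cl d u La) H H1 x‖ ^ 2 ≤
      4 * (‖D f1 H H1 x‖ ^ 2 + ‖D f2 H H1 x‖ ^ 2 + 9 * ‖D f3 H H1 x‖ ^ 2 + ‖D f4 H H1 x‖ ^ 2) := by
    intro x hx
    rw [Finset.mem_Ico] at hx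
    rw [Asm_congr hx.1 hx.2 hHX hH1X hid, Asm_lin]
    exact Asm_norm _ _ _ _
  refine (Finset.sum_le_sum hpt).trans ?_
  rw [← Finset.mul_sum, Finset.sum_add_distrib, Finset.sum_add_distrib, Finset.sum_add_distrib,
    ← Finset.mul_sum]
  have hLA : 0 < Real.log X ^ A := by positivity
  have e1 : (X : ℝ) / Real.log X ^ (A + 1) * 48 ≤ X / Real.log X ^ A := by
    rw [pow_succ, div_mul_eq_mul_div, div_le_div_iff₀ (by positivity) hLA]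
    have e2 : 0 ≤ (X : ℝ) * Real.log X ^ A := by positivity
    nlinarith
  linarith

end Pool.Agent.H88.PSI
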