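import Pool.Agent.H88.PSI.Defs

/-!
# PSI Bin: binary decomposition of an initial segment

Induction on `r`: if `M < 2^r`, `2^(r-1) ≤ M`: `range M = range 2^(r-1) ∪ Ico 2^(r-1) M`,
`|a+b|^2 ≤ r |a|^2 + r/(r-1) |b|^2`.  (Apply the induction hypothesis to the shifted function.)
-/

set_option autoImplicit false

namespace Pool.Agent.H88.PSI

open Finset

theorem bin_dec (r : ℕ) (f : ℕ → ℝ) (M : ℕ) (hM : M < 2 ^ r) :
    (∑ m ∈ range M, f m) ^ 2 ≤ r * ∑ l ∈ range r, ∑ j ∈ range (2 ^ (r - l)),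
      (∑ m ∈ Ico (j * 2 ^ l) ((j + 1) * 2 ^ l), f m) ^ 2 := by
  set S : ℕ → ℝ := fun l => ∑ m ∈ range (M / 2 ^ l * 2 ^ l), f m with hS
  have h0 : S 0 = ∑ m ∈ range M, f m := by simp [hS]
  have hr : S r = 0 := by simp [hS, Nat.div_eq_of_lt hM]
  have tel : ∑ m ∈ range M, f m = ∑ l ∈ range r, (S l - S (l + 1)) := by
    rw [Finset.sum_range_sub', h0, hr, sub_zero]
  have hterm : ∀ l ∈ range r, (S l - S (l + 1)) ^ 2 ≤ ∑ j ∈ range (2 ^ (r - l)),
      (∑ m ∈ Ico (j * 2 ^ l) ((j + 1) * 2 ^ l), f m) ^ 2 := by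
    intro l hl
    have hl' : l < r := mem_range.1 hl
    have hq : M / 2 ^ l < 2 ^ (r - l) := by
      refine Nat.div_lt_of_lt_mul ?_
      rw [← pow_add, Nat.add_sub_cancel' hl'.le]
      exact hM
    have hq' : M / 2 ^ (l + 1) = M / 2 ^ l / 2 := by rw [pow_succ, Nat.div_div_eq_div_mul]
    rcases Nat.even_or_odd' (M / 2 ^ l) with ⟨q, hq2 | hq2⟩
    · have e1 : M / 2 ^ (l + 1) * 2 ^ (l + 1) = M / 2 ^ l * 2 ^ l := by
        rw [hq', hq2, Nat.mul_div_cancel_left q (by norm_num), pow_succ]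
        ring
      have e2 : S l - S (l + 1) = 0 := by
        simp only [hS]
        rw [e1, sub_self]
      rw [e2, zero_pow two_ne_zero]
      exact sum_nonneg fun j _ => sq_nonneg _
    · have e0 : M / 2 ^ (l + 1) = q := by
        rw [hq', hq2]
        omega
      have e2 : S l - S (l + 1) = ∑ m ∈ Ico (2 * q * 2 ^ l) ((2 * q + 1) * 2 ^ l), f m := by
        simp only [hS]
        rw [e0, hq2, pow_succ]
        have e3 : q * (2 ^ l * 2) = 2 * q * 2 ^ l := by ring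
        rw [e3, Finset.sum_Ico_eq_sub _ (Nat.mul_le_mul_right _ (by omega))]
      rw [e2]
      exact single_le_sum (f := fun j => (∑ m ∈ Ico (j * 2 ^ l) ((j + 1) * 2 ^ l), f m) ^ 2)
        (fun j _ => sq_nonneg _) (mem_range.2 (by omega : 2 * q < 2 ^ (r - l)))
  rw [tel]
  calc (∑ l ∈ range r, (S l - S (l + 1))) ^ 2
      ≤ (range r).card * ∑ l ∈ range r, (S l - S (l + 1)) ^ 2 := sq_sum_le_card_mul_sum_sq
    _ = r * ∑ l ∈ range r, (S l - S (l + 1)) ^ 2 := by rw [card_range]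
    _ ≤ _ := mul_le_mul_of_nonneg_left (sum_le_sum hterm) (Nat.cast_nonneg r)

end Pool.Agent.H88.PSI
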