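import Pool.Agent.H88.PSI.Defs

/-!
# PSI BlkD: blocks (definitions agreed with helper43)
-/

set_option autoImplicit false

namespace Pool.Agent.H88.PSI

open Finset
open Pool.Agent.H91.PK (ee)
open Pool.Agent.H91.EHA (Lam)

/-- the block of length `H` number `i` -/
def blk (H i : ℕ) : Finset ℕ := Finset.Ico (i * H) ((i + 1) * H)

/-- `⌊N^th⌋` -/
noncomputable def Hn (th : ℝ) (N : ℕ) : ℕ := ⌊(N : ℝ) ^ th⌋₊

/-- the numbers of the blocks near `[N/2, 3N]` -/
def idx (N H : ℕ) : Finset ℕ := Finset.Icc (N / (2 * H)) (3 * N / H)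

open Classical in
/-- the blocks with a bad exponential sum over primes at a rational point with denominator `≤ L^B` -/
noncomputable def badP (N H A B : ℕ) : Finset ℕ := (idx N H).filter (fun i => ∃ r a : ℕ, 1 ≤ r ∧
  (r : ℝ) ≤ Real.log N ^ B ∧ Nat.Coprime a r ∧
  (H : ℝ) / Real.log N ^ A < ‖(∑ m ∈ blk H i, ((Lam m : ℝ) : ℂ) * ee (-((a : ℝ) * m / r)))
    - ((((ArithmeticFunction.moebius r : ℤ) : ℝ) / (r.totient : ℝ) * H : ℝ) : ℂ)‖)

end Pool.Agent.H88.PSI
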