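import Pool.Agent.H88.PSI.HuxT
import Pool.Agent.H88.PSI.BlkD
import Pool.Agent.H91.EHA.SwK1
import Pool.Agent.H91.EHA.SwK2

/-!
# PSI Blk: all but few blocks are good

`∑_{m ∈ blk} Lam m ee(-a m/r) = ∑_{u mod r} ee(-a u/r) ∑_{m ≡ u} Lam m`; classes with `(u, r) > 1` contribute `≤ r L^2`-ish (powers of primes dividing `r`),
`∑_{(u,r)=1} ee(-a u/r) = μ(r)` (Ramanujan sum, `(a, r) = 1`).  A bad block `i` has a class `u` with
`|W(cl r u La) H (iH-1) - H/φ(r)| > H/(2 L^(A+B))`, hence `|W(cl r u La) H x - H/φ(r)| > H/(4 L^(A+B))` for the `x` with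
`iH - 1 ≤ x ≤ iH - 1 + H/(16 L^(A+B+1))` (`Λ ≤ 2L`).  Sum over `r`, `u` (`≤ L^(2B)` pairs) and Chebyshev with `hux` (exponent `A' = 4A + 5B + 2`) on
`[X, 2X)` for `X = ⌊N/3⌋, 2⌊N/3⌋, 4⌊N/3⌋, 8⌊N/3⌋` (they cover `[N/2 - H, 3N + H]`).
-/

set_option autoImplicit false

namespace Pool.Agent.H88.PSI

open Finset
open Pool.Agent.H91.PK (ee)
open Pool.Agent.H91.EHA (Lam ramS ramS_eq swk1E swk1E_le)

private lemma Blk_norm_ee (t : ℝ) : ‖ee t‖ = 1 := by
  unfold ee
  rw [Complex.norm_exp]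
  simp

private lemma Blk_conj_ee (t : ℝ) : (starRingEnd ℂ) (ee t) = ee (-t) := by
  unfold ee
  rw [← Complex.exp_conj]
  congr 1
  simp only [map_mul, Complex.conj_ofReal, Complex.conj_I, map_ofNat]
  push_cast
  ring

private lemma Blk_ee_mod (a m r : ℕ) (hr : 1 ≤ r) :
    ee (-((a : ℝ) * m / r)) = ee (-((a : ℝ) * (m % r : ℕ) / r)) := by
  unfold ee
  rw [Complex.exp_eq_exp_iff_exists_int]
  refine ⟨-(a * (m / r : ℕ) : ℕ), ?_⟩
  have h : (m : ℂ) = (r : ℂ) * ((m / r : ℕ) : ℂ) + ((m % r : ℕ) : ℂ) := by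
    exact_mod_cast (Nat.div_add_mod m r).symm
  have hr0 : (r : ℂ) ≠ 0 := by exact_mod_cast (by omega : r ≠ 0)
  generalize m / r = q at *
  generalize m % r = s at *
  push_cast
  rw [h]
  field_simp
  ring

private lemma Blk_dec (a r H x : ℕ) (hr : 1 ≤ r) :
    ∑ u ∈ (range r).filter (fun u => Nat.Coprime u r),
      ee (-((a : ℝ) * u / r)) * W (cl r u La) H x =
    ∑ m ∈ (Ioc x (x + H)).filter (fun m => Nat.Coprime m r),
      ((Lam m : ℝ) : ℂ) * ee (-((a : ℝ) * m / r)) := by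
  unfold W cl
  simp_rw [mul_sum]
  rw [sum_comm, sum_filter]
  refine sum_congr rfl fun m _ => ?_
  by_cases hm : Nat.Coprime m r
  · rw [if_pos hm]
    have hmod : (m % r) % r = m % r := Nat.mod_mod m r
    have hc : Nat.Coprime (m % r) r := by
      have h1 : Nat.gcd (m % r) r = Nat.gcd m r := (Nat.mod_modEq m r).gcd_eq
      rw [Nat.Coprime, h1]
      exact hm
    rw [sum_eq_single (m % r)]
    · rw [if_pos hmod.symm, Blk_ee_mod a m r hr, mul_comm]
      rfl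
    · intro u hu hne
      rw [mem_filter, mem_range] at hu
      rw [if_neg, mul_zero]
      rw [Nat.mod_eq_of_lt hu.1]
      exact fun h => hne h.symm
    · intro h
      exact absurd (mem_filter.2 ⟨mem_range.2 (Nat.mod_lt _ hr), hc⟩) h
  · rw [if_neg hm]
    refine sum_eq_zero fun u hu => ?_
    rw [mem_filter] at hu
    rw [if_neg, mul_zero]
    intro h
    apply hm
    have h1 : Nat.gcd m r = Nat.gcd u r := Nat.ModEq.gcd_eq h
    rw [Nat.Coprime, h1]
    exact hu.2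

private lemma Blk_ram (a r : ℕ) (hr : 1 ≤ r) (ha : Nat.Coprime a r) :
    ∑ u ∈ (range r).filter (fun u => Nat.Coprime u r), ee (-((a : ℝ) * u / r)) =
      ((ArithmeticFunction.moebius r : ℤ) : ℂ) := by
  have h1 := ramS_eq r a hr
  have h2 : ramS r a = (ArithmeticFunction.moebius r : ℝ) := by
    unfold ramS
    rw [Nat.Coprime.gcd_eq_one ha.symm]
    simp
  rw [h2] at h1
  have h3 := congrArg (starRingEnd ℂ) h1
  rw [map_sum, Complex.conj_ofReal] at h3
  have h4 : ((ArithmeticFunction.moebius r : ℤ) : ℂ) =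
      ∑ b ∈ (Icc 1 r).filter (fun b => Nat.Coprime b r), ee (-((a : ℝ) * b / r)) := by
    have h5 : (((ArithmeticFunction.moebius r : ℤ) : ℝ) : ℂ) =
        ((ArithmeticFunction.moebius r : ℤ) : ℂ) := by push_cast; rfl
    rw [← h5, h3]
    exact sum_congr rfl fun b _ => Blk_conj_ee _
  rw [h4, sum_filter, sum_filter]
  have h6 : ∀ g : ℕ → ℂ, g r = g 0 → ∑ u ∈ range r, g u = ∑ u ∈ Icc 1 r, g u := by
    intro g hg
    have e1 := sum_range_succ g r
    have e2 := sum_range_succ' g r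
    have e3 : ∑ u ∈ Icc 1 r, g u = ∑ u ∈ range r, g (u + 1) := by
      rw [range_eq_Ico, sum_Ico_add' g 0 r 1]
      refine sum_congr ?_ fun _ _ => rfl
      ext n
      simp only [mem_Icc, mem_Ico]
      omega
    rw [e3]
    have e4 : ∑ u ∈ range r, g u + g r = ∑ u ∈ range r, g (u + 1) + g 0 := by
      rw [← e1, e2]
    rw [hg] at e4
    exact add_right_cancel e4
  refine h6 (fun u => if Nat.Coprime u r then ee (-((a : ℝ) * u / r)) else 0) ?_
  simp only [Nat.coprime_self, Nat.coprime_zero_left]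
  by_cases hr1 : r = 1
  · rw [if_pos hr1, if_pos hr1, Blk_ee_mod a r r hr, Nat.mod_self]
  · rw [if_neg hr1, if_neg hr1]

private lemma Blk_key {a r H x : ℕ} (hr : 1 ≤ r) (ha : Nat.Coprime a r) {δ E : ℝ} (hδ : 0 ≤ δ)
    (h1 : ∀ u, u < r → Nat.Coprime u r →
      ‖W (cl r u La) H x - (H : ℂ) / (r.totient : ℂ)‖ ≤ δ)
    (hE : swk1E (x + H) r ≤ E) :
    ‖(∑ m ∈ Ioc x (x + H), ((Lam m : ℝ) : ℂ) * ee (-((a : ℝ) * m / r)))
      - ((((ArithmeticFunction.moebius r : ℤ) : ℝ) / (r.totient : ℝ) * H : ℝ) : ℂ)‖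
      ≤ r * δ + E := by
  rw [← sum_filter_add_sum_filter_not (Ioc x (x + H)) (fun m => Nat.Coprime m r), ← Blk_dec a r H x hr]
  have h2 : ((((ArithmeticFunction.moebius r : ℤ) : ℝ) / (r.totient : ℝ) * H : ℝ) : ℂ) =
      ∑ u ∈ (range r).filter (fun u => Nat.Coprime u r),
        ee (-((a : ℝ) * u / r)) * ((H : ℂ) / (r.totient : ℂ)) := by
    rw [← sum_mul, Blk_ram a r hr ha]
    push_cast
    ring
  rw [h2, add_sub_right_comm, ← sum_sub_distrib]
  refine (norm_add_le _ _).trans (add_le_add ?_ ?_)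
  · refine (norm_sum_le_of_le _ (n := fun _ => δ) fun u hu => ?_).trans ?_
    · rw [mem_filter, mem_range] at hu
      rw [← mul_sub, norm_mul, Blk_norm_ee, one_mul]
      exact h1 u hu.1 hu.2
    · rw [sum_const, nsmul_eq_mul]
      refine mul_le_mul_of_nonneg_right ?_ hδ
      have := (card_filter_le (range r) (fun u => Nat.Coprime u r))
      rw [card_range] at this
      exact_mod_cast this
  · refine le_trans ?_ hE
    refine (norm_sum_le _ _).trans ?_
    unfold swk1E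
    refine le_trans (sum_le_sum (g := fun m => Lam m) fun m _ => ?_) ?_
    · rw [norm_mul, Blk_norm_ee, mul_one, Complex.norm_real, Real.norm_eq_abs,
        abs_of_nonneg (show 0 ≤ Lam m from ArithmeticFunction.vonMangoldt_nonneg)]
    · refine sum_le_sum_of_subset_of_nonneg ?_ fun m _ _ =>
        (show 0 ≤ Lam m from ArithmeticFunction.vonMangoldt_nonneg)
      intro m hm
      rw [mem_filter, mem_Ioc] at hm
      rw [mem_filter, mem_Icc]
      exact ⟨⟨by omega, hm.1.2⟩, hm.2⟩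

private lemma Blk_shift (f : ℕ → ℂ) {M : ℝ} (H x k : ℕ)
    (hf : ∀ n, 1 ≤ n → n ≤ x + k + H → ‖f n‖ ≤ M) :
    ‖W f H (x + k) - W f H x‖ ≤ 2 * k * M := by
  have h1 := Finset.sum_Ioc_consecutive f (Nat.le_add_right x k)
    (show x + k ≤ x + k + H by omega)
  have h2 := Finset.sum_Ioc_consecutive f (show x ≤ x + H by omega)
    (show x + H ≤ x + k + H by omega)
  have h3 : W f H (x + k) - W f H x =
      ∑ n ∈ Ioc (x + H) (x + k + H), f n - ∑ n ∈ Ioc x (x + k), f n := by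
    unfold W
    linear_combination h1 - h2
  have h4 : ‖∑ n ∈ Ioc (x + H) (x + k + H), f n‖ ≤ k * M := by
    refine (norm_sum_le_of_le _ (n := fun _ => M) fun n hn => ?_).trans ?_
    · rw [mem_Ioc] at hn
      exact hf n (by omega) hn.2
    · rw [sum_const, nsmul_eq_mul, Nat.card_Ioc]
      have : x + k + H - (x + H) = k := by omega
      rw [this]
  have h5 : ‖∑ n ∈ Ioc x (x + k), f n‖ ≤ k * M := by
    refine (norm_sum_le_of_le _ (n := fun _ => M) fun n hn => ?_).trans ?_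
    · rw [mem_Ioc] at hn
      exact hf n (by omega) (by omega)
    · rw [sum_const, nsmul_eq_mul, Nat.card_Ioc]
      have : x + k - x = k := by omega
      rw [this]
  rw [h3]
  refine (norm_sub_le _ _).trans ?_
  linarith

private lemma Blk_ev (th e C : ℝ) (k : ℕ) (hth : 0 < th) (he : 0 < e) : ∃ N0 : ℕ, ∀ N : ℕ,
    N0 ≤ N → C ≤ Real.log N ∧ C * Real.log N ^ k ≤ (N : ℝ) ^ th ∧ C ≤ (N : ℝ) ^ e ∧
      C ≤ (N : ℝ) ^ (1 / 12 : ℝ) := by
  have h1 : Filter.Tendsto (fun n : ℕ => Real.log n) Filter.atTop Filter.atTop :=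
    Real.tendsto_log_atTop.comp tendsto_natCast_atTop_atTop
  have h2 : ∀ᶠ x : ℝ in Filter.atTop, C * Real.log x ^ k ≤ x ^ th := by
    have h3 := (isLittleO_log_rpow_rpow_atTop (k : ℝ) hth).bound
      (show (0 : ℝ) < 1 / (|C| + 1) by positivity)
    filter_upwards [h3, Filter.eventually_ge_atTop (1 : ℝ)] with x hx hx0
    have hl : 0 ≤ Real.log x := Real.log_nonneg hx0
    rw [Real.rpow_natCast, Real.norm_eq_abs, abs_of_nonneg (pow_nonneg hl k), Real.norm_eq_abs,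
      abs_of_nonneg (Real.rpow_nonneg (by linarith) th), div_mul_eq_mul_div, one_mul,
      le_div_iff₀ (by positivity)] at hx
    have h4 : C * Real.log x ^ k ≤ Real.log x ^ k * (|C| + 1) := by
      have := le_abs_self C
      have := pow_nonneg hl k
      nlinarith
    linarith
  have h5 : ∀ s : ℝ, 0 < s → ∀ᶠ x : ℝ in Filter.atTop, C ≤ x ^ s := fun s hs =>
    (tendsto_rpow_atTop hs).eventually_ge_atTop C
  have h6 := (h1.eventually_ge_atTop C).and (tendsto_natCast_atTop_atTop.eventually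
    (h2.and ((h5 e he).and (h5 (1 / 12) (by norm_num)))))
  obtain ⟨N0, hN0⟩ := Filter.eventually_atTop.1 h6
  exact ⟨N0, fun N hN => hN0 N hN⟩

private lemma Blk_Xl {N X : ℕ} {th : ℝ} (h2 : th ≤ 1 / 4) (hN : 1 ≤ N) (hX : N ≤ 4 * X)
    (h12 : 4 ≤ (N : ℝ) ^ (1 / 12 : ℝ)) : (Hn th N : ℝ) ≤ (X : ℝ) ^ (1 / 3 : ℝ) := by
  have hN1 : (1 : ℝ) ≤ N := by exact_mod_cast hN
  have hN0 : (0 : ℝ) < N := by linarith
  have hXR : (N : ℝ) ≤ 4 * X := by exact_mod_cast hX
  have hX0 : (0 : ℝ) ≤ X := Nat.cast_nonneg _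
  have e1 : (Hn th N : ℝ) ≤ (N : ℝ) ^ (1 / 4 : ℝ) :=
    (Nat.floor_le (Real.rpow_nonneg hN0.le _)).trans (Real.rpow_le_rpow_of_exponent_le hN1 h2)
  have e2 : (N : ℝ) ^ (1 / 3 : ℝ) = (N : ℝ) ^ (1 / 4 : ℝ) * (N : ℝ) ^ (1 / 12 : ℝ) := by
    rw [← Real.rpow_add hN0]
    norm_num
  have e3 : (N : ℝ) ^ (1 / 3 : ℝ) ≤ 4 * (X : ℝ) ^ (1 / 3 : ℝ) := by
    have e4 : (N : ℝ) ^ (1 / 3 : ℝ) ≤ (4 * (X : ℝ)) ^ (1 / 3 : ℝ) :=
      Real.rpow_le_rpow hN0.le hXR (by norm_num)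
    rw [Real.mul_rpow (by norm_num) hX0] at e4
    refine e4.trans (mul_le_mul_of_nonneg_right ?_ (Real.rpow_nonneg hX0 _))
    have e5 : (4 : ℝ) ^ (1 / 3 : ℝ) ≤ (4 : ℝ) ^ (1 : ℝ) :=
      Real.rpow_le_rpow_of_exponent_le (by norm_num) (by norm_num)
    rw [Real.rpow_one] at e5
    exact e5
  have e6 : 0 ≤ (N : ℝ) ^ (1 / 4 : ℝ) := Real.rpow_nonneg hN0.le _
  nlinarith

private lemma Blk_Xu {N X : ℕ} {th e : ℝ} (he : 0 < e) (hth : th = 1 / 6 + 2 * e)
    (h2 : th ≤ 1 / 4) (hN : 1 ≤ N) (hX : X ≤ 3 * N) (h6 : 6 ≤ (N : ℝ) ^ e) :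
    (X : ℝ) ^ (1 / 6 + e) ≤ Hn th N := by
  have hN1 : (1 : ℝ) ≤ N := by exact_mod_cast hN
  have hN0 : (0 : ℝ) < N := by linarith
  have hXR : (X : ℝ) ≤ 3 * N := by exact_mod_cast hX
  have e1 : (N : ℝ) ^ th = (N : ℝ) ^ (1 / 6 + e) * (N : ℝ) ^ e := by
    rw [← Real.rpow_add hN0, hth]
    congr 1
    ring
  have e2 : (X : ℝ) ^ (1 / 6 + e) ≤ 3 * (N : ℝ) ^ (1 / 6 + e) := by
    have e4 : (X : ℝ) ^ (1 / 6 + e) ≤ (3 * (N : ℝ)) ^ (1 / 6 + e) :=
      Real.rpow_le_rpow (Nat.cast_nonneg _) hXR (by linarith)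
    rw [Real.mul_rpow (by norm_num) hN0.le] at e4
    refine e4.trans (mul_le_mul_of_nonneg_right ?_ (Real.rpow_nonneg hN0.le _))
    have e5 : (3 : ℝ) ^ (1 / 6 + e) ≤ (3 : ℝ) ^ (1 : ℝ) :=
      Real.rpow_le_rpow_of_exponent_le (by norm_num) (by linarith)
    rw [Real.rpow_one] at e5
    exact e5
  have e7 : 1 ≤ (N : ℝ) ^ (1 / 6 + e) := Real.one_le_rpow hN1 (by linarith)
  have e8 : (N : ℝ) ^ th < Hn th N + 1 := Nat.lt_floor_add_one _
  nlinarith

private lemma Blk_arith {N H L c K : ℝ} {A B : ℕ} (hL : 1 ≤ L) (hH : 0 < H) (hN : 0 < N)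
    (hc : 0 ≤ c) (hbig : 3072 * 2 ^ (4 * A + 5 * B + 2) ≤ L)
    (hK : H / (16 * L ^ (A + B + 1)) ≤ K)
    (hmain : c * (K * (H / (4 * L ^ (A + B))) ^ 2) ≤
      (L ^ B) ^ 2 * (12 * N * H ^ 2 * 2 ^ (4 * A + 5 * B + 2) / L ^ (4 * A + 5 * B + 2))) :
    c ≤ N / H / L ^ A := by
  have hL0 : 0 < L := by linarith
  have hP : 0 < L ^ A := by positivity
  have hQ : 0 < L ^ B := by positivity
  have e1 : L ^ (A + B + 1) = L ^ A * L ^ B * L := by rw [pow_succ, pow_add]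
  have e2 : L ^ (A + B) = L ^ A * L ^ B := pow_add _ _ _
  have e3 : L ^ (4 * A + 5 * B + 2) = (L ^ A) ^ 4 * (L ^ B) ^ 5 * L ^ 2 := by
    rw [← pow_mul, ← pow_mul, ← pow_add, ← pow_add]
    congr 1
    ring
  rw [e2, e3] at hmain
  rw [e1] at hK
  generalize L ^ A = P at *
  generalize L ^ B = Q at *
  generalize (2 : ℝ) ^ (4 * A + 5 * B + 2) = Z at *
  have h1 : c * (H / (16 * (P * Q * L)) * (H / (4 * (P * Q))) ^ 2) ≤
      Q ^ 2 * (12 * N * H ^ 2 * Z / (P ^ 4 * Q ^ 5 * L ^ 2)) :=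
    le_trans (mul_le_mul_of_nonneg_left (mul_le_mul_of_nonneg_right hK (by positivity)) hc) hmain
  have h2 : c * (H / (16 * (P * Q * L)) * (H / (4 * (P * Q))) ^ 2) =
      (c * H / 256) * (H ^ 2 / (P ^ 3 * Q ^ 3 * L)) := by
    field_simp
    ring
  have h3 : Q ^ 2 * (12 * N * H ^ 2 * Z / (P ^ 4 * Q ^ 5 * L ^ 2)) =
      (12 * N * Z / (P * L)) * (H ^ 2 / (P ^ 3 * Q ^ 3 * L)) := by
    field_simp
  rw [h2, h3] at h1
  have h4 := le_of_mul_le_mul_right h1 (by positivity)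
  have h5 : 12 * N * Z / (P * L) ≤ N / P / 256 := by
    rw [div_div, div_le_div_iff₀ (by positivity) (by positivity)]
    have : 0 < N * P := by positivity
    nlinarith
  have h6 : c * H ≤ N / P := by linarith
  rw [div_right_comm, le_div_iff₀ hH]
  exact h6

private lemma Blk_cl_le {r u n : ℕ} {M : ℝ} (hn : 1 ≤ n) (hM : Real.log n ≤ M) :
    ‖cl r u La n‖ ≤ M := by
  have h0 : 0 ≤ Real.log n := Real.log_nonneg (by exact_mod_cast hn)
  unfold cl
  split_ifs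
  · rw [Complex.norm_real, Real.norm_eq_abs]
    have h1 : (La n : ℝ) = ArithmeticFunction.vonMangoldt n := rfl
    rw [h1, abs_of_nonneg ArithmeticFunction.vonMangoldt_nonneg]
    exact ArithmeticFunction.vonMangoldt_le_log.trans hM
  · rw [norm_zero]
    linarith

theorem psi_blk (th : ℝ) (h1 : 1 / 6 < th) (h2 : th ≤ 1 / 4) (A B : ℕ) : ∃ N0 : ℕ, ∀ N : ℕ, N0 ≤ N →
    ((badP N (Hn th N) A B).card : ℝ) ≤ (N : ℝ) / (Hn th N) / Real.log N ^ A := by
  classical
  obtain ⟨e, hth⟩ : ∃ e : ℝ, th = 1 / 6 + 2 * e := ⟨(th - 1 / 6) / 2, by ring⟩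
  have he : 0 < e := by linarith
  obtain ⟨X0, hX0⟩ := hux e he (4 * A + 5 * B + 2) (B + 1)
  obtain ⟨N1, hN1⟩ := Blk_ev th e (3072 * 2 ^ (4 * A + 5 * B + 2) + 2 ^ (B + 1) + 32) (A + B + 2)
    (by linarith) he
  refine ⟨N1 + 4 * X0 + 10000, fun N hN => ?_⟩
  obtain ⟨hC1, hC2, hC3, hC4⟩ := hN1 N (by omega)
  set C : ℝ := 3072 * 2 ^ (4 * A + 5 * B + 2) + 2 ^ (B + 1) + 32 with hC
  have hp1 : (0 : ℝ) < 3072 * 2 ^ (4 * A + 5 * B + 2) := by positivity
  have hp2 : (0 : ℝ) < 2 ^ (B + 1) := by positivity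
  have hC32 : 32 ≤ C := by linarith
  have hN10 : 10000 ≤ N := by omega
  have hNR : (10000 : ℝ) ≤ N := by exact_mod_cast hN10
  have hN0 : (0 : ℝ) < N := by linarith
  have hNr1 : (1 : ℝ) ≤ N := by linarith
  set L : ℝ := Real.log N with hLdef
  set H : ℕ := Hn th N with hHdef
  have hL32 : 32 ≤ L := hC32.trans hC1
  have hL0 : 0 < L := by linarith
  have hL1 : 1 ≤ L := by linarith
  have hHu : (H : ℝ) ≤ (N : ℝ) ^ th := Nat.floor_le (Real.rpow_nonneg hN0.le _)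
  have hHl : (N : ℝ) ^ th < H + 1 := Nat.lt_floor_add_one _
  have hLk : 1 ≤ L ^ (A + B + 2) := one_le_pow₀ hL1
  have hHL : 16 * L ^ (A + B + 2) ≤ H := by nlinarith
  have hH16R : (16 : ℝ) ≤ H := by linarith
  have hH16 : 16 ≤ H := by exact_mod_cast hH16R
  have hH0 : (0 : ℝ) < H := by linarith
  -- H^4 ≤ N
  have hH4 : H ^ 4 ≤ N := by
    have e1 : (H : ℝ) ^ 4 ≤ ((N : ℝ) ^ th) ^ 4 := pow_le_pow_left₀ hH0.le hHu 4
    have e2 : ((N : ℝ) ^ th) ^ 4 = (N : ℝ) ^ (th * 4) := by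
      rw [← Real.rpow_natCast, ← Real.rpow_mul hN0.le]
      norm_num
    have e3 : (N : ℝ) ^ (th * 4) ≤ (N : ℝ) ^ (1 : ℝ) :=
      Real.rpow_le_rpow_of_exponent_le hNr1 (by linarith)
    rw [Real.rpow_one] at e3
    have e4 : (H : ℝ) ^ 4 ≤ N := by
      rw [e2] at e1
      exact e1.trans e3
    exact_mod_cast e4
  have hH4096 : 4096 * H ≤ N := by
    have e1 : 16 ^ 3 ≤ H ^ 3 := Nat.pow_le_pow_left hH16 3
    have e2 : H ^ 4 = H ^ 3 * H := pow_succ _ _
    have e3 : 16 ^ 3 * H ≤ H ^ 3 * H := Nat.mul_le_mul_right H e1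
    norm_num at e3
    omega
  -- L^B ≤ N
  have hLBN : L ^ B ≤ N := by
    have e1 : L ^ B ≤ L ^ (A + B + 2) := pow_le_pow_right₀ hL1 (by omega)
    have e2 : (H : ℝ) ≤ N := by
      have : H ≤ N := by omega
      exact_mod_cast this
    linarith
  have hlog4 : Real.log 4 ≤ 2 := by
    have e1 : Real.log 4 = 2 * Real.log 2 := by
      rw [show (4 : ℝ) = 2 ^ 2 by norm_num, Real.log_pow]
      norm_num
    have := Real.log_two_lt_d9
    linarith
  have hlog4N : ∀ n : ℕ, 1 ≤ n → n ≤ 4 * N → Real.log n ≤ 2 * L := by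
    intro n hn hn4
    have e1 : Real.log n ≤ Real.log (4 * N) := by
      refine Real.log_le_log (by exact_mod_cast hn) ?_
      exact_mod_cast hn4
    rw [Real.log_mul (by norm_num) hN0.ne'] at e1
    linarith
  set R : ℕ := ⌊L ^ B⌋₊ with hR
  set K : ℕ := ⌊(H : ℝ) / (16 * L ^ (A + B + 1))⌋₊ with hK
  have hKu : (K : ℝ) ≤ H / (16 * L ^ (A + B + 1)) := Nat.floor_le (by positivity)
  have hKl : (H : ℝ) / (16 * L ^ (A + B + 1)) < K + 1 := Nat.lt_floor_add_one _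
  have hK16 : 16 * K ≤ H := by
    have e1 : (H : ℝ) / (16 * L ^ (A + B + 1)) ≤ H / 16 := by
      refine div_le_div_of_nonneg_left hH0.le (by norm_num) ?_
      have := one_le_pow₀ hL1 (n := A + B + 1)
      linarith
    have e2 : (16 : ℝ) * K ≤ H := by linarith
    exact_mod_cast e2
  set T : Finset (ℕ × ℕ) := ((Icc 1 R) ×ˢ (range R)).filter
    (fun p => p.2 < p.1 ∧ Nat.Coprime p.2 p.1) with hT
  set g : ℕ × ℕ → ℕ → ℝ := fun p x =>
    ‖W (cl p.1 p.2 La) H x - (H : ℂ) / (p.1.totient : ℂ)‖ ^ 2 with hg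
  have hg0 : ∀ p x, 0 ≤ g p x := fun p x => by positivity
  set M : ℕ := N / 3 with hM
  -- upper bound
  have hup : ∀ p ∈ T, ∑ x ∈ Ico M (16 * M), g p x ≤
      12 * N * (H : ℝ) ^ 2 * 2 ^ (4 * A + 5 * B + 2) / L ^ (4 * A + 5 * B + 2) := by
    intro p hp
    rw [hT, mem_filter, mem_product, mem_Icc, mem_range] at hp
    obtain ⟨⟨⟨hr1, hrR⟩, -⟩, -, hcop⟩ := hp
    have hrL : (p.1 : ℝ) ≤ L ^ B := (Nat.cast_le.2 hrR).trans (Nat.floor_le (by positivity))
    have hone : ∀ X : ℕ, N ≤ 4 * X → X ≤ 3 * N → ∑ x ∈ Ico X (2 * X), g p x ≤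
        3 * N * (H : ℝ) ^ 2 * 2 ^ (4 * A + 5 * B + 2) / L ^ (4 * A + 5 * B + 2) := by
      intro X hXl hXu
      have hXp : 0 < X := by omega
      have hXR : (0 : ℝ) < X := by exact_mod_cast hXp
      have hXlR : (N : ℝ) ≤ 4 * X := by exact_mod_cast hXl
      have hXuR : (X : ℝ) ≤ 3 * N := by exact_mod_cast hXu
      have hlX : L / 2 ≤ Real.log X := by
        have e1 : L ≤ Real.log (4 * X) := Real.log_le_log hN0 hXlR
        rw [Real.log_mul (by norm_num) hXR.ne'] at e1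
        linarith
      have hlX0 : 0 < Real.log X := by linarith
      have hdB : (p.1 : ℝ) ≤ Real.log X ^ (B + 1) := by
        refine hrL.trans ?_
        have e1 : L ^ B ≤ (2 * Real.log X) ^ B := pow_le_pow_left₀ hL0.le (by linarith) B
        rw [mul_pow] at e1
        refine e1.trans ?_
        rw [pow_succ, mul_comm]
        refine mul_le_mul_of_nonneg_left ?_ (by positivity)
        have e2 : (2 : ℝ) ^ (B + 1) = 2 ^ B * 2 := pow_succ _ _
        linarith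
      have hh := hX0 X (by omega) p.1 p.2 H hr1 hdB hcop
        (Blk_Xu he hth h2 (by omega) hXu (by linarith)) (Blk_Xl h2 (by omega) hXl (by linarith))
      refine hh.trans ?_
      have e1 : (L / 2) ^ (4 * A + 5 * B + 2) ≤ Real.log X ^ (4 * A + 5 * B + 2) :=
        pow_le_pow_left₀ (by positivity) hlX _
      have e2 : (X : ℝ) * (H : ℝ) ^ 2 / Real.log X ^ (4 * A + 5 * B + 2) ≤
          X * (H : ℝ) ^ 2 / (L / 2) ^ (4 * A + 5 * B + 2) :=
        div_le_div_of_nonneg_left (by positivity) (by positivity) e1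
      refine e2.trans ?_
      have e3 : (X : ℝ) * (H : ℝ) ^ 2 / (L / 2) ^ (4 * A + 5 * B + 2) =
          X * ((H : ℝ) ^ 2 * 2 ^ (4 * A + 5 * B + 2) / L ^ (4 * A + 5 * B + 2)) := by
        rw [div_pow]
        field_simp
      have e4 : 3 * N * (H : ℝ) ^ 2 * 2 ^ (4 * A + 5 * B + 2) / L ^ (4 * A + 5 * B + 2) =
          3 * N * ((H : ℝ) ^ 2 * 2 ^ (4 * A + 5 * B + 2) / L ^ (4 * A + 5 * B + 2)) := by
        ring
      rw [e3, e4]
      exact mul_le_mul_of_nonneg_right hXuR (by positivity)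
    have s1 := hone M (by omega) (by omega)
    have s2 := hone (2 * M) (by omega) (by omega)
    have s3 := hone (4 * M) (by omega) (by omega)
    have s4 := hone (8 * M) (by omega) (by omega)
    have c1 := sum_Ico_consecutive (g p) (show M ≤ 2 * M by omega) (show 2 * M ≤ 4 * M by omega)
    have c2 := sum_Ico_consecutive (g p) (show M ≤ 4 * M by omega) (show 4 * M ≤ 8 * M by omega)
    have c3 := sum_Ico_consecutive (g p) (show M ≤ 8 * M by omega) (show 8 * M ≤ 16 * M by omega)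
    have r2 : 2 * (2 * M) = 4 * M := by ring
    have r3 : 2 * (4 * M) = 8 * M := by ring
    have r4 : 2 * (8 * M) = 16 * M := by ring
    rw [r2] at s2
    rw [r3] at s3
    rw [r4] at s4
    rw [← c3, ← c2, ← c1]
    have e5 : 12 * N * (H : ℝ) ^ 2 * 2 ^ (4 * A + 5 * B + 2) / L ^ (4 * A + 5 * B + 2) =
        4 * (3 * N * (H : ℝ) ^ 2 * 2 ^ (4 * A + 5 * B + 2) / L ^ (4 * A + 5 * B + 2)) := by ring
    rw [e5]
    linarith
  have hTc : (T.card : ℝ) ≤ (L ^ B) ^ 2 := by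
    have e1 : T.card ≤ R * R := by
      refine (card_filter_le _ _).trans ?_
      rw [card_product, Nat.card_Icc, card_range]
      exact le_of_eq (by rw [Nat.add_sub_cancel])
    have e2 : (R : ℝ) ≤ L ^ B := Nat.floor_le (by positivity)
    have e3 : (T.card : ℝ) ≤ R * R := by exact_mod_cast e1
    have e4 : (0 : ℝ) ≤ R := Nat.cast_nonneg _
    nlinarith
  have hupT : ∑ x ∈ Ico M (16 * M), ∑ p ∈ T, g p x ≤ (L ^ B) ^ 2 *
      (12 * N * (H : ℝ) ^ 2 * 2 ^ (4 * A + 5 * B + 2) / L ^ (4 * A + 5 * B + 2)) := by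
    rw [sum_comm]
    refine (sum_le_sum hup).trans ?_
    rw [sum_const, nsmul_eq_mul]
    exact mul_le_mul_of_nonneg_right hTc (by positivity)
  -- position of the blocks
  have hidx : ∀ i ∈ idx N H, M ≤ i * H - 1 ∧ 1 ≤ i * H ∧ i * H ≤ 3 * N := by
    intro i hi
    unfold idx at hi
    rw [mem_Icc] at hi
    have e1 : i * H ≤ 3 * N :=
      (Nat.mul_le_mul_right H hi.2).trans (Nat.div_mul_le_self _ _)
    have e2 : N < 2 * H * (N / (2 * H) + 1) := Nat.lt_mul_div_succ N (by omega)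
    have e3 : 2 * H * (N / (2 * H) + 1) ≤ 2 * H * (i + 1) := Nat.mul_le_mul_left _ (by omega)
    have e4 : 2 * H * (i + 1) = 2 * (i * H) + 2 * H := by ring
    omega
  -- lower bound
  have hlow : ∀ i ∈ badP N H A B, ∀ k, k ≤ K →
      ((H : ℝ) / (4 * L ^ (A + B))) ^ 2 ≤ ∑ p ∈ T, g p (i * H - 1 + k) := by
    intro i hi k hk
    unfold badP at hi
    rw [mem_filter] at hi
    obtain ⟨hi1, r, a, hr1, hrL, hcop, hbad⟩ := hi
    obtain ⟨hiM, hiH, hi3⟩ := hidx i hi1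
    have hrR : r ≤ R := Nat.le_floor hrL
    have hblk : blk H i = Ioc (i * H - 1) (i * H - 1 + H) := by
      unfold blk
      ext m
      rw [mem_Ico, mem_Ioc]
      have : (i + 1) * H = i * H + H := by ring
      omega
    rw [hblk] at hbad
    have hE : swk1E (i * H - 1 + H) r ≤ 4 * L ^ 2 := by
      refine (swk1E_le (by omega) hr1).trans ?_
      have e1 : Real.log r ≤ L :=
        Real.log_le_log (by exact_mod_cast hr1) (hrL.trans hLBN)
      have e2 := hlog4N (i * H - 1 + H) (by omega) (by omega)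
      have e3 : 0 ≤ Real.log r := Real.log_natCast_nonneg r
      have e4 : 0 ≤ Real.log ((i * H - 1 + H : ℕ) : ℝ) := Real.log_natCast_nonneg _
      nlinarith
    have hex : ∃ u, u < r ∧ Nat.Coprime u r ∧ (H : ℝ) / (2 * L ^ (A + B)) <
        ‖W (cl r u La) H (i * H - 1) - (H : ℂ) / (r.totient : ℂ)‖ := by
      by_contra hcon
      push Not at hcon
      have hk := Blk_key hr1 hcop (δ := (H : ℝ) / (2 * L ^ (A + B))) (by positivity) hcon hE
      have e1 : (r : ℝ) * ((H : ℝ) / (2 * L ^ (A + B))) ≤ H / (2 * L ^ A) := by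
        have e2 : (r : ℝ) * ((H : ℝ) / (2 * L ^ (A + B))) ≤
            L ^ B * ((H : ℝ) / (2 * L ^ (A + B))) :=
          mul_le_mul_of_nonneg_right hrL (by positivity)
        refine e2.trans (le_of_eq ?_)
        rw [pow_add]
        field_simp
      have e3 : 4 * L ^ 2 ≤ H / (2 * L ^ A) := by
        rw [le_div_iff₀ (by positivity)]
        have e4 : 4 * L ^ 2 * (2 * L ^ A) = 8 * L ^ (A + 2) := by
          rw [pow_add]
          ring
        rw [e4]
        have e5 : L ^ (A + 2) ≤ L ^ (A + B + 2) := pow_le_pow_right₀ hL1 (by omega)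
        linarith
      have e6 : (H : ℝ) / L ^ A = H / (2 * L ^ A) + H / (2 * L ^ A) := by
        field_simp
        ring
      linarith
    obtain ⟨u, hur, hucop, hu⟩ := hex
    have hsh := Blk_shift (cl r u La) (M := 2 * L) H (i * H - 1) k (fun n hn1 hn2 =>
      Blk_cl_le hn1 (hlog4N n hn1 (by omega)))
    have hkK : (k : ℝ) ≤ H / (16 * L ^ (A + B + 1)) := (Nat.cast_le.2 hk).trans hKu
    have e1 : 2 * (k : ℝ) * (2 * L) ≤ H / (4 * L ^ (A + B)) := by
      have e2 : 2 * (k : ℝ) * (2 * L) ≤ 2 * (H / (16 * L ^ (A + B + 1))) * (2 * L) :=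
        mul_le_mul_of_nonneg_right (mul_le_mul_of_nonneg_left hkK (by norm_num)) (by positivity)
      refine e2.trans (le_of_eq ?_)
      rw [pow_succ]
      field_simp
      norm_num
    have e3 : (H : ℝ) / (2 * L ^ (A + B)) = H / (4 * L ^ (A + B)) + H / (4 * L ^ (A + B)) := by
      field_simp
      norm_num
    have e4 : (H : ℝ) / (4 * L ^ (A + B)) ≤
        ‖W (cl r u La) H (i * H - 1 + k) - (H : ℂ) / (r.totient : ℂ)‖ := by
      have e5 := norm_sub_norm_le (W (cl r u La) H (i * H - 1) - (H : ℂ) / (r.totient : ℂ))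
        (W (cl r u La) H (i * H - 1 + k) - (H : ℂ) / (r.totient : ℂ))
      have e6 : W (cl r u La) H (i * H - 1) - (H : ℂ) / (r.totient : ℂ) -
          (W (cl r u La) H (i * H - 1 + k) - (H : ℂ) / (r.totient : ℂ)) =
          -(W (cl r u La) H (i * H - 1 + k) - W (cl r u La) H (i * H - 1)) := by ring
      rw [e6, norm_neg] at e5
      linarith
    have hmem : (r, u) ∈ T := by
      rw [hT, mem_filter, mem_product, mem_Icc, mem_range]
      exact ⟨⟨⟨hr1, hrR⟩, by omega⟩, hur, hucop⟩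
    refine le_trans ?_ (single_le_sum (f := fun p => g p (i * H - 1 + k))
      (fun p _ => hg0 p _) hmem)
    exact pow_le_pow_left₀ (by positivity) e4 2
  -- counting
  set P : Finset (ℕ × ℕ) := (badP N H A B) ×ˢ (range (K + 1)) with hP
  have hbadidx : ∀ i ∈ badP N H A B, i ∈ idx N H := by
    intro i hi
    unfold badP at hi
    rw [mem_filter] at hi
    exact hi.1
  have hinj : Set.InjOn (fun p : ℕ × ℕ => p.1 * H - 1 + p.2) P := by
    rintro ⟨i, k⟩ hp ⟨i', k'⟩ hp' heq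
    rw [mem_coe, hP, mem_product, mem_range] at hp hp'
    obtain ⟨-, hi2, -⟩ := hidx i (hbadidx i hp.1)
    obtain ⟨-, hi2', -⟩ := hidx i' (hbadidx i' hp'.1)
    have hk : k < K + 1 := hp.2
    have hk' : k' < K + 1 := hp'.2
    have heq2 : i * H - 1 + k = i' * H - 1 + k' := heq
    have heq3 : k + i * H = k' + i' * H := by omega
    have d1 : (k + i * H) / H = i := by
      rw [Nat.add_mul_div_right _ _ (by omega), Nat.div_eq_of_lt (by omega), zero_add]
    have d2 : (k' + i' * H) / H = i' := by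
      rw [Nat.add_mul_div_right _ _ (by omega), Nat.div_eq_of_lt (by omega), zero_add]
    have hii : i = i' := by rw [← d1, heq3, d2]
    subst hii
    have hkk : k = k' := by omega
    rw [hkk]
  have hcount : ((badP N H A B).card : ℝ) * (((K : ℝ) + 1) *
      ((H : ℝ) / (4 * L ^ (A + B))) ^ 2) ≤ ∑ x ∈ Ico M (16 * M), ∑ p ∈ T, g p x := by
    have e1 : ((badP N H A B).card : ℝ) * (((K : ℝ) + 1) *
        ((H : ℝ) / (4 * L ^ (A + B))) ^ 2) = ∑ _q ∈ P, ((H : ℝ) / (4 * L ^ (A + B))) ^ 2 := by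
      rw [sum_const, nsmul_eq_mul, hP, card_product, card_range]
      push_cast
      ring
    have e2 : ∑ _q ∈ P, ((H : ℝ) / (4 * L ^ (A + B))) ^ 2 ≤
        ∑ q ∈ P, ∑ p ∈ T, g p (q.1 * H - 1 + q.2) := by
      refine sum_le_sum fun q hq => ?_
      rw [hP, mem_product, mem_range] at hq
      exact hlow q.1 hq.1 q.2 (by omega)
    have e3 : ∑ q ∈ P, ∑ p ∈ T, g p (q.1 * H - 1 + q.2) =
        ∑ x ∈ P.image (fun p : ℕ × ℕ => p.1 * H - 1 + p.2), ∑ p ∈ T, g p x :=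
      (sum_image (f := fun x => ∑ p ∈ T, g p x) hinj).symm
    rw [e1]
    refine e2.trans ?_
    rw [e3]
    refine sum_le_sum_of_subset_of_nonneg ?_ fun x _ _ => sum_nonneg fun p _ => hg0 p x
    intro x hx
    rw [mem_image] at hx
    obtain ⟨q, hq, rfl⟩ := hx
    rw [hP, mem_product, mem_range] at hq
    obtain ⟨hq1, hq2, hq3⟩ := hidx q.1 (hbadidx q.1 hq.1)
    rw [mem_Ico]
    omega
  refine Blk_arith (K := (K : ℝ) + 1) (B := B) hL1 hH0 hN0 (Nat.cast_nonneg _) (by linarith)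
    hKl.le (hcount.trans hupT)

end Pool.Agent.H88.PSI
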