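import Pool.Agent.H88.PSI.BoxD
import Pool.Agent.H88.PSI.Pw
import Pool.Agent.H80.LV.HM

/-!
# PSI BoxL: the integral over a small set, given a bound for the longest factor

`i` with `N i` maximal: `N i ≥ (X/2^r)^(1/r) ≥ X^(1/7)`, so `hp` applies to it.  `G = ∏_{i' ≠ i} g i'` (`dp_prod`),
`K' = ∏_{i' ≠ i} 2 N i'`, `X^(1/3) ≤ K' ≤ X` (`N i ≤ X^(11/24)`, `X ≤ 2^r ∏ N`, `∏ N ≤ 3X`).  `Pool.Agent.H80.LV.hm (1/3)`
(`Pool/Agent/H80/LV/HM.lean`; it has the same sums): `∫_B |DP G K'|^2 ≤ K' L^2 SS G K'`, `SS G K' ≤ K' L^C` (`prod_bd`, `tau_mom`).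
`∫_B FF^2 ≤ (N i/L^K)^2 K'^2 L^(C+2) ≤ 4^r 9 X^2 L^(C+2-2K) ≤ X^2/L^A` for `K` large.
-/

set_option autoImplicit false

namespace Pool.Agent.H88.PSI

open Finset MeasureTheory

/-- the longest factor is long -/
theorem BoxL_long {X r : ℕ} {N : Fin r → ℕ} (hr : r ≤ 6) (hX : 2 ≤ X)
    (hP : X ≤ 2 ^ r * ∏ i, N i) (h1 : ∀ i, 1 ≤ N i) :
    ∃ i : Fin r, (X : ℝ) ^ (1 / 6 : ℝ) ≤ 2 * N i := by
  have hne : (univ : Finset (Fin r)).Nonempty := by
    by_contra hcon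
    rw [not_nonempty_iff_eq_empty] at hcon
    rw [hcon, prod_empty] at hP
    have hr0 : r = 0 := by
      by_contra h
      have : (⟨0, Nat.pos_of_ne_zero h⟩ : Fin r) ∈ (univ : Finset (Fin r)) := mem_univ _
      rw [hcon] at this
      exact absurd this (notMem_empty _)
    rw [hr0] at hP
    omega
  obtain ⟨i, _, hi⟩ := exists_max_image univ N hne
  refine ⟨i, ?_⟩
  have h2 : X ≤ (2 * N i) ^ 6 := by
    calc X ≤ 2 ^ r * ∏ i, N i := hP
      _ ≤ 2 ^ r * ∏ _j : Fin r, N i := by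
          apply Nat.mul_le_mul_left
          exact prod_le_prod' fun j _ => hi j (mem_univ _)
      _ = (2 * N i) ^ r := by
          rw [prod_const, card_univ, Fintype.card_fin, mul_pow]
      _ ≤ (2 * N i) ^ 6 := Nat.pow_le_pow_right (by have := h1 i; omega) hr
  have h3 : (X : ℝ) ≤ (2 * N i : ℝ) ^ (6 : ℝ) := by
    rw [show (6 : ℝ) = ((6 : ℕ) : ℝ) by norm_num, Real.rpow_natCast]
    exact_mod_cast h2
  calc (X : ℝ) ^ (1 / 6 : ℝ) ≤ ((2 * N i : ℝ) ^ (6 : ℝ)) ^ (1 / 6 : ℝ) :=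
        Real.rpow_le_rpow (by positivity) h3 (by norm_num)
    _ = 2 * N i := by
        rw [← Real.rpow_mul (by positivity)]
        norm_num

theorem BoxL_SS {X r : ℕ} {N : Fin r → ℕ} {g : Fin r → ArithmeticFunction ℂ} (hB : Box X N g)
    (i : Fin r) (hL : 1 ≤ Real.log X) {K' : ℕ} (hK' : K' ≤ X) (hX : 1 ≤ X) :
    SS (⇑(∏ j ∈ univ.erase i, g j)) K' ≤ K' * (2 * Real.log X) ^ (12 + 2 ^ 12) := by
  set L := Real.log X with hLdef
  set f' : Fin r → ArithmeticFunction ℂ := fun j => if j = i then 1 else g j with hf'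
  have hprod : ∏ j, f' j = ∏ j ∈ univ.erase i, g j := by
    rw [← mul_prod_erase univ f' (mem_univ i)]
    have h1 : f' i = 1 := by simp [hf']
    rw [h1, one_mul]
    apply prod_congr rfl
    intro j hj
    have : j ≠ i := (mem_erase.1 hj).1
    simp [hf', this]
  have hbd : ∀ j n, ‖f' j n‖ ≤ 2 * L := by
    intro j n
    by_cases hj : j = i
    · simp only [hf', hj, if_true]
      rw [ArithmeticFunction.one_apply]
      split_ifs
      · rw [norm_one]; linarith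
      · rw [norm_zero]; linarith
    · simp only [hf', hj, if_false]
      exact hB.bd j n
  have hG : ∀ n, 1 ≤ n → ‖(∏ j ∈ univ.erase i, g j) n‖ ^ 2 ≤ (2 * L) ^ 12 * tau n ^ 12 := by
    intro n hn
    have h1 := prod_bd f' (2 * L) (by linarith) hbd n
    rw [hprod] at h1
    have ht : 1 ≤ tau n := by
      unfold tau
      have : 0 < n.divisors.card := card_pos.2 ⟨1, Nat.one_mem_divisors.2 (by omega)⟩
      exact_mod_cast this
    have h2 : (2 * L) ^ r * tau n ^ r ≤ (2 * L) ^ 6 * tau n ^ 6 :=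
      mul_le_mul (pow_le_pow_right₀ (by linarith) hB.hr) (pow_le_pow_right₀ ht hB.hr)
        (by positivity) (by positivity)
    calc ‖(∏ j ∈ univ.erase i, g j) n‖ ^ 2 ≤ ((2 * L) ^ 6 * tau n ^ 6) ^ 2 :=
          pow_le_pow_left₀ (norm_nonneg _) (h1.trans h2) 2
      _ = _ := by ring
  unfold SS
  calc ∑ n ∈ Icc 1 K', ‖(∏ j ∈ univ.erase i, g j) n‖ ^ 2
      ≤ ∑ n ∈ Icc 1 K', (2 * L) ^ 12 * tau n ^ 12 :=
        sum_le_sum fun n hn => hG n (mem_Icc.1 hn).1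
    _ = (2 * L) ^ 12 * ∑ n ∈ Icc 1 K', tau n ^ 12 := by rw [mul_sum]
    _ ≤ (2 * L) ^ 12 * (K' * (1 + Real.log K') ^ (2 ^ 12)) :=
        mul_le_mul_of_nonneg_left (tau_mom 12 K') (by positivity)
    _ ≤ (2 * L) ^ 12 * (K' * (2 * L) ^ (2 ^ 12)) := by
        apply mul_le_mul_of_nonneg_left _ (by positivity)
        apply mul_le_mul_of_nonneg_left _ (by positivity)
        have h0 : 0 ≤ Real.log K' := Real.log_natCast_nonneg _
        apply pow_le_pow_left₀ (by linarith)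
        have : Real.log K' ≤ L := by
          rcases Nat.eq_zero_or_pos K' with h | h
          · rw [h]
            simp
            linarith
          · exact Real.log_le_log (by exact_mod_cast h) (by exact_mod_cast hK')
        linarith
    _ = _ := by rw [pow_add]; ring

theorem box_l : ∃ η : ℝ, 0 < η ∧ ∀ A : ℕ, ∃ K X0 : ℕ, ∀ X : ℕ, X0 ≤ X →
    ∀ (r : ℕ) (N : Fin r → ℕ) (g : Fin r → ArithmeticFunction ℂ) (B : Set ℝ),
    Box X N g → X ≤ 2 ^ r * ∏ i, N i → MeasurableSet B →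
    B ⊆ Set.Icc (-(X : ℝ)) X → volume.real B ≤ (X : ℝ) ^ η →
    (∀ i, (X : ℝ) ^ (1 / 7 : ℝ) ≤ N i → ∀ t ∈ B, ‖DP (g i) (2 * N i) t‖ ≤ N i / Real.log X ^ K) →
    ∫ t in B, FF N g t ^ 2 ≤ (X : ℝ) ^ 2 / Real.log X ^ A := by
  obtain ⟨η, hη0, hη1, x0, hhm⟩ := Pool.Agent.H80.LV.hm (1 / 3) (by norm_num)
  refine ⟨η, hη0, fun A => ?_⟩
  obtain ⟨EE, hEE⟩ : ∃ EE : ℕ, EE = 2 ^ 12 := ⟨_, rfl⟩
  obtain ⟨C0, hC0⟩ : ∃ C0 : ℝ, C0 = 9216 * 2 ^ (12 + EE) := ⟨_, rfl⟩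
  have hC0pos : 0 < C0 := by rw [hC0]; positivity
  obtain ⟨x1, hx1⟩ := Pool.Agent.H80.LV.log_ge (max 1 C0)
  obtain ⟨x2, hx2⟩ := Pool.Agent.H80.LV.pow_ge (1 / 6 - 1 / 7) 2 (by norm_num)
  obtain ⟨x3, hx3⟩ := Pool.Agent.H80.LV.pow_ge (1 / 7) 96 (by norm_num)
  obtain ⟨x4, hx4⟩ := Pool.Agent.H80.LV.pow_ge (13 / 24 - 1 / 3) 2 (by norm_num)
  refine ⟨A + EE + 20, max 2 (max x0 (max x1 (max x2 (max x3 x4)))), fun X hX => ?_⟩
  have hXa : 2 ≤ X := (le_max_left _ _).trans hX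
  have hX' := (le_max_right _ _).trans hX
  have hX0 : x0 ≤ X := (le_max_left _ _).trans hX'
  have hX'' := (le_max_right _ _).trans hX'
  have hL := hx1 X ((le_max_left _ _).trans hX'')
  have hX3 := (le_max_right _ _).trans hX''
  have hp2 := hx2 X ((le_max_left _ _).trans hX3)
  have hX4 := (le_max_right _ _).trans hX3
  have hp3 := hx3 X ((le_max_left _ _).trans hX4)
  have hp4 := hx4 X ((le_max_right _ _).trans hX4)
  have hL1 : 1 ≤ Real.log X := (le_max_left _ _).trans hL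
  have hLC : C0 ≤ Real.log X := (le_max_right _ _).trans hL
  clear hX hX' hX'' hX3 hX4
  intro r N g B hBox hP hBm hBsub hBvol hp
  have hXr : (0 : ℝ) < X := by exact_mod_cast (show 0 < X by omega)
  have hXr1 : (1 : ℝ) ≤ X := by exact_mod_cast (show 1 ≤ X by omega)
  obtain ⟨i, hi⟩ := BoxL_long hBox.hr hXa hP hBox.one
  have hNi0 : (0 : ℝ) < N i := by exact_mod_cast (hBox.one i)
  -- `N i ≥ X^(1/7)`
  have hi7 : (X : ℝ) ^ (1 / 7 : ℝ) ≤ N i := by
    have h1 : (X : ℝ) ^ (1 / 6 : ℝ) = (X : ℝ) ^ (1 / 7 : ℝ) * (X : ℝ) ^ (1 / 6 - 1 / 7 : ℝ) := by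
      rw [← Real.rpow_add hXr]
      norm_num
    rw [h1] at hi
    have h2 : (X : ℝ) ^ (1 / 7 : ℝ) * 2 ≤ (X : ℝ) ^ (1 / 7 : ℝ) * (X : ℝ) ^ (1 / 6 - 1 / 7 : ℝ) :=
      mul_le_mul_of_nonneg_left hp2 (by positivity)
    linarith
  set G := ∏ j ∈ univ.erase i, g j with hG
  set K' := ∏ j ∈ univ.erase i, (2 * N j) with hK'
  have hKN : (2 * N i) * K' = 2 ^ r * ∏ j, N j := by
    rw [hK', mul_prod_erase univ (fun j => 2 * N j) (mem_univ i), prod_mul_distrib, prod_const,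
      card_univ, Fintype.card_fin]
  have hr1 : 2 ^ r ≤ 2 ^ 6 := Nat.pow_le_pow_right (by norm_num) hBox.hr
  have hKNle : 2 * (N i * K') ≤ 192 * X := by
    calc 2 * (N i * K') = (2 * N i) * K' := by ring
      _ = 2 ^ r * ∏ j, N j := hKN
      _ ≤ 2 ^ 6 * (3 * X) := Nat.mul_le_mul hr1 hBox.prod
      _ = 192 * X := by ring
  have hKNle' : (N i : ℝ) * K' ≤ 96 * X := by
    have : ((2 * (N i * K') : ℕ) : ℝ) ≤ ((192 * X : ℕ) : ℝ) := by exact_mod_cast hKNle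
    push_cast at this
    linarith
  have hK'X : K' ≤ X := by
    have h1 : (96 : ℝ) * K' ≤ 96 * X := by
      calc (96 : ℝ) * K' ≤ N i * K' := mul_le_mul_of_nonneg_right (hp3.trans hi7) (by positivity)
        _ ≤ _ := hKNle'
    have h2 : (K' : ℝ) ≤ X := by linarith
    exact_mod_cast h2
  have hK'low : (X : ℝ) ^ (1 / 3 : ℝ) ≤ K' := by
    have h1 : (X : ℝ) ≤ 2 * N i * K' := by
      have : X ≤ (2 * N i) * K' := hKN ▸ hP
      exact_mod_cast this
    have h2 : (2 : ℝ) * N i * K' ≤ 2 * (X : ℝ) ^ (11 / 24 : ℝ) * K' := by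
      apply mul_le_mul_of_nonneg_right _ (by positivity)
      exact mul_le_mul_of_nonneg_left (hBox.top i) (by norm_num)
    have h3 : (X : ℝ) = (X : ℝ) ^ (11 / 24 : ℝ) * ((X : ℝ) ^ (1 / 3 : ℝ) * (X : ℝ) ^ (13 / 24 - 1 / 3 : ℝ)) := by
      rw [← Real.rpow_add hXr, ← Real.rpow_add hXr]
      norm_num
    have hpos : 0 < (X : ℝ) ^ (11 / 24 : ℝ) := by positivity
    have h4 : (X : ℝ) ^ (11 / 24 : ℝ) * ((X : ℝ) ^ (1 / 3 : ℝ) * (X : ℝ) ^ (13 / 24 - 1 / 3 : ℝ)) ≤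
        (X : ℝ) ^ (11 / 24 : ℝ) * (2 * K') := by
      rw [← h3]
      linarith
    have h5 := le_of_mul_le_mul_left h4 hpos
    have h6 : (X : ℝ) ^ (1 / 3 : ℝ) * 2 ≤ (X : ℝ) ^ (1 / 3 : ℝ) * (X : ℝ) ^ (13 / 24 - 1 / 3 : ℝ) :=
      mul_le_mul_of_nonneg_left hp4 (by positivity)
    linarith
  have hBsub' : B ⊆ Set.Icc (-((X : ℝ) ^ (2 : ℕ))) ((X : ℝ) ^ (2 : ℕ)) := by
    intro t ht
    have h1 := hBsub ht
    have h2 : (X : ℝ) ≤ (X : ℝ) ^ (2 : ℕ) := by nlinarith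
    exact ⟨by linarith [h1.1], by linarith [h1.2]⟩
  have hHM := hhm X hX0 K' (⇑G) B hK'low hK'X hBm hBsub' hBvol
  have hSS := BoxL_SS hBox i hL1 hK'X (by omega)
  rw [← hEE] at hSS
  -- FF as a product
  have hFF : ∀ t, FF N g t ^ 2 = ‖DP (g i) (2 * N i) t‖ ^ 2 * ‖DP (⇑G) K' t‖ ^ 2 := by
    intro t
    have h1 : DP (⇑G) K' t = ∏ j ∈ univ.erase i, DP (g j) (2 * N j) t := by
      rw [hG, hK']
      apply dp_prod (univ.erase i) g (fun j => 2 * N j)
      intro j _ n hn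
      exact (hBox.supp j n hn).2.le
    unfold FF
    rw [← mul_prod_erase univ (fun j => ‖DP (g j) (2 * N j) t‖) (mem_univ i), h1, norm_prod,
      mul_pow]
  have hcontG : Continuous (fun t => ‖DP (⇑G) K' t‖ ^ 2) := ((dp_cont _ _).norm).pow 2
  have hintG : IntegrableOn (fun t => ‖DP (⇑G) K' t‖ ^ 2) B :=
    (hcontG.continuousOn.integrableOn_compact isCompact_Icc).mono_set hBsub
  have hcontF : Continuous (fun t => FF N g t ^ 2) := (ff_cont N g).pow 2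
  have hintF : IntegrableOn (fun t => FF N g t ^ 2) B :=
    (hcontF.continuousOn.integrableOn_compact isCompact_Icc).mono_set hBsub
  set KK := A + EE + 20 with hKK
  set L := Real.log X with hLdef
  have hLpos : 0 < L := by linarith
  have hstep : ∫ t in B, FF N g t ^ 2 ≤ (N i / L ^ KK) ^ 2 * ∫ t in B, ‖DP (⇑G) K' t‖ ^ 2 := by
    rw [← integral_const_mul]
    apply setIntegral_mono_on hintF (hintG.const_mul _) hBm
    intro t ht
    rw [hFF t]
    apply mul_le_mul_of_nonneg_right _ (by positivity)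
    exact pow_le_pow_left₀ (norm_nonneg _) (hp i hi7 t ht) 2
  have hHM' : ∫ t in B, ‖DP (⇑G) K' t‖ ^ 2 ≤ K' * L ^ 2 * (K' * (2 * L) ^ (12 + EE)) := by
    refine hHM.trans ?_
    apply mul_le_mul_of_nonneg_left hSS (by positivity)
  refine hstep.trans ?_
  calc (N i / L ^ KK) ^ 2 * ∫ t in B, ‖DP (⇑G) K' t‖ ^ 2
      ≤ (N i / L ^ KK) ^ 2 * (K' * L ^ 2 * (K' * (2 * L) ^ (12 + EE))) :=
        mul_le_mul_of_nonneg_left hHM' (by positivity)
    _ = ((N i : ℝ) * K') ^ 2 * (L ^ 2 * (2 * L) ^ (12 + EE)) / (L ^ KK) ^ 2 := by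
        field_simp
    _ ≤ (96 * X) ^ 2 * (L ^ 2 * (2 * L) ^ (12 + EE)) / (L ^ KK) ^ 2 := by
        apply div_le_div_of_nonneg_right _ (by positivity)
        apply mul_le_mul_of_nonneg_right _ (by positivity)
        exact pow_le_pow_left₀ (by positivity) hKNle' 2
    _ = (X : ℝ) ^ 2 * (C0 * L ^ (14 + EE)) / (L ^ KK) ^ 2 := by
        rw [hC0, mul_pow (2 : ℝ) L, mul_pow (96 : ℝ)]
        congr 1
        have : L ^ 2 * (2 ^ (12 + EE) * L ^ (12 + EE)) =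
            2 ^ (12 + EE) * L ^ (14 + EE) := by
          rw [show (14 + EE : ℕ) = 2 + (12 + EE) by omega, pow_add L 2]
          ring
        rw [this]
        ring
    _ ≤ (X : ℝ) ^ 2 * (L * L ^ (14 + EE)) / (L ^ KK) ^ 2 := by
        apply div_le_div_of_nonneg_right _ (by positivity)
        apply mul_le_mul_of_nonneg_left _ (by positivity)
        exact mul_le_mul_of_nonneg_right hLC (by positivity)
    _ ≤ (X : ℝ) ^ 2 / L ^ A := by
        rw [div_le_div_iff₀ (by positivity) (by positivity), mul_assoc]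
        apply mul_le_mul_of_nonneg_left _ (by positivity)
        have h1 : L * L ^ (14 + EE) * L ^ A = L ^ (A + 15 + EE) := by
          rw [← pow_succ', ← pow_add]
          congr 1
          ring
        have h2 : (L ^ KK) ^ 2 = L ^ (2 * KK) := by
          rw [← pow_mul]
          congr 1
          ring
        rw [h1, h2]
        apply pow_le_pow_right₀ hL1
        omega

end Pool.Agent.H88.PSI
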