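import Pool.Agent.H88.PSI.Lvk

/-!
# PSI Lvs: large values of one factor, exponents

Choose `k` with `N^k ∈ [X^(2/3-e), X^(1-e)]`: `k = 2` if `N > X^(1/3)` (then `X^(2/3) < N^2 ≤ X^(11/12) ≤ X^(1-e)`), otherwise the least `k`
with `N^k ≥ X^(2/3-e)` (then `N^k < X^(2/3-e) N ≤ X^(1-e)`); `k ≤ 1/κ + 1`, so `X0` = the maximum of the `X0` of `lvk k (e δ/8)` (`lvk k (δ/2)`
for `lvl`) over these `k`, and `2^k X^(1-e) ≤ X`.  Write `N^k = X^u`, `u ∈ [2/3-e, 1-e]`, `V = N^σ`.  Exponents in `lvk`: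
* first term: `2u(1-σ)`;
* second: `5/6 - e + u(1-2σ)`, `5/6 - e + u(4-6σ)`.

`lvs`: `σ = s - eδ/4`.  First: `2u(1-σ) ≤ 2(1-e)(1-s+eδ/4) ≤ 2-2s - (3/2) e δ`.  Second: the smaller one is `≤ 2-2σ-e/2`:
for `σ ≤ 1/2`: `5/6-e+(1-2σ)`; for `1/2 ≤ σ ≤ 3/4`: `2-2σ-(5/6-e)-u(1-2σ) ≥ 1/2+2e-σ(2/3+2e) ≥ e/2`; for `3/4 ≤ σ ≤ 1`:
`2-2σ-(5/6-e)-u(4-6σ) ≥ -3/2+5e+σ(2-6e) ≥ e/2`.  And `2-2σ-e/2 = 2-2s+eδ/2-e/2 ≤ 2-2s-(9/8)eδ - e/16`-ish (`δ ≤ 1/4`).  Total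
`X^(eδ/8) (X^(2-2s-3eδ/2) + X^(2-2s-9eδ/8-..)) ≤ X^(2-2s-eδ)`.

`lvl`: `σ = 1-δ`: first `≤ 2δ`; second (Huxley) `5/6-e-2u+6uδ ≤ 5/6-4/3+2e+6δ < 0`.  Total `≤ X^(3δ)`.
-/

set_option autoImplicit false

namespace Pool.Agent.H88.PSI

open Finset MeasureTheory

private theorem lvs_k {x n e κ : ℝ} {K : ℕ} (hx : 3 ≤ x) (hn : 1 ≤ n) (he : 0 < e)
    (he' : e ≤ 1 / 100) (hK : 1 ≤ κ * K) (h1 : x ^ κ ≤ n)
    (h2 : n ≤ x ^ (11 / 24 : ℝ)) : ∃ j : ℕ, j < K + 2 ∧ x ^ (2 / 3 - e) ≤ n ^ (j + 1) ∧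
      n ^ (j + 1) ≤ x ^ (1 - e) := by
  have hx0 : 0 < x := by linarith
  have hx1 : 1 < x := by linarith
  have hn0 : 0 < n := by linarith
  by_cases h3 : x ^ (1 / 3 : ℝ) < n
  · refine ⟨1, by omega, ?_, ?_⟩
    · calc x ^ (2 / 3 - e) ≤ x ^ (1 / 3 + 1 / 3 : ℝ) :=
            Real.rpow_le_rpow_of_exponent_le hx1.le (by linarith)
        _ = x ^ (1 / 3 : ℝ) * x ^ (1 / 3 : ℝ) := Real.rpow_add hx0 _ _
        _ ≤ n * n := mul_le_mul h3.le h3.le (Real.rpow_nonneg hx0.le _) hn0.le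
        _ = n ^ (1 + 1) := by ring
    · calc n ^ (1 + 1) = n * n := by ring
        _ ≤ x ^ (11 / 24 : ℝ) * x ^ (11 / 24 : ℝ) :=
            mul_le_mul h2 h2 hn0.le (Real.rpow_nonneg hx0.le _)
        _ = x ^ (11 / 24 + 11 / 24 : ℝ) := (Real.rpow_add hx0 _ _).symm
        _ ≤ x ^ (1 - e) := Real.rpow_le_rpow_of_exponent_le hx1.le (by linarith)
  · push Not at h3
    have hex : ∃ k : ℕ, x ^ (2 / 3 - e) ≤ n ^ k := by
      refine ⟨K, ?_⟩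
      calc x ^ (2 / 3 - e) ≤ x ^ (κ * K) :=
            Real.rpow_le_rpow_of_exponent_le hx1.le (by linarith)
        _ = (x ^ κ) ^ K := by rw [Real.rpow_mul hx0.le, Real.rpow_natCast]
        _ ≤ n ^ K := pow_le_pow_left₀ (Real.rpow_nonneg hx0.le _) h1 K
    classical
    have hle : Nat.find hex ≤ K := by
      refine Nat.find_min' hex ?_
      calc x ^ (2 / 3 - e) ≤ x ^ (κ * K) :=
            Real.rpow_le_rpow_of_exponent_le hx1.le (by linarith)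
        _ = (x ^ κ) ^ K := by rw [Real.rpow_mul hx0.le, Real.rpow_natCast]
        _ ≤ n ^ K := pow_le_pow_left₀ (Real.rpow_nonneg hx0.le _) h1 K
    have hne : Nat.find hex ≠ 0 := by
      intro h0
      have h4 := Nat.find_spec hex
      rw [h0, pow_zero] at h4
      have h5 : 1 < x ^ (2 / 3 - e) := Real.one_lt_rpow hx1 (by linarith)
      linarith
    obtain ⟨j, hj⟩ := Nat.exists_eq_succ_of_ne_zero hne
    refine ⟨j, by omega, ?_, ?_⟩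
    · have h4 := Nat.find_spec hex
      rw [hj] at h4
      exact h4
    · have h5 : ¬ x ^ (2 / 3 - e) ≤ n ^ j := Nat.find_min hex (by omega)
      push Not at h5
      calc n ^ (j + 1) = n ^ j * n := pow_succ _ _
        _ ≤ x ^ (2 / 3 - e) * x ^ (1 / 3 : ℝ) :=
            mul_le_mul h5.le h3 hn0.le (Real.rpow_nonneg hx0.le _)
        _ = x ^ (2 / 3 - e + 1 / 3) := (Real.rpow_add hx0 _ _).symm
        _ = x ^ (1 - e) := by congr 1; ring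

private theorem lvs_core (e e1 κ : ℝ) (he : 0 < e) (he' : e ≤ 1 / 100) (he1 : 0 < e1)
    (hκ : 0 < κ) : ∃ X0 : ℕ, ∀ X : ℕ, X0 ≤ X → 3 ≤ X ∧
    ∀ (N : ℕ) (g : ArithmeticFunction ℂ) (σ T : ℝ) (B : Set ℝ),
    (X : ℝ) ^ κ ≤ N → (N : ℝ) ≤ (X : ℝ) ^ (11 / 24 : ℝ) →
    (∀ n, g n ≠ 0 → n ≤ 2 * N) → (∀ n, ‖g n‖ ≤ 2 * Real.log X) →
    1 ≤ T → T ≤ (X : ℝ) ^ (5 / 6 - e) → MeasurableSet B → B ⊆ Set.Icc (-T) T →
    (∀ t ∈ B, (N : ℝ) ^ σ ≤ ‖DP g (2 * N) t‖) →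
    ∃ u : ℝ, 2 / 3 - e ≤ u ∧ u ≤ 1 - e ∧ volume.real B ≤ (X : ℝ) ^ e1 *
      ((X : ℝ) ^ (2 * u * (1 - σ)) + min ((X : ℝ) ^ (5 / 6 - e + u * (1 - 2 * σ)))
        ((X : ℝ) ^ (5 / 6 - e + u * (4 - 6 * σ)))) := by
  choose f hf using fun j : ℕ => lvk (j + 1) e1 (by omega) he1
  set K : ℕ := ⌈1 / κ⌉₊ with hK
  have hK1 : 1 ≤ κ * K := by
    have h1 : 1 / κ ≤ K := Nat.le_ceil _
    rw [div_le_iff₀ hκ] at h1
    linarith
  refine ⟨max (∑ j ∈ range (K + 2), f j) (max 3 ⌈((2 : ℝ) ^ (K + 2)) ^ (1 / e)⌉₊),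
    fun X hX => ?_⟩
  have hX1 : ∑ j ∈ range (K + 2), f j ≤ X := (le_max_left _ _).trans hX
  have hX3 : 3 ≤ X := (le_max_left _ _).trans ((le_max_right _ _).trans hX)
  have hX2 : ⌈((2 : ℝ) ^ (K + 2)) ^ (1 / e)⌉₊ ≤ X :=
    (le_max_right _ _).trans ((le_max_right _ _).trans hX)
  refine ⟨hX3, fun N g σ T B h1 h2 hg hg' hT hT' hB hBT hV => ?_⟩
  set x : ℝ := (X : ℝ) with hx
  have hx3 : 3 ≤ x := by
    rw [hx]
    exact_mod_cast hX3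
  have hx0 : 0 < x := by linarith
  have hx1 : 1 < x := by linarith
  have hN1 : (1 : ℝ) ≤ N := (Real.one_le_rpow hx1.le hκ.le).trans h1
  have hN0 : (0 : ℝ) < N := by linarith
  have hN : 1 ≤ N := by exact_mod_cast hN1
  obtain ⟨j, hj, k1, k2⟩ := lvs_k hx3 hN1 he he' hK1 h1 h2
  have hfX : f j ≤ X := (single_le_sum (fun i _ => Nat.zero_le (f i)) (mem_range.2 hj)).trans hX1
  have h2e : (2 : ℝ) ^ (K + 2) ≤ x ^ e := by
    have h3 : ((2 : ℝ) ^ (K + 2)) ^ (1 / e) ≤ x := (Nat.le_ceil _).trans (by rw [hx]; exact_mod_cast hX2)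
    have h4 : (((2 : ℝ) ^ (K + 2)) ^ (1 / e)) ^ e ≤ x ^ e :=
      Real.rpow_le_rpow (by positivity) h3 he.le
    rwa [← Real.rpow_mul (by positivity), one_div_mul_cancel he.ne', Real.rpow_one] at h4
  have hpow : (2 * N) ^ (j + 1) ≤ X := by
    have h3 : ((2 * N : ℕ) : ℝ) ^ (j + 1) ≤ x := by
      push_cast
      rw [mul_pow]
      calc (2 : ℝ) ^ (j + 1) * (N : ℝ) ^ (j + 1) ≤ 2 ^ (K + 2) * x ^ (1 - e) :=
            mul_le_mul (pow_le_pow_right₀ (by norm_num) (by omega)) k2 (by positivity)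
              (by positivity)
        _ ≤ x ^ e * x ^ (1 - e) := mul_le_mul_of_nonneg_right h2e (Real.rpow_nonneg hx0.le _)
        _ = x := by rw [← Real.rpow_add hx0]; simp
    rw [hx] at h3
    exact_mod_cast h3
  have hTX : T ≤ x := by
    refine hT'.trans ?_
    calc x ^ (5 / 6 - e) ≤ x ^ (1 : ℝ) := Real.rpow_le_rpow_of_exponent_le hx1.le (by linarith)
      _ = x := Real.rpow_one x
  have hV0 : 0 < (N : ℝ) ^ σ := Real.rpow_pos_of_pos hN0 _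
  have main := hf j X hfX N g ((N : ℝ) ^ σ) T B hN hpow hg hg' hV0 hT hTX hB hBT hV
  obtain ⟨u, hu⟩ : ∃ u : ℝ, x ^ u = (N : ℝ) ^ (j + 1) :=
    ⟨Real.logb x ((N : ℝ) ^ (j + 1)), Real.rpow_logb hx0 hx1.ne' (by positivity)⟩
  have u1 : 2 / 3 - e ≤ u := by
    rw [← hu] at k1
    exact (Real.rpow_le_rpow_left_iff hx1).1 k1
  have u2 : u ≤ 1 - e := by
    rw [← hu] at k2
    exact (Real.rpow_le_rpow_left_iff hx1).1 k2
  -- the powers of `N` and `V`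
  have pN : ∀ m : ℕ, (N : ℝ) ^ (m * (j + 1)) = x ^ (m * u) := by
    intro m
    rw [mul_comm m, pow_mul, ← hu, ← Real.rpow_natCast, ← Real.rpow_mul hx0.le, mul_comm u]
  have pV : ∀ m : ℕ, ((N : ℝ) ^ σ) ^ (m * (j + 1)) = x ^ (m * u * σ) := by
    intro m
    rw [← Real.rpow_natCast, ← Real.rpow_mul hN0.le, mul_comm σ, Real.rpow_mul hN0.le,
      Real.rpow_natCast, pN, ← Real.rpow_mul hx0.le]
  have p1 : (N : ℝ) ^ (j + 1) = x ^ (1 * u) := by rw [one_mul, hu]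
  refine ⟨u, u1, u2, main.trans ?_⟩
  refine mul_le_mul_of_nonneg_left (add_le_add ?_ (min_le_min ?_ ?_)) (Real.rpow_nonneg hx0.le _)
  · rw [pN, pV, ← Real.rpow_sub hx0]
    refine le_of_eq ?_
    congr 1
    push_cast
    ring
  · rw [p1, pV]
    calc T * x ^ (1 * u) / x ^ (((2 : ℕ) : ℝ) * u * σ)
        ≤ x ^ (5 / 6 - e) * x ^ (1 * u) / x ^ (((2 : ℕ) : ℝ) * u * σ) := by gcongr
      _ = x ^ (5 / 6 - e + u * (1 - 2 * σ)) := by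
        rw [← Real.rpow_add hx0, ← Real.rpow_sub hx0]
        congr 1
        push_cast
        ring
  · rw [pN, pV]
    calc T * x ^ (((4 : ℕ) : ℝ) * u) / x ^ (((6 : ℕ) : ℝ) * u * σ)
        ≤ x ^ (5 / 6 - e) * x ^ (((4 : ℕ) : ℝ) * u) / x ^ (((6 : ℕ) : ℝ) * u * σ) := by gcongr
      _ = x ^ (5 / 6 - e + u * (4 - 6 * σ)) := by
        rw [← Real.rpow_add hx0, ← Real.rpow_sub hx0]
        congr 1
        push_cast
        ring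

private theorem lvs_two {c : ℝ} (hc : 0 < c) : ∃ X0 : ℕ, ∀ X : ℕ, X0 ≤ X → 2 ≤ (X : ℝ) ^ c := by
  refine ⟨⌈(2 : ℝ) ^ (1 / c)⌉₊, fun X hX => ?_⟩
  have h3 : (2 : ℝ) ^ (1 / c) ≤ X := (Nat.le_ceil _).trans (by exact_mod_cast hX)
  have h4 : ((2 : ℝ) ^ (1 / c)) ^ c ≤ (X : ℝ) ^ c := Real.rpow_le_rpow (by positivity) h3 hc.le
  rwa [← Real.rpow_mul (by norm_num), one_div_mul_cancel hc.ne', Real.rpow_one] at h4

theorem lvs (e δ κ : ℝ) (he : 0 < e) (he' : e ≤ 1 / 100) (hδ : 0 < δ) (hδ' : δ ≤ 1 / 4) (hκ : 0 < κ) :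
    ∃ X0 : ℕ, ∀ X : ℕ, X0 ≤ X → ∀ (N : ℕ) (g : ArithmeticFunction ℂ) (s T : ℝ) (B : Set ℝ),
    (X : ℝ) ^ κ ≤ N → (N : ℝ) ≤ (X : ℝ) ^ (11 / 24 : ℝ) →
    (∀ n, g n ≠ 0 → n ≤ 2 * N) → (∀ n, ‖g n‖ ≤ 2 * Real.log X) → 1 / 2 ≤ s → s ≤ 1 - δ →
    1 ≤ T → T ≤ (X : ℝ) ^ (5 / 6 - e) → MeasurableSet B → B ⊆ Set.Icc (-T) T →
    (∀ t ∈ B, (N : ℝ) ^ (s - e * δ / 4) ≤ ‖DP g (2 * N) t‖) →
    volume.real B ≤ (X : ℝ) ^ (2 - 2 * s - e * δ) := by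
  obtain ⟨X1, h1⟩ := lvs_core e (e * δ / 8) κ he he' (by positivity) hκ
  obtain ⟨X2, h2⟩ := lvs_two (c := 3 / 8 * (e * δ)) (by positivity)
  refine ⟨max X1 X2, fun X hX N g s T B hN hN' hg hg' hs hs' hT hT' hB hBT hV => ?_⟩
  obtain ⟨hX3, h3⟩ := h1 X ((le_max_left _ _).trans hX)
  have h4 := h2 X ((le_max_right _ _).trans hX)
  obtain ⟨u, u1, u2, hb⟩ := h3 N g (s - e * δ / 4) T B hN hN' hg hg' hT hT' hB hBT hV
  set x : ℝ := (X : ℝ) with hx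
  have hx3 : 3 ≤ x := by
    rw [hx]
    exact_mod_cast hX3
  have hx0 : 0 < x := by linarith
  have hx1 : 1 ≤ x := by linarith
  have hed : 0 < e * δ := by positivity
  have hed1 : e * δ ≤ e / 4 := by nlinarith
  have hed2 : e * δ ≤ 1 / 400 := by linarith
  set σ : ℝ := s - e * δ / 4 with hσ
  have b1 : x ^ (2 * u * (1 - σ)) ≤ x ^ (2 - 2 * s - 3 / 2 * (e * δ)) := by
    refine Real.rpow_le_rpow_of_exponent_le hx1 ?_
    have : 0 ≤ 1 - σ := by rw [hσ]; linarith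
    have a1 : u * (1 - σ) ≤ (1 - e) * (1 - σ) := mul_le_mul_of_nonneg_right u2 this
    have a2 : (1 - e) * (1 - σ) = 1 - s + e * δ / 4 - e * (1 - s) - e * (e * δ) / 4 := by
      rw [hσ]; ring
    have a3 : e * δ ≤ e * (1 - s) := mul_le_mul_of_nonneg_left (by linarith) he.le
    have a4 : 0 ≤ e * (e * δ) := by positivity
    linarith
  have b2 : min (x ^ (5 / 6 - e + u * (1 - 2 * σ))) (x ^ (5 / 6 - e + u * (4 - 6 * σ))) ≤
      x ^ (2 - 2 * s - 3 / 2 * (e * δ)) := by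
    have hgoal : 2 - 2 * σ - e / 2 ≤ 2 - 2 * s - 3 / 2 * (e * δ) := by
      rw [hσ]
      linarith
    rcases le_total σ (1 / 2) with c1 | c1
    · refine (min_le_left _ _).trans (Real.rpow_le_rpow_of_exponent_le hx1 (le_trans ?_ hgoal))
      have a1 : u * (1 - 2 * σ) ≤ 1 * (1 - 2 * σ) :=
        mul_le_mul_of_nonneg_right (by linarith) (by linarith)
      linarith
    rcases le_total σ (3 / 4) with c2 | c2
    · refine (min_le_left _ _).trans (Real.rpow_le_rpow_of_exponent_le hx1 (le_trans ?_ hgoal))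
      have a1 : (2 / 3 - e) * (2 * σ - 1) ≤ u * (2 * σ - 1) :=
        mul_le_mul_of_nonneg_right u1 (by linarith)
      have a2 : (2 / 3 + 2 * e) * σ ≤ (2 / 3 + 2 * e) * (3 / 4) :=
        mul_le_mul_of_nonneg_left c2 (by linarith)
      nlinarith
    · refine (min_le_right _ _).trans (Real.rpow_le_rpow_of_exponent_le hx1 (le_trans ?_ hgoal))
      have a1 : (2 / 3 - e) * (6 * σ - 4) ≤ u * (6 * σ - 4) :=
        mul_le_mul_of_nonneg_right u1 (by linarith)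
      have a2 : (2 - 6 * e) * (3 / 4) ≤ (2 - 6 * e) * σ :=
        mul_le_mul_of_nonneg_left c2 (by linarith)
      nlinarith
  calc volume.real B ≤ x ^ (e * δ / 8) * (x ^ (2 - 2 * s - 3 / 2 * (e * δ)) +
        x ^ (2 - 2 * s - 3 / 2 * (e * δ))) := by
        refine hb.trans (mul_le_mul_of_nonneg_left (add_le_add b1 b2) (Real.rpow_nonneg hx0.le _))
    _ = 2 * x ^ (2 - 2 * s - e * δ - 3 / 8 * (e * δ)) := by
        rw [← two_mul, mul_left_comm, ← Real.rpow_add hx0]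
        congr 2
        ring
    _ ≤ x ^ (3 / 8 * (e * δ)) * x ^ (2 - 2 * s - e * δ - 3 / 8 * (e * δ)) :=
        mul_le_mul_of_nonneg_right h4 (Real.rpow_nonneg hx0.le _)
    _ = x ^ (2 - 2 * s - e * δ) := by
        rw [← Real.rpow_add hx0]
        congr 1
        ring

theorem lvl (e δ κ : ℝ) (he : 0 < e) (he' : e ≤ 1 / 100) (hδ : 0 < δ) (hδ' : δ ≤ 1 / 50) (hκ : 0 < κ) :
    ∃ X0 : ℕ, ∀ X : ℕ, X0 ≤ X → ∀ (N : ℕ) (g : ArithmeticFunction ℂ) (T : ℝ) (B : Set ℝ),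
    (X : ℝ) ^ κ ≤ N → (N : ℝ) ≤ (X : ℝ) ^ (11 / 24 : ℝ) →
    (∀ n, g n ≠ 0 → n ≤ 2 * N) → (∀ n, ‖g n‖ ≤ 2 * Real.log X) →
    1 ≤ T → T ≤ (X : ℝ) ^ (5 / 6 - e) → MeasurableSet B → B ⊆ Set.Icc (-T) T →
    (∀ t ∈ B, (N : ℝ) ^ (1 - δ) ≤ ‖DP g (2 * N) t‖) →
    volume.real B ≤ (X : ℝ) ^ (3 * δ) := by
  obtain ⟨X1, h1⟩ := lvs_core e (δ / 2) κ he he' (by positivity) hκ
  obtain ⟨X2, h2⟩ := lvs_two (c := δ / 2) (by positivity)
  refine ⟨max X1 X2, fun X hX N g T B hN hN' hg hg' hT hT' hB hBT hV => ?_⟩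
  obtain ⟨hX3, h3⟩ := h1 X ((le_max_left _ _).trans hX)
  have h4 := h2 X ((le_max_right _ _).trans hX)
  obtain ⟨u, u1, u2, hb⟩ := h3 N g (1 - δ) T B hN hN' hg hg' hT hT' hB hBT hV
  set x : ℝ := (X : ℝ) with hx
  have hx3 : 3 ≤ x := by
    rw [hx]
    exact_mod_cast hX3
  have hx0 : 0 < x := by linarith
  have hx1 : 1 ≤ x := by linarith
  have b1 : x ^ (2 * u * (1 - (1 - δ))) ≤ x ^ (2 * δ) := by
    refine Real.rpow_le_rpow_of_exponent_le hx1 ?_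
    nlinarith
  have b2 : min (x ^ (5 / 6 - e + u * (1 - 2 * (1 - δ))))
      (x ^ (5 / 6 - e + u * (4 - 6 * (1 - δ)))) ≤ x ^ (2 * δ) := by
    refine (min_le_right _ _).trans (Real.rpow_le_rpow_of_exponent_le hx1 ?_)
    nlinarith
  calc volume.real B ≤ x ^ (δ / 2) * (x ^ (2 * δ) + x ^ (2 * δ)) :=
        hb.trans (mul_le_mul_of_nonneg_left (add_le_add b1 b2) (Real.rpow_nonneg hx0.le _))
    _ = 2 * x ^ (δ / 2 + 2 * δ) := by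
        rw [← two_mul, mul_left_comm, ← Real.rpow_add hx0]
    _ ≤ x ^ (δ / 2) * x ^ (δ / 2 + 2 * δ) :=
        mul_le_mul_of_nonneg_right h4 (Real.rpow_nonneg hx0.le _)
    _ = x ^ (3 * δ) := by
        rw [← Real.rpow_add hx0]
        congr 1
        ring

end Pool.Agent.H88.PSI
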