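import Pool.Agent.H88.PSI.BoxD
import Pool.Agent.H88.PSI.Cov
import Pool.Agent.H88.PSI.Lvs

/-!
# PSI BoxM: the measure of the set where the product is `> X^(1-δ)`

`cov` with `κ = 4δ`, `s = 1` (`X^(s-κ/4) = X^(1-δ)`), then `lvl` with `4δ ≤ 1/50` and `κ := δ/6`: `≤ 6 X^(12 δ) ≤ X^(13 δ)`.
-/

set_option autoImplicit false

namespace Pool.Agent.H88.PSI

open Finset MeasureTheory

theorem box_m (e δ : ℝ) (he : 0 < e) (he' : e ≤ 1 / 100) (hδ : 0 < δ) (hδ' : δ ≤ 1 / 200) :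
    ∃ X0 : ℕ, ∀ X : ℕ, X0 ≤ X → ∀ (r : ℕ) (N : Fin r → ℕ) (g : Fin r → ArithmeticFunction ℂ) (T : ℝ),
    Box X N g → 1 ≤ T → T ≤ (X : ℝ) ^ (5 / 6 - e) →
    volume.real {t : ℝ | |t| ≤ T ∧ (X : ℝ) ^ (1 - δ) < FF N g t} ≤ (X : ℝ) ^ (13 * δ) := by
  classical
  obtain ⟨X1, h1⟩ := cov (4 * δ) (by positivity) (by linarith)
  obtain ⟨X2, h2⟩ := lvl e (4 * δ) (δ / 6) he he' (by positivity) (by linarith) (by positivity)
  obtain ⟨X3, h3⟩ : ∃ X3 : ℕ, ∀ X : ℕ, X3 ≤ X → (6 : ℝ) ≤ (X : ℝ) ^ δ := by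
    have h4 := (tendsto_rpow_atTop hδ).comp tendsto_natCast_atTop_atTop
    exact Filter.eventually_atTop.1 (h4.eventually (Filter.eventually_ge_atTop 6))
  refine ⟨X1 + X2 + X3 + 1, fun X hX r N g T hB hT hT' => ?_⟩
  have hX0 : (0 : ℝ) < X := by
    have : 0 < X := by omega
    exact_mod_cast this
  set B : Fin r → Set ℝ := fun i => if (X : ℝ) ^ (δ / 6) ≤ N i then
    {t | t ∈ Set.Icc (-T) T ∧ (N i : ℝ) ^ (1 - 4 * δ) ≤ ‖DP (g i) (2 * N i) t‖} else ∅ with hBd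
  have hsub : {t : ℝ | |t| ≤ T ∧ (X : ℝ) ^ (1 - δ) < FF N g t} ⊆ ⋃ i, B i := by
    rintro t ⟨ht, hF⟩
    obtain ⟨i, hi1, hi2⟩ := h1 X (by omega) r N (fun i => ‖DP (g i) (2 * N i) t‖) 1 hB.hr hB.one
      hB.prod (fun i => norm_nonneg _) (fun i => box_tr hB i t) (by norm_num) (by linarith)
      (by
        have h5 : 1 - 4 * δ / 4 = 1 - δ := by ring
        rw [h5]
        exact hF)
    rw [Set.mem_iUnion]
    refine ⟨i, ?_⟩
    simp only [hBd]
    have h6 : 4 * δ / 24 = δ / 6 := by ring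
    rw [h6] at hi1
    rw [if_pos hi1]
    exact ⟨abs_le.1 ht, hi2⟩
  have hBi : ∀ i, volume.real (B i) ≤ (X : ℝ) ^ (12 * δ) := by
    intro i
    simp only [hBd]
    by_cases h5 : (X : ℝ) ^ (δ / 6) ≤ N i
    · rw [if_pos h5]
      have h6 : 3 * (4 * δ) = 12 * δ := by ring
      have h7 := h2 X (by omega) (N i) (g i) T
        {t | t ∈ Set.Icc (-T) T ∧ (N i : ℝ) ^ (1 - 4 * δ) ≤ ‖DP (g i) (2 * N i) t‖} h5 (hB.top i)
        (fun n hn => (hB.supp i n hn).2.le) (hB.bd i) hT hT'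
        (measurableSet_Icc.inter (measurableSet_le measurable_const
          (dp_cont _ _).norm.measurable)) (fun t ht => ht.1) (fun t ht => ht.2)
      rwa [h6] at h7
    · rw [if_neg h5, measureReal_empty]
      positivity
  have hBsub : ∀ i, B i ⊆ Set.Icc (-T) T := by
    intro i t ht
    simp only [hBd] at ht
    by_cases h5 : (X : ℝ) ^ (δ / 6) ≤ N i
    · rw [if_pos h5] at ht
      exact ht.1
    · rw [if_neg h5] at ht
      exact absurd ht (Set.notMem_empty _)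
  have hfin : volume (⋃ i, B i) ≠ ⊤ := by
    refine ne_top_of_le_ne_top ?_ (measure_mono (Set.iUnion_subset hBsub))
    rw [Real.volume_Icc]
    exact ENNReal.ofReal_ne_top
  calc volume.real {t : ℝ | |t| ≤ T ∧ (X : ℝ) ^ (1 - δ) < FF N g t}
      ≤ volume.real (⋃ i, B i) := measureReal_mono hsub hfin
    _ ≤ ∑ i, volume.real (B i) := measureReal_iUnion_fintype_le _
    _ ≤ ∑ _i : Fin r, (X : ℝ) ^ (12 * δ) := Finset.sum_le_sum fun i _ => hBi i
    _ = r * (X : ℝ) ^ (12 * δ) := by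
      rw [Finset.sum_const, Finset.card_univ, Fintype.card_fin, nsmul_eq_mul]
    _ ≤ (X : ℝ) ^ δ * (X : ℝ) ^ (12 * δ) := by
      refine mul_le_mul_of_nonneg_right ?_ (by positivity)
      have h5 : (r : ℝ) ≤ 6 := by exact_mod_cast hB.hr
      exact h5.trans (h3 X (by omega))
    _ = (X : ℝ) ^ (13 * δ) := by
      rw [← Real.rpow_add hX0]
      congr 1
      ring

end Pool.Agent.H88.PSI
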