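import Pool.Agent.H88.PSI.MuB
import Pool.Agent.H97.VK.PSum

/-!
# PSI SmB: cancellation in `∑ χ(n) n^{2 π i t}` and `∑ χ(n) log n n^{2 π i t}` over dyadic intervals

(helper43)  `psum` (`H97/VK/PSum.lean`) for the partial sums, partial summation with the increasing weight `kf k` (`1` or `log`).
-/

set_option autoImplicit false

namespace Pool.Agent.H88.PSI

open Finset
open Pool.Agent.H91.PK (ee)

/-- the numerical facts for large `X` -/
private theorem smb_ev : ∃ X0 : ℕ, ∀ X : ℕ, X0 ≤ X → 12 ≤ Real.log X ∧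
    Real.exp (Pool.Agent.H97.VK.L9 X) + 2 ≤ (X : ℝ) ^ (1 / 7 : ℝ) := by
  obtain ⟨Z, hZ⟩ : ∃ Z : ℝ, Z = 100 := ⟨_, rfl⟩
  obtain ⟨X0, hX0⟩ := Filter.eventually_atTop.1
    ((Real.tendsto_log_atTop.comp (tendsto_natCast_atTop_atTop (R := ℝ))).eventually_ge_atTop
      (Z ^ 10))
  refine ⟨max X0 1, fun X hX => ?_⟩
  have h1 : Z ^ 10 ≤ Real.log X := hX0 X ((le_max_left _ _).trans hX)
  have hX1 : 1 ≤ X := (le_max_right _ _).trans hX
  have hXpos : (0 : ℝ) < X := by exact_mod_cast hX1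
  have h3 : Z ≤ Z ^ 10 := le_self_pow₀ (by linarith) (by norm_num)
  have hZL : Z ≤ Real.log X := h3.trans h1
  set L := Real.log X with hLdef
  have hL : 0 < L := by linarith
  obtain ⟨z, hz⟩ : ∃ z : ℝ, z = L ^ (1 / 10 : ℝ) := ⟨_, rfl⟩
  have hzZ : Z ≤ z := by
    have h4 : (Z ^ 10) ^ (1 / 10 : ℝ) ≤ L ^ (1 / 10 : ℝ) :=
      Real.rpow_le_rpow (by positivity) h1 (by norm_num)
    have h5 : (Z ^ 10) ^ (1 / 10 : ℝ) = Z := by
      rw [← Real.rpow_natCast, ← Real.rpow_mul (by linarith)]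
      norm_num
    rw [h5] at h4
    rw [hz]
    exact h4
  clear h1 h3
  have e1 : z ^ 10 = L := by
    rw [hz, ← Real.rpow_natCast, ← Real.rpow_mul hL.le]
    norm_num
  have e2 : Pool.Agent.H97.VK.L9 X = z ^ 9 := by
    unfold Pool.Agent.H97.VK.L9
    rw [← hLdef, hz, ← Real.rpow_natCast, ← Real.rpow_mul hL.le]
    norm_num
  have hz0 : 0 < z := by linarith
  have h9 : 0 < z ^ 9 := by positivity
  have h10 : L = z * z ^ 9 := by rw [← e1, ← pow_succ']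
  refine ⟨by linarith, ?_⟩
  rw [e2, Real.rpow_def_of_pos hXpos, ← hLdef]
  have h5 : z ^ 9 + 2 ≤ L * (1 / 7) := by
    have h6 : 100 * z ^ 9 ≤ z * z ^ 9 := mul_le_mul_of_nonneg_right (by linarith) h9.le
    have h7 : (1 : ℝ) ≤ z ^ 9 := one_le_pow₀ (by linarith)
    linarith
  have h6 := Real.exp_le_exp.2 h5
  refine le_trans ?_ h6
  rw [Real.exp_add]
  have h7 : (3 : ℝ) ≤ Real.exp 2 := by
    have := Real.add_one_le_exp (2 : ℝ)
    linarith
  have h8 : 1 ≤ Real.exp (z ^ 9) := Real.one_le_exp h9.le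
  nlinarith

theorem sm_b (K B : ℕ) : ∃ K' X0 : ℕ, ∀ X : ℕ, X0 ≤ X →
    ∀ (d : ℕ) (χ : DirichletCharacter ℂ d) (k : Fin 3) (j : ℕ) (t : ℝ), k ≠ 2 → 1 ≤ d →
    (d : ℝ) ≤ Real.log X ^ B →
    (X : ℝ) ^ (1 / 7 : ℝ) ≤ (2 : ℝ) ^ j → (2 : ℝ) ^ j ≤ X → Real.log X ^ K' ≤ |t| → |t| ≤ X →
    ‖DP (tw χ (pc k j)) (2 * 2 ^ j) t‖ ≤ (2 : ℝ) ^ j / Real.log X ^ K := by
  obtain ⟨K', x1, hps⟩ := Pool.Agent.H97.VK.psum (K + 2) B
  obtain ⟨x2, hev⟩ := smb_ev
  refine ⟨K', max (max x1 x2) 2, fun X hX d χ k j t hk hd hdB hj1 hj2 ht1 ht2 => ?_⟩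
  have hX1 : x1 ≤ X := ((le_max_left _ _).trans (le_max_left _ _)).trans hX
  have hX2 : x2 ≤ X := ((le_max_right _ _).trans (le_max_left _ _)).trans hX
  have hX3 : 2 ≤ X := (le_max_right _ _).trans hX
  obtain ⟨hL12, hY⟩ := hev X hX2
  set L := Real.log X with hLdef
  have hXr : (2 : ℝ) ≤ X := by exact_mod_cast hX3
  have hX0 : (0 : ℝ) < X := by linarith
  have hL0 : 0 < L := by linarith
  have h2j : 1 ≤ 2 ^ j := Nat.one_le_two_pow
  have hLA : 0 < L ^ (K + 2) := by positivity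
  -- the start
  have hYx : Pool.Agent.H97.VK.Yx X + 1 ≤ 2 ^ j - 1 := by
    have h1 : (Pool.Agent.H97.VK.Yx X : ℝ) ≤ Real.exp (Pool.Agent.H97.VK.L9 X) :=
      Nat.floor_le (Real.exp_pos _).le
    have h2 : ((Pool.Agent.H97.VK.Yx X + 2 : ℕ) : ℝ) ≤ (2 : ℝ) ^ j := by
      push_cast
      linarith
    have h3 : Pool.Agent.H97.VK.Yx X + 2 ≤ 2 ^ j := by exact_mod_cast h2
    omega
  have hpart : ∀ w, 2 ^ j - 1 ≤ w → ‖∑ n ∈ Icc 1 w, mub_F χ t n‖ ≤ w / L ^ (K + 2) := by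
    intro w hw
    refine hps X hX1 d χ t w hd hdB ht1 ?_ (hYx.trans hw)
    exact ht2.trans (le_self_pow₀ (by linarith) (by norm_num))
  have hM : ∀ w, 2 ^ j - 1 ≤ w → w ≤ 2 * 2 ^ j - 1 →
      ‖∑ n ∈ Ioc (2 ^ j - 1) w, mub_F χ t n‖ ≤ 3 * (2 : ℝ) ^ j / L ^ (K + 2) := by
    intro w hw1 hw2
    have h2 : ∑ n ∈ Ioc (2 ^ j - 1) w, mub_F χ t n =
        ∑ n ∈ Icc 1 w, mub_F χ t n - ∑ n ∈ Icc 1 (2 ^ j - 1), mub_F χ t n := by
      have e : Icc 1 w = Icc 1 (2 ^ j - 1) ∪ Ioc (2 ^ j - 1) w := by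
        ext n
        simp only [mem_union, mem_Icc, mem_Ioc]
        omega
      rw [e, sum_union]
      · ring
      · rw [disjoint_left]
        intro n hn hn'
        simp only [mem_Icc, mem_Ioc] at hn hn'
        omega
    rw [h2]
    refine (norm_sub_le _ _).trans ?_
    have h3 := hpart w hw1
    have h4 := hpart (2 ^ j - 1) le_rfl
    have h5 : (w : ℝ) ≤ 2 * (2 : ℝ) ^ j := by
      exact_mod_cast (by omega : w ≤ 2 * 2 ^ j)
    have h6 : ((2 ^ j - 1 : ℕ) : ℝ) ≤ (2 : ℝ) ^ j := by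
      exact_mod_cast Nat.sub_le _ _
    have h7 : (w : ℝ) / L ^ (K + 2) + ((2 ^ j - 1 : ℕ) : ℝ) / L ^ (K + 2) ≤
        3 * (2 : ℝ) ^ j / L ^ (K + 2) := by
      rw [← add_div]
      exact div_le_div_of_nonneg_right (by linarith) hLA.le
    linarith
  have hkf0 : ∀ n : ℕ, 0 ≤ kf k n := by
    intro n
    unfold kf
    split_ifs with h1 h2
    · exact zero_le_one
    · exact Real.log_natCast_nonneg n
    · exfalso
      omega
  have hkf1 : ∀ n : ℕ, 1 ≤ n → kf k n ≤ kf k (n + 1) := by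
    intro n hn
    unfold kf
    split_ifs with h1 h2
    · exact le_rfl
    · exact Real.log_le_log (by exact_mod_cast hn) (by push_cast; linarith)
    · exfalso
      omega
  have hkf2 : kf k (2 * 2 ^ j - 1) ≤ 2 * L := by
    unfold kf
    split_ifs with h1 h2
    · linarith
    · have h3 : ((2 * 2 ^ j - 1 : ℕ) : ℝ) ≤ 2 * X := by
        have h4 : ((2 * 2 ^ j - 1 : ℕ) : ℝ) ≤ ((2 * 2 ^ j : ℕ) : ℝ) := by
          exact_mod_cast Nat.sub_le _ _
        push_cast at h4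
        linarith
      have h4 : (0 : ℝ) < ((2 * 2 ^ j - 1 : ℕ) : ℝ) := by
        exact_mod_cast (by omega : 0 < 2 * 2 ^ j - 1)
      refine (Real.log_le_log h4 h3).trans ?_
      rw [Real.log_mul (by norm_num) hX0.ne']
      have := Real.log_two_lt_d9
      linarith
    · exfalso
      omega
  have hfin := mub_abel_mono (mub_F χ t) (kf k) _ (2 ^ j - 1) (2 * 2 ^ j - 1) hM
    (fun n _ _ => hkf0 n) (fun n hn _ => hkf1 n (by omega)) (by omega)
  have hDP : DP (tw χ (pc k j)) (2 * 2 ^ j) t = ∑ n ∈ Ioc (2 ^ j - 1 : ℕ) (2 * 2 ^ j - 1),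
      ((kf k n : ℝ) : ℂ) * mub_F χ t n := by
    unfold DP
    have hsub : Ioc (2 ^ j - 1) (2 * 2 ^ j - 1) ⊆ Icc 1 (2 * 2 ^ j) := by
      intro n hn
      rw [mem_Ioc] at hn
      rw [mem_Icc]
      omega
    rw [← sum_subset hsub]
    · refine sum_congr rfl fun n hn => ?_
      rw [mem_Ioc] at hn
      have h1 : n ≠ 0 ∧ 2 ^ j ≤ n ∧ n < 2 ^ (j + 1) := by
        rw [pow_succ]
        omega
      have h2 : (tw χ (pc k j)) n = ((kf k n : ℝ) : ℂ) * χ (n : ZMod d) := by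
        unfold tw pc seg
        simp only [ArithmeticFunction.coe_mk]
        rw [if_pos h1]
      rw [h2]
      unfold mub_F
      ring
    · intro n hn hn'
      rw [mem_Icc] at hn
      rw [mem_Ioc] at hn'
      have h1 : ¬ (n ≠ 0 ∧ 2 ^ j ≤ n ∧ n < 2 ^ (j + 1)) := by
        rw [pow_succ]
        omega
      have h2 : (tw χ (pc k j)) n = 0 := by
        unfold tw pc seg
        simp only [ArithmeticFunction.coe_mk]
        rw [if_neg h1]
        simp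
      rw [h2, zero_mul]
  rw [hDP]
  refine hfin.trans ?_
  calc 2 * (3 * (2 : ℝ) ^ j / L ^ (K + 2)) * kf k (2 * 2 ^ j - 1)
      ≤ 2 * (3 * (2 : ℝ) ^ j / L ^ (K + 2)) * (2 * L) :=
        mul_le_mul_of_nonneg_left hkf2 (by positivity)
    _ = 12 * ((2 : ℝ) ^ j / L ^ (K + 1)) := by
        have : L ^ (K + 2) = L * L ^ (K + 1) := by ring
        rw [this]
        field_simp
        ring
    _ ≤ L * ((2 : ℝ) ^ j / L ^ (K + 1)) := mul_le_mul_of_nonneg_right hL12 (by positivity)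
    _ = (2 : ℝ) ^ j / L ^ K := by
        rw [pow_succ]
        field_simp

end Pool.Agent.H88.PSI
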