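import Pool.Agent.H88.PSI.MuB
import Pool.Agent.H88.PSI.SmB
import Pool.Agent.H80.LV.Defs

/-!
# PSI PtB: pointwise bound for the factors of all kinds (maximum of the constants of `mu_b`, `sm_b`)
-/

set_option autoImplicit false

namespace Pool.Agent.H88.PSI

theorem pt_b (K B : ℕ) : ∃ K' X0 : ℕ, ∀ X : ℕ, X0 ≤ X →
    ∀ (d : ℕ) (χ : DirichletCharacter ℂ d) (k : Fin 3) (j : ℕ) (t : ℝ), 1 ≤ d →
    (d : ℝ) ≤ Real.log X ^ B →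
    (X : ℝ) ^ (1 / 7 : ℝ) ≤ (2 : ℝ) ^ j → (2 : ℝ) ^ j ≤ X → Real.log X ^ K' ≤ |t| → |t| ≤ X →
    ‖DP (tw χ (pc k j)) (2 * 2 ^ j) t‖ ≤ (2 : ℝ) ^ j / Real.log X ^ K := by
  obtain ⟨K1, X1, h1⟩ := mu_b K B
  obtain ⟨K2, X2, h2⟩ := sm_b K B
  obtain ⟨X3, h3⟩ := Pool.Agent.H80.LV.log_ge 1
  refine ⟨max K1 K2, max (max X1 X2) X3, ?_⟩
  intro X hX d χ k j t hd hdB hj1 hj2 ht1 ht2
  simp only [max_le_iff] at hX
  obtain ⟨⟨hX1, hX2⟩, hX3⟩ := hX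
  have hL := h3 X hX3
  by_cases hk : k = 2
  · subst hk
    exact h1 X hX1 d χ j t hd hdB hj1 hj2 ((pow_le_pow_right₀ hL (le_max_left _ _)).trans ht1) ht2
  · exact h2 X hX2 d χ k j t hk hd hdB hj1 hj2 ((pow_le_pow_right₀ hL (le_max_right _ _)).trans ht1) ht2

end Pool.Agent.H88.PSI
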