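import Pool.Agent.H88.PSI.BoxS
import Pool.Agent.H88.PSI.BoxM
import Pool.Agent.H88.PSI.BoxL
import Pool.Agent.H88.PSI.PtB
import Pool.Agent.H80.LV.Defs

/-!
# PSI BoxI: mean square of the Dirichlet polynomial of a box of type II

`η` from `box_l`, `δ = min (η/13) (1/200)`; `box_s` on `{FF ≤ X^(1-δ)}`, and on `B = {L^K' ≤ |t| ≤ T, FF > X^(1-δ)}` `box_m` and
`box_l` with `pt_b`.  `Box`: `tw χ (pc k j)` is supported on `[2^j, 2^(j+1))`, bounded by `log 2^(j+1) ≤ 2 L`.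
`FF = ‖DP (tw χ (Pp κ j)) (∏ 2·2^(j i))‖` by `dp_prod`, `tw_prod`; the length may be increased (`hN`).
-/

set_option autoImplicit false

namespace Pool.Agent.H88.PSI

open Finset MeasureTheory

private theorem BoxI_ext (f : ℕ → ℂ) (N0 N : ℕ) (h : ∀ n, f n ≠ 0 → n ≤ N0) (hN : N0 ≤ N) (t : ℝ) :
    DP f N t = DP f N0 t := by
  unfold DP
  symm
  apply sum_subset (Icc_subset_Icc le_rfl hN)
  intro n _ hn
  have : f n = 0 := by
    by_contra h0
    have := h n h0
    simp only [mem_Icc, not_and, not_le] at hn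
    rename_i h1
    rw [mem_Icc] at h1
    have := hn h1.1
    omega
  rw [this, zero_mul]

private theorem BoxI_norm_char {d : ℕ} (χ : DirichletCharacter ℂ d) (a : ZMod d) : ‖χ a‖ ≤ 1 :=
  DirichletCharacter.norm_le_one χ a

theorem BoxI_box (X : ℕ) (hX : 3 ≤ X) {r d : ℕ} (χ : DirichletCharacter ℂ d) (κ : Fin r → Fin 3)
    (j : Fin r → ℕ) (hr : r ≤ 6) (h1 : ∀ i, (2 : ℝ) ^ j i ≤ (X : ℝ) ^ (11 / 24 : ℝ))
    (h2 : ∏ i, 2 ^ j i ≤ 3 * X) :
    Box X (fun i => 2 ^ j i) (fun i => tw χ (pc (κ i) (j i))) where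
  hr := hr
  one := fun i => Nat.one_le_two_pow
  top := fun i => by push_cast; exact h1 i
  prod := h2
  supp := by
    intro i n hn
    have h3 : pc (κ i) (j i) n ≠ 0 := by
      intro h0
      apply hn
      show (((pc (κ i) (j i)) n : ℝ) : ℂ) * χ (n : ZMod d) = 0
      rw [h0]; simp
    unfold pc seg at h3
    simp only [ArithmeticFunction.coe_mk] at h3
    split_ifs at h3 with h4
    · refine ⟨h4.2.1, ?_⟩
      have := h4.2.2
      rw [pow_succ] at this
      show n < 2 * 2 ^ j i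
      omega
    · exact absurd rfl h3
  bd := by
    intro i n
    have hX3 : (3 : ℝ) ≤ X := by exact_mod_cast hX
    have hL1 : 1 ≤ Real.log X := by
      rw [Real.le_log_iff_exp_le (by linarith)]
      have := Real.exp_one_lt_d9
      linarith
    show ‖(((pc (κ i) (j i)) n : ℝ) : ℂ) * χ (n : ZMod d)‖ ≤ 2 * Real.log X
    rw [norm_mul, Complex.norm_real]
    have h3 : ‖(pc (κ i) (j i)) n‖ ≤ 2 * Real.log X := by
      unfold pc seg
      simp only [ArithmeticFunction.coe_mk]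
      split_ifs with h4
      · unfold kf
        split_ifs
        · simp; linarith
        · have hn0 : (0 : ℝ) < n := by
            have := Nat.pos_of_ne_zero h4.1
            exact_mod_cast this
          have hn1 : (1 : ℝ) ≤ n := by
            have := Nat.pos_of_ne_zero h4.1
            exact_mod_cast this
          rw [Real.norm_eq_abs, abs_of_nonneg (Real.log_nonneg hn1)]
          have h5 : (n : ℝ) ≤ (X : ℝ) ^ 2 := by
            have h6 : (n : ℝ) < 2 ^ (j i + 1) := by exact_mod_cast h4.2.2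
            have h7 : (X : ℝ) ^ (11 / 24 : ℝ) ≤ X := by
              nth_rewrite 2 [← Real.rpow_one (X : ℝ)]
              exact Real.rpow_le_rpow_of_exponent_le (by linarith) (by norm_num)
            have h8 := h1 i
            have h9 : (2 : ℝ) ^ (j i + 1) = 2 ^ (j i) * 2 := by ring
            nlinarith
          calc Real.log n ≤ Real.log ((X : ℝ) ^ 2) := Real.log_le_log hn0 h5
            _ = 2 * Real.log X := by rw [Real.log_pow]; norm_num
        · have h5 := ArithmeticFunction.abs_moebius_le_one (n := n)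
          have h6 : |((ArithmeticFunction.moebius n : ℤ) : ℝ)| ≤ 1 := by exact_mod_cast h5
          rw [Real.norm_eq_abs]
          linarith
      · simp; linarith
    calc ‖(pc (κ i) (j i)) n‖ * ‖χ (n : ZMod d)‖ ≤ ‖(pc (κ i) (j i)) n‖ * 1 :=
          mul_le_mul_of_nonneg_left (BoxI_norm_char χ _) (norm_nonneg _)
      _ ≤ 2 * Real.log X := by rw [mul_one]; exact h3

theorem BoxI_ff {r d : ℕ} (N : ℕ) (hd : 1 ≤ d) (χ : DirichletCharacter ℂ d) (κ : Fin r → Fin 3)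
    (j : Fin r → ℕ) (hN : 2 ^ r * ∏ i, 2 ^ j i ≤ N) (t : ℝ) :
    ‖DP (tw χ (Pp κ j)) N t‖ = FF (fun i => 2 ^ j i) (fun i => tw χ (pc (κ i) (j i))) t := by
  have hsup : ∀ i n, tw χ (pc (κ i) (j i)) n ≠ 0 → 2 ^ j i ≤ n ∧ n < 2 * 2 ^ j i := by
    intro i n hn
    have h3 : pc (κ i) (j i) n ≠ 0 := by
      intro h0
      apply hn
      show (((pc (κ i) (j i)) n : ℝ) : ℂ) * χ (n : ZMod d) = 0
      rw [h0]; simp
    unfold pc seg at h3
    simp only [ArithmeticFunction.coe_mk] at h3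
    split_ifs at h3 with h4
    · refine ⟨h4.2.1, ?_⟩
      have := h4.2.2
      rw [pow_succ] at this
      omega
    · exact absurd rfl h3
  have e1 : tw χ (Pp κ j) = ∏ i, tw χ (pc (κ i) (j i)) := by
    unfold Pp
    exact tw_prod χ univ _ (by omega)
  have e2 : ∏ i : Fin r, (2 * 2 ^ j i) = 2 ^ r * ∏ i, 2 ^ j i := by
    rw [prod_mul_distrib]; simp
  have e3 : DP (⇑(tw χ (Pp κ j))) N t = DP (⇑(∏ i, tw χ (pc (κ i) (j i)))) (∏ i : Fin r, (2 * 2 ^ j i)) t := by
    rw [e1]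
    apply BoxI_ext
    · intro n hn
      exact (prod_supp _ (fun i => 2 ^ j i) hsup n hn).2
    · rw [e2]; exact hN
  rw [e3, dp_prod univ (fun i => tw χ (pc (κ i) (j i))) (fun i => 2 * 2 ^ j i)
    (fun i _ n hn => (hsup i n hn).2.le) t, norm_prod]
  rfl

theorem box_i (e : ℝ) (he : 0 < e) (he' : e ≤ 1 / 100) (A B : ℕ) : ∃ K' X0 : ℕ, ∀ X : ℕ, X0 ≤ X →
    ∀ (r d N : ℕ) (χ : DirichletCharacter ℂ d) (κ : Fin r → Fin 3) (j : Fin r → ℕ), r ≤ 6 → 1 ≤ d →
    (d : ℝ) ≤ Real.log X ^ B → (∀ i, (2 : ℝ) ^ j i ≤ (X : ℝ) ^ (11 / 24 : ℝ)) →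
    ∏ i, 2 ^ j i ≤ 3 * X → X ≤ 2 ^ r * ∏ i, 2 ^ j i → 2 ^ r * ∏ i, 2 ^ j i ≤ N →
    ∫ t in {t : ℝ | Real.log X ^ K' ≤ |t| ∧ |t| ≤ (X : ℝ) ^ (5 / 6 - e)},
      ‖DP (tw χ (Pp κ j)) N t‖ ^ 2 ≤ (X : ℝ) ^ 2 / Real.log X ^ A := by
  obtain ⟨η, hη, HL⟩ := box_l
  obtain ⟨K, X1, HL⟩ := HL (A + 1)
  obtain ⟨K', X2, HP⟩ := pt_b K B
  set δ : ℝ := min (η / 13) (1 / 200) with hδdef
  have hδ : 0 < δ := lt_min (by positivity) (by norm_num)
  have hδ1 : 13 * δ ≤ η := by have := min_le_left (η / 13) (1 / 200 : ℝ); rw [← hδdef] at this; linarith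
  have hδ2 : δ ≤ 1 / 200 := min_le_right _ _
  obtain ⟨X3, HS⟩ := box_s e δ he he' hδ (by linarith)
  obtain ⟨X4, HM⟩ := box_m e δ he he' hδ hδ2
  obtain ⟨X5, H5⟩ := Pool.Agent.H80.LV.log_pow_le (e * δ / 2) 2 (by positivity) (by norm_num) A
  obtain ⟨X6, H6⟩ := Pool.Agent.H80.LV.log_ge 2
  refine ⟨K', max (max (max X1 X2) (max X3 X4)) (max (max X5 X6) 3), ?_⟩
  intro X hX r d N χ κ j hr hd hdB hj1 hj2 hj3 hN
  simp only [max_le_iff] at hX
  obtain ⟨⟨⟨hX1, hX2⟩, hX3, hX4⟩, ⟨hX5, hX6⟩, hX7⟩ := hX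
  have hXr : (3 : ℝ) ≤ X := by exact_mod_cast hX7
  have hX0 : (0 : ℝ) < X := by linarith
  have hL := H6 X hX6
  have hbox := BoxI_box X hX7 χ κ j hr hj1 hj2
  set T : ℝ := (X : ℝ) ^ (5 / 6 - e) with hT
  have hT1 : 1 ≤ T := Real.one_le_rpow (by linarith) (by linarith)
  have hTX : T ≤ X := by
    rw [hT]; nth_rewrite 2 [← Real.rpow_one (X : ℝ)]
    exact Real.rpow_le_rpow_of_exponent_le (by linarith) (by linarith)
  set F : ℝ → ℝ := FF (fun i => 2 ^ j i) (fun i => tw χ (pc (κ i) (j i))) with hF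
  have hFc : Continuous F := ff_cont _ _
  have hF0 : ∀ t, 0 ≤ F t := ff_nonneg _ _
  set S : Set ℝ := {t : ℝ | Real.log X ^ K' ≤ |t| ∧ |t| ≤ T} with hS
  set B1 : Set ℝ := {t : ℝ | |t| ≤ T ∧ F t ≤ (X : ℝ) ^ (1 - δ)} with hB1
  set B2 : Set ℝ := {t : ℝ | (Real.log X ^ K' ≤ |t| ∧ |t| ≤ T) ∧ (X : ℝ) ^ (1 - δ) < F t} with hB2
  have mS : MeasurableSet S := by
    apply MeasurableSet.inter
    · exact measurableSet_le measurable_const continuous_abs.measurable
    · exact measurableSet_le continuous_abs.measurable measurable_const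
  have mB1 : MeasurableSet B1 := by
    apply MeasurableSet.inter
    · exact measurableSet_le continuous_abs.measurable measurable_const
    · exact measurableSet_le hFc.measurable measurable_const
  have mB2 : MeasurableSet B2 := by
    apply MeasurableSet.inter mS
    exact measurableSet_lt measurable_const hFc.measurable
  have hint : IntegrableOn (fun t => F t ^ 2) (Set.Icc (-T) T) :=
    (hFc.pow 2).continuousOn.integrableOn_compact isCompact_Icc
  have sB1 : B1 ⊆ Set.Icc (-T) T := fun t ht => abs_le.1 ht.1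
  have sB2 : B2 ⊆ Set.Icc (-T) T := fun t ht => abs_le.1 ht.1.2
  have i1 : IntegrableOn (fun t => F t ^ 2) B1 := hint.mono_set sB1
  have i2 : IntegrableOn (fun t => F t ^ 2) B2 := hint.mono_set sB2
  have hSsub : S ⊆ B1 ∪ B2 := by
    intro t ht
    by_cases h : F t ≤ (X : ℝ) ^ (1 - δ)
    · exact Or.inl ⟨ht.2, h⟩
    · exact Or.inr ⟨ht, not_le.1 h⟩
  have e1 : ∫ t in S, ‖DP (tw χ (Pp κ j)) N t‖ ^ 2 = ∫ t in S, F t ^ 2 := by
    apply setIntegral_congr_fun mS
    intro t _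
    show ‖DP (tw χ (Pp κ j)) N t‖ ^ 2 = F t ^ 2
    rw [BoxI_ff N hd χ κ j hN t]
  have e2 : ∫ t in S, F t ^ 2 ≤ ∫ t in B1 ∪ B2, F t ^ 2 := by
    apply setIntegral_mono_set (i1.union i2)
    · exact Filter.Eventually.of_forall fun t => sq_nonneg _
    · exact hSsub.eventuallyLE
  have e3 : ∫ t in B1 ∪ B2, F t ^ 2 ≤ (∫ t in B1, F t ^ 2) + ∫ t in B2, F t ^ 2 := by
    have hd1 : Disjoint B1 B2 := by
      rw [Set.disjoint_left]
      intro t h1 h2
      exact absurd h1.2 (not_le.2 h2.2)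
    rw [setIntegral_union hd1 mB2 i1 i2]
  have e4 : ∫ t in B1, F t ^ 2 ≤ (X : ℝ) ^ (2 - e * δ / 2) := HS X hX3 r _ _ T hbox hT1 le_rfl
  have e5 : ∫ t in B2, F t ^ 2 ≤ (X : ℝ) ^ 2 / Real.log X ^ (A + 1) := by
    apply HL X hX1 r _ _ B2 hbox hj3 mB2
    · intro t ht
      have := sB2 ht
      exact ⟨by linarith [this.1], by linarith [this.2]⟩
    · have h1 : volume.real B2 ≤ volume.real {t : ℝ | |t| ≤ T ∧ (X : ℝ) ^ (1 - δ) < F t} := by
        apply measureReal_mono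
        · intro t ht
          exact ⟨ht.1.2, ht.2⟩
        · have : {t : ℝ | |t| ≤ T ∧ (X : ℝ) ^ (1 - δ) < F t} ⊆ Set.Icc (-T) T := fun t ht => abs_le.1 ht.1
          exact ne_top_of_le_ne_top (by rw [Real.volume_Icc]; exact ENNReal.ofReal_ne_top) (measure_mono this)
      have h2 := HM X hX4 r _ _ T hbox hT1 le_rfl
      refine (h1.trans h2).trans ?_
      exact Real.rpow_le_rpow_of_exponent_le (by linarith) hδ1
    · intro i hi t ht
      have h3 := HP X hX2 d χ (κ i) (j i) t hd hdB (by push_cast at hi; exact hi) ?_ ht.1.1 ?_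
      · push_cast
        exact h3
      · refine (hj1 i).trans ?_
        nth_rewrite 2 [← Real.rpow_one (X : ℝ)]
        exact Real.rpow_le_rpow_of_exponent_le (by linarith) (by norm_num)
      · exact ht.1.2.trans hTX
  have hLp : (0 : ℝ) < Real.log X ^ A := by positivity
  have e6 : (X : ℝ) ^ (2 - e * δ / 2) ≤ (X : ℝ) ^ 2 / Real.log X ^ A / 2 := by
    have h1 := H5 X hX5
    have h2 : (X : ℝ) ^ (2 - e * δ / 2) * (X : ℝ) ^ (e * δ / 2) = (X : ℝ) ^ 2 := by
      rw [← Real.rpow_add hX0]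
      rw [show (2 - e * δ / 2 + e * δ / 2 : ℝ) = ((2 : ℕ) : ℝ) by push_cast; ring, Real.rpow_natCast]
    rw [div_div, le_div_iff₀ (by positivity), ← h2]
    exact mul_le_mul_of_nonneg_left (by linarith) (by positivity)
  have e7 : (X : ℝ) ^ 2 / Real.log X ^ (A + 1) ≤ (X : ℝ) ^ 2 / Real.log X ^ A / 2 := by
    rw [div_div]
    apply div_le_div_of_nonneg_left (by positivity) (by positivity)
    rw [pow_succ]
    exact mul_le_mul_of_nonneg_left hL hLp.le
  rw [e1]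
  linarith

end Pool.Agent.H88.PSI
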