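import Pool.Agent.H88.PSI.Dpm

/-!
# PSI BoxD: boxes of factors (definition) and trivial bounds
-/

set_option autoImplicit false

namespace Pool.Agent.H88.PSI

open Finset MeasureTheory

/-- `r ≤ 6` factors `g i` supported on `[N i, 2 N i)`, bounded by `2 log X`, `N i ≤ X^(11/24)`, `∏ N i ≤ 3 X` -/
structure Box (X : ℕ) {r : ℕ} (N : Fin r → ℕ) (g : Fin r → ArithmeticFunction ℂ) : Prop where
  hr : r ≤ 6
  one : ∀ i, 1 ≤ N i
  top : ∀ i, (N i : ℝ) ≤ (X : ℝ) ^ (11 / 24 : ℝ)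
  prod : ∏ i, N i ≤ 3 * X
  supp : ∀ i n, g i n ≠ 0 → N i ≤ n ∧ n < 2 * N i
  bd : ∀ i n, ‖g i n‖ ≤ 2 * Real.log X

/-- the absolute value of the Dirichlet polynomial of the box -/
noncomputable def FF {r : ℕ} (N : Fin r → ℕ) (g : Fin r → ArithmeticFunction ℂ) (t : ℝ) : ℝ :=
  ∏ i, ‖DP (g i) (2 * N i) t‖

theorem ff_cont {r : ℕ} (N : Fin r → ℕ) (g : Fin r → ArithmeticFunction ℂ) :
    Continuous (FF N g) := by
  unfold FF
  exact continuous_finsetProd _ fun i _ => (dp_cont _ _).norm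

theorem ff_nonneg {r : ℕ} (N : Fin r → ℕ) (g : Fin r → ArithmeticFunction ℂ) (t : ℝ) :
    0 ≤ FF N g t := by
  unfold FF
  exact Finset.prod_nonneg fun i _ => norm_nonneg _

/-- the trivial bound for one factor -/
theorem box_tr {X r : ℕ} {N : Fin r → ℕ} {g : Fin r → ArithmeticFunction ℂ} (h : Box X N g)
    (i : Fin r) (t : ℝ) : ‖DP (g i) (2 * N i) t‖ ≤ 2 * Real.log X * N i := by
  have hL : 0 ≤ 2 * Real.log X := (norm_nonneg _).trans (h.bd i 1)
  refine (dp_norm_le _ _ t).trans ?_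
  have h1 : ∑ n ∈ Icc 1 (2 * N i), ‖g i n‖ = ∑ n ∈ Ico (N i) (2 * N i), ‖g i n‖ := by
    symm
    apply sum_subset
    · intro n hn
      have h2 := mem_Ico.mp hn
      have h3 := h.one i
      exact mem_Icc.mpr ⟨by omega, by omega⟩
    · intro n _ hn
      by_contra h0
      have h4 : g i n ≠ 0 := fun h5 => h0 (by rw [h5, norm_zero])
      exact hn (mem_Ico.mpr (h.supp i n h4))
  rw [h1]
  calc ∑ n ∈ Ico (N i) (2 * N i), ‖g i n‖ ≤ ∑ n ∈ Ico (N i) (2 * N i), 2 * Real.log X :=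
        sum_le_sum fun n _ => h.bd i n
    _ = 2 * Real.log X * N i := by
        rw [sum_const, Nat.card_Ico, nsmul_eq_mul, mul_comm]
        congr 1
        have : 2 * N i - N i = N i := by omega
        rw [this]

end Pool.Agent.H88.PSI
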