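import Pool.Agent.H88.PSI.BoxD
import Pool.Agent.H88.PSI.Cov
import Pool.Agent.H88.PSI.Lvs

/-!
# PSI BoxS: the part of the integral where the product is `≤ X^(1-δ)`

`κ = eδ/4`, `η = (1/2-δ)/m1 ≤ κ/4` with `m1 : ℕ` fixed, `s_m = 1/2 + m η` (`s_{m1} = 1-δ`).
`{FF ≤ X^(1/2)}`: `≤ 2 T X ≤ 2 X^(11/6)`.  `B_m = {|t| ≤ T, X^(s_{m-1}) < FF ≤ X^(s_m)}`: by `cov` (`s = s_m`, `X^(s-κ/4) ≤ X^(s-η)`, `box_tr`)
`B_m` is covered by the `r ≤ 6` sets `{t ∈ B_m, X^(κ/24) ≤ N i, (N i)^(s_m-κ) ≤ ‖F_i(t)‖}`, each of measure `≤ X^(2-2s_m-eδ)` (`lvs` with the `κ` of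
`lvs` := `eδ/96`), so `∫_{B_m} FF^2 ≤ 6 X^(2-eδ)`; sum over `m ≤ m1`.
-/

set_option autoImplicit false

namespace Pool.Agent.H88.PSI

open Finset MeasureTheory

private theorem BoxS_large (a : ℝ) (ha : 0 < a) (c : ℝ) :
    ∃ X0 : ℕ, ∀ X : ℕ, X0 ≤ X → c ≤ (X : ℝ) ^ a := by
  have h := (tendsto_rpow_atTop ha).comp tendsto_natCast_atTop_atTop
  obtain ⟨X0, hX0⟩ := (Filter.tendsto_atTop_atTop.mp h) c
  exact ⟨X0, fun X hX => hX0 X hX⟩

private theorem BoxS_sq {x a : ℝ} (hx : 0 ≤ x) : (x ^ a) ^ 2 = x ^ (2 * a) := by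
  rw [← Real.rpow_natCast, ← Real.rpow_mul hx]
  congr 1
  push_cast
  ring

theorem box_s (e δ : ℝ) (he : 0 < e) (he' : e ≤ 1 / 100) (hδ : 0 < δ) (hδ' : δ ≤ 1 / 4) :
    ∃ X0 : ℕ, ∀ X : ℕ, X0 ≤ X → ∀ (r : ℕ) (N : Fin r → ℕ) (g : Fin r → ArithmeticFunction ℂ) (T : ℝ),
    Box X N g → 1 ≤ T → T ≤ (X : ℝ) ^ (5 / 6 - e) →
    ∫ t in {t : ℝ | |t| ≤ T ∧ FF N g t ≤ (X : ℝ) ^ (1 - δ)}, FF N g t ^ 2
      ≤ (X : ℝ) ^ (2 - e * δ / 2) := by
  set κ : ℝ := e * δ / 4 with hκd
  have hκ : 0 < κ := by positivity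
  have hed : e * δ ≤ 1 / 400 := by
    calc e * δ ≤ (1 / 100) * (1 / 4) := mul_le_mul he' hδ' hδ.le (by norm_num)
      _ = 1 / 400 := by norm_num
  have hκ' : κ ≤ 1 / 4 := by rw [hκd]; linarith
  obtain ⟨m1, hm1⟩ := exists_nat_gt ((1 / 2 - δ) * 4 / κ)
  have hm0 : (0 : ℝ) < m1 := by
    have : 0 ≤ (1 / 2 - δ) * 4 / κ := by
      apply div_nonneg _ hκ.le
      linarith
    linarith
  set η : ℝ := (1 / 2 - δ) / m1 with hη
  have hη0 : 0 ≤ η := div_nonneg (by linarith) hm0.le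
  have hη1 : η ≤ κ / 4 := by
    rw [hη, div_le_iff₀ hm0]
    rw [div_lt_iff₀ hκ] at hm1
    linarith
  obtain ⟨X1, hcov⟩ := cov κ hκ hκ'
  obtain ⟨X2, hlvs⟩ := lvs e δ (κ / 24) he he' hδ hδ' (by positivity)
  obtain ⟨X3, hX3⟩ := BoxS_large (e * δ / 2) (by positivity) (6 * m1 + 2)
  refine ⟨max (max X1 X2) (max X3 1), ?_⟩
  intro X hX r N g T hB hT hT'
  have hXa : X1 ≤ X := le_trans (le_trans (le_max_left _ _) (le_max_left _ _)) hX
  have hXb : X2 ≤ X := le_trans (le_trans (le_max_right _ _) (le_max_left _ _)) hX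
  have hXc : X3 ≤ X := le_trans (le_trans (le_max_left _ _) (le_max_right _ _)) hX
  have hXd : 1 ≤ X := le_trans (le_trans (le_max_right _ _) (le_max_right _ _)) hX
  have hx1 : (1 : ℝ) ≤ X := by exact_mod_cast hXd
  have hx0 : (0 : ℝ) < X := by linarith
  set s : ℕ → ℝ := fun m => 1 / 2 + m * η with hs
  have hs0 : ∀ m, 1 / 2 ≤ s m := fun m => by
    have : 0 ≤ (m : ℝ) * η := by positivity
    simp only [hs]
    linarith
  have hsm1 : s m1 = 1 - δ := by
    simp only [hs, hη]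
    field_simp
    ring
  have hsle : ∀ m, m ≤ m1 → s m ≤ 1 - δ := by
    intro m hm
    rw [← hsm1]
    simp only [hs]
    have : (m : ℝ) ≤ m1 := by exact_mod_cast hm
    nlinarith
  set C : ℕ → Fin r → Set ℝ := fun m i => {t : ℝ | |t| ≤ T ∧ (X : ℝ) ^ (κ / 24) ≤ N i ∧
    (N i : ℝ) ^ (s m - κ) ≤ ‖DP (g i) (2 * N i) t‖} with hC
  have hCm : ∀ m i, MeasurableSet (C m i) := by
    intro m i
    have h1 : MeasurableSet {t : ℝ | |t| ≤ T} :=
      measurableSet_le continuous_abs.measurable measurable_const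
    have h3 : MeasurableSet {t : ℝ | (N i : ℝ) ^ (s m - κ) ≤ ‖DP (g i) (2 * N i) t‖} :=
      measurableSet_le measurable_const (dp_cont _ _).norm.measurable
    exact h1.inter ((MeasurableSet.const _).inter h3)
  have hCI : ∀ m i, C m i ⊆ Set.Icc (-T) T := by
    intro m i t ht
    exact abs_le.mp ht.1
  have hCv : ∀ m i, m ≤ m1 → volume.real (C m i) ≤ (X : ℝ) ^ (2 - 2 * s m - e * δ) := by
    intro m i hm
    by_cases hN : (X : ℝ) ^ (κ / 24) ≤ N i
    · refine hlvs X hXb (N i) (g i) (s m) T (C m i) hN (hB.top i) ?_ (hB.bd i) (hs0 m)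
        (hsle m hm) hT hT' (hCm m i) (hCI m i) ?_
      · intro n hn
        exact (hB.supp i n hn).2.le
      · intro t ht
        exact ht.2.2
    · have : C m i = ∅ := by
        ext t
        simp only [hC, Set.mem_ofPred_eq, Set.mem_empty_iff_false, iff_false]
        exact fun h => hN h.2.1
      rw [this, measureReal_empty]
      positivity
  set F : ℝ → ℝ := FF N g with hF
  have hFc : Continuous F := ff_cont N g
  have hF0 : ∀ t, 0 ≤ F t := ff_nonneg N g
  set h : ℝ → ℝ := fun t => (X : ℝ) + ∑ m ∈ Icc 1 m1, ∑ i : Fin r,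
    (C m i).indicator (fun _ => (X : ℝ) ^ (2 * s m)) t with hh
  have hind0 : ∀ m i t, 0 ≤ (C m i).indicator (fun _ => (X : ℝ) ^ (2 * s m)) t := by
    intro m i t
    exact Set.indicator_nonneg (fun _ _ => by positivity) t
  have hh0 : ∀ t, 0 ≤ h t := fun t =>
    add_nonneg hx0.le (sum_nonneg fun m _ => sum_nonneg fun i _ => hind0 m i t)
  have key : ∀ t, |t| ≤ T → F t ≤ (X : ℝ) ^ (1 - δ) → F t ^ 2 ≤ h t := by
    intro t ht hFt
    by_cases h1 : F t ≤ (X : ℝ) ^ (1 / 2 : ℝ)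
    · have h2 : F t ^ 2 ≤ ((X : ℝ) ^ (1 / 2 : ℝ)) ^ 2 := pow_le_pow_left₀ (hF0 t) h1 2
      rw [BoxS_sq hx0.le] at h2
      norm_num at h2
      simp only [hh]
      have h3 : 0 ≤ ∑ m ∈ Icc 1 m1, ∑ i : Fin r,
        (C m i).indicator (fun _ => (X : ℝ) ^ (2 * s m)) t :=
        sum_nonneg fun m _ => sum_nonneg fun i _ => hind0 m i t
      linarith
    · have hex : ∃ m, F t ≤ (X : ℝ) ^ s m := ⟨m1, by rw [hsm1]; exact hFt⟩
      classical
      set m := Nat.find hex with hm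
      have hP : F t ≤ (X : ℝ) ^ s m := Nat.find_spec hex
      have hmle : m ≤ m1 := Nat.find_min' hex (by rw [hsm1]; exact hFt)
      have hm1' : 1 ≤ m := by
        by_contra h0
        have h0' : m = 0 := by omega
        rw [h0'] at hP
        simp only [hs, Nat.cast_zero, zero_mul, add_zero] at hP
        exact h1 hP
      have hPn : ¬ F t ≤ (X : ℝ) ^ s (m - 1) := Nat.find_min hex (by omega)
      rw [not_le] at hPn
      have hsm : s m - κ / 4 ≤ s (m - 1) := by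
        simp only [hs]
        have : ((m - 1 : ℕ) : ℝ) = m - 1 := by
          rw [Nat.cast_sub hm1', Nat.cast_one]
        rw [this]
        linarith
      have hlt : (X : ℝ) ^ (s m - κ / 4) < ∏ i, ‖DP (g i) (2 * N i) t‖ :=
        lt_of_le_of_lt (Real.rpow_le_rpow_of_exponent_le hx1 hsm) hPn
      obtain ⟨i, hi1, hi2⟩ := hcov X hXa r N (fun i => ‖DP (g i) (2 * N i) t‖) (s m) hB.hr
        hB.one hB.prod (fun i => norm_nonneg _) (fun i => box_tr hB i t) (hs0 m)
        (by have := hsle m hmle; linarith) hlt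
      have htC : t ∈ C m i := ⟨ht, hi1, hi2⟩
      have h2 : F t ^ 2 ≤ (X : ℝ) ^ (2 * s m) := by
        rw [← BoxS_sq hx0.le]
        exact pow_le_pow_left₀ (hF0 t) hP 2
      have h3 : (X : ℝ) ^ (2 * s m) ≤ ∑ i : Fin r,
          (C m i).indicator (fun _ => (X : ℝ) ^ (2 * s m)) t := by
        have h4 := single_le_sum (s := univ) (f := fun i : Fin r =>
          (C m i).indicator (fun _ => (X : ℝ) ^ (2 * s m)) t)
          (fun i _ => hind0 m i t) (mem_univ i)
        simp only [Set.indicator_of_mem htC] at h4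
        exact h4
      have h5 : ∑ i : Fin r, (C m i).indicator (fun _ => (X : ℝ) ^ (2 * s m)) t ≤
          ∑ m ∈ Icc 1 m1, ∑ i : Fin r,
            (C m i).indicator (fun _ => (X : ℝ) ^ (2 * s m)) t :=
        single_le_sum (f := fun m => ∑ i : Fin r,
          (C m i).indicator (fun _ => (X : ℝ) ^ (2 * s m)) t)
          (fun m _ => sum_nonneg fun i _ => hind0 m i t) (mem_Icc.mpr ⟨hm1', hmle⟩)
      simp only [hh]
      linarith
  -- integration
  set E : Set ℝ := {t : ℝ | |t| ≤ T ∧ F t ≤ (X : ℝ) ^ (1 - δ)} with hE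
  have hEm : MeasurableSet E :=
    (measurableSet_le continuous_abs.measurable measurable_const).inter
      (measurableSet_le hFc.measurable measurable_const)
  have hEI : E ⊆ Set.Icc (-T) T := fun t ht => abs_le.mp ht.1
  have hFi : IntegrableOn (fun t => F t ^ 2) (Set.Icc (-T) T) :=
    (hFc.pow 2).continuousOn.integrableOn_Icc
  have hci : ∀ c : ℝ, IntegrableOn (fun _ : ℝ => c) (Set.Icc (-T) T) := fun c =>
    continuous_const.continuousOn.integrableOn_Icc
  have hii : ∀ m i, IntegrableOn ((C m i).indicator (fun _ => (X : ℝ) ^ (2 * s m)))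
      (Set.Icc (-T) T) := fun m i => (hci _).indicator (hCm m i)
  have hsi : IntegrableOn (fun t => ∑ m ∈ Icc 1 m1, ∑ i : Fin r,
      (C m i).indicator (fun _ => (X : ℝ) ^ (2 * s m)) t) (Set.Icc (-T) T) := by
    apply integrable_finsetSum
    intro m _
    apply integrable_finsetSum
    intro i _
    exact hii m i
  have hhi : IntegrableOn h (Set.Icc (-T) T) := (hci _).add hsi
  have step1 : ∫ t in E, F t ^ 2 ≤ ∫ t in E, h t :=
    setIntegral_mono_on (hFi.mono_set hEI) (hhi.mono_set hEI) hEm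
      (fun t ht => key t ht.1 ht.2)
  have step2 : ∫ t in E, h t ≤ ∫ t in Set.Icc (-T) T, h t :=
    setIntegral_mono_set hhi (Filter.Eventually.of_forall hh0)
      (Filter.Eventually.of_forall hEI)
  have hvolI : volume.real (Set.Icc (-T) T) = 2 * T := by
    rw [Real.volume_real_Icc_of_le (by linarith)]
    ring
  have step3 : ∫ t in Set.Icc (-T) T, h t = 2 * T * X + ∑ m ∈ Icc 1 m1, ∑ i : Fin r,
      volume.real (C m i) * (X : ℝ) ^ (2 * s m) := by
    simp only [hh]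
    rw [integral_add (hci _) hsi, setIntegral_const, hvolI, smul_eq_mul]
    congr 1
    rw [integral_finsetSum]
    · refine sum_congr rfl fun m _ => ?_
      rw [integral_finsetSum]
      · refine sum_congr rfl fun i _ => ?_
        rw [setIntegral_indicator (hCm m i), Set.inter_eq_right.mpr (hCI m i),
          setIntegral_const, smul_eq_mul]
      · intro i _
        exact hii m i
    · intro m _
      apply integrable_finsetSum
      intro i _
      exact hii m i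
  have step4 : ∑ m ∈ Icc 1 m1, ∑ i : Fin r, volume.real (C m i) * (X : ℝ) ^ (2 * s m) ≤
      6 * m1 * (X : ℝ) ^ (2 - e * δ) := by
    calc ∑ m ∈ Icc 1 m1, ∑ i : Fin r, volume.real (C m i) * (X : ℝ) ^ (2 * s m)
        ≤ ∑ m ∈ Icc 1 m1, ∑ _i : Fin r, (X : ℝ) ^ (2 - e * δ) := by
          refine sum_le_sum fun m hm => sum_le_sum fun i _ => ?_
          have hm' := (mem_Icc.mp hm).2
          calc volume.real (C m i) * (X : ℝ) ^ (2 * s m)
              ≤ (X : ℝ) ^ (2 - 2 * s m - e * δ) * (X : ℝ) ^ (2 * s m) :=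
                mul_le_mul_of_nonneg_right (hCv m i hm') (by positivity)
            _ = (X : ℝ) ^ (2 - e * δ) := by
                rw [← Real.rpow_add hx0]
                congr 1
                ring
      _ = m1 * (r * (X : ℝ) ^ (2 - e * δ)) := by
          rw [sum_const, sum_const, Nat.card_Icc, card_univ, Fintype.card_fin, nsmul_eq_mul,
            nsmul_eq_mul, Nat.add_sub_cancel]
      _ ≤ 6 * m1 * (X : ℝ) ^ (2 - e * δ) := by
          have hr : (r : ℝ) ≤ 6 := by exact_mod_cast hB.hr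
          have hp : 0 ≤ (X : ℝ) ^ (2 - e * δ) := by positivity
          have := mul_le_mul_of_nonneg_right hr hp
          nlinarith
  have step5 : 2 * T * X ≤ 2 * (X : ℝ) ^ (2 - e * δ) := by
    have h1 : T * X ≤ (X : ℝ) ^ (5 / 6 - e) * X := mul_le_mul_of_nonneg_right hT' hx0.le
    have h2 : (X : ℝ) ^ (5 / 6 - e) * X = (X : ℝ) ^ (5 / 6 - e + 1) := by
      rw [Real.rpow_add_one hx0.ne']
    have h3 : (X : ℝ) ^ (5 / 6 - e + 1) ≤ (X : ℝ) ^ (2 - e * δ) :=
      Real.rpow_le_rpow_of_exponent_le hx1 (by linarith)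
    linarith
  calc ∫ t in E, F t ^ 2 ≤ 2 * T * X + ∑ m ∈ Icc 1 m1, ∑ i : Fin r,
      volume.real (C m i) * (X : ℝ) ^ (2 * s m) := by
        rw [← step3]
        exact step1.trans step2
    _ ≤ 2 * (X : ℝ) ^ (2 - e * δ) + 6 * m1 * (X : ℝ) ^ (2 - e * δ) := add_le_add step5 step4
    _ = (6 * m1 + 2) * (X : ℝ) ^ (2 - e * δ) := by ring
    _ ≤ (X : ℝ) ^ (e * δ / 2) * (X : ℝ) ^ (2 - e * δ) :=
        mul_le_mul_of_nonneg_right (hX3 X hXc) (by positivity)
    _ = (X : ℝ) ^ (2 - e * δ / 2) := by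
        rw [← Real.rpow_add hx0]
        congr 1
        ring

end Pool.Agent.H88.PSI
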