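import Pool.Agent.H88.PSI.Defs

/-!
# PSI Dks: the kernel `dk H θ = ∑_{j ≤ H} ee(jθ)` at the points `c/q + b/d`

`|dk H θ| ≤ H` and `|dk H θ| ≤ 1/(2 ‖θ‖)` (`‖θ‖` = distance to the nearest integer, geometric sum).  The points `c/q + b/d` (`c` mod `q`) are spaced by
`1/q` modulo 1 and are `≥ 1/(qd)` away from the integers (`(q, d) = 1`, not `q = 1, b = 0`).  The two nearest: `≤ min(H, qd/2)^2 ≤ d^2 min(q^2, qH)`; the
others `≤ 2 ∑_{k ≥ 1} min(H, q/(2k))^2 ≤ 4 min(q^2, qH)`.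
-/

set_option autoImplicit false

namespace Pool.Agent.H88.PSI

open Finset
open Pool.Agent.H91.PK (ee)

private theorem Dks_ee_add (a b : ℝ) : ee (a + b) = ee a * ee b := by
  unfold ee
  rw [← Complex.exp_add]
  congr 1
  push_cast
  ring

private theorem Dks_norm_ee (a : ℝ) : ‖ee a‖ = 1 := by
  unfold ee
  have : (2 * Real.pi * a * Complex.I : ℂ) = ((2 * Real.pi * a : ℝ) : ℂ) * Complex.I := by
    push_cast; ring
  rw [this]
  exact Complex.norm_exp_ofReal_mul_I _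

private theorem Dks_ee_int (n : ℤ) : ee (n : ℝ) = 1 := by
  unfold ee
  rw [Complex.exp_eq_one_iff]
  exact ⟨n, by push_cast; ring⟩

private theorem Dks_ee_nat (n : ℕ) : ee (n : ℝ) = 1 := by
  have := Dks_ee_int (n : ℤ)
  simpa using this

private theorem Dks_sin (δ : ℝ) (h : |δ| ≤ 1 / 2) : 4 * |δ| ≤ ‖1 - ee δ‖ := by
  have h1 : ‖1 - ee δ‖ = 2 * |Real.sin (Real.pi * δ)| := by
    have e1 : ee δ = Complex.exp (((2 * Real.pi * δ : ℝ) : ℂ) * Complex.I) := by
      unfold ee; congr 1; push_cast; ring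
    rw [e1, norm_sub_rev]
    have := Complex.norm_exp_I_mul_ofReal_sub_one (2 * Real.pi * δ)
    rw [mul_comm (Complex.I)] at this
    rw [this, Real.norm_eq_abs, abs_mul, abs_two]
    congr 3
    ring
  rw [h1]
  have h2 := Real.mul_abs_le_abs_sin (x := Real.pi * δ) (by
    rw [abs_mul, abs_of_pos Real.pi_pos]
    nlinarith [Real.pi_pos])
  rw [abs_mul, abs_of_pos Real.pi_pos] at h2
  have h3 : 2 / Real.pi * (Real.pi * |δ|) = 2 * |δ| := by
    field_simp [Real.pi_pos.ne']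
  rw [h3] at h2
  linarith

theorem dk_le (H : ℕ) (θ : ℝ) : ‖dk H θ‖ ≤ H := by
  unfold dk
  refine (norm_sum_le _ _).trans ?_
  simp [Dks_norm_ee]

theorem dk_per (H : ℕ) (θ : ℝ) : dk H (θ + 1) = dk H θ := by
  unfold dk
  refine Finset.sum_congr rfl fun j _ => ?_
  rw [mul_add, mul_one, Dks_ee_add, Dks_ee_nat, mul_one]

private theorem Dks_geom (H : ℕ) (θ : ℝ) :
    (1 - ee θ) * dk H θ = ee θ - ee ((H + 1 : ℝ) * θ) := by
  unfold dk
  induction H with
  | zero => simp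
  | succ n ih =>
    rw [Finset.sum_Icc_succ_top (by omega), mul_add, ih]
    have : ee (((n + 1 : ℕ) : ℝ) * θ) * ee θ = ee (((n + 1 : ℕ) + 1 : ℝ) * θ) := by
      rw [← Dks_ee_add]; congr 1; ring
    rw [sub_mul, one_mul, mul_comm (ee θ), this]
    push_cast
    ring

theorem dk_inv (H : ℕ) (θ : ℝ) (n : ℤ) (h : ∀ m : ℤ, θ ≠ m) (hn : |θ - n| ≤ 1 / 2) :
    ‖dk H θ‖ ≤ 1 / (2 * |θ - n|) := by
  have hpos : 0 < |θ - n| := abs_pos.2 (sub_ne_zero.2 (h n))
  have h1 : 4 * |θ - n| ≤ ‖1 - ee θ‖ := by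
    have := Dks_sin (θ - n) hn
    have e : ee θ = ee (θ - n) := by
      have : θ = (θ - n) + n := by ring
      conv_lhs => rw [this]
      rw [Dks_ee_add, Dks_ee_int, mul_one]
    rw [e]; exact this
  have h2 : ‖1 - ee θ‖ * ‖dk H θ‖ ≤ 2 := by
    rw [← norm_mul, Dks_geom]
    refine (norm_sub_le _ _).trans ?_
    rw [Dks_norm_ee, Dks_norm_ee]; norm_num
  rw [le_div_iff₀ (by positivity)]
  have h3 := norm_nonneg (dk H θ)
  nlinarith [mul_le_mul_of_nonneg_right h1 h3]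

private theorem Dks_nonint (q d b c : ℕ) (hb : b < d)
    (hqd : Nat.Coprime q d) (h0 : ¬ (q = 1 ∧ b = 0)) (hc : Nat.Coprime c q) (m : ℤ) :
    ((c : ℤ) * d + b * q) ≠ m * (q * d) := by
  intro he
  have h1 : (q : ℤ) ∣ (c : ℤ) * d := by
    have : (c : ℤ) * d = q * (m * d - b) := by linear_combination he
    exact ⟨_, this⟩
  have h2 : q ∣ c * d := by exact_mod_cast h1
  have h3 : q ∣ c := hqd.dvd_of_dvd_mul_right h2
  have h4 : q = 1 := by
    have : q ∣ Nat.gcd c q := Nat.dvd_gcd h3 dvd_rfl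
    rw [hc] at this
    exact Nat.dvd_one.1 this
  have h5 : (d : ℤ) ∣ (b : ℤ) * q := by
    have : (b : ℤ) * q = d * (m * q - c) := by linear_combination he
    exact ⟨_, this⟩
  have h6 : d ∣ b * q := by exact_mod_cast h5
  have h7 : d ∣ b := hqd.symm.dvd_of_dvd_mul_right h6
  exact h0 ⟨h4, Nat.eq_zero_of_dvd_of_lt h7 hb⟩

private theorem Dks_half (S : Finset ℕ) (r : ℕ → ℕ) (hinj : Set.InjOn r S) (M : ℕ)
    (hM : ∀ c ∈ S, 1 ≤ r c ∧ r c ≤ M) (g : ℕ → ℝ) (hg : ∀ k, 0 ≤ g k) :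
    ∑ c ∈ S, g (r c) ≤ ∑ k ∈ Icc 1 M, g k := by
  rw [← Finset.sum_image (f := g) hinj]
  refine Finset.sum_le_sum_of_subset_of_nonneg ?_ fun k _ _ => hg k
  intro k hk
  rw [Finset.mem_image] at hk
  obtain ⟨c, hc, rfl⟩ := hk
  exact Finset.mem_Icc.2 (hM c hc)

private theorem Dks_two (S : Finset ℕ) (r : ℕ → ℤ) (hinj : Set.InjOn r S)
    (hne : ∀ c ∈ S, r c ≠ 0) (M : ℕ) (hM : ∀ c ∈ S, (r c).natAbs ≤ M) (g : ℕ → ℝ)
    (hg : ∀ k, 0 ≤ g k) :
    ∑ c ∈ S, g (r c).natAbs ≤ 2 * ∑ k ∈ Icc 1 M, g k := by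
  rw [← Finset.sum_filter_add_sum_filter_not S (fun c => 0 < r c), two_mul]
  refine add_le_add ?_ ?_
  · refine Dks_half _ (fun c => (r c).natAbs) ?_ M ?_ g hg
    · intro a ha b hb hab
      rw [Finset.mem_coe, Finset.mem_filter] at ha hb
      refine hinj ha.1 hb.1 ?_
      have h1 := ha.2
      have h2 := hb.2
      simp only at hab
      omega
    · intro c hc
      rw [Finset.mem_filter] at hc
      refine ⟨?_, hM c hc.1⟩
      have := hne c hc.1
      omega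
  · refine Dks_half _ (fun c => (r c).natAbs) ?_ M ?_ g hg
    · intro a ha b hb hab
      rw [Finset.mem_coe, Finset.mem_filter] at ha hb
      refine hinj ha.1 hb.1 ?_
      have h1 := ha.2
      have h2 := hb.2
      simp only at hab
      omega
    · intro c hc
      rw [Finset.mem_filter] at hc
      refine ⟨?_, hM c hc.1⟩
      have := hne c hc.1
      omega

private theorem Dks_s1' (M : ℕ) : ∑ k ∈ Icc 1 (M + 1), 1 / (k : ℝ) ^ 2 ≤ 2 - 1 / ((M : ℝ) + 1) := by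
  induction M with
  | zero => norm_num
  | succ n ih =>
    rw [Finset.sum_Icc_succ_top (by omega)]
    have h2 : (0 : ℝ) < (n : ℝ) + 1 := by positivity
    have h3 : (0 : ℝ) < (n : ℝ) + 2 := by positivity
    have h5 : 1 / (((n : ℝ) + 2) ^ 2) ≤ 1 / ((n : ℝ) + 1) - 1 / ((n : ℝ) + 2) := by
      have e : 1 / ((n : ℝ) + 1) - 1 / ((n : ℝ) + 2) = 1 / (((n : ℝ) + 1) * ((n : ℝ) + 2)) := by
        field_simp
        ring
      rw [e]
      apply one_div_le_one_div_of_le (by positivity)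
      nlinarith
    have h6 : (((n + 1 + 1 : ℕ)) : ℝ) = (n : ℝ) + 2 := by push_cast; ring
    have h7 : (((n + 1 : ℕ)) : ℝ) + 1 = (n : ℝ) + 2 := by push_cast; ring
    rw [h6, h7]
    linarith

private theorem Dks_s1 (M : ℕ) : ∑ k ∈ Icc 1 M, 1 / (k : ℝ) ^ 2 ≤ 2 := by
  rcases M with _ | M
  · simp
  · refine (Dks_s1' M).trans ?_
    have : (0 : ℝ) ≤ 1 / ((M : ℝ) + 1) := by positivity
    linarith

private theorem Dks_s2 (A H : ℝ) (hA : 0 < A) (hH : 0 < H) (M : ℕ) :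
    ∑ k ∈ Icc 1 M, A ^ 2 * H ^ 2 / (A + k * H) ^ 2 ≤ A * H - A ^ 2 * H / (A + M * H) := by
  induction M with
  | zero =>
    simp
    field_simp
    norm_num
  | succ n ih =>
    rw [Finset.sum_Icc_succ_top (by omega)]
    have h1 : 0 < A + n * H := by positivity
    have h6 : (((n + 1 : ℕ)) : ℝ) = (n : ℝ) + 1 := by push_cast; ring
    rw [h6]
    have h2 : 0 < A + ((n : ℝ) + 1) * H := by positivity
    have h3 : A ^ 2 * H ^ 2 / (A + ((n : ℝ) + 1) * H) ^ 2 ≤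
        A ^ 2 * H / (A + n * H) - A ^ 2 * H / (A + ((n : ℝ) + 1) * H) := by
      have e : A ^ 2 * H / (A + n * H) - A ^ 2 * H / (A + ((n : ℝ) + 1) * H)
          = A ^ 2 * H ^ 2 / ((A + n * H) * (A + ((n : ℝ) + 1) * H)) := by
        field_simp
        ring
      rw [e]
      apply div_le_div_of_nonneg_left (by positivity) (by positivity)
      rw [sq]
      apply mul_le_mul_of_nonneg_right _ h2.le
      nlinarith
    linarith

private theorem Dks_pt (H : ℕ) (A x δ : ℝ) (hA : 0 < A) (hH : 1 ≤ H) (hx0 : 0 ≤ x) (hx : x ≤ H)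
    (k : ℕ) (hk : 1 ≤ k) (hd : δ = k / A) (h : x ≤ 1 / (2 * δ)) :
    x ^ 2 ≤ A ^ 2 * (1 / (k : ℝ) ^ 2) ∧ x ^ 2 ≤ 4 * (A ^ 2 * (H : ℝ) ^ 2 / (A + k * H) ^ 2) := by
  have hk' : (0 : ℝ) < k := by exact_mod_cast hk
  have hH' : (0 : ℝ) < H := by exact_mod_cast hH
  have h1 : x ≤ A / (2 * k) := by
    have : 1 / (2 * δ) = A / (2 * k) := by rw [hd]; field_simp
    rw [this] at h; exact h
  have h2 : x ^ 2 ≤ (A / (2 * k)) ^ 2 := pow_le_pow_left₀ hx0 h1 2
  have h3 : x ^ 2 ≤ (H : ℝ) ^ 2 := pow_le_pow_left₀ hx0 hx 2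
  constructor
  · refine h2.trans ?_
    have : (A / (2 * k)) ^ 2 = A ^ 2 * (1 / (k : ℝ) ^ 2) / 4 := by field_simp; norm_num
    rw [this]
    have : 0 ≤ A ^ 2 * (1 / (k : ℝ) ^ 2) := by positivity
    linarith
  · rcases le_total ((k : ℝ) * H) A with hc | hc
    · refine h3.trans ?_
      rw [← mul_div_assoc, le_div_iff₀ (by positivity)]
      have h4 : (A + k * H) ^ 2 ≤ (2 * A) ^ 2 := by
        apply pow_le_pow_left₀ (by positivity)
        linarith
      nlinarith [mul_le_mul_of_nonneg_left h4 (sq_nonneg (H : ℝ))]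
    · refine h2.trans ?_
      rw [← mul_div_assoc, div_pow, div_le_div_iff₀ (by positivity) (by positivity)]
      have h4 : (A + k * H) ^ 2 ≤ (2 * (k * H)) ^ 2 := by
        apply pow_le_pow_left₀ (by positivity)
        linarith
      have h5 := mul_le_mul_of_nonneg_left h4 (sq_nonneg A)
      have h6 : 0 ≤ A ^ 2 * (H : ℝ) ^ 2 * (k : ℝ) ^ 2 := by positivity
      nlinarith

theorem dk_sum (H q d b : ℕ) (hH : 1 ≤ H) (hq : 1 ≤ q) (hd : 1 ≤ d) (hb : b < d)
    (hqd : Nat.Coprime q d) (h0 : ¬ (q = 1 ∧ b = 0)) :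
    ∑ c ∈ (Icc 1 q).filter (fun c => Nat.Coprime c q), ‖dk H ((c : ℝ) / q + (b : ℝ) / d)‖ ^ 2
      ≤ 100 * (d : ℝ) ^ 2 * min ((q : ℝ) ^ 2) (q * H) := by
  have hq' : (0 : ℝ) < q := by exact_mod_cast hq
  have hd' : (0 : ℝ) < d := by exact_mod_cast hd
  have hd1 : (1 : ℝ) ≤ d := by exact_mod_cast hd
  have hH' : (0 : ℝ) < H := by exact_mod_cast hH
  set A : ℝ := q * d with hA
  have hA0 : 0 < A := by positivity
  let th : ℕ → ℝ := fun c => (c : ℝ) / q + (b : ℝ) / d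
  let r : ℕ → ℤ := fun c => ((c : ℤ) * d + b * q) - round (th c) * (q * d)
  have hr : ∀ c, th c - (round (th c) : ℤ) = (r c : ℝ) / A := by
    intro c
    simp only [r, th, hA]
    push_cast
    field_simp
  have hrne : ∀ c, Nat.Coprime c q → r c ≠ 0 := by
    intro c hc he
    exact Dks_nonint q d b c hb hqd h0 hc (round (th c)) (sub_eq_zero.1 he)
  have hrabs : ∀ c, |th c - (round (th c) : ℤ)| = ((r c).natAbs : ℝ) / A := by
    intro c
    rw [hr, abs_div, abs_of_pos hA0]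
    congr 1
    rw [Nat.cast_natAbs, Int.cast_abs]
  have hrle : ∀ c, (r c).natAbs ≤ q * d := by
    intro c
    have h1 := abs_sub_round (th c)
    rw [hrabs, div_le_iff₀ hA0] at h1
    have : ((r c).natAbs : ℝ) ≤ ((q * d : ℕ) : ℝ) := by
      push_cast
      rw [hA] at h1
      nlinarith [mul_pos hq' hd']
    exact_mod_cast this
  set S : Finset ℕ := (Icc 1 q).filter (fun c => Nat.Coprime c q) with hS
  have hinj : Set.InjOn r S := by
    intro c hc c' hc' he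
    rw [Finset.mem_coe, hS, Finset.mem_filter, Finset.mem_Icc] at hc hc'
    simp only [r] at he
    have h1 : ((c : ℤ) - c') * d = ((round (th c) - round (th c')) * q) * d := by
      linear_combination he
    have h2 : (c : ℤ) - c' = (round (th c) - round (th c')) * q := by
      refine mul_right_cancel₀ (b := (d : ℤ)) ?_ h1
      exact_mod_cast hd'.ne'
    have h3 : (q : ℤ) ∣ (c : ℤ) - c' := by rw [h2]; exact dvd_mul_left _ _
    have h4 : (c : ℤ) - c' = 0 := by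
      apply Int.eq_zero_of_abs_lt_dvd h3
      rw [abs_lt]
      constructor <;> omega
    omega
  have hthne : ∀ c, Nat.Coprime c q → ∀ m : ℤ, th c ≠ m := by
    intro c hc m he
    refine Dks_nonint q d b c hb hqd h0 hc m ?_
    have h1 : (c : ℝ) * d + b * q = m * (q * d) := by
      rw [← he]
      simp only [th]
      field_simp
    exact_mod_cast h1
  have key : ∀ c ∈ S, ‖dk H (th c)‖ ^ 2 ≤ A ^ 2 * (1 / (((r c).natAbs : ℕ) : ℝ) ^ 2) ∧
      ‖dk H (th c)‖ ^ 2 ≤ 4 * (A ^ 2 * (H : ℝ) ^ 2 / (A + ((r c).natAbs : ℕ) * H) ^ 2) := by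
    intro c hc
    rw [hS, Finset.mem_filter, Finset.mem_Icc] at hc
    refine Dks_pt H A _ (|th c - (round (th c) : ℤ)|) hA0 hH (norm_nonneg _) (dk_le _ _) _ ?_
      (hrabs c) ?_
    · have := hrne c hc.2
      omega
    · exact dk_inv H (th c) _ (hthne c hc.2) (abs_sub_round _)
  have b1 : ∑ c ∈ S, ‖dk H (th c)‖ ^ 2 ≤ 4 * A ^ 2 := by
    refine (Finset.sum_le_sum fun c hc => (key c hc).1).trans ?_
    refine (Dks_two S r hinj (fun c hc => ?_) (q * d) (fun c _ => hrle c)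
      (fun k => A ^ 2 * (1 / (k : ℝ) ^ 2)) (fun k => by positivity)).trans ?_
    · rw [hS, Finset.mem_filter] at hc
      exact hrne c hc.2
    · rw [← Finset.mul_sum]
      nlinarith [mul_le_mul_of_nonneg_left (Dks_s1 (q * d)) (sq_nonneg A)]
  have b2 : ∑ c ∈ S, ‖dk H (th c)‖ ^ 2 ≤ 8 * (A * H) := by
    refine (Finset.sum_le_sum fun c hc => (key c hc).2).trans ?_
    refine (Dks_two S r hinj (fun c hc => ?_) (q * d) (fun c _ => hrle c)
      (fun k => 4 * (A ^ 2 * (H : ℝ) ^ 2 / (A + k * H) ^ 2)) (fun k => by positivity)).trans ?_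
    · rw [hS, Finset.mem_filter] at hc
      exact hrne c hc.2
    · rw [← Finset.mul_sum]
      have h1 := Dks_s2 A H hA0 hH' (q * d)
      have h2 : 0 ≤ A ^ 2 * H / (A + ((q * d : ℕ) : ℝ) * H) := by positivity
      linarith
  have hdd : (d : ℝ) ≤ (d : ℝ) ^ 2 := by nlinarith
  have e : ∑ c ∈ S, ‖dk H ((c : ℝ) / q + (b : ℝ) / d)‖ ^ 2 = ∑ c ∈ S, ‖dk H (th c)‖ ^ 2 := rfl
  rw [e]
  rcases le_total ((q : ℝ) ^ 2) (q * H) with hc | hc
  · rw [min_eq_left hc]
    refine b1.trans ?_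
    rw [hA]
    have : 0 ≤ (q : ℝ) ^ 2 * (d : ℝ) ^ 2 := by positivity
    nlinarith
  · rw [min_eq_right hc]
    refine b2.trans ?_
    rw [hA]
    have h1 : (0 : ℝ) ≤ q * H := by positivity
    nlinarith [mul_le_mul_of_nonneg_left hdd h1, mul_nonneg h1 (sq_nonneg (d : ℝ))]

end Pool.Agent.H88.PSI
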