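import Pool.Agent.H88.PSI.Defs
import Pool.Agent.H91.PK.LSa

/-!
# PSI Dls: the dual form of the additive large sieve

Duality from `Pool.Agent.H91.PK.additive_ls` (`Pool/Agent/H91/PK/LSa.lean`): put `S x` = inner sum; `∑_x |S x|^2 = ∑_{q,b} c q b ∑_x conj(S x) ee(x b/q)`,
Cauchy-Schwarz, `additive_ls` with `a x = conj (S x)`.
-/

set_option autoImplicit false

namespace Pool.Agent.H88.PSI

open Finset
open Pool.Agent.H91.PK (ee)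

theorem dual_ls (M K0 K : ℕ) (c : ℕ → ℕ → ℂ) :
    ∑ x ∈ Ioc K0 (K0 + K), ‖∑ q ∈ Icc 1 M, ∑ b ∈ (Icc 1 q).filter (fun b => Nat.Coprime b q),
        c q b * ee ((x : ℝ) * b / q)‖ ^ 2
      ≤ ((M : ℝ) ^ 2 + Real.pi * K) *
        ∑ q ∈ Icc 1 M, ∑ b ∈ (Icc 1 q).filter (fun b => Nat.Coprime b q), ‖c q b‖ ^ 2 := by
  obtain ⟨J, hJ⟩ : ∃ J : Finset (Σ _ : ℕ, ℕ),
      J = (Icc 1 M).sigma (fun q => (Icc 1 q).filter (fun b => Nat.Coprime b q)) := ⟨_, rfl⟩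
  obtain ⟨S, hS⟩ : ∃ S : ℕ → ℂ, S = fun x : ℕ => ∑ q ∈ Icc 1 M,
      ∑ b ∈ (Icc 1 q).filter (fun b => Nat.Coprime b q), c q b * ee ((x : ℝ) * b / q) := ⟨_, rfl⟩
  have hSJ : ∀ x, S x = ∑ j ∈ J, c j.1 j.2 * ee ((x : ℝ) * j.2 / j.1) := by
    intro x
    rw [hS, hJ, Finset.sum_sigma]
  have hls := Pool.Agent.H91.PK.additive_ls M K0 K (fun x => (starRingEnd ℂ) (S x))
  have hnc : ∀ x, ‖(starRingEnd ℂ) (S x)‖ = ‖S x‖ := fun x => RCLike.norm_conj (S x)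
  simp only [hnc] at hls
  have hls' : ∑ j ∈ J, ‖∑ n ∈ Ioc K0 (K0 + K), (starRingEnd ℂ) (S n) * ee ((n : ℝ) * j.2 / j.1)‖ ^ 2 ≤
      ((M : ℝ) ^ 2 + Real.pi * K) * ∑ n ∈ Ioc K0 (K0 + K), ‖S n‖ ^ 2 := by
    rw [hJ, Finset.sum_sigma]
    exact hls
  have hgoal : ∑ q ∈ Icc 1 M, ∑ b ∈ (Icc 1 q).filter (fun b => Nat.Coprime b q), ‖c q b‖ ^ 2 =
      ∑ j ∈ J, ‖c j.1 j.2‖ ^ 2 := by
    rw [hJ, Finset.sum_sigma]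
  have hlhs : ∑ x ∈ Ioc K0 (K0 + K), ‖∑ q ∈ Icc 1 M, ∑ b ∈ (Icc 1 q).filter (fun b => Nat.Coprime b q),
        c q b * ee ((x : ℝ) * b / q)‖ ^ 2 = ∑ x ∈ Ioc K0 (K0 + K), ‖S x‖ ^ 2 := by
    rw [hS]
  rw [hgoal, hlhs]
  obtain ⟨T, hT⟩ : ∃ T : ℝ, T = ∑ x ∈ Ioc K0 (K0 + K), ‖S x‖ ^ 2 := ⟨_, rfl⟩
  rw [← hT] at hls' ⊢
  have hT0 : 0 ≤ T := by
    rw [hT]
    exact Finset.sum_nonneg fun _ _ => sq_nonneg _
  have hTc : (T : ℂ) = ∑ j ∈ J, c j.1 j.2 *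
      ∑ n ∈ Ioc K0 (K0 + K), (starRingEnd ℂ) (S n) * ee ((n : ℝ) * j.2 / j.1) := by
    have h1 : (T : ℂ) = ∑ n ∈ Ioc K0 (K0 + K), (starRingEnd ℂ) (S n) * S n := by
      rw [hT]
      push_cast
      refine Finset.sum_congr rfl fun n _ => ?_
      rw [Complex.conj_mul']
    rw [h1]
    simp only [Finset.mul_sum]
    rw [Finset.sum_comm]
    refine Finset.sum_congr rfl fun n _ => ?_
    conv_lhs => rw [hSJ n, Finset.mul_sum]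
    refine Finset.sum_congr rfl fun j _ => ?_
    rw [← hSJ n]
    ring
  have h2 : T ≤ ∑ j ∈ J, ‖c j.1 j.2‖ *
      ‖∑ n ∈ Ioc K0 (K0 + K), (starRingEnd ℂ) (S n) * ee ((n : ℝ) * j.2 / j.1)‖ := by
    have h3 : T = ‖(T : ℂ)‖ := by
      rw [Complex.norm_real, Real.norm_of_nonneg hT0]
    rw [h3, hTc]
    refine (norm_sum_le _ _).trans (Finset.sum_le_sum fun j _ => ?_)
    rw [norm_mul]
  have h3 : T ^ 2 ≤ (∑ j ∈ J, ‖c j.1 j.2‖ ^ 2) * (((M : ℝ) ^ 2 + Real.pi * K) * T) := by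
    calc T ^ 2 ≤ (∑ j ∈ J, ‖c j.1 j.2‖ *
        ‖∑ n ∈ Ioc K0 (K0 + K), (starRingEnd ℂ) (S n) * ee ((n : ℝ) * j.2 / j.1)‖) ^ 2 :=
          pow_le_pow_left₀ hT0 h2 2
      _ ≤ (∑ j ∈ J, ‖c j.1 j.2‖ ^ 2) * ∑ j ∈ J,
        ‖∑ n ∈ Ioc K0 (K0 + K), (starRingEnd ℂ) (S n) * ee ((n : ℝ) * j.2 / j.1)‖ ^ 2 :=
          Finset.sum_mul_sq_le_sq_mul_sq _ _ _
      _ ≤ _ := mul_le_mul_of_nonneg_left hls' (Finset.sum_nonneg fun _ _ => sq_nonneg _)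
  rcases hT0.eq_or_lt with h4 | h4
  · rw [← h4]
    have hpi := Real.pi_pos
    have h5 : 0 ≤ ∑ j ∈ J, ‖c j.1 j.2‖ ^ 2 := Finset.sum_nonneg fun _ _ => sq_nonneg _
    positivity
  · have h5 : T * T ≤ (((M : ℝ) ^ 2 + Real.pi * K) * ∑ j ∈ J, ‖c j.1 j.2‖ ^ 2) * T := by
      calc T * T = T ^ 2 := by ring
        _ ≤ _ := h3
        _ = _ := by ring
    exact le_of_mul_le_mul_right h5 h4

end Pool.Agent.H88.PSI
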