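import Pool.Agent.H88.PSI.Defs

/-!
# PSI Edg: the cut in the smooth variable

`(hi 0 k * a)(n) = ∑_{m ∣ n, n/m ≥ k} a m`; for `m ≤ x/k` all multiples `n > x` of `m` have `n/m ≥ k`, for `m > (x+H)/k` none `≤ x + H` has;
`m ∣ n ≡ u (d)` forces `(m, d) = 1`.  A window of length `H` has `≤ H/m + 1` multiples of `m`.  `em_abs`: `(m, d) = 1`, the numbers divisible by `m` in the class `u`
form one class modulo `m d`.  `zone_sum`: `x/k < m ≤ (x+H)/k` iff `x < m k ≤ x + H`: for every `m` at most `H` values of `x`.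
-/

set_option autoImplicit false

namespace Pool.Agent.H88.PSI

open Finset

private theorem Edg_count (x H r v : ℕ) (hr : 1 ≤ r) :
    |(((Ioc x (x + H)).filter (fun n => n ≡ v [MOD r])).card : ℝ) - H / r| ≤ 1 := by
  have hr0 : (0 : ℚ) < r := by exact_mod_cast hr
  have h1 := Nat.Ioc_filter_modEq_card x (x + H) (r := r) hr v
  obtain ⟨A, hA⟩ : ∃ A : ℤ, A = ⌊(((x + H : ℕ) : ℚ) - v) / (r : ℚ)⌋ := ⟨_, rfl⟩
  obtain ⟨B, hB⟩ : ∃ B : ℤ, B = ⌊((x : ℚ) - v) / (r : ℚ)⌋ := ⟨_, rfl⟩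
  rw [← hA, ← hB] at h1
  have a1 := Int.floor_le ((((x + H : ℕ) : ℚ) - v) / (r : ℚ))
  have a2 := Int.lt_floor_add_one ((((x + H : ℕ) : ℚ) - v) / (r : ℚ))
  have b1 := Int.floor_le (((x : ℚ) - v) / (r : ℚ))
  have b2 := Int.lt_floor_add_one (((x : ℚ) - v) / (r : ℚ))
  rw [← hA] at a1 a2
  rw [← hB] at b1 b2
  have hsplit : (((x + H : ℕ) : ℚ) - v) / (r : ℚ) = ((x : ℚ) - v) / (r : ℚ) + (H : ℚ) / r := by
    push_cast
    ring
  have hH0 : (0 : ℚ) ≤ (H : ℚ) / r := div_nonneg (Nat.cast_nonneg _) hr0.le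
  have hAB : B ≤ A := by
    rw [hA, hB]
    apply Int.floor_le_floor
    rw [hsplit]
    linarith
  rw [max_eq_left (by omega)] at h1
  have h2 : ((((Ioc x (x + H)).filter (fun n => n ≡ v [MOD r])).card : ℕ) : ℚ) = (A : ℚ) - B := by
    exact_mod_cast h1
  have h3 : |((((Ioc x (x + H)).filter (fun n => n ≡ v [MOD r])).card : ℕ) : ℚ) - (H : ℚ) / r| ≤ 1 := by
    rw [h2, abs_le]
    constructor <;> linarith
  have h4 : ((|((((Ioc x (x + H)).filter (fun n => n ≡ v [MOD r])).card : ℕ) : ℚ) - (H : ℚ) / r| : ℚ) : ℝ) ≤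
      ((1 : ℚ) : ℝ) := by exact_mod_cast h3
  push_cast at h4
  exact h4

private theorem Edg_kf (k n : ℕ) : (hi 0 k : ArithmeticFunction ℝ) n = if n ≠ 0 ∧ k ≤ n then 1 else 0 := by
  show (if n ≠ 0 ∧ k ≤ n then kf 0 n else 0) = _
  unfold kf
  rw [if_pos rfl]

private theorem Edg_conv (a : ArithmeticFunction ℝ) (k n M : ℕ) (hk : 1 ≤ k) (hn : 1 ≤ n)
    (hM : n / k ≤ M) :
    (hi 0 k * a) n = ∑ m ∈ Icc 1 M, if m ∣ n ∧ k * m ≤ n then a m else 0 := by
  rw [ArithmeticFunction.mul_apply,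
    Nat.sum_divisorsAntidiagonal' (f := fun p q => (hi 0 k : ArithmeticFunction ℝ) p * a q)]
  have h1 : ∀ m ∈ n.divisors, (hi 0 k : ArithmeticFunction ℝ) (n / m) * a m =
      if m ∣ n ∧ k * m ≤ n then a m else 0 := by
    intro m hm
    have hmn := Nat.dvd_of_mem_divisors hm
    have hm0 : 0 < m := Nat.pos_of_mem_divisors hm
    have hnm : n / m ≠ 0 := by
      have := Nat.div_pos (Nat.le_of_dvd hn hmn) hm0
      omega
    rw [Edg_kf]
    by_cases h : k * m ≤ n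
    · rw [if_pos ⟨hnm, (Nat.le_div_iff_mul_le hm0).mpr h⟩, if_pos ⟨hmn, h⟩, one_mul]
    · rw [if_neg (fun h' => h ((Nat.le_div_iff_mul_le hm0).mp h'.2)), if_neg (fun h' => h h'.2),
        zero_mul]
  rw [Finset.sum_congr rfl h1, ← Finset.sum_filter, ← Finset.sum_filter]
  refine Finset.sum_congr ?_ fun _ _ => rfl
  ext m
  rw [mem_filter, mem_filter, Nat.mem_divisors, mem_Icc]
  constructor
  · rintro ⟨⟨h2, h3⟩, h4, h5⟩
    refine ⟨⟨Nat.pos_of_dvd_of_pos h2 hn, ?_⟩, h4, h5⟩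
    refine le_trans ?_ hM
    rw [Nat.le_div_iff_mul_le hk]
    rw [mul_comm]
    exact h5
  · rintro ⟨_, h4, h5⟩
    exact ⟨⟨h4, by omega⟩, h4, h5⟩

private theorem Edg_coprime {d u m n : ℕ} (hu : Nat.Coprime u d) (hmn : m ∣ n)
    (hn : n % d = u % d) : Nat.Coprime m d := by
  have h1 : Nat.gcd m d ∣ n := (Nat.gcd_dvd_left m d).trans hmn
  have h2 : Nat.gcd m d ∣ d := Nat.gcd_dvd_right m d
  have h3 : n ≡ u [MOD Nat.gcd m d] := Nat.ModEq.of_dvd h2 hn
  have h4 : Nat.gcd m d ∣ u := (Nat.ModEq.dvd_iff h3 dvd_rfl).mp h1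
  have h5 := Nat.dvd_gcd h4 h2
  rw [hu] at h5
  exact Nat.dvd_one.mp h5

private theorem Edg_mult (x H m : ℕ) (hm : 1 ≤ m) :
    (((Ioc x (x + H)).filter (fun n => m ∣ n)).card : ℝ) ≤ (H : ℝ) / m + 1 := by
  have h1 := (abs_le.mp (Edg_count x H m 0 hm)).2
  have h2 : (Ioc x (x + H)).filter (fun n => n ≡ 0 [MOD m]) =
      (Ioc x (x + H)).filter (fun n => m ∣ n) := by
    refine Finset.filter_congr fun n _ => Nat.modEq_zero_iff_dvd
  rw [h2] at h1
  linarith

theorem ti_edge (a : ArithmeticFunction ℝ) (d u H k x : ℕ) (hd : 1 ≤ d) (hk : 1 ≤ k)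
    (hu : Nat.Coprime u d) :
    ‖W (cl d u (hi 0 k * a)) H x
        - ((∑ m ∈ (Icc 1 (x / k)).filter (fun m => Nat.Coprime m d), a m * cnt d u H m x : ℝ) : ℂ)‖
      ≤ ∑ m ∈ Ioc (x / k) ((x + H) / k), |a m| * ((H : ℝ) / m + 1) := by
  have hxk : x / k ≤ (x + H) / k := Nat.div_le_div_right (Nat.le_add_right _ _)
  -- the counting function with the cut
  obtain ⟨C, hC⟩ : ∃ C : ℕ → ℝ, C = fun m : ℕ => (((Ioc x (x + H)).filter
      (fun n => n % d = u % d ∧ (m ∣ n ∧ k * m ≤ n))).card : ℝ) := ⟨_, rfl⟩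
  have hW : W (cl d u (hi 0 k * a)) H x = ((∑ m ∈ Icc 1 ((x + H) / k), a m * C m : ℝ) : ℂ) := by
    have h1 : W (cl d u (hi 0 k * a)) H x =
        ((∑ n ∈ Ioc x (x + H), if n % d = u % d then (hi 0 k * a) n else 0 : ℝ) : ℂ) := by
      unfold W cl
      push_cast
      refine Finset.sum_congr rfl fun n _ => ?_
      split_ifs
      · rfl
      · simp
    rw [h1]
    congr 1
    have h2 : ∀ n ∈ Ioc x (x + H), (if n % d = u % d then (hi 0 k * a) n else 0) =
        ∑ m ∈ Icc 1 ((x + H) / k), if n % d = u % d ∧ (m ∣ n ∧ k * m ≤ n) then a m else 0 := by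
      intro n hn
      rw [mem_Ioc] at hn
      by_cases h3 : n % d = u % d
      · rw [if_pos h3, Edg_conv a k n ((x + H) / k) hk (by omega) (Nat.div_le_div_right hn.2)]
        refine Finset.sum_congr rfl fun m _ => ?_
        by_cases h4 : m ∣ n ∧ k * m ≤ n
        · rw [if_pos h4, if_pos ⟨h3, h4⟩]
        · rw [if_neg h4, if_neg (fun h5 => h4 h5.2)]
      · rw [if_neg h3]
        symm
        refine Finset.sum_eq_zero fun m _ => ?_
        rw [if_neg (fun h5 => h3 h5.1)]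
    rw [Finset.sum_congr rfl h2, Finset.sum_comm]
    refine Finset.sum_congr rfl fun m _ => ?_
    rw [← Finset.sum_filter, Finset.sum_const, nsmul_eq_mul, hC, mul_comm]
  have hsplit : ∑ m ∈ Icc 1 ((x + H) / k), a m * C m =
      (∑ m ∈ Icc 1 (x / k), a m * C m) + ∑ m ∈ Ioc (x / k) ((x + H) / k), a m * C m := by
    rw [← Finset.sum_union]
    · refine Finset.sum_congr ?_ fun _ _ => rfl
      ext m
      rw [mem_union, mem_Icc, mem_Icc, mem_Ioc]
      generalize x / k = A at hxk ⊢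
      generalize (x + H) / k = B at hxk ⊢
      omega
    · rw [Finset.disjoint_left]
      intro m h1 h2
      rw [mem_Icc] at h1
      rw [mem_Ioc] at h2
      omega
  have hlow : ∑ m ∈ Icc 1 (x / k), a m * C m =
      ∑ m ∈ (Icc 1 (x / k)).filter (fun m => Nat.Coprime m d), a m * cnt d u H m x := by
    rw [Finset.sum_filter]
    refine Finset.sum_congr rfl fun m hm => ?_
    rw [mem_Icc] at hm
    have hkm : k * m ≤ x := by
      have := (Nat.le_div_iff_mul_le hk).mp hm.2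
      rw [mul_comm]
      exact this
    have h1 : (Ioc x (x + H)).filter (fun n => n % d = u % d ∧ (m ∣ n ∧ k * m ≤ n)) =
        (Ioc x (x + H)).filter (fun n => m ∣ n ∧ n % d = u % d) := by
      refine Finset.filter_congr fun n hn => ?_
      rw [mem_Ioc] at hn
      constructor
      · rintro ⟨h2, h3, _⟩
        exact ⟨h3, h2⟩
      · rintro ⟨h2, h3⟩
        exact ⟨h3, h2, by omega⟩
    have h2 : C m = cnt d u H m x := by
      rw [hC]
      unfold cnt
      simp only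
      rw [h1]
    split_ifs with h3
    · rw [h2]
    · have h4 : C m = 0 := by
        rw [h2]
        unfold cnt
        rw [Nat.cast_eq_zero, Finset.card_eq_zero, Finset.filter_eq_empty_iff]
        intro n _ h5
        exact h3 (Edg_coprime hu h5.1 h5.2)
      rw [h4, mul_zero]
  rw [hW, hsplit, hlow, ← Complex.ofReal_sub, add_sub_cancel_left, Complex.norm_real, Real.norm_eq_abs]
  refine (Finset.abs_sum_le_sum_abs _ _).trans (Finset.sum_le_sum fun m hm => ?_)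
  rw [mem_Ioc] at hm
  have hC0 : 0 ≤ C m := by
    rw [hC]
    exact Nat.cast_nonneg _
  rw [abs_mul, abs_of_nonneg hC0]
  refine mul_le_mul_of_nonneg_left ?_ (abs_nonneg _)
  refine le_trans ?_ (Edg_mult x H m (Nat.lt_of_le_of_lt (Nat.zero_le _) hm.1))
  rw [hC]
  simp only
  rw [Nat.cast_le]
  apply Finset.card_le_card
  intro n hn
  rw [mem_filter] at hn ⊢
  exact ⟨hn.1, hn.2.2.1⟩

theorem em_abs (d u H m x : ℕ) (hd : 1 ≤ d) (hm : 1 ≤ m) (h : Nat.Coprime m d) :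
    |em d u H m x| ≤ 1 := by
  obtain ⟨v, hv1, hv2⟩ := Nat.chineseRemainder h 0 u
  have h1 : (Ioc x (x + H)).filter (fun n => m ∣ n ∧ n % d = u % d) =
      (Ioc x (x + H)).filter (fun n => n ≡ v [MOD m * d]) := by
    refine Finset.filter_congr fun n _ => ?_
    rw [← Nat.modEq_and_modEq_iff_modEq_mul h]
    constructor
    · rintro ⟨h2, h3⟩
      exact ⟨(Nat.modEq_zero_iff_dvd.mpr h2).trans hv1.symm, Nat.ModEq.trans h3 hv2.symm⟩
    · rintro ⟨h2, h3⟩
      exact ⟨Nat.modEq_zero_iff_dvd.mp (h2.trans hv1), h3.trans hv2⟩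
  unfold em cnt
  rw [h1]
  have h2 := Edg_count x H (m * d) v (Nat.mul_pos hm hd)
  push_cast at h2
  exact h2

theorem zone_sum (X H k : ℕ) (hk : 1 ≤ k) (hX : 1 ≤ X) (hH : H ≤ X) (b : ℕ → ℝ) (hb : ∀ m, 0 ≤ b m) :
    ∑ x ∈ Ico X (2 * X), ∑ m ∈ Ioc (x / k) ((x + H) / k), b m ≤ H * ∑ m ∈ Icc 1 (3 * X), b m := by
  have h1 : ∀ x ∈ Ico X (2 * X), ∑ m ∈ Ioc (x / k) ((x + H) / k), b m =
      ∑ m ∈ Icc 1 (3 * X), if x < m * k ∧ m * k ≤ x + H then b m else 0 := by
    intro x hx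
    rw [mem_Ico] at hx
    rw [← Finset.sum_filter]
    refine Finset.sum_congr ?_ fun _ _ => rfl
    ext m
    rw [mem_Ioc, mem_filter, mem_Icc, Nat.div_lt_iff_lt_mul hk, Nat.le_div_iff_mul_le hk]
    constructor
    · rintro ⟨h2, h3⟩
      refine ⟨⟨?_, ?_⟩, h2, h3⟩
      · rcases Nat.eq_zero_or_pos m with rfl | h4
        · omega
        · exact h4
      · have : m ≤ m * k := Nat.le_mul_of_pos_right m hk
        omega
    · rintro ⟨_, h2, h3⟩
      exact ⟨h2, h3⟩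
  rw [Finset.sum_congr rfl h1, Finset.sum_comm, Finset.mul_sum]
  refine Finset.sum_le_sum fun m _ => ?_
  rw [← Finset.sum_filter, Finset.sum_const, nsmul_eq_mul]
  refine mul_le_mul_of_nonneg_right ?_ (hb m)
  rw [Nat.cast_le]
  have h2 : (Ico X (2 * X)).filter (fun x => x < m * k ∧ m * k ≤ x + H) ⊆ Ico (m * k - H) (m * k) := by
    intro x hx
    rw [mem_filter] at hx
    rw [mem_Ico]
    omega
  refine (Finset.card_le_card h2).trans ?_
  rw [Nat.card_Ico]
  omega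

/-- the main terms of `cnt` add up to `Bk` -/
theorem bk_eq (a : ℕ → ℝ) (d u H k x : ℕ) (hH : 1 ≤ H) :
    (∑ m ∈ (Icc 1 (x / k)).filter (fun m => Nat.Coprime m d), a m * cnt d u H m x) / H
      - Bk a d k x
      = (∑ m ∈ (Icc 1 (x / k)).filter (fun m => Nat.Coprime m d), a m * em d u H m x) / H := by
  have hH0 : (H : ℝ) ≠ 0 := by
    have : (1 : ℝ) ≤ H := by exact_mod_cast hH
    linarith
  unfold Bk
  rw [Finset.sum_div, Finset.sum_div, Finset.mul_sum, ← Finset.sum_sub_distrib]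
  refine Finset.sum_congr rfl fun m _ => ?_
  unfold em
  have h1 : (H : ℝ) / (m * d) / H = 1 / (m * d) := by
    rw [div_div, mul_comm ((m : ℝ) * d) H, ← div_div, div_self hH0]
  have h2 : a m * (cnt d u H m x - H / (m * d)) / H =
      a m * cnt d u H m x / H - a m * ((H : ℝ) / (m * d) / H) := by ring
  rw [h2, h1]
  ring

end Pool.Agent.H88.PSI
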