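import Pool.Agent.H88.PSI.Dks
import Pool.Agent.H91.PK.LSa

/-!
# PSI Ems: finite Fourier expansion of the error terms `em`, grouped by reduced fractions

`[m ∣ n] = (1/m) ∑_{a<m} ee(n a/m)`, `[n ≡ u (d)] = (1/d) ∑_{b<d} ee(b(n-u)/d)`; the term `a = b = 0` is `H/(m d)`;
`∑_{x<n≤x+H} ee(nθ) = ee(xθ) dk H θ`.  Then `a/m = c/q` reduced (`q = m/(a,m)`, `c ∈ [1, q]`, `(c, q) = 1`; `a = 0` is `q = 1, c = 1`; all functions
have period 1).
-/

set_option autoImplicit false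

namespace Pool.Agent.H88.PSI

open Finset
open Pool.Agent.H91.PK (ee)

private theorem ems_int (k : ℤ) : ee (k : ℝ) = 1 := by
  unfold ee
  rw [Complex.exp_eq_one_iff]
  exact ⟨k, by push_cast; ring⟩

private theorem ems_nat (k : ℕ) : ee (k : ℝ) = 1 := by
  have := ems_int (k : ℤ)
  simpa using this

private theorem ems_eq_one {t : ℝ} (h : ee t = 1) : ∃ k : ℤ, t = k := by
  unfold ee at h
  rw [Complex.exp_eq_one_iff] at h
  obtain ⟨k, hk⟩ := h
  refine ⟨k, ?_⟩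
  have h1 : ((2 * Real.pi * t : ℝ) : ℂ) * Complex.I = ((2 * Real.pi * k : ℝ) : ℂ) * Complex.I := by
    push_cast
    rw [hk]
    ring
  have h2 := mul_right_cancel₀ Complex.I_ne_zero h1
  have h3 : 2 * Real.pi * t = 2 * Real.pi * k := by exact_mod_cast h2
  exact mul_left_cancel₀ (by positivity) h3

private theorem ems_pow (t : ℝ) (n : ℕ) : ee t ^ n = ee (n * t) := by
  unfold ee
  rw [← Complex.exp_nat_mul]
  congr 1
  push_cast
  ring

private theorem ems_ortho (d : ℕ) (hd : 1 ≤ d) (k : ℤ) :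
    ∑ b ∈ range d, ee ((b : ℝ) * k / d) = if (d : ℤ) ∣ k then (d : ℂ) else 0 := by
  have hd0 : (d : ℝ) ≠ 0 := by
    have : d ≠ 0 := by omega
    exact_mod_cast this
  have h1 : ∀ b ∈ range d, ee ((b : ℝ) * k / d) = ee ((k : ℝ) / d) ^ b := by
    intro b _
    rw [ems_pow]
    congr 1
    ring
  rw [sum_congr rfl h1]
  split_ifs with h
  · obtain ⟨j, rfl⟩ := h
    have h2 : ee (((d : ℤ) * j : ℤ) / (d : ℝ)) = 1 := by
      have h3 : (((d : ℤ) * j : ℤ) : ℝ) / (d : ℝ) = (j : ℝ) := by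
        push_cast
        field_simp
      rw [h3, ems_int]
    rw [h2]
    simp
  · have h2 : ee ((k : ℝ) / d) ≠ 1 := by
      intro h3
      obtain ⟨j, hj⟩ := ems_eq_one h3
      apply h
      refine ⟨j, ?_⟩
      rw [div_eq_iff hd0] at hj
      have h4 : (k : ℝ) = ((d : ℤ) * j : ℤ) := by
        push_cast
        rw [hj]
        ring
      exact_mod_cast h4
    have h3 : ee ((k : ℝ) / d) ^ d = 1 := by
      rw [ems_pow]
      have h4 : (d : ℝ) * ((k : ℝ) / d) = k := by field_simp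
      rw [h4, ems_int]
    rw [geom_sum_eq h2, h3, sub_self, zero_div]

private theorem ems_Icc (m : ℕ) (hm : 1 ≤ m) (n : ℕ) :
    ∑ a ∈ Icc 1 m, ee ((n : ℝ) * ((a : ℝ) / m)) = if m ∣ n then (m : ℂ) else 0 := by
  have hm0 : (m : ℝ) ≠ 0 := by
    have : m ≠ 0 := by omega
    exact_mod_cast this
  have h1 : ∑ a ∈ Icc 1 m, ee ((n : ℝ) * ((a : ℝ) / m)) =
      ∑ a ∈ range m, ee ((a : ℝ) * ((n : ℤ) : ℝ) / m) := by
    have h2 : ∑ a ∈ range (m + 1), ee ((n : ℝ) * ((a : ℝ) / m)) =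
        ∑ a ∈ Icc 1 m, ee ((n : ℝ) * ((a : ℝ) / m)) + ee ((n : ℝ) * (((0 : ℕ) : ℝ) / m)) := by
      rw [sum_range_succ', Finset.range_eq_Ico, Finset.sum_Ico_add' (fun a : ℕ =>
        ee ((n : ℝ) * ((a : ℝ) / m))) 0 m 1]
      congr 1
    rw [sum_range_succ] at h2
    have h3 : ee ((n : ℝ) * (((0 : ℕ) : ℝ) / m)) = 1 := by
      have : (n : ℝ) * (((0 : ℕ) : ℝ) / m) = ((0 : ℤ) : ℝ) := by simp
      rw [this, ems_int]
    have h4 : ee ((n : ℝ) * ((m : ℝ) / m)) = 1 := by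
      rw [div_self hm0, mul_one, ems_nat]
    rw [h3, h4] at h2
    have h5 := add_right_cancel h2
    rw [← h5]
    refine sum_congr rfl fun a _ => ?_
    congr 1
    push_cast
    ring
  rw [h1, ems_ortho m hm]
  simp only [Int.natCast_dvd_natCast]

private theorem ems_group (m : ℕ) (hm : 1 ≤ m) (G : ℕ → ℕ → ℂ) :
    ∑ a ∈ Icc 1 m, G (m / Nat.gcd a m) (a / Nat.gcd a m) =
      ∑ q ∈ m.divisors, ∑ c ∈ (Icc 1 q).filter (fun c => Nat.Coprime c q), G q c := by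
  rw [sum_sigma']
  refine sum_nbij' (fun a => (⟨m / Nat.gcd a m, a / Nat.gcd a m⟩ : Σ _ : ℕ, ℕ))
    (fun p => p.2 * (m / p.1)) ?_ ?_ ?_ ?_ ?_
  · intro a ha
    rw [mem_Icc] at ha
    rw [mem_sigma, Nat.mem_divisors, mem_filter, mem_Icc]
    have hg : 0 < Nat.gcd a m := Nat.gcd_pos_of_pos_left _ ha.1
    refine ⟨⟨Nat.div_dvd_of_dvd (Nat.gcd_dvd_right a m), by omega⟩, ⟨?_, ?_⟩, ?_⟩
    · exact Nat.div_pos (Nat.le_of_dvd ha.1 (Nat.gcd_dvd_left a m)) hg
    · exact Nat.div_le_div_right ha.2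
    · exact Nat.coprime_div_gcd_div_gcd hg
  · rintro ⟨q, c⟩ h
    rw [mem_sigma, Nat.mem_divisors, mem_filter, mem_Icc] at h
    obtain ⟨⟨h1, -⟩, ⟨h2, h3⟩, -⟩ := h
    dsimp only at h1 h2 h3 ⊢
    rw [mem_Icc]
    have hq : 0 < q := by omega
    have hmq : 0 < m / q := Nat.div_pos (Nat.le_of_dvd hm h1) hq
    refine ⟨Nat.mul_pos h2 hmq, ?_⟩
    calc c * (m / q) ≤ q * (m / q) := Nat.mul_le_mul_right _ h3
      _ = m := Nat.mul_div_cancel' h1
  · intro a ha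
    rw [mem_Icc] at ha
    have hg : 0 < Nat.gcd a m := Nat.gcd_pos_of_pos_left _ ha.1
    dsimp only
    rw [Nat.div_div_self (Nat.gcd_dvd_right a m) (by omega)]
    exact Nat.div_mul_cancel (Nat.gcd_dvd_left a m)
  · rintro ⟨q, c⟩ h
    rw [mem_sigma, Nat.mem_divisors, mem_filter, mem_Icc] at h
    obtain ⟨⟨h1, -⟩, ⟨h2, h3⟩, h4⟩ := h
    dsimp only at h1 h2 h3 h4 ⊢
    have hq : 0 < q := by omega
    have hmq : 0 < m / q := Nat.div_pos (Nat.le_of_dvd hm h1) hq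
    have hgcd : Nat.gcd (c * (m / q)) m = m / q := by
      conv_lhs => rw [← Nat.mul_div_cancel' h1]
      rw [Nat.mul_div_cancel_left (m / q) hq, Nat.gcd_mul_right, h4, one_mul]
    rw [hgcd, Nat.div_div_self h1 (by omega), Nat.mul_div_cancel _ hmq]
  · intro a _
    rfl

private theorem ems_dk (H x : ℕ) (θ : ℝ) :
    ∑ n ∈ Ioc x (x + H), ee ((n : ℝ) * θ) = ee ((x : ℝ) * θ) * dk H θ := by
  unfold dk
  rw [mul_sum]
  have h1 : Ioc x (x + H) = (Icc 1 H).image (fun j => x + j) := by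
    ext n
    rw [mem_Ioc, mem_image]
    constructor
    · rintro ⟨h1, h2⟩
      exact ⟨n - x, mem_Icc.2 ⟨by omega, by omega⟩, by omega⟩
    · rintro ⟨j, hj, rfl⟩
      rw [mem_Icc] at hj
      omega
  rw [h1, sum_image (fun a _ b _ h => Nat.add_left_cancel h)]
  refine sum_congr rfl fun j _ => ?_
  rw [← Pool.Agent.H91.PK.LSa_ee_add]
  congr 1
  push_cast
  ring

private theorem ems_cong (d : ℕ) (n u : ℕ) : ((d : ℤ) ∣ (n : ℤ) - u) ↔ n % d = u % d := by
  constructor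
  · intro h
    have h1 : u ≡ n [MOD d] := (Nat.modEq_iff_dvd).2 h
    exact h1.symm
  · intro h
    exact (Nat.modEq_iff_dvd).1 (show u ≡ n [MOD d] from h.symm)

private theorem ems_one (d u H m x : ℕ) (hd : 1 ≤ d) (hm : 1 ≤ m) :
    ((em d u H m x : ℝ) : ℂ) * m = 1 / (d : ℂ) * ∑ b ∈ range d, ee (-((b : ℝ) * u / d)) *
      (ee ((x : ℝ) * b / d) * ∑ q ∈ m.divisors, ∑ c ∈ (Icc 1 q).filter (fun c => Nat.Coprime c q),
        (if q = 1 ∧ b = 0 then 0 else dk H ((c : ℝ) / q + (b : ℝ) / d)) *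
          ee ((x : ℝ) * c / q)) := by
  have hd0 : (d : ℂ) ≠ 0 := by
    have : d ≠ 0 := by omega
    exact_mod_cast this
  have hdr : (d : ℝ) ≠ 0 := by
    have : d ≠ 0 := by omega
    exact_mod_cast this
  have hm0 : (m : ℂ) ≠ 0 := by
    have : m ≠ 0 := by omega
    exact_mod_cast this
  set E : ℝ → ℂ := fun θ => ∑ n ∈ Ioc x (x + H), ee ((n : ℝ) * θ) with hE
  -- the inner double sum
  have h1 : ∀ b ∈ range d, ee ((x : ℝ) * b / d) * ∑ q ∈ m.divisors,
      ∑ c ∈ (Icc 1 q).filter (fun c => Nat.Coprime c q),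
        (if q = 1 ∧ b = 0 then 0 else dk H ((c : ℝ) / q + (b : ℝ) / d)) * ee ((x : ℝ) * c / q) =
      (∑ a ∈ Icc 1 m, E ((a : ℝ) / m + (b : ℝ) / d)) - if b = 0 then (H : ℂ) else 0 := by
    intro b _
    have h2 : ∑ a ∈ Icc 1 m, E ((a : ℝ) / m + (b : ℝ) / d) =
        ∑ q ∈ m.divisors, ∑ c ∈ (Icc 1 q).filter (fun c => Nat.Coprime c q),
          E ((c : ℝ) / q + (b : ℝ) / d) := by
      rw [← ems_group m hm fun q c => E ((c : ℝ) / q + (b : ℝ) / d)]
      refine sum_congr rfl fun a ha => ?_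
      rw [mem_Icc] at ha
      have hg : 0 < Nat.gcd a m := Nat.gcd_pos_of_pos_left _ ha.1
      have hg0 : ((Nat.gcd a m : ℕ) : ℝ) ≠ 0 := by exact_mod_cast hg.ne'
      have e1 : (a : ℝ) / m = ((a / Nat.gcd a m : ℕ) : ℝ) / ((m / Nat.gcd a m : ℕ) : ℝ) := by
        rw [Nat.cast_div (Nat.gcd_dvd_left a m) hg0, Nat.cast_div (Nat.gcd_dvd_right a m) hg0]
        field_simp
      rw [e1]
    have h3 : ∀ q ∈ m.divisors, ∀ c ∈ (Icc 1 q).filter (fun c => Nat.Coprime c q),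
        ee ((x : ℝ) * b / d) * ((if q = 1 ∧ b = 0 then 0 else
          dk H ((c : ℝ) / q + (b : ℝ) / d)) * ee ((x : ℝ) * c / q)) =
        E ((c : ℝ) / q + (b : ℝ) / d) - if q = 1 ∧ b = 0 then (H : ℂ) else 0 := by
      intro q _ c hc
      rw [mem_filter, mem_Icc] at hc
      have h4 : E ((c : ℝ) / q + (b : ℝ) / d) = ee ((x : ℝ) * ((c : ℝ) / q + (b : ℝ) / d)) *
          dk H ((c : ℝ) / q + (b : ℝ) / d) := ems_dk H x _
      split_ifs with h5
      · obtain ⟨rfl, rfl⟩ := h5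
        have hc1 : c = 1 := by omega
        subst hc1
        have h6 : E ((((1 : ℕ) : ℝ)) / ((1 : ℕ) : ℝ) + ((0 : ℕ) : ℝ) / d) = H := by
          simp only [hE]
          have h7 : ∀ n ∈ Ioc x (x + H), ee ((n : ℝ) *
              ((((1 : ℕ) : ℝ)) / ((1 : ℕ) : ℝ) + ((0 : ℕ) : ℝ) / d)) = 1 := by
            intro n _
            have h8 : (n : ℝ) * ((((1 : ℕ) : ℝ)) / ((1 : ℕ) : ℝ) + ((0 : ℕ) : ℝ) / d) = n := by
              simp
            rw [h8, ems_nat]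
          rw [sum_congr rfl h7]
          simp
        rw [h6, zero_mul, mul_zero, sub_self]
      · rw [h4, sub_zero]
        have h6 : ee ((x : ℝ) * ((c : ℝ) / q + (b : ℝ) / d)) =
            ee ((x : ℝ) * b / d) * ee ((x : ℝ) * c / q) := by
          rw [← Pool.Agent.H91.PK.LSa_ee_add]
          congr 1
          ring
        rw [h6]
        ring
    rw [mul_sum, h2]
    have h4 : ∀ q ∈ m.divisors, ee ((x : ℝ) * b / d) *
        ∑ c ∈ (Icc 1 q).filter (fun c => Nat.Coprime c q),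
        (if q = 1 ∧ b = 0 then 0 else dk H ((c : ℝ) / q + (b : ℝ) / d)) * ee ((x : ℝ) * c / q) =
        (∑ c ∈ (Icc 1 q).filter (fun c => Nat.Coprime c q), E ((c : ℝ) / q + (b : ℝ) / d)) -
          if q = 1 ∧ b = 0 then (H : ℂ) else 0 := by
      intro q hq
      rw [mul_sum, sum_congr rfl (h3 q hq), sum_sub_distrib]
      congr 1
      by_cases h5 : q = 1 ∧ b = 0
      · obtain ⟨rfl, rfl⟩ := h5
        have h6 : (Icc 1 1).filter (fun c => Nat.Coprime c 1) = {1} := by decide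
        rw [h6, sum_singleton]
      · simp [h5]
    rw [sum_congr rfl h4, sum_sub_distrib]
    congr 1
    by_cases hb : b = 0
    · rw [if_pos hb]
      have h5 : ∀ q ∈ m.divisors, (if q = 1 ∧ b = 0 then (H : ℂ) else 0) =
          if q = 1 then (H : ℂ) else 0 := fun q _ => by simp [hb]
      rw [sum_congr rfl h5, sum_ite_eq' m.divisors 1 fun _ => (H : ℂ)]
      rw [if_pos (Nat.one_mem_divisors.2 (by omega))]
    · rw [if_neg hb]
      refine sum_eq_zero fun q _ => ?_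
      rw [if_neg (fun h => hb h.2)]
  have h2 : ∑ b ∈ range d, ee (-((b : ℝ) * u / d)) *
      (ee ((x : ℝ) * b / d) * ∑ q ∈ m.divisors, ∑ c ∈ (Icc 1 q).filter (fun c => Nat.Coprime c q),
        (if q = 1 ∧ b = 0 then 0 else dk H ((c : ℝ) / q + (b : ℝ) / d)) *
          ee ((x : ℝ) * c / q)) =
      (∑ b ∈ range d, ee (-((b : ℝ) * u / d)) * ∑ a ∈ Icc 1 m, E ((a : ℝ) / m + (b : ℝ) / d)) -
        H := by
    have h3 : ∀ b ∈ range d, ee (-((b : ℝ) * u / d)) *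
      (ee ((x : ℝ) * b / d) * ∑ q ∈ m.divisors, ∑ c ∈ (Icc 1 q).filter (fun c => Nat.Coprime c q),
        (if q = 1 ∧ b = 0 then 0 else dk H ((c : ℝ) / q + (b : ℝ) / d)) *
          ee ((x : ℝ) * c / q)) =
        ee (-((b : ℝ) * u / d)) * ∑ a ∈ Icc 1 m, E ((a : ℝ) / m + (b : ℝ) / d) -
          (if b = 0 then (H : ℂ) else 0) := by
      intro b hb
      rw [h1 b hb, mul_sub]
      congr 1
      split_ifs with h4
      · subst h4
        have h5 : ee (-(((0 : ℕ) : ℝ) * u / d)) = 1 := by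
          have : (-(((0 : ℕ) : ℝ) * u / d)) = ((0 : ℤ) : ℝ) := by simp
          rw [this, ems_int]
        rw [h5, one_mul]
      · rw [mul_zero]
    rw [sum_congr rfl h3, sum_sub_distrib, sum_ite_eq' (range d) 0 fun _ => (H : ℂ),
      if_pos (mem_range.2 (by omega))]
  have h3 : ∑ b ∈ range d, ee (-((b : ℝ) * u / d)) * ∑ a ∈ Icc 1 m, E ((a : ℝ) / m + (b : ℝ) / d) =
      ∑ n ∈ Ioc x (x + H), (if n % d = u % d then (d : ℂ) else 0) *
        (if m ∣ n then (m : ℂ) else 0) := by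
    have h4 : ∀ b ∈ range d, ee (-((b : ℝ) * u / d)) *
        ∑ a ∈ Icc 1 m, E ((a : ℝ) / m + (b : ℝ) / d) =
        ∑ n ∈ Ioc x (x + H), ee ((b : ℝ) * (((n : ℤ) - u : ℤ) : ℝ) / d) *
          ∑ a ∈ Icc 1 m, ee ((n : ℝ) * ((a : ℝ) / m)) := by
      intro b _
      simp only [hE]
      rw [sum_comm, mul_sum]
      refine sum_congr rfl fun n _ => ?_
      rw [mul_sum, mul_sum]
      refine sum_congr rfl fun a _ => ?_
      rw [← Pool.Agent.H91.PK.LSa_ee_add, ← Pool.Agent.H91.PK.LSa_ee_add]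
      congr 1
      push_cast
      ring
    rw [sum_congr rfl h4, sum_comm]
    refine sum_congr rfl fun n _ => ?_
    rw [← sum_mul, ems_ortho d hd, ems_Icc m hm]
    congr 1
    exact if_congr (ems_cong d n u) rfl rfl
  rw [h2, h3]
  have h4 : ∑ n ∈ Ioc x (x + H), (if n % d = u % d then (d : ℂ) else 0) *
        (if m ∣ n then (m : ℂ) else 0) = (d : ℂ) * m * cnt d u H m x := by
    unfold cnt
    rw [card_eq_sum_ones, sum_filter]
    push_cast
    rw [mul_sum]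
    refine sum_congr rfl fun n _ => ?_
    by_cases a1 : m ∣ n
    · by_cases a2 : n % d = u % d
      · simp [a1, a2]
      · simp [a2]
    · simp [a1]
  rw [h4]
  unfold em
  push_cast
  field_simp

theorem em_sum (d u H M x : ℕ) (hd : 1 ≤ d) (S : Finset ℕ) (hS : S ⊆ Icc 1 M) (a : ℕ → ℝ) :
    ((∑ m ∈ S, a m * em d u H m x : ℝ) : ℂ)
      = 1 / (d : ℂ) * ∑ b ∈ range d, ee (-((b : ℝ) * u / d)) * (ee ((x : ℝ) * b / d) *
        ∑ q ∈ Icc 1 M, ∑ c ∈ (Icc 1 q).filter (fun c => Nat.Coprime c q),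
          (if q = 1 ∧ b = 0 then 0 else
            ((∑ m ∈ S.filter (fun m => q ∣ m), a m / m : ℝ) : ℂ) *
              dk H ((c : ℝ) / q + (b : ℝ) / d)) * ee ((x : ℝ) * c / q)) := by
  have hm : ∀ m ∈ S, 1 ≤ m := fun m hm => (mem_Icc.1 (hS hm)).1
  have h1 : ∀ m ∈ S, ((a m * em d u H m x : ℝ) : ℂ) = 1 / (d : ℂ) * ∑ b ∈ range d,
      ee (-((b : ℝ) * u / d)) * (ee ((x : ℝ) * b / d) * ∑ q ∈ m.divisors, ((a m / m : ℝ) : ℂ) *
        ∑ c ∈ (Icc 1 q).filter (fun c => Nat.Coprime c q),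
        (if q = 1 ∧ b = 0 then 0 else dk H ((c : ℝ) / q + (b : ℝ) / d)) *
          ee ((x : ℝ) * c / q)) := by
    intro m hmS
    have h2 := ems_one d u H m x hd (hm m hmS)
    have hm0 : (m : ℂ) ≠ 0 := by
      have : m ≠ 0 := by
        have := hm m hmS
        omega
      exact_mod_cast this
    have h3 : ((a m * em d u H m x : ℝ) : ℂ) = ((a m / m : ℝ) : ℂ) *
        (((em d u H m x : ℝ) : ℂ) * m) := by
      push_cast
      field_simp
    rw [h3, h2, mul_left_comm]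
    congr 1
    rw [mul_sum]
    refine sum_congr rfl fun b _ => ?_
    rw [← mul_sum]
    ring
  rw [Complex.ofReal_sum, sum_congr rfl h1, ← mul_sum, sum_comm]
  congr 1
  refine sum_congr rfl fun b _ => ?_
  rw [← mul_sum, ← mul_sum]
  congr 2
  -- exchange of `m` and `q`
  set T : ℕ → ℂ := fun q => ∑ c ∈ (Icc 1 q).filter (fun c => Nat.Coprime c q),
        (if q = 1 ∧ b = 0 then 0 else dk H ((c : ℝ) / q + (b : ℝ) / d)) *
          ee ((x : ℝ) * c / q) with hT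
  have h4 : ∀ m ∈ S, ∑ q ∈ m.divisors, ((a m / m : ℝ) : ℂ) * T q =
      ∑ q ∈ Icc 1 M, if q ∣ m then ((a m / m : ℝ) : ℂ) * T q else 0 := by
    intro m hmS
    rw [← sum_filter]
    refine sum_congr ?_ fun _ _ => rfl
    ext q
    rw [Nat.mem_divisors, mem_filter, mem_Icc]
    have h5 := mem_Icc.1 (hS hmS)
    constructor
    · rintro ⟨h6, -⟩
      have h7 := Nat.le_of_dvd h5.1 h6
      exact ⟨⟨Nat.pos_of_dvd_of_pos h6 h5.1, by omega⟩, h6⟩
    · rintro ⟨-, h6⟩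
      exact ⟨h6, by omega⟩
  rw [sum_congr rfl h4, sum_comm]
  refine sum_congr rfl fun q _ => ?_
  have h5 : ∑ m ∈ S, (if q ∣ m then ((a m / m : ℝ) : ℂ) * T q else 0) =
      ((∑ m ∈ S.filter (fun m => q ∣ m), a m / m : ℝ) : ℂ) * T q := by
    rw [← sum_filter, Complex.ofReal_sum, sum_mul]
  rw [h5, hT, mul_sum]
  refine sum_congr rfl fun c _ => ?_
  split_ifs with h6
  · ring
  · ring

end Pool.Agent.H88.PSI
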