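import Pool.Agent.H88.PSI.Ker
import Pool.Agent.H88.PSI.Dpm
import Pool.Agent.H80.LV.Dual

/-!
# PSI Hux: Huxley's large value estimate, continuous version

`dual_ineq` (`Pool.Agent.H80.LV.dual_ineq`, `Pool/Agent/H80/LV/Dual.lean`; it has `Icc 1 K` and `ee (t log n)` as here) on
`B_I = B ∩ I`, `I` an interval of length `≤ T0`, with
`G = C L (6 L M + vol(B_I) √T0)` (`ker`; `∫_I M/(1+|t-s|) ds ≤ 2 M log(1 + T0)`): for
`T0 = (V^2/(2 C L S))^2` (`T0 ≤ X^2` as `V^2 ≤ M S` if `B` is nonempty) this gives `V^2 vol(B_I) ≤ 6 C L^2 M S + V^2 vol(B_I)/2`, and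
`[-T, T]` is covered by `≤ 2 T/T0 + 1` such `I`.
-/

set_option autoImplicit false

namespace Pool.Agent.H88.PSI

open Finset MeasureTheory
open Pool.Agent.H91.PK (ee)

private theorem Hux_log (t Y : ℝ) (hY : 0 ≤ Y) :
    ∫ s in (t - Y)..(t + Y), 1 / (1 + |t - s|) = 2 * Real.log (1 + Y) := by
  have hcont : Continuous (fun s : ℝ => 1 / (1 + |t - s|)) := by
    refine continuous_const.div (by fun_prop) fun s => ?_
    positivity
  have h1 : ∫ s in (t - Y)..t, 1 / (1 + |t - s|) = Real.log (1 + Y) := by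
    have e1 : ∫ s in (t - Y)..t, 1 / (1 + |t - s|) =
        ∫ s in (t - Y)..t, (fun u : ℝ => 1 / u) (1 + t - s) := by
      refine intervalIntegral.integral_congr fun s hs => ?_
      rw [Set.uIcc_of_le (by linarith), Set.mem_Icc] at hs
      simp only
      rw [abs_of_nonneg (by linarith)]
      congr 1
      ring
    rw [e1, intervalIntegral.integral_comp_sub_left, integral_one_div_of_pos (by linarith)
      (by linarith)]
    congr 1
    rw [show (1 : ℝ) + t - t = 1 by ring, div_one]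
    ring
  have h2 : ∫ s in t..(t + Y), 1 / (1 + |t - s|) = Real.log (1 + Y) := by
    have e1 : ∫ s in t..(t + Y), 1 / (1 + |t - s|) =
        ∫ s in t..(t + Y), (fun u : ℝ => 1 / u) (s - (t - 1)) := by
      refine intervalIntegral.integral_congr fun s hs => ?_
      rw [Set.uIcc_of_le (by linarith), Set.mem_Icc] at hs
      simp only
      rw [abs_of_nonpos (by linarith)]
      congr 1
      ring
    rw [e1, intervalIntegral.integral_comp_sub_right, integral_one_div_of_pos (by linarith)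
      (by linarith)]
    congr 1
    rw [show t - (t - 1) = 1 by ring, div_one]
    ring
  rw [← intervalIntegral.integral_add_adjacent_intervals (b := t)
    (hcont.intervalIntegrable _ _) (hcont.intervalIntegrable _ _), h1, h2]
  ring

/-- Cauchy-Schwarz -/
private theorem Hux_cs (b : ℕ → ℂ) (M : ℕ) (t : ℝ) : ‖DP b M t‖ ^ 2 ≤ M * SS b M := by
  have h1 : ‖DP b M t‖ ≤ ∑ n ∈ Icc 1 M, ‖b n‖ := by
    unfold DP
    refine (norm_sum_le _ _).trans (le_of_eq (Finset.sum_congr rfl fun n _ => ?_))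
    rw [norm_mul, Pool.Agent.H91.PK.LSa_norm_ee, mul_one]
  have h2 : (∑ n ∈ Icc 1 M, ‖b n‖) ^ 2 ≤ ((Icc 1 M).card : ℝ) * ∑ n ∈ Icc 1 M, ‖b n‖ ^ 2 :=
    sq_sum_le_card_mul_sum_sq
  rw [Nat.card_Icc, Nat.add_sub_cancel] at h2
  calc ‖DP b M t‖ ^ 2 ≤ (∑ n ∈ Icc 1 M, ‖b n‖) ^ 2 := by
        gcongr
    _ ≤ _ := h2

/-- the estimate on one short interval -/
private theorem Hux_one {C0 : ℝ} (hC0 : 1 ≤ C0)
    (hker : ∀ (X M : ℕ) (u : ℝ), 3 ≤ X → M ≤ X →
      ‖∑ n ∈ Icc 1 M, ee (u * Real.log n)‖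
        ≤ C0 * Real.log X * (M / (1 + |u|) + Real.sqrt |u|))
    (X M : ℕ) (b : ℕ → ℂ) (V T T0 c : ℝ) (B : Set ℝ) (hX : 3 ≤ X) (hMX : M ≤ X) (hV : 0 < V)
    (hB : MeasurableSet B) (hBs : B ⊆ Set.Icc (-T) T) (hBc : B ⊆ Set.Icc c (c + T0))
    (hT0 : 0 < T0) (hT0X : T0 ≤ (X : ℝ) ^ 2)
    (hT0V : 2 * C0 * Real.log X * SS b M * Real.sqrt T0 ≤ V ^ 2)
    (hBV : ∀ t ∈ B, V ≤ ‖DP b M t‖) :
    V ^ 2 * volume.real B ≤ 12 * C0 * Real.log X ^ 2 * (M * SS b M) := by
  have hXr : (3 : ℝ) ≤ X := by exact_mod_cast hX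
  have hX0 : (0 : ℝ) < X := by linarith
  have hL1 : 1 ≤ Real.log X := by
    rw [Real.le_log_iff_exp_le hX0]
    linarith [Real.exp_one_lt_d9]
  set L : ℝ := Real.log X with hL
  have hS0 : 0 ≤ SS b M := Finset.sum_nonneg fun n _ => by positivity
  have hv0 : 0 ≤ volume.real B := measureReal_nonneg
  set G : ℝ := C0 * L * (6 * L * M + volume.real B * Real.sqrt T0) with hG
  have hG0 : 0 ≤ G := by positivity
  have hcee : ∀ t : ℝ, Continuous (fun s : ℝ => ‖∑ n ∈ Icc 1 M, ee ((t - s) * Real.log n)‖) := by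
    intro t
    unfold ee
    fun_prop
  have hlog : 2 * Real.log (1 + T0) ≤ 6 * L := by
    have h1 : 1 + T0 ≤ (X : ℝ) ^ 3 := by nlinarith [sq_nonneg ((X : ℝ) - 1)]
    have h2 : Real.log (1 + T0) ≤ Real.log ((X : ℝ) ^ 3) := Real.log_le_log (by linarith) h1
    rw [Real.log_pow] at h2
    push_cast at h2
    rw [← hL] at h2
    linarith
  have hGb : ∀ t ∈ B, ∫ s in B, ‖∑ n ∈ Icc 1 M, ee ((t - s) * Real.log n)‖ ≤ G := by
    intro t ht
    have hcg0 : Continuous (fun s : ℝ => 1 / (1 + |t - s|)) := by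
      refine continuous_const.div (by fun_prop) fun s => ?_
      positivity
    have hcg : Continuous (fun s : ℝ => C0 * L * M * (1 / (1 + |t - s|))) :=
      continuous_const.mul hcg0
    have hi1 : IntegrableOn (fun s : ℝ => ‖∑ n ∈ Icc 1 M, ee ((t - s) * Real.log n)‖) B :=
      ((hcee t).continuousOn.integrableOn_Icc).mono_set hBs
    have hi2 : IntegrableOn (fun s : ℝ => C0 * L * M * (1 / (1 + |t - s|))) B :=
      (hcg.continuousOn.integrableOn_Icc).mono_set hBs
    have hi3 : IntegrableOn (fun _ : ℝ => C0 * L * Real.sqrt T0) B :=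
      (continuous_const.continuousOn.integrableOn_Icc).mono_set hBs
    have hpt : ∀ s ∈ B, ‖∑ n ∈ Icc 1 M, ee ((t - s) * Real.log n)‖ ≤
        C0 * L * M * (1 / (1 + |t - s|)) + C0 * L * Real.sqrt T0 := by
      intro s hs
      have hs1 := hBc hs
      have ht1 := hBc ht
      rw [Set.mem_Icc] at hs1 ht1
      have habs : |t - s| ≤ T0 := by
        rw [abs_le]
        constructor <;> linarith [hs1.1, hs1.2, ht1.1, ht1.2]
      have h1 := hker X M (t - s) hX hMX
      have h2 : Real.sqrt |t - s| ≤ Real.sqrt T0 := Real.sqrt_le_sqrt habs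
      calc _ ≤ C0 * L * (M / (1 + |t - s|) + Real.sqrt |t - s|) := h1
        _ ≤ C0 * L * (M / (1 + |t - s|) + Real.sqrt T0) := by gcongr
        _ = _ := by ring
    refine (setIntegral_mono_on hi1 (hi2.add hi3) hB hpt).trans ?_
    have e1 : ∫ s in B, (C0 * L * M * (1 / (1 + |t - s|)) + C0 * L * Real.sqrt T0) =
        C0 * L * M * (∫ s in B, 1 / (1 + |t - s|)) + volume.real B * (C0 * L * Real.sqrt T0) := by
      rw [integral_add hi2 hi3, integral_const_mul, setIntegral_const, smul_eq_mul]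
    have e2 : ∫ s in B, 1 / (1 + |t - s|) ≤ 2 * Real.log (1 + T0) := by
      rw [← Hux_log t T0 hT0.le, intervalIntegral.integral_of_le (by linarith),
        ← integral_Icc_eq_integral_Ioc]
      refine setIntegral_mono_set (hcg0.continuousOn.integrableOn_Icc)
        (Filter.Eventually.of_forall fun s => ?_) (HasSubset.Subset.eventuallyLE ?_)
      · simp only [Pi.zero_apply]
        positivity
      · intro s hs
        have hs1 := hBc hs
        have ht1 := hBc ht
        rw [Set.mem_Icc] at hs1 ht1 ⊢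
        constructor <;> linarith [hs1.1, hs1.2, ht1.1, ht1.2]
    have e3 : C0 * L * M * (∫ s in B, 1 / (1 + |t - s|)) ≤ C0 * L * M * (6 * L) :=
      mul_le_mul_of_nonneg_left (e2.trans hlog) (by positivity)
    rw [Pi.add_def, e1, hG]
    nlinarith [e3]
  have hd := Pool.Agent.H80.LV.dual_ineq B T hB hBs M b G hG0 hGb
  have hFc : Continuous (fun t : ℝ => ‖∑ n ∈ Icc 1 M, b n * ee (t * Real.log n)‖ ^ 2) := by
    unfold ee
    fun_prop
  have hlow : V ^ 2 * volume.real B ≤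
      ∫ t in B, ‖∑ n ∈ Icc 1 M, b n * ee (t * Real.log n)‖ ^ 2 := by
    have h1 : ∫ _ in B, V ^ 2 = volume.real B * V ^ 2 := by
      rw [setIntegral_const, smul_eq_mul]
    rw [mul_comm, ← h1]
    refine setIntegral_mono_on
      ((continuous_const.continuousOn.integrableOn_Icc (μ := volume)).mono_set hBs)
      ((hFc.continuousOn.integrableOn_Icc).mono_set hBs) hB fun t ht => ?_
    have h2 := hBV t ht
    unfold DP at h2
    gcongr
  have hfin : V ^ 2 * volume.real B ≤ G * SS b M := hlow.trans hd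
  have h5 : C0 * L * SS b M * Real.sqrt T0 * volume.real B ≤ V ^ 2 / 2 * volume.real B := by
    refine mul_le_mul_of_nonneg_right ?_ hv0
    linarith
  rw [hG] at hfin
  nlinarith [hfin, h5]

theorem huxley : ∃ C : ℝ, 1 ≤ C ∧ ∀ (X M : ℕ) (b : ℕ → ℂ) (V T : ℝ) (B : Set ℝ), 3 ≤ X → 1 ≤ M →
    M ≤ X → 0 < V → 1 ≤ T → T ≤ X → MeasurableSet B → B ⊆ Set.Icc (-T) T →
    (∀ t ∈ B, V ≤ ‖DP b M t‖) →
    volume.real B ≤ C * Real.log X ^ 6 * (M * SS b M / V ^ 2 + T * M * SS b M ^ 3 / V ^ 6) := by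
  obtain ⟨C0, hC0, hker⟩ := ker
  refine ⟨96 * C0 ^ 3, ?_, fun X M b V T B hX hM hMX hV hT hTX hB hBs hBV => ?_⟩
  · have : 1 ≤ C0 ^ 3 := one_le_pow₀ hC0
    linarith
  have hXr : (3 : ℝ) ≤ X := by exact_mod_cast hX
  have hX0 : (0 : ℝ) < X := by linarith
  have hL1 : 1 ≤ Real.log X := by
    rw [Real.le_log_iff_exp_le hX0]
    linarith [Real.exp_one_lt_d9]
  set L : ℝ := Real.log X with hL
  have hS0 : 0 ≤ SS b M := Finset.sum_nonneg fun n _ => by positivity
  have hT0 : 0 < T := by linarith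
  rcases B.eq_empty_or_nonempty with hBe | ⟨t0, ht0⟩
  · rw [hBe]
    simp only [measureReal_empty]
    positivity
  have hVMS : V ^ 2 ≤ M * SS b M := by
    refine le_trans ?_ (Hux_cs b M t0)
    have := hBV t0 ht0
    gcongr
  have hM0 : (0 : ℝ) < M := by exact_mod_cast hM
  have hS : 0 < SS b M := by
    rcases hS0.lt_or_eq with h | h
    · exact h
    · rw [← h, mul_zero] at hVMS
      exact absurd hVMS (not_le.mpr (by positivity))
  set S : ℝ := SS b M with hSdef
  -- the length of the short intervals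
  set R : ℝ := V ^ 2 / (2 * C0 * L * S) with hR
  have hR0 : 0 < R := by positivity
  set U : ℝ := R ^ 2 with hU
  have hU0 : 0 < U := by positivity
  have hsq : Real.sqrt U = R := by rw [hU, Real.sqrt_sq hR0.le]
  have hRX : R ≤ X := by
    rw [hR, div_le_iff₀ (by positivity)]
    have h1 : (M : ℝ) ≤ X := by exact_mod_cast hMX
    have h2 : M * S ≤ X * S := by gcongr
    have h3 : (1 : ℝ) ≤ 2 * C0 * L := by nlinarith
    have h4 : (X : ℝ) * S ≤ X * (2 * C0 * L * S) := by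
      have : X * S * 1 ≤ X * S * (2 * C0 * L) := by gcongr
      linarith
    linarith
  have hUX : U ≤ (X : ℝ) ^ 2 := by rw [hU]; gcongr
  have hUV : 2 * C0 * L * S * Real.sqrt U ≤ V ^ 2 := by
    rw [hsq, hR]
    apply le_of_eq
    field_simp
  -- covering
  set N : ℕ := ⌊2 * T / U⌋₊ + 1 with hN
  have hcover : B ⊆ ⋃ j ∈ Finset.range N, B ∩ Set.Icc (-T + j * U) (-T + j * U + U) := by
    intro t ht
    have h1 := hBs ht
    rw [Set.mem_Icc] at h1
    simp only [Set.mem_iUnion, Finset.mem_range, exists_prop]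
    have h2 : 0 ≤ (t + T) / U := div_nonneg (by linarith [h1.1]) hU0.le
    refine ⟨⌊(t + T) / U⌋₊, ?_, ht, ?_⟩
    · rw [hN, Nat.lt_succ_iff]
      apply Nat.floor_le_floor
      gcongr
      linarith [h1.2]
    · have h3 := Nat.floor_le h2
      have h4 := Nat.lt_floor_add_one ((t + T) / U)
      rw [le_div_iff₀ hU0] at h3
      rw [div_lt_iff₀ hU0] at h4
      rw [Set.mem_Icc]
      constructor <;> linarith
  have hone : ∀ j ∈ Finset.range N, volume.real (B ∩ Set.Icc (-T + j * U) (-T + j * U + U)) ≤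
      12 * C0 * L ^ 2 * (M * S) / V ^ 2 := by
    intro j _
    rw [le_div_iff₀ (by positivity), mul_comm]
    exact Hux_one hC0 hker X M b V T U (-T + j * U) _ hX hMX hV (hB.inter measurableSet_Icc)
      (Set.inter_subset_left.trans hBs) Set.inter_subset_right hU0 hUX hUV
      (fun t ht => hBV t ht.1)
  have hfinB : volume (⋃ j ∈ Finset.range N, B ∩ Set.Icc (-T + j * U) (-T + j * U + U)) ≠ ⊤ := by
    refine ne_of_lt (lt_of_le_of_lt (measure_mono ?_)
      (lt_of_le_of_lt (measure_mono hBs) (by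
        rw [Real.volume_Icc]; exact ENNReal.ofReal_lt_top)))
    exact Set.iUnion₂_subset fun j _ => Set.inter_subset_left
  have hvol : volume.real B ≤ N * (12 * C0 * L ^ 2 * (M * S) / V ^ 2) := by
    calc volume.real B ≤ volume.real (⋃ j ∈ Finset.range N,
          B ∩ Set.Icc (-T + j * U) (-T + j * U + U)) := measureReal_mono hcover hfinB
      _ ≤ ∑ j ∈ Finset.range N, volume.real (B ∩ Set.Icc (-T + j * U) (-T + j * U + U)) :=
          measureReal_biUnion_finset_le _ _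
      _ ≤ ∑ j ∈ Finset.range N, (12 * C0 * L ^ 2 * (M * S) / V ^ 2) := Finset.sum_le_sum hone
      _ = _ := by rw [Finset.sum_const, Finset.card_range, nsmul_eq_mul]
  have hNle : (N : ℝ) ≤ 2 * T / U + 1 := by
    rw [hN]
    push_cast
    linarith [Nat.floor_le (show 0 ≤ 2 * T / U by positivity)]
  have hUe : 2 * T / U = 8 * C0 ^ 2 * L ^ 2 * (T * S ^ 2 / V ^ 4) := by
    rw [hU, hR]
    field_simp
    ring
  have hL4 : L ^ 4 ≤ L ^ 6 := pow_le_pow_right₀ hL1 (by norm_num)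
  have hL2 : L ^ 2 ≤ L ^ 6 := pow_le_pow_right₀ hL1 (by norm_num)
  have hC3 : C0 ≤ C0 ^ 3 := by
    calc C0 = C0 ^ 1 := (pow_one _).symm
      _ ≤ C0 ^ 3 := pow_le_pow_right₀ hC0 (by norm_num)
  calc volume.real B ≤ N * (12 * C0 * L ^ 2 * (M * S) / V ^ 2) := hvol
    _ ≤ (8 * C0 ^ 2 * L ^ 2 * (T * S ^ 2 / V ^ 4) + 1) * (12 * C0 * L ^ 2 * (M * S) / V ^ 2) := by
        rw [← hUe]
        gcongr
    _ = 96 * C0 ^ 3 * L ^ 4 * (T * M * S ^ 3 / V ^ 6) + 12 * C0 * L ^ 2 * (M * S / V ^ 2) := by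
        field_simp
        ring
    _ ≤ 96 * C0 ^ 3 * L ^ 6 * (T * M * S ^ 3 / V ^ 6)
          + 96 * C0 ^ 3 * L ^ 6 * (M * S / V ^ 2) := by
        gcongr
        norm_num
    _ = _ := by ring

end Pool.Agent.H88.PSI
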