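import Pool.Agent.H88.PSI.Asm
import Pool.Agent.H91.EHA.SwK1

/-!
# PSI HuxT: primes in almost all short intervals, in residue classes

`asm` with `A + 2` and `A1` large; the long average by `Pool.Agent.H91.EHA.psi_ap` (`Pool/Agent/H91/EHA/SwK1.lean`) for `3X` with `k = A1 + A + 4`:
`|W(cl d u La) H1 x/H1 - 1/φ(d)| ≤ 2·3X/log^k(3X)/H1 ≤ L^(-A-1)`.
-/

set_option autoImplicit false

namespace Pool.Agent.H88.PSI

open Finset
open Pool.Agent.H91.EHA (psiA Lam psi_ap)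

private lemma HuxT_psiA (y q a : ℕ) :
    psiA y q a = ∑ n ∈ Ioc 0 y, if n % q = a % q then Lam n else 0 := by
  unfold psiA
  rw [sum_filter]
  refine sum_congr (by ext n; simp [Nat.succ_le_iff]) fun n _ => ?_
  by_cases h : n % q = a % q
  · rw [if_pos h, if_pos (show n ≡ a [MOD q] from h)]
  · rw [if_neg h, if_neg (show ¬ n ≡ a [MOD q] from h)]

private lemma HuxT_W (d u H x : ℕ) :
    W (cl d u La) H x = ((psiA (x + H) d u - psiA x d u : ℝ) : ℂ) := by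
  rw [HuxT_psiA, HuxT_psiA]
  have h := Finset.sum_Ioc_consecutive (fun n => if n % d = u % d then Lam n else 0)
    (Nat.zero_le x) (Nat.le_add_right x H)
  rw [← h, add_sub_cancel_left]
  unfold W cl
  rw [Complex.ofReal_sum]
  refine sum_congr rfl fun n _ => ?_
  by_cases h : n % d = u % d
  · rw [if_pos h, if_pos h]
    rfl
  · rw [if_neg h, if_neg h, Complex.ofReal_zero]

private lemma HuxT_ev (k : ℕ) : ∃ X0 : ℕ, ∀ X : ℕ, X0 ≤ X →
    4 ≤ Real.log X ∧ 2 * Real.log X ^ k ≤ X := by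
  have h1 : Filter.Tendsto (fun n : ℕ => Real.log n) Filter.atTop Filter.atTop :=
    Real.tendsto_log_atTop.comp tendsto_natCast_atTop_atTop
  have h2 : ∀ᶠ x : ℝ in Filter.atTop, 2 * Real.log x ^ k ≤ x := by
    have h3 := (Real.isLittleO_pow_log_id_atTop (n := k)).bound (show (0 : ℝ) < 1 / 2 by norm_num)
    filter_upwards [h3, Filter.eventually_ge_atTop (0 : ℝ)] with x hx hx0
    simp only [id, Real.norm_eq_abs, abs_of_nonneg hx0] at hx
    have := le_abs_self (Real.log x ^ k)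
    linarith
  have h4 := (h1.eventually_ge_atTop 4).and (tendsto_natCast_atTop_atTop.eventually h2)
  obtain ⟨X0, hX0⟩ := Filter.eventually_atTop.1 h4
  exact ⟨X0, fun X hX => hX0 X hX⟩

theorem hux (e : ℝ) (he : 0 < e) (A B : ℕ) : ∃ X0 : ℕ, ∀ X : ℕ, X0 ≤ X → ∀ (d u H : ℕ), 1 ≤ d →
    (d : ℝ) ≤ Real.log X ^ B → Nat.Coprime u d →
    (X : ℝ) ^ (1 / 6 + e) ≤ H → (H : ℝ) ≤ (X : ℝ) ^ (1 / 3 : ℝ) →
    ∑ x ∈ Ico X (2 * X), ‖W (cl d u La) H x - (H : ℂ) / (d.totient : ℂ)‖ ^ 2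
      ≤ X * (H : ℝ) ^ 2 / Real.log X ^ A := by
  obtain ⟨A1, hA⟩ := asm e he (A + 2) B
  obtain ⟨X1, hX1⟩ := hA A1 le_rfl
  obtain ⟨X2, hX2⟩ := psi_ap B (A1 + A + 4)
  obtain ⟨X3, hX3⟩ := HuxT_ev A1
  refine ⟨max X1 (max X2 X3) + 1, fun X hX d u H hd hdB hu hH1 hH2 => ?_⟩
  obtain ⟨hL, hLA⟩ := hX3 X (by omega)
  have hX0 : 0 < X := by omega
  have hXR : (0 : ℝ) < X := by exact_mod_cast hX0
  set L : ℝ := Real.log X with hLdef
  have hL0 : 0 < L := by linarith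
  set H1 : ℕ := ⌊(X : ℝ) / L ^ A1⌋₊ with hH1def
  have hasm := hX1 X (by omega) d u H H1 hd hdB hu hH1 hH2 rfl
  have hP : (0 : ℝ) < L ^ A1 := by positivity
  have hH1u : (H1 : ℝ) ≤ X / L ^ A1 := Nat.floor_le (by positivity)
  have hH1l : (X : ℝ) / L ^ A1 < H1 + 1 := Nat.lt_floor_add_one _
  have hq : 2 ≤ (X : ℝ) / L ^ A1 := by
    rw [le_div_iff₀ hP]
    exact hLA
  have hH1h : (X : ℝ) / (2 * L ^ A1) ≤ H1 := by
    have : (X : ℝ) / (2 * L ^ A1) = X / L ^ A1 / 2 := by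
      rw [div_div, mul_comm]
    rw [this]
    linarith
  have hH1p : (0 : ℝ) < H1 := by linarith
  have hH1X : H1 ≤ X := by
    have h1 : (1 : ℝ) ≤ L ^ A1 := one_le_pow₀ (by linarith)
    have h2 : (X : ℝ) / L ^ A1 ≤ X := div_le_self hXR.le h1
    exact_mod_cast hH1u.trans h2
  -- the long average
  have hlong : ∀ x ∈ Ico X (2 * X),
      ‖W (cl d u La) H1 x / H1 - 1 / (d.totient : ℂ)‖ ≤ 1 / L ^ (A + 1) := by
    intro x hx
    rw [mem_Ico] at hx
    have hlog3 : L ≤ Real.log ((3 * X : ℕ) : ℝ) := by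
      refine Real.log_le_log hXR ?_
      push_cast
      linarith
    have hlog0 : 0 < Real.log ((3 * X : ℕ) : ℝ) := by linarith
    have hdB' : (d : ℝ) ≤ Real.log ((3 * X : ℕ) : ℝ) ^ B :=
      hdB.trans (pow_le_pow_left₀ hL0.le hlog3 B)
    have e1 := hX2 (3 * X) (by omega) (x + H1) (by omega) d hd hdB' u hu
    have e2 := hX2 (3 * X) (by omega) x (by omega) d hd hdB' u hu
    have e3 : ((3 * X : ℕ) : ℝ) / Real.log ((3 * X : ℕ) : ℝ) ^ (A1 + A + 4) ≤
        3 * X / L ^ (A1 + A + 4) := by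
      push_cast
      refine div_le_div_of_nonneg_left (by positivity) (by positivity) ?_
      refine pow_le_pow_left₀ hL0.le ?_ _
      push_cast at hlog3
      exact hlog3
    have hφ : (0 : ℝ) < d.totient := by exact_mod_cast Nat.totient_pos.2 hd
    have h5 : W (cl d u La) H1 x / H1 - 1 / (d.totient : ℂ) =
        (((psiA (x + H1) d u - ((x + H1 : ℕ) : ℝ) / d.totient) -
          (psiA x d u - (x : ℝ) / d.totient)) / H1 : ℝ) := by
      rw [HuxT_W]
      have hH1c : (H1 : ℂ) ≠ 0 := by exact_mod_cast hH1p.ne'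
      have hφc : (d.totient : ℂ) ≠ 0 := by exact_mod_cast hφ.ne'
      push_cast
      field_simp
      ring
    rw [h5, Complex.norm_real, Real.norm_eq_abs, abs_div, abs_of_pos hH1p, div_le_iff₀ hH1p]
    have h6 : |psiA (x + H1) d u - ((x + H1 : ℕ) : ℝ) / d.totient -
        (psiA x d u - (x : ℝ) / d.totient)| ≤ 6 * X / L ^ (A1 + A + 4) := by
      have h7 := abs_sub (psiA (x + H1) d u - ((x + H1 : ℕ) : ℝ) / d.totient)
        (psiA x d u - (x : ℝ) / d.totient)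
      have h8 : 6 * X / L ^ (A1 + A + 4) = 3 * X / L ^ (A1 + A + 4) + 3 * X / L ^ (A1 + A + 4) := by
        ring
      rw [h8]
      linarith
    refine h6.trans ?_
    have h9 : 1 / L ^ (A + 1) * (X / (2 * L ^ A1)) ≤ 1 / L ^ (A + 1) * H1 :=
      mul_le_mul_of_nonneg_left hH1h (by positivity)
    refine le_trans ?_ h9
    rw [div_mul_div_comm, one_mul, div_le_div_iff₀ (by positivity) (by positivity)]
    have h10 : L ^ (A1 + A + 4) = L ^ (A + 1) * L ^ A1 * L ^ 3 := by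
      rw [← pow_add, ← pow_add]
      congr 1
      omega
    rw [h10]
    have h11 : (12 : ℝ) ≤ L ^ 3 := by
      have : (4 : ℝ) ^ 3 ≤ L ^ 3 := pow_le_pow_left₀ (by norm_num) hL 3
      linarith
    have h12 : (0 : ℝ) ≤ X * (L ^ (A + 1) * L ^ A1) := by positivity
    nlinarith
  have hpt : ∀ x ∈ Ico X (2 * X), ‖W (cl d u La) H x - (H : ℂ) / (d.totient : ℂ)‖ ^ 2 ≤
      2 * (H : ℝ) ^ 2 * ‖D (cl d u La) H H1 x‖ ^ 2 + 2 * (H : ℝ) ^ 2 * (1 / L ^ (A + 1)) ^ 2 := by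
    intro x hx
    have h1 := hlong x hx
    have hHp : (0 : ℝ) < H := lt_of_lt_of_le (Real.rpow_pos_of_pos hXR _) hH1
    have h2 : W (cl d u La) H x - (H : ℂ) / (d.totient : ℂ) =
        (H : ℂ) * D (cl d u La) H H1 x + (H : ℂ) * (W (cl d u La) H1 x / H1 - 1 / (d.totient : ℂ)) := by
      unfold D
      have hHc : (H : ℂ) ≠ 0 := by exact_mod_cast hHp.ne'
      field_simp
      ring
    have h3 : ‖W (cl d u La) H x - (H : ℂ) / (d.totient : ℂ)‖ ≤
        H * ‖D (cl d u La) H H1 x‖ + H * (1 / L ^ (A + 1)) := by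
      rw [h2]
      refine (norm_add_le _ _).trans ?_
      rw [norm_mul, norm_mul, Complex.norm_natCast]
      exact add_le_add le_rfl (mul_le_mul_of_nonneg_left h1 hHp.le)
    have h4 := pow_le_pow_left₀ (norm_nonneg _) h3 2
    refine h4.trans ?_
    have h5 := sq_nonneg (H * ‖D (cl d u La) H H1 x‖ - H * (1 / L ^ (A + 1)))
    nlinarith
  refine (sum_le_sum hpt).trans ?_
  rw [sum_add_distrib, ← mul_sum, sum_const, Nat.card_Ico, nsmul_eq_mul]
  have hc : ((2 * X - X : ℕ) : ℝ) = X := by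
    have : 2 * X - X = X := by omega
    rw [this]
  rw [hc]
  have h1 : 2 * (H : ℝ) ^ 2 * ∑ x ∈ Ico X (2 * X), ‖D (cl d u La) H H1 x‖ ^ 2 ≤
      2 * (H : ℝ) ^ 2 * (X / L ^ (A + 2)) := mul_le_mul_of_nonneg_left hasm (by positivity)
  have h2 : (1 / L ^ (A + 1)) ^ 2 ≤ 1 / L ^ (A + 2) := by
    rw [div_pow, one_pow, ← pow_mul]
    exact one_div_le_one_div_of_le (by positivity) (pow_le_pow_right₀ (by linarith) (by omega))
  have h3 : (X : ℝ) * (2 * (H : ℝ) ^ 2 * (1 / L ^ (A + 1)) ^ 2) ≤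
      X * (2 * (H : ℝ) ^ 2 * (1 / L ^ (A + 2))) :=
    mul_le_mul_of_nonneg_left (mul_le_mul_of_nonneg_left h2 (by positivity)) hXR.le
  refine (add_le_add h1 h3).trans ?_
  have h4 : 2 * (H : ℝ) ^ 2 * (X / L ^ (A + 2)) + X * (2 * (H : ℝ) ^ 2 * (1 / L ^ (A + 2))) =
      (X * (H : ℝ) ^ 2 / L ^ A) * (4 / L ^ 2) := by
    rw [pow_add]
    field_simp
    ring
  rw [h4]
  refine mul_le_of_le_one_right (by positivity) ?_
  rw [div_le_one (by positivity)]
  nlinarith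

end Pool.Agent.H88.PSI
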