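import Pool.Agent.H88.PSI.Defs
import Pool.Agent.H91.PK.LSa

/-!
# PSI Kap: the kernel of the logarithmic windows

`kp h t = ∫_{-h}^{0} ee(-t v) dv`; `|kp| ≤ h`, `|kp| ≤ 1/(π|t|)`, `|kp - h| ≤ π |t| h^2`.  The Fourier transform of
`u ↦ [u < c ≤ u + h]` is `ee(-t c) kp h t`... (`u = c + v`, `-h ≤ v < 0`).
-/

set_option autoImplicit false

namespace Pool.Agent.H88.PSI

open Finset MeasureTheory
open Pool.Agent.H91.PK (ee)

private theorem kap_cont (t : ℝ) : Continuous fun v : ℝ => ee (-(v * t)) := by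
  unfold ee
  fun_prop

private theorem kap_zero : ee 0 = 1 := by
  unfold ee
  simp

/-- `∫_{-h}^{0} ee(-(v t)) dv` -/
noncomputable def kp (h t : ℝ) : ℂ := ∫ v in (-h)..0, ee (-(v * t))

theorem kp_le (h t : ℝ) (hh : 0 ≤ h) : ‖kp h t‖ ≤ h := by
  unfold kp
  have h1 : ‖∫ v in (-h)..0, ee (-(v * t))‖ ≤ 1 * |0 - (-h)| :=
    intervalIntegral.norm_integral_le_of_norm_le_const fun x _ =>
      (Pool.Agent.H91.PK.LSa_norm_ee _).le
  rwa [one_mul, zero_sub, neg_neg, abs_of_nonneg hh] at h1

theorem kp_inv (h t : ℝ) (ht : t ≠ 0) : ‖kp h t‖ ≤ 1 / (2 * |t|) := by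
  have hc : (-(2 * Real.pi * t * Complex.I) : ℂ) ≠ 0 := by
    refine neg_ne_zero.2 (mul_ne_zero (mul_ne_zero (mul_ne_zero two_ne_zero ?_) ?_)
      Complex.I_ne_zero)
    · exact_mod_cast Real.pi_ne_zero
    · exact_mod_cast ht
  have hd : ∀ v : ℝ, HasDerivAt (fun v : ℝ => ee (-(v * t)) / (-(2 * Real.pi * t * Complex.I)))
      (ee (-(v * t))) v := by
    intro v
    have h1 : HasDerivAt (fun v : ℝ => (-(2 * Real.pi * t * Complex.I) : ℂ) * ((v : ℝ) : ℂ))
        (-(2 * Real.pi * t * Complex.I)) v := by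
      have h2 := (Complex.ofRealCLM.hasDerivAt (x := v)).const_mul
        (-(2 * Real.pi * t * Complex.I) : ℂ)
      simpa using h2
    have h3 := h1.cexp.div_const (-(2 * Real.pi * t * Complex.I))
    have h4 : (fun v : ℝ => ee (-(v * t)) / (-(2 * Real.pi * t * Complex.I))) =
        fun v : ℝ => Complex.exp (-(2 * Real.pi * t * Complex.I) * (v : ℂ)) /
          (-(2 * Real.pi * t * Complex.I)) := by
      funext v
      unfold ee
      congr 2
      push_cast
      ring
    rw [h4]
    have h5 : ee (-(v * t)) = Complex.exp (-(2 * Real.pi * t * Complex.I) * (v : ℂ)) *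
        (-(2 * Real.pi * t * Complex.I)) / (-(2 * Real.pi * t * Complex.I)) := by
      rw [mul_div_cancel_right₀ _ hc]
      unfold ee
      congr 1
      push_cast
      ring
    rw [h5]
    exact h3
  have h6 : kp h t = ee (-(0 * t)) / (-(2 * Real.pi * t * Complex.I)) -
      ee (-(-h * t)) / (-(2 * Real.pi * t * Complex.I)) := by
    unfold kp
    exact intervalIntegral.integral_eq_sub_of_hasDerivAt (fun v _ => hd v)
      ((kap_cont t).intervalIntegrable _ _)
  rw [h6, ← sub_div, norm_div]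
  have h7 : ‖(-(2 * Real.pi * t * Complex.I) : ℂ)‖ = 2 * Real.pi * |t| := by
    rw [norm_neg, norm_mul, norm_mul, norm_mul, Complex.norm_I, Complex.norm_real,
      Complex.norm_real, Real.norm_eq_abs, Real.norm_eq_abs, abs_of_pos Real.pi_pos]
    simp
  have h8 : ‖ee (-(0 * t)) - ee (-(-h * t))‖ ≤ 2 := by
    refine (norm_sub_le _ _).trans ?_
    rw [Pool.Agent.H91.PK.LSa_norm_ee, Pool.Agent.H91.PK.LSa_norm_ee]
    norm_num
  have ht' : 0 < |t| := abs_pos.2 ht
  rw [h7]
  refine (div_le_div_of_nonneg_right h8 (by positivity)).trans ?_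
  rw [div_le_div_iff₀ (by positivity) (by positivity)]
  nlinarith [Real.pi_gt_three]

private theorem kap_sub_one (s : ℝ) : ‖ee s - 1‖ ≤ 2 * Real.pi * |s| := by
  have h1 := Real.norm_exp_I_mul_ofReal_sub_one_le (x := 2 * Real.pi * s)
  have h2 : ee s = Complex.exp (Complex.I * ((2 * Real.pi * s : ℝ) : ℂ)) := by
    unfold ee
    congr 1
    push_cast
    ring
  rw [h2]
  refine h1.trans ?_
  rw [Real.norm_eq_abs, abs_mul, abs_of_pos (by positivity : (0 : ℝ) < 2 * Real.pi)]

theorem kp_sub (h t : ℝ) (hh : 0 ≤ h) : ‖kp h t - h‖ ≤ 4 * |t| * h ^ 2 := by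
  have h1 : kp h t - h = ∫ v in (-h)..0, (ee (-(v * t)) - 1) := by
    rw [intervalIntegral.integral_sub ((kap_cont t).intervalIntegrable _ _)
      (continuous_const.intervalIntegrable _ _), intervalIntegral.integral_const]
    unfold kp
    simp
  rw [h1]
  have h2 : ‖∫ v in (-h)..0, (ee (-(v * t)) - 1)‖ ≤
      ∫ v in (-h)..0, (2 * Real.pi * |t|) * (-v) := by
    refine intervalIntegral.norm_integral_le_of_norm_le (by linarith) ?_ ?_
    · filter_upwards with v hv
      refine (kap_sub_one _).trans (le_of_eq ?_)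
      rw [abs_neg, abs_mul, abs_of_nonpos hv.2]
      ring
    · exact (continuous_const.mul continuous_neg).intervalIntegrable _ _
  refine h2.trans ?_
  rw [intervalIntegral.integral_const_mul, intervalIntegral.integral_neg, integral_id]
  have h3 : 0 ≤ |t| * h ^ 2 := by positivity
  nlinarith [Real.pi_lt_four]

private theorem kap_ind (c h u : ℝ) (a : ℂ) :
    (if u < c ∧ c ≤ u + h then a else 0) = (Set.Ico (c - h) c).indicator (fun _ => a) u := by
  by_cases h1 : u < c ∧ c ≤ u + h
  · rw [if_pos h1, Set.indicator_of_mem]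
    exact ⟨by linarith [h1.2], h1.1⟩
  · rw [if_neg h1, Set.indicator_of_notMem]
    intro h2
    exact h1 ⟨h2.2, by linarith [h2.1]⟩

private theorem kap_gw (f : ℕ → ℂ) (N : ℕ) (hs hl H H1 u : ℝ) :
    Gw f N hs hl H H1 u = ∑ n ∈ Icc 1 N,
      ((Set.Ico (Real.log n - hs) (Real.log n)).indicator (fun _ => f n * (1 / H : ℝ)) u -
        (Set.Ico (Real.log n - hl) (Real.log n)).indicator (fun _ => f n * (1 / H1 : ℝ)) u) := by
  unfold Gw
  refine sum_congr rfl fun n _ => ?_
  rw [← kap_ind, ← kap_ind]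
  push_cast
  split_ifs <;> simp [mul_sub]

private theorem kap_mem (f : ℕ → ℂ) (N : ℕ) (hs hl H H1 : ℝ) (p : ENNReal) :
    MemLp (Gw f N hs hl H H1) p := by
  have h1 : Gw f N hs hl H H1 = fun u => ∑ n ∈ Icc 1 N,
      ((Set.Ico (Real.log n - hs) (Real.log n)).indicator (fun _ => f n * (1 / H : ℝ)) u -
        (Set.Ico (Real.log n - hl) (Real.log n)).indicator (fun _ => f n * (1 / H1 : ℝ)) u) :=
    funext fun u => kap_gw f N hs hl H H1 u
  rw [h1]
  refine memLp_finsetSum _ fun n _ => ?_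
  refine MemLp.sub ?_ ?_
  · exact memLp_indicator_const p measurableSet_Ico _ (Or.inr (by simp))
  · exact memLp_indicator_const p measurableSet_Ico _ (Or.inr (by simp))

/-- `Gw` is bounded with compact support -/
theorem gw_L1 (f : ℕ → ℂ) (N : ℕ) (hs hl H H1 : ℝ) (h1 : 0 ≤ hs) (h2 : 0 ≤ hl) :
    Integrable (Gw f N hs hl H H1) ∧ MemLp (Gw f N hs hl H H1) 2 := by
  have _ := h1
  have _ := h2
  exact ⟨memLp_one_iff_integrable.1 (kap_mem f N hs hl H H1 1), kap_mem f N hs hl H H1 2⟩

private theorem kap_int (c h t : ℝ) (a : ℂ) (hh : 0 ≤ h) :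
    ∫ u, (Set.Ico (c - h) c).indicator (fun _ => a) u * ee (-(u * t)) =
      a * (ee (-(c * t)) * kp h t) := by
  have h1 : (fun u => (Set.Ico (c - h) c).indicator (fun _ => a) u * ee (-(u * t))) =
      (Set.Ico (c - h) c).indicator fun u => a * ee (-(u * t)) := by
    funext u
    by_cases hu : u ∈ Set.Ico (c - h) c
    · rw [Set.indicator_of_mem hu, Set.indicator_of_mem hu]
    · rw [Set.indicator_of_notMem hu, Set.indicator_of_notMem hu, zero_mul]
  rw [h1, integral_indicator measurableSet_Ico, integral_Ico_eq_integral_Ioo,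
    ← integral_Ioc_eq_integral_Ioo, ← intervalIntegral.integral_of_le (by linarith),
    intervalIntegral.integral_const_mul]
  congr 1
  unfold kp
  have h2 : ∫ u in (c - h)..c, ee (-(u * t)) = ∫ v in (-h)..0, ee (-((v + c) * t)) := by
    rw [intervalIntegral.integral_comp_add_right (fun x => ee (-(x * t))) c]
    congr 1 <;> ring
  rw [h2, ← intervalIntegral.integral_const_mul]
  refine intervalIntegral.integral_congr fun v _ => ?_
  show ee (-((v + c) * t)) = ee (-(c * t)) * ee (-(v * t))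
  rw [← Pool.Agent.H91.PK.LSa_ee_add]
  congr 1
  ring

private theorem kap_integrable (c h t : ℝ) (a : ℂ) :
    Integrable fun u => (Set.Ico (c - h) c).indicator (fun _ => a) u * ee (-(u * t)) := by
  have h1 : Integrable fun u => (Set.Ico (c - h) c).indicator (fun _ => a) u :=
    memLp_one_iff_integrable.1 (memLp_indicator_const 1 measurableSet_Ico _ (Or.inr (by simp)))
  refine h1.mul_bdd (c := 1) (kap_cont t).aestronglyMeasurable ?_
  filter_upwards with u
  exact (Pool.Agent.H91.PK.LSa_norm_ee _).le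

/-- the Fourier transform of `Gw` -/
theorem gw_four (f : ℕ → ℂ) (N : ℕ) (hs hl H H1 t : ℝ) (h1 : 0 ≤ hs) (h2 : 0 ≤ hl) :
    ∫ u, Gw f N hs hl H H1 u * ee (-(u * t)) = DP f N (-t) * (kp hs t / H - kp hl t / H1) := by
  have h3 : (fun u => Gw f N hs hl H H1 u * ee (-(u * t))) = fun u => ∑ n ∈ Icc 1 N,
      ((Set.Ico (Real.log n - hs) (Real.log n)).indicator (fun _ => f n * (1 / H : ℝ)) u *
          ee (-(u * t)) -
        (Set.Ico (Real.log n - hl) (Real.log n)).indicator (fun _ => f n * (1 / H1 : ℝ)) u *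
          ee (-(u * t))) := by
    funext u
    rw [kap_gw, sum_mul]
    exact sum_congr rfl fun n _ => sub_mul _ _ _
  rw [h3]
  have h5 : ∀ n ∈ Icc 1 N, Integrable fun u : ℝ =>
      ((Set.Ico (Real.log n - hs) (Real.log n)).indicator (fun _ => f n * (1 / H : ℝ)) u *
          ee (-(u * t)) -
        (Set.Ico (Real.log n - hl) (Real.log n)).indicator (fun _ => f n * (1 / H1 : ℝ)) u *
          ee (-(u * t))) := fun n _ => (kap_integrable _ _ _ _).sub (kap_integrable _ _ _ _)
  rw [integral_finsetSum _ h5]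
  unfold DP
  rw [sum_mul]
  refine sum_congr rfl fun n _ => ?_
  rw [integral_sub (kap_integrable _ _ _ _) (kap_integrable _ _ _ _), kap_int _ _ _ _ h1,
    kap_int _ _ _ _ h2]
  have h4 : -(Real.log n * t) = -t * Real.log n := by ring
  rw [h4]
  push_cast
  ring

end Pool.Agent.H88.PSI
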