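import Pool.Agent.H88.PSI.Edg
import Pool.Agent.H88.PSI.Pw

/-!
# PSI Lon: long windows, type I

`em_abs`: `∑_{m ≤ x/k} |a m|/H1 ≤ 4 X^(13/24) Q/H1`; edge: `∑_zone |a m|/H1 ≤ Q (H1/k + 1)/H1`; and
`(∑_zone |a m|/m)^2 ≤ (1 + log 3X) ∑_zone |a m|^2/m`, `zone_sum`, `tau_momd`: `≤ 2 L H1 (20 L)^2 (1+log 3X)^(2^10) ≤ X L^(C - A1)`.
-/

set_option autoImplicit false

namespace Pool.Agent.H88.PSI

open Finset

private theorem Lon_ev (c : ℝ) (n : ℕ) (e : ℝ) (he : 0 < e) :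
    ∀ᶠ X : ℕ in Filter.atTop, c * Real.log X ^ n ≤ (X : ℝ) ^ e := by
  have h1 := isLittleO_log_rpow_rpow_atTop (s := e) (n : ℝ) he
  have hc : (0 : ℝ) < 1 / (|c| + 1) := by positivity
  have h2 := (tendsto_natCast_atTop_atTop (R := ℝ)).eventually (h1.bound hc)
  filter_upwards [h2, Filter.eventually_ge_atTop 1] with X hX hX1
  have hx1 : (1 : ℝ) ≤ X := by exact_mod_cast hX1
  have hl : 0 ≤ Real.log X := Real.log_nonneg hx1
  rw [Real.norm_of_nonneg (show (0 : ℝ) ≤ Real.log X ^ (n : ℝ) from Real.rpow_nonneg hl _),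
    Real.norm_of_nonneg (show (0 : ℝ) ≤ (X : ℝ) ^ e by positivity), Real.rpow_natCast] at hX
  have h3 : (|c| + 1) * Real.log X ^ n ≤ (X : ℝ) ^ e := by
    have := mul_le_mul_of_nonneg_left hX (show 0 ≤ |c| + 1 by positivity)
    calc (|c| + 1) * Real.log X ^ n ≤ (|c| + 1) * (1 / (|c| + 1) * (X : ℝ) ^ e) := this
      _ = (X : ℝ) ^ e := by field_simp
  refine le_trans (mul_le_mul_of_nonneg_right ?_ (by positivity)) h3
  linarith [le_abs_self c]

/-- the divisor bound used -/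
private theorem Lon_Q : ∀ᶠ X : ℕ in Filter.atTop, ∀ m : ℕ, m ≤ 3 * X →
    20 * Real.log X * tau m ^ 5 ≤ (X : ℝ) ^ (1 / 1000 : ℝ) := by
  obtain ⟨C, hC, hτ⟩ := tau_eps (1 / 10000) (by norm_num)
  filter_upwards [Lon_ev (1920 * C ^ 5) 1 (1 / 2000) (by norm_num),
    Filter.eventually_ge_atTop 1] with X hX hX1 m hm
  have hx1 : (1 : ℝ) ≤ X := by exact_mod_cast hX1
  have hx0 : (0 : ℝ) < X := by linarith
  have hl : 0 ≤ Real.log X := Real.log_nonneg hx1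
  have hmr : (m : ℝ) ≤ 3 * X := by exact_mod_cast hm
  have h1 : (m : ℝ) ^ (1 / 10000 : ℝ) ≤ (3 * (X : ℝ)) ^ (1 / 10000 : ℝ) :=
    Real.rpow_le_rpow (Nat.cast_nonneg _) hmr (by norm_num)
  have h2 : (1 : ℝ) ≤ (3 * (X : ℝ)) ^ (1 / 10000 : ℝ) :=
    Real.one_le_rpow (by linarith) (by norm_num)
  have h3 : tau m ≤ 2 * C * (3 * (X : ℝ)) ^ (1 / 10000 : ℝ) := by
    have h4 := hτ m
    have h5 := mul_le_mul_of_nonneg_left h1 (show (0 : ℝ) ≤ C by linarith)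
    have h6 := mul_le_mul_of_nonneg_left h2 (show (0 : ℝ) ≤ C by linarith)
    linarith
  have ht0 : 0 ≤ tau m := by unfold tau; positivity
  have h4 : tau m ^ 5 ≤ 96 * C ^ 5 * (X : ℝ) ^ (1 / 2000 : ℝ) := by
    calc tau m ^ 5 ≤ (2 * C * (3 * (X : ℝ)) ^ (1 / 10000 : ℝ)) ^ 5 :=
          pow_le_pow_left₀ ht0 h3 5
      _ = 32 * C ^ 5 * ((3 : ℝ) ^ (1 / 2000 : ℝ) * (X : ℝ) ^ (1 / 2000 : ℝ)) := by
          rw [mul_pow, ← Real.mul_rpow (by norm_num) hx0.le, ← Real.rpow_natCast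
            ((3 * (X : ℝ)) ^ (1 / 10000 : ℝ)), ← Real.rpow_mul (by positivity), mul_pow]
          norm_num
      _ ≤ 32 * C ^ 5 * (3 * (X : ℝ) ^ (1 / 2000 : ℝ)) := by
          refine mul_le_mul_of_nonneg_left (mul_le_mul_of_nonneg_right ?_ (by positivity))
            (by positivity)
          calc (3 : ℝ) ^ (1 / 2000 : ℝ) ≤ (3 : ℝ) ^ (1 : ℝ) :=
                Real.rpow_le_rpow_of_exponent_le (by norm_num) (by norm_num)
            _ = 3 := Real.rpow_one _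
      _ = 96 * C ^ 5 * (X : ℝ) ^ (1 / 2000 : ℝ) := by ring
  rw [pow_one] at hX
  calc 20 * Real.log X * tau m ^ 5 ≤ 20 * Real.log X * (96 * C ^ 5 * (X : ℝ) ^ (1 / 2000 : ℝ)) :=
        mul_le_mul_of_nonneg_left h4 (by positivity)
    _ = (1920 * C ^ 5 * Real.log X) * (X : ℝ) ^ (1 / 2000 : ℝ) := by ring
    _ ≤ (X : ℝ) ^ (1 / 2000 : ℝ) * (X : ℝ) ^ (1 / 2000 : ℝ) :=
        mul_le_mul_of_nonneg_right hX (by positivity)
    _ = (X : ℝ) ^ (1 / 1000 : ℝ) := by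
        rw [← Real.rpow_add hx0]
        norm_num

/-- pointwise bound of the difference -/
private theorem Lon_pt (d u H1 k X x : ℕ) (a : ArithmeticFunction ℝ) (Q : ℝ) (hd : 1 ≤ d)
    (hu : Nat.Coprime u d) (hk : 1 ≤ k) (hH1 : 1 ≤ H1) (hHX : H1 ≤ X) (hx : x ∈ Ico X (2 * X))
    (hQ : ∀ m ≤ 3 * X, |a m| ≤ Q) :
    ‖W (cl d u (hi 0 k * a)) H1 x / H1 - ((Bk a d k x : ℝ) : ℂ)‖ ≤
      ∑ m ∈ Ioc (x / k) ((x + H1) / k), |a m| / m +
        (Q / k + Q / H1 + 2 * X / k * Q / H1) := by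
  rw [mem_Ico] at hx
  have hH0 : (0 : ℝ) < H1 := by exact_mod_cast hH1
  have hk0 : (0 : ℝ) < k := by exact_mod_cast hk
  have hQ0 : 0 ≤ Q := (abs_nonneg _).trans (hQ 0 (Nat.zero_le _))
  have hxX : x ≤ 2 * X := hx.2.le
  set S : ℝ := ∑ m ∈ (Icc 1 (x / k)).filter (fun m => Nat.Coprime m d), a m * cnt d u H1 m x
    with hS
  set S' : ℝ := ∑ m ∈ (Icc 1 (x / k)).filter (fun m => Nat.Coprime m d), a m * em d u H1 m x
    with hS'
  have e1 := ti_edge a d u H1 k x hd hk hu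
  have e2 := bk_eq a d u H1 k x hH1
  rw [← hS, ← hS'] at e2
  rw [← hS] at e1
  have e3 : W (cl d u (hi 0 k * a)) H1 x / H1 - ((Bk a d k x : ℝ) : ℂ) =
      (W (cl d u (hi 0 k * a)) H1 x - ((S : ℝ) : ℂ)) / H1 + ((S' / H1 : ℝ) : ℂ) := by
    rw [← e2]
    push_cast
    ring
  rw [e3]
  refine (norm_add_le _ _).trans ?_
  have n1 : ‖(W (cl d u (hi 0 k * a)) H1 x - ((S : ℝ) : ℂ)) / H1‖ ≤
      ∑ m ∈ Ioc (x / k) ((x + H1) / k), |a m| / m + (Q / k + Q / H1) := by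
    rw [norm_div, Complex.norm_natCast, div_le_iff₀ hH0]
    refine e1.trans ?_
    have z1 : ∑ m ∈ Ioc (x / k) ((x + H1) / k), |a m| * ((H1 : ℝ) / m + 1) =
        (∑ m ∈ Ioc (x / k) ((x + H1) / k), |a m| / m) * H1 +
          ∑ m ∈ Ioc (x / k) ((x + H1) / k), |a m| := by
      rw [sum_mul, ← sum_add_distrib]
      exact sum_congr rfl fun m _ => by ring
    have z2 : ∑ m ∈ Ioc (x / k) ((x + H1) / k), |a m| ≤ ((H1 : ℝ) / k + 1) * Q := by
      have c1 : ∑ m ∈ Ioc (x / k) ((x + H1) / k), |a m| ≤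
          ∑ m ∈ Ioc (x / k) ((x + H1) / k), Q := by
        refine sum_le_sum fun m hm => hQ m ?_
        rw [mem_Ioc] at hm
        have := hm.2.trans (Nat.div_le_self _ _)
        omega
      rw [sum_const, nsmul_eq_mul, Nat.card_Ioc] at c1
      refine c1.trans (mul_le_mul_of_nonneg_right ?_ hQ0)
      have c2 : (x + H1) / k - x / k ≤ H1 / k + 1 := by
        have := Nat.add_div (a := x) (b := H1) (c := k) (by omega)
        rw [this]
        generalize x / k = q1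
        generalize H1 / k = q2
        split_ifs <;> omega
      have c3 : (((x + H1) / k - x / k : ℕ) : ℝ) ≤ ((H1 / k + 1 : ℕ) : ℝ) := by exact_mod_cast c2
      refine c3.trans ?_
      push_cast
      have := Nat.cast_div_le (α := ℝ) (m := H1) (n := k)
      linarith
    rw [z1]
    have z3 : ((∑ m ∈ Ioc (x / k) ((x + H1) / k), |a m| / m) + (Q / k + Q / H1)) * H1 =
        (∑ m ∈ Ioc (x / k) ((x + H1) / k), |a m| / m) * H1 + ((H1 : ℝ) / k + 1) * Q := by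
      field_simp
    rw [z3]
    linarith
  have n2 : ‖((S' / H1 : ℝ) : ℂ)‖ ≤ 2 * X / k * Q / H1 := by
    rw [Complex.norm_real, norm_div, Real.norm_eq_abs, Real.norm_of_nonneg hH0.le]
    refine div_le_div_of_nonneg_right ?_ hH0.le
    rw [hS']
    refine (abs_sum_le_sum_abs _ _).trans ?_
    have c1 : ∑ m ∈ (Icc 1 (x / k)).filter (fun m => Nat.Coprime m d), |a m * em d u H1 m x| ≤
        ∑ m ∈ (Icc 1 (x / k)).filter (fun m => Nat.Coprime m d), Q := by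
      refine sum_le_sum fun m hm => ?_
      rw [mem_filter, mem_Icc] at hm
      rw [abs_mul]
      have hmX : m ≤ 3 * X := by
        have := hm.1.2.trans (Nat.div_le_self _ _)
        omega
      calc |a m| * |em d u H1 m x| ≤ Q * 1 :=
            mul_le_mul (hQ m hmX) (em_abs d u H1 m x hd hm.1.1 hm.2) (abs_nonneg _) hQ0
        _ = Q := mul_one _
    refine c1.trans ?_
    rw [sum_const, nsmul_eq_mul]
    refine mul_le_mul_of_nonneg_right ?_ hQ0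
    have c2 : ((Icc 1 (x / k)).filter (fun m => Nat.Coprime m d)).card ≤ x / k := by
      refine (card_filter_le _ _).trans ?_
      rw [Nat.card_Icc]
      exact (Nat.add_sub_cancel (x / k) 1).le
    have c3 : (((Icc 1 (x / k)).filter (fun m => Nat.Coprime m d)).card : ℝ) ≤ ((x / k : ℕ) : ℝ) := by
      exact_mod_cast c2
    refine c3.trans (Nat.cast_div_le.trans ?_)
    refine div_le_div_of_nonneg_right ?_ hk0.le
    exact_mod_cast hxX
  linarith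

theorem ti_long (A B : ℕ) : ∃ A0 : ℕ, ∀ A1 : ℕ, A0 ≤ A1 → ∃ X0 : ℕ, ∀ X : ℕ, X0 ≤ X →
    ∀ (d u H1 k : ℕ) (a : ArithmeticFunction ℝ), 1 ≤ d → (d : ℝ) ≤ Real.log X ^ B → Nat.Coprime u d →
    H1 = ⌊X / Real.log X ^ A1⌋₊ →
    (X : ℝ) ^ (11 / 24 : ℝ) / 2 ≤ k → (∀ m, |a m| ≤ 20 * Real.log X * tau m ^ 5) →
    ∑ x ∈ Ico X (2 * X), ‖W (cl d u (hi 0 k * a)) H1 x / H1 - ((Bk a d k x : ℝ) : ℂ)‖ ^ 2
      ≤ X / Real.log X ^ A := by
  refine ⟨A + (2 ^ 10 + 4), fun A1 hA1 => ?_⟩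
  rw [← Filter.eventually_atTop]
  have htm : ∀ n : ℕ, ∑ m ∈ Icc 1 n, tau m ^ 10 / m ≤ (1 + Real.log n) ^ (2 ^ 10) :=
    fun n => tau_momd 10 n
  generalize (2 ^ 10 : ℕ) = N at htm hA1
  obtain ⟨K3, hK3, hK30⟩ : ∃ K3 : ℝ, (∀ t : ℝ, (3 * t) ^ (N + 1) = K3 * t ^ (N + 1)) ∧ 0 < K3 :=
    ⟨3 ^ (N + 1), fun t => mul_pow 3 t (N + 1), by positivity⟩
  have hL : ∀ c : ℝ, ∀ᶠ X : ℕ in Filter.atTop, c ≤ Real.log X := fun c =>
    (Real.tendsto_log_atTop.comp (tendsto_natCast_atTop_atTop (R := ℝ))).eventually_ge_atTop c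
  filter_upwards [Lon_Q, hL (1600 * K3 + 2), Lon_ev 2 A1 1 one_pos,
    Lon_ev 12 A1 (1 / 10) (by norm_num), Lon_ev 4 A (1 / 2) (by norm_num),
    Filter.eventually_ge_atTop 1] with X hQ hL1 hX1 hX2 hX3 hXge d u H1 k a hd hdB hu hH1 hk ha
  have hx1 : (1 : ℝ) ≤ X := by exact_mod_cast hXge
  have hx0 : (0 : ℝ) < X := by linarith
  set L : ℝ := Real.log X with hLdef
  have hL2 : 2 ≤ L := by linarith
  have hL0 : 0 < L := by linarith
  set Q : ℝ := (X : ℝ) ^ (1 / 1000 : ℝ) with hQdef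
  have hQ0 : 0 < Q := by positivity
  have haQ : ∀ m ≤ 3 * X, |a m| ≤ Q := fun m hm => (ha m).trans (hQ m hm)
  -- `H1`
  have hLA : 1 ≤ L ^ A1 := one_le_pow₀ (by linarith)
  rw [Real.rpow_one] at hX1
  have hq2 : 2 ≤ X / L ^ A1 := by
    rw [le_div_iff₀ (by positivity)]
    exact hX1
  have hH1le : (H1 : ℝ) ≤ X / L ^ A1 := by
    rw [hH1]
    exact Nat.floor_le (by positivity)
  have hH1ge : X / (2 * L ^ A1) ≤ (H1 : ℝ) := by
    have h1 : X / L ^ A1 < (H1 : ℝ) + 1 := by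
      rw [hH1]
      exact Nat.lt_floor_add_one _
    have h2 : X / (2 * L ^ A1) = (X / L ^ A1) / 2 := by ring
    rw [h2]
    linarith
  have hH1pos : (0 : ℝ) < H1 := lt_of_lt_of_le (by positivity) hH1ge
  have hH1one : 1 ≤ H1 := by
    have : 0 < H1 := by exact_mod_cast hH1pos
    omega
  have hHX : H1 ≤ X := by
    have : (H1 : ℝ) ≤ X := hH1le.trans (div_le_self hx0.le hLA)
    exact_mod_cast this
  have hkpos : (0 : ℝ) < k := lt_of_lt_of_le (by positivity) hk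
  have hkone : 1 ≤ k := by
    have : 0 < k := by exact_mod_cast hkpos
    omega
  -- the constant part
  set R : ℝ := Q / k + Q / H1 + 2 * X / k * Q / H1 with hR
  have hR0 : 0 ≤ R := by positivity
  have hRle : R ≤ (X : ℝ) ^ (-(1 / 4) : ℝ) := by
    have k1 : 1 / (k : ℝ) ≤ 2 * (X : ℝ) ^ (-(11 / 24) : ℝ) := by
      rw [div_le_iff₀ hkpos, Real.rpow_neg hx0.le]
      have hp : (0 : ℝ) < (X : ℝ) ^ (11 / 24 : ℝ) := by positivity
      calc (1 : ℝ) = 2 * ((X : ℝ) ^ (11 / 24 : ℝ))⁻¹ * ((X : ℝ) ^ (11 / 24 : ℝ) / 2) := by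
            field_simp
        _ ≤ _ := mul_le_mul_of_nonneg_left hk (by positivity)
    have k2 : 1 / (H1 : ℝ) ≤ 2 * L ^ A1 / X := by
      rw [div_le_div_iff₀ hH1pos hx0]
      rw [div_le_iff₀ (by positivity)] at hH1ge
      linarith
    have s1 : Q / k ≤ 2 * ((X : ℝ) ^ (-(11 / 24) : ℝ) * Q) := by
      have := mul_le_mul_of_nonneg_left k1 hQ0.le
      calc Q / k = Q * (1 / k) := by ring
        _ ≤ _ := this
        _ = _ := by ring
    have s2 : Q / H1 ≤ 2 * L ^ A1 * ((X : ℝ) ^ (-1 : ℝ) * Q) := by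
      have := mul_le_mul_of_nonneg_left k2 hQ0.le
      calc Q / H1 = Q * (1 / H1) := by ring
        _ ≤ _ := this
        _ = _ := by rw [Real.rpow_neg_one]; ring
    have s3 : 2 * X / k * Q / H1 ≤ 8 * L ^ A1 * ((X : ℝ) ^ (-(11 / 24) : ℝ) * Q) := by
      calc 2 * X / k * Q / H1 = 2 * X * Q * ((1 / k) * (1 / H1)) := by ring
        _ ≤ 2 * X * Q * ((2 * (X : ℝ) ^ (-(11 / 24) : ℝ)) * (2 * L ^ A1 / X)) :=
            mul_le_mul_of_nonneg_left (mul_le_mul k1 k2 (by positivity) (by positivity))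
              (by positivity)
        _ = _ := by field_simp; ring
    have t1 : (X : ℝ) ^ (-1 : ℝ) * Q ≤ (X : ℝ) ^ (-(11 / 24) : ℝ) * Q :=
      mul_le_mul_of_nonneg_right (Real.rpow_le_rpow_of_exponent_le hx1 (by norm_num)) hQ0.le
    have t2 : (X : ℝ) ^ (-(11 / 24) : ℝ) * Q ≤ (X : ℝ) ^ (-(7 / 20) : ℝ) := by
      rw [hQdef, ← Real.rpow_add hx0]
      exact Real.rpow_le_rpow_of_exponent_le hx1 (by norm_num)
    have t3 : R ≤ 12 * L ^ A1 * (X : ℝ) ^ (-(7 / 20) : ℝ) := by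
      have u0 : 0 ≤ (X : ℝ) ^ (-(11 / 24) : ℝ) * Q := by positivity
      have u1 : 2 * ((X : ℝ) ^ (-(11 / 24) : ℝ) * Q) ≤
          2 * L ^ A1 * ((X : ℝ) ^ (-(11 / 24) : ℝ) * Q) := by
        nlinarith [mul_le_mul_of_nonneg_right hLA u0]
      have u2 : 2 * L ^ A1 * ((X : ℝ) ^ (-1 : ℝ) * Q) ≤
          2 * L ^ A1 * ((X : ℝ) ^ (-(11 / 24) : ℝ) * Q) :=
        mul_le_mul_of_nonneg_left t1 (by positivity)
      have u3 : 12 * L ^ A1 * ((X : ℝ) ^ (-(11 / 24) : ℝ) * Q) ≤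
          12 * L ^ A1 * (X : ℝ) ^ (-(7 / 20) : ℝ) :=
        mul_le_mul_of_nonneg_left t2 (by positivity)
      rw [hR]
      linarith
    refine t3.trans ?_
    calc 12 * L ^ A1 * (X : ℝ) ^ (-(7 / 20) : ℝ) ≤
        (X : ℝ) ^ (1 / 10 : ℝ) * (X : ℝ) ^ (-(7 / 20) : ℝ) :=
          mul_le_mul_of_nonneg_right hX2 (by positivity)
      _ = (X : ℝ) ^ (-(1 / 4) : ℝ) := by
          rw [← Real.rpow_add hx0]
          norm_num
  -- the zone part
  set T : ℕ → ℝ := fun x => ∑ m ∈ Ioc (x / k) ((x + H1) / k), |a m| / m with hT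
  have hT0 : ∀ x, 0 ≤ T x := fun x => sum_nonneg fun m _ => by positivity
  set ℓ : ℝ := 1 + Real.log ((3 * X : ℕ) : ℝ) with hℓ
  have hℓ1 : ℓ ≤ 3 * L := by
    rw [hℓ]
    push_cast
    rw [Real.log_mul (by norm_num) hx0.ne']
    have : Real.log 3 ≤ 2 := by
      have := Real.log_le_sub_one_of_pos (show (0 : ℝ) < 3 by norm_num)
      linarith
    linarith
  have hℓ0 : 0 ≤ ℓ := by
    have : 0 ≤ Real.log ((3 * X : ℕ) : ℝ) := Real.log_natCast_nonneg _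
    linarith
  have hTsq : ∀ x ∈ Ico X (2 * X), T x ^ 2 ≤
      ℓ * ∑ m ∈ Ioc (x / k) ((x + H1) / k), |a m| ^ 2 / m := by
    intro x hx
    rw [mem_Ico] at hx
    have c1 : T x ^ 2 ≤ (∑ m ∈ Ioc (x / k) ((x + H1) / k), 1 / (m : ℝ)) *
        ∑ m ∈ Ioc (x / k) ((x + H1) / k), |a m| ^ 2 / m := by
      refine sum_sq_le_sum_mul_sum_of_sq_le_mul _ (fun m _ => by positivity)
        (fun m _ => by positivity) (fun m _ => ?_)
      rw [div_pow, div_mul_div_comm, one_mul, ← pow_two]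
    refine c1.trans (mul_le_mul_of_nonneg_right ?_ (sum_nonneg fun m _ => by positivity))
    have c2 := tau_momd 0 (3 * X)
    simp only [pow_zero, pow_one] at c2
    refine le_trans (sum_le_sum_of_subset_of_nonneg ?_ fun m _ _ => by positivity) c2
    intro m hm
    rw [mem_Ioc] at hm
    rw [mem_Icc]
    have := hm.2.trans (Nat.div_le_self _ _)
    exact ⟨lt_of_le_of_lt (Nat.zero_le _) hm.1, by omega⟩
  have hTsum : ∑ x ∈ Ico X (2 * X), T x ^ 2 ≤ ℓ * (H1 * (400 * L ^ 2 * ℓ ^ N)) := by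
    refine (sum_le_sum hTsq).trans ?_
    rw [← mul_sum]
    refine mul_le_mul_of_nonneg_left ?_ hℓ0
    refine (zone_sum X H1 k hkone hXge hHX (fun m => |a m| ^ 2 / m)
      (fun m => by positivity)).trans ?_
    refine mul_le_mul_of_nonneg_left ?_ (Nat.cast_nonneg _)
    calc ∑ m ∈ Icc 1 (3 * X), |a m| ^ 2 / (m : ℝ) ≤
        ∑ m ∈ Icc 1 (3 * X), 400 * L ^ 2 * (tau m ^ 10 / m) := by
          refine sum_le_sum fun m _ => ?_
          rw [mul_div_assoc']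
          refine div_le_div_of_nonneg_right ?_ (Nat.cast_nonneg _)
          calc |a m| ^ 2 ≤ (20 * L * tau m ^ 5) ^ 2 :=
                pow_le_pow_left₀ (abs_nonneg _) (ha m) 2
            _ = 400 * L ^ 2 * tau m ^ 10 := by ring
      _ = 400 * L ^ 2 * ∑ m ∈ Icc 1 (3 * X), tau m ^ 10 / m := by rw [mul_sum]
      _ ≤ 400 * L ^ 2 * ℓ ^ N := by
          refine mul_le_mul_of_nonneg_left ?_ (by positivity)
          exact htm (3 * X)
  have hTfin : 2 * ∑ x ∈ Ico X (2 * X), T x ^ 2 ≤ X / L ^ A / 2 := by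
    have c1 : ℓ * (H1 * (400 * L ^ 2 * ℓ ^ N)) ≤ X / L ^ A1 * (400 * K3 * L ^ (N + 3)) := by
      calc ℓ * (H1 * (400 * L ^ 2 * ℓ ^ N)) = H1 * (400 * L ^ 2 * ℓ ^ (N + 1)) := by ring
        _ ≤ X / L ^ A1 * (400 * L ^ 2 * (3 * L) ^ (N + 1)) := by
            refine mul_le_mul hH1le ?_ (by positivity) (by positivity)
            exact mul_le_mul_of_nonneg_left (pow_le_pow_left₀ hℓ0 hℓ1 _) (by positivity)
        _ = X / L ^ A1 * (400 * K3 * L ^ (N + 3)) := by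
            rw [hK3]
            ring
    have c2 : L ^ (A + (N + 4)) ≤ L ^ A1 := pow_le_pow_right₀ (by linarith) hA1
    have c3 : X / L ^ A1 * (400 * K3 * L ^ (N + 3)) ≤ X / L ^ A / 4 := by
      calc X / L ^ A1 * (400 * K3 * L ^ (N + 3)) ≤
          X / L ^ (A + (N + 4)) * (400 * K3 * L ^ (N + 3)) :=
            mul_le_mul_of_nonneg_right
              (div_le_div_of_nonneg_left hx0.le (by positivity) c2) (by positivity)
        _ = X / L ^ A * ((400 * K3) / L) := by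
            rw [pow_add, show N + 4 = (N + 3) + 1 from rfl, pow_succ L (N + 3)]
            field_simp
        _ ≤ X / L ^ A * (1 / 4) := by
            refine mul_le_mul_of_nonneg_left ?_ (by positivity)
            rw [div_le_div_iff₀ hL0 (by norm_num)]
            linarith
        _ = X / L ^ A / 4 := by ring
    have := hTsum.trans (c1.trans c3)
    linarith
  have hRfin : 2 * (X * R ^ 2) ≤ X / L ^ A / 2 := by
    have c1 : R ^ 2 ≤ (X : ℝ) ^ (-(1 / 2) : ℝ) := by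
      calc R ^ 2 ≤ ((X : ℝ) ^ (-(1 / 4) : ℝ)) ^ 2 := pow_le_pow_left₀ hR0 hRle 2
        _ = (X : ℝ) ^ (-(1 / 2) : ℝ) := by
            rw [← Real.rpow_natCast, ← Real.rpow_mul hx0.le]
            norm_num
    have c2 : (X : ℝ) ^ (-(1 / 2) : ℝ) ≤ 1 / (4 * L ^ A) := by
      rw [Real.rpow_neg hx0.le, inv_eq_one_div]
      exact one_div_le_one_div_of_le (by positivity) hX3
    calc 2 * (X * R ^ 2) ≤ 2 * (X * (1 / (4 * L ^ A))) := by
          have := mul_le_mul_of_nonneg_left (c1.trans c2) hx0.le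
          linarith
      _ = X / L ^ A / 2 := by field_simp; ring
  -- assembly
  calc ∑ x ∈ Ico X (2 * X), ‖W (cl d u (hi 0 k * a)) H1 x / H1 - ((Bk a d k x : ℝ) : ℂ)‖ ^ 2 ≤
      ∑ x ∈ Ico X (2 * X), (2 * T x ^ 2 + 2 * R ^ 2) := by
        refine sum_le_sum fun x hx => ?_
        have h1 := Lon_pt d u H1 k X x a Q hd hu hkone hH1one hHX hx haQ
        have h2 : ‖W (cl d u (hi 0 k * a)) H1 x / H1 - ((Bk a d k x : ℝ) : ℂ)‖ ^ 2 ≤
            (T x + R) ^ 2 := pow_le_pow_left₀ (norm_nonneg _) h1 2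
        nlinarith [sq_nonneg (T x - R)]
    _ = 2 * ∑ x ∈ Ico X (2 * X), T x ^ 2 + 2 * (X * R ^ 2) := by
        rw [sum_add_distrib, ← mul_sum, sum_const, nsmul_eq_mul, Nat.card_Ico]
        have : 2 * X - X = X := by omega
        rw [this]
        ring
    _ ≤ X / L ^ A := by linarith

end Pool.Agent.H88.PSI
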