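import Pool.Agent.H88.PSI.Hux
import Pool.Agent.H88.PSI.Mvt
import Pool.Agent.H88.PSI.Pw

/-!
# PSI Lvk: large values of powers

`b = g^k` (`dp_pow` with the bound `2 N`; `M = (2 N)^k ≤ X`), `|b(n)| ≤ (2 L)^k tau(n)^k` (`prod_bd` with the constant family, `∏ i : Fin k, g = g^k`), so
`SS b M ≤ M X^(e1/8)` (`tau_eps`).  `mvt`: `V^(2k) |B| ≤ (2 T + 4 M (1 + log M)) SS`; `huxley` with `V^k`.  Constants `2^(4k)`, `L^6` are
absorbed in `X^e1`.
-/

set_option autoImplicit false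

namespace Pool.Agent.H88.PSI

open Finset MeasureTheory

private theorem Lvk_log (n : ℕ) (A δ : ℝ) (hδ : 0 < δ) :
    ∃ X0 : ℕ, ∀ X : ℕ, X0 ≤ X → A * Real.log X ^ n ≤ (X : ℝ) ^ δ := by
  have h1 := (isLittleO_log_rpow_rpow_atTop (n : ℝ) hδ).comp_tendsto tendsto_natCast_atTop_atTop
  have hc : 0 < 1 / (|A| + 1) := by positivity
  have h2 := h1.def hc
  rw [Filter.eventually_atTop] at h2
  obtain ⟨X0, hX0⟩ := h2
  refine ⟨X0, fun X hX => ?_⟩
  have h3 := hX0 X hX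
  simp only [Function.comp_apply, Real.rpow_natCast] at h3
  have h4 : (0 : ℝ) ≤ (X : ℝ) ^ δ := by positivity
  rw [Real.norm_of_nonneg h4, Real.norm_eq_abs] at h3
  have h5 : A * Real.log X ^ n ≤ |A| * |Real.log X ^ n| := by
    rw [← abs_mul]
    exact le_abs_self _
  have h6 : |A| * |Real.log X ^ n| ≤ |A| * (1 / (|A| + 1) * (X : ℝ) ^ δ) :=
    mul_le_mul_of_nonneg_left h3 (abs_nonneg _)
  have h7 : |A| * (1 / (|A| + 1) * (X : ℝ) ^ δ) = |A| / (|A| + 1) * (X : ℝ) ^ δ := by ring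
  have h8 : |A| / (|A| + 1) ≤ 1 := by
    rw [div_le_one (by positivity)]
    linarith
  have h9 : |A| / (|A| + 1) * (X : ℝ) ^ δ ≤ 1 * (X : ℝ) ^ δ := mul_le_mul_of_nonneg_right h8 h4
  linarith

/-- the second moment of the coefficients -/
private theorem Lvk_SS (k : ℕ) (e1 : ℝ) (hk : 1 ≤ k) (he1 : 0 < e1) : ∃ X0 : ℕ, ∀ X : ℕ, X0 ≤ X →
    ∀ (M : ℕ) (g : ArithmeticFunction ℂ), M ≤ X → (∀ n, ‖g n‖ ≤ 2 * Real.log X) →
      SS (⇑(g ^ k)) M ≤ M * (X : ℝ) ^ (e1 / 16) := by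
  have hk0 : (0 : ℝ) < k := by exact_mod_cast hk
  have he : 0 < e1 / (64 * k) := by positivity
  obtain ⟨C1, hC1, htau⟩ := tau_eps (e1 / (64 * k)) he
  obtain ⟨X1, hX1⟩ := Lvk_log (2 * k) ((4 * C1) ^ (2 * k) * 2 ^ (2 * k)) (e1 / 32) (by positivity)
  refine ⟨max 3 X1, fun X hX M g hM hg => ?_⟩
  have hX3 : 3 ≤ X := (le_max_left _ _).trans hX
  have hX3' : (3 : ℝ) ≤ X := by exact_mod_cast hX3
  have hXpos : (0 : ℝ) < X := by linarith
  have hL : 1 ≤ Real.log X := by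
    rw [Real.le_log_iff_exp_le hXpos]
    have := Real.exp_one_lt_d9
    linarith
  have h1 := hX1 X ((le_max_right _ _).trans hX)
  have hprod : ∀ n, ‖(g ^ k) n‖ ≤ (2 * Real.log X) ^ k * tau n ^ k := by
    intro n
    have h2 := prod_bd (fun _ : Fin k => g) (2 * Real.log X) (by linarith) (fun _ n => hg n) n
    rwa [prod_const, card_univ, Fintype.card_fin] at h2
  have hterm : ∀ n ∈ Icc 1 M, ‖(g ^ k) n‖ ^ 2 ≤ (X : ℝ) ^ (e1 / 16) := by
    intro n hn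
    rw [mem_Icc] at hn
    have hn1 : (1 : ℝ) ≤ n := by exact_mod_cast hn.1
    have hnX : (n : ℝ) ≤ X := by exact_mod_cast hn.2.trans hM
    set e := e1 / (64 * k) with hedef
    have hXe : 1 ≤ (X : ℝ) ^ e := Real.one_le_rpow (by linarith) he.le
    have hne : (n : ℝ) ^ e ≤ (X : ℝ) ^ e := Real.rpow_le_rpow (by linarith) hnX he.le
    have htn : tau n ≤ 2 * C1 * (X : ℝ) ^ e := by
      have h3 := htau n
      nlinarith
    have htn0 : 0 ≤ tau n := by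
      unfold tau
      positivity
    have h4 : tau n ^ k ≤ (2 * C1 * (X : ℝ) ^ e) ^ k := pow_le_pow_left₀ htn0 htn k
    have h5 : ‖(g ^ k) n‖ ≤ (2 * Real.log X) ^ k * (2 * C1 * (X : ℝ) ^ e) ^ k :=
      (hprod n).trans (mul_le_mul_of_nonneg_left h4 (by positivity))
    have h6 : ‖(g ^ k) n‖ ^ 2 ≤ ((2 * Real.log X) ^ k * (2 * C1 * (X : ℝ) ^ e) ^ k) ^ 2 :=
      pow_le_pow_left₀ (norm_nonneg _) h5 2
    have h7 : ((2 * Real.log X) ^ k * (2 * C1 * (X : ℝ) ^ e) ^ k) ^ 2 =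
        ((4 * C1) ^ (2 * k) * Real.log X ^ (2 * k)) * ((X : ℝ) ^ e) ^ (2 * k) := by
      rw [← mul_pow, ← mul_pow, ← mul_pow, ← pow_mul, mul_comm k 2]
      congr 1
      ring
    have h8 : ((X : ℝ) ^ e) ^ (2 * k) = (X : ℝ) ^ (e1 / 32) := by
      rw [← Real.rpow_natCast, ← Real.rpow_mul hXpos.le]
      congr 1
      rw [hedef]
      push_cast
      field_simp
      ring
    have h9 : (4 * C1) ^ (2 * k) * Real.log X ^ (2 * k) ≤ (X : ℝ) ^ (e1 / 32) := by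
      refine le_trans ?_ h1
      have h10 : (1 : ℝ) ≤ 2 ^ (2 * k) := one_le_pow₀ (by norm_num)
      have h11 : 0 ≤ (4 * C1) ^ (2 * k) := by positivity
      have h12 : (4 * C1) ^ (2 * k) ≤ (4 * C1) ^ (2 * k) * 2 ^ (2 * k) := by nlinarith
      exact mul_le_mul_of_nonneg_right h12 (by positivity)
    have h13 : (X : ℝ) ^ (e1 / 32) * (X : ℝ) ^ (e1 / 32) = (X : ℝ) ^ (e1 / 16) := by
      rw [← Real.rpow_add hXpos]
      congr 1
      ring
    calc ‖(g ^ k) n‖ ^ 2 ≤ ((4 * C1) ^ (2 * k) * Real.log X ^ (2 * k)) * ((X : ℝ) ^ e) ^ (2 * k) := by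
          rw [← h7]
          exact h6
      _ ≤ (X : ℝ) ^ (e1 / 32) * (X : ℝ) ^ (e1 / 32) := by
          rw [h8]
          exact mul_le_mul_of_nonneg_right h9 (by positivity)
      _ = _ := h13
  unfold SS
  refine (sum_le_sum hterm).trans (le_of_eq ?_)
  rw [sum_const, Nat.card_Icc, nsmul_eq_mul]
  congr 2

theorem lvk (k : ℕ) (e1 : ℝ) (hk : 1 ≤ k) (he1 : 0 < e1) : ∃ X0 : ℕ, ∀ X : ℕ, X0 ≤ X →
    ∀ (N : ℕ) (g : ArithmeticFunction ℂ) (V T : ℝ) (B : Set ℝ), 1 ≤ N → (2 * N) ^ k ≤ X →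
    (∀ n, g n ≠ 0 → n ≤ 2 * N) → (∀ n, ‖g n‖ ≤ 2 * Real.log X) → 0 < V → 1 ≤ T → T ≤ X →
    MeasurableSet B → B ⊆ Set.Icc (-T) T → (∀ t ∈ B, V ≤ ‖DP g (2 * N) t‖) →
    volume.real B ≤ (X : ℝ) ^ e1 * ((N : ℝ) ^ (2 * k) / V ^ (2 * k) +
      min (T * (N : ℝ) ^ k / V ^ (2 * k)) (T * (N : ℝ) ^ (4 * k) / V ^ (6 * k))) := by
  obtain ⟨C0, hC0, hux⟩ := huxley
  obtain ⟨X1, hX1⟩ := Lvk_SS k e1 hk he1
  obtain ⟨X2, hX2⟩ := Lvk_log 1 (8 * 4 ^ k) (e1 / 16) (by positivity)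
  obtain ⟨X3, hX3⟩ := Lvk_log 6 (C0 * 16 ^ k) (e1 / 16) (by positivity)
  refine ⟨max (max 3 X1) (max X2 X3), fun X hX N g V T B hN hNX hsupp hg hV hT hTX hBm hB hBV => ?_⟩
  have hX3a : 3 ≤ X := (le_max_left _ _).trans ((le_max_left _ _).trans hX)
  have hX1a : X1 ≤ X := (le_max_right _ _).trans ((le_max_left _ _).trans hX)
  have hX2a : X2 ≤ X := (le_max_left _ _).trans ((le_max_right _ _).trans hX)
  have hX3b : X3 ≤ X := (le_max_right _ _).trans ((le_max_right _ _).trans hX)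
  have hX3' : (3 : ℝ) ≤ X := by exact_mod_cast hX3a
  have hXpos : (0 : ℝ) < X := by linarith
  have hL : 1 ≤ Real.log X := by
    rw [Real.le_log_iff_exp_le hXpos]
    have := Real.exp_one_lt_d9
    linarith
  have h2 := hX2 X hX2a
  have h3 := hX3 X hX3b
  rw [pow_one] at h2
  set Y : ℝ := (X : ℝ) ^ (e1 / 16) with hY
  have hY1 : 1 ≤ Y := Real.one_le_rpow (by linarith) (by positivity)
  have hY0 : 0 < Y := by linarith
  have hY16 : Y ^ 16 = (X : ℝ) ^ e1 := by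
    rw [hY, ← Real.rpow_natCast, ← Real.rpow_mul hXpos.le]
    congr 1
    push_cast
    ring
  set M : ℕ := (2 * N) ^ k with hM
  have hM1 : 1 ≤ M := Nat.one_le_pow _ _ (by omega)
  have hMR : (M : ℝ) = 2 ^ k * (N : ℝ) ^ k := by
    rw [hM]
    push_cast
    rw [mul_pow]
  have hS := hX1 X hX1a M g hNX hg
  set S := SS (⇑(g ^ k)) M with hSdef
  have hS0 : 0 ≤ S := by
    rw [hSdef]
    unfold SS
    exact sum_nonneg fun n _ => by positivity
  have hDP : ∀ t, DP (⇑(g ^ k)) M t = DP g (2 * N) t ^ k := fun t => dp_pow g (2 * N) k hsupp t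
  have hVt : ∀ t ∈ B, V ^ k ≤ ‖DP (⇑(g ^ k)) M t‖ := by
    intro t ht
    rw [hDP, norm_pow]
    exact pow_le_pow_left₀ hV.le (hBV t ht) k
  have hNR : (1 : ℝ) ≤ N := by exact_mod_cast hN
  have hlogM : Real.log M ≤ Real.log X :=
    Real.log_le_log (by exact_mod_cast hM1) (by exact_mod_cast hNX)
  -- the mean value theorem
  have b1 : volume.real B ≤ (X : ℝ) ^ e1 * ((N : ℝ) ^ (2 * k) / V ^ (2 * k) +
      T * (N : ℝ) ^ k / V ^ (2 * k)) := by
    have hm := mvt (⇑(g ^ k)) M T hM1 (by linarith)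
    have hcont : Continuous fun t => ‖DP (⇑(g ^ k)) M t‖ ^ 2 := (dp_cont _ M).norm.pow 2
    have hint : IntegrableOn (fun t => ‖DP (⇑(g ^ k)) M t‖ ^ 2) (Set.Icc (-T) T) :=
      hcont.continuousOn.integrableOn_Icc
    have hfin : volume B ≠ ⊤ :=
      ne_top_of_le_ne_top (by rw [Real.volume_Icc]; exact ENNReal.ofReal_ne_top) (measure_mono hB)
    have e1' : volume.real B * V ^ (2 * k) ≤ ∫ t in B, ‖DP (⇑(g ^ k)) M t‖ ^ 2 := by
      have h4 : ∫ t in B, (V ^ (2 * k) : ℝ) = volume.real B * V ^ (2 * k) := by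
        rw [setIntegral_const, smul_eq_mul]
      rw [← h4]
      refine setIntegral_mono_on (integrableOn_const hfin) (hint.mono_set hB) hBm fun t ht => ?_
      have h5 := pow_le_pow_left₀ (by positivity) (hVt t ht) 2
      rwa [← pow_mul, mul_comm k 2] at h5
    have e2 : ∫ t in B, ‖DP (⇑(g ^ k)) M t‖ ^ 2 ≤
        ∫ t in Set.Icc (-T) T, ‖DP (⇑(g ^ k)) M t‖ ^ 2 :=
      setIntegral_mono_set hint (Filter.Eventually.of_forall fun t => by positivity)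
        hB.eventuallyLE
    have e3 : volume.real B * V ^ (2 * k) ≤ (2 * T + 4 * M * (1 + Real.log M)) * S :=
      e1'.trans (e2.trans hm)
    have e4 : (2 * T + 4 * M * (1 + Real.log M)) * S ≤
        (2 * T + 4 * M * (2 * Real.log X)) * (M * Y) := by
      refine mul_le_mul ?_ hS hS0 (by positivity)
      have h6 : (M : ℝ) * (1 + Real.log M) ≤ M * (2 * Real.log X) :=
        mul_le_mul_of_nonneg_left (by linarith) (by positivity)
      linarith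
    have e5 : (2 * T + 4 * M * (2 * Real.log X)) * (M * Y) ≤
        Y ^ 16 * ((N : ℝ) ^ (2 * k) + T * (N : ℝ) ^ k) := by
      rw [hMR]
      have a1 : (2 : ℝ) * 2 ^ k ≤ 8 * 4 ^ k * Real.log X := by
        have a2 : (2 : ℝ) ^ k ≤ 4 ^ k := pow_le_pow_left₀ (by norm_num) (by norm_num) k
        have a3 : (0 : ℝ) < 4 ^ k := by positivity
        nlinarith
      have a4 : (2 : ℝ) * 2 ^ k ≤ Y := a1.trans h2
      have a5 : Y * Y ≤ Y ^ 16 := by
        rw [← pow_two]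
        exact pow_le_pow_right₀ hY1 (by norm_num)
      have a6 : (4 : ℝ) ^ k = 2 ^ k * 2 ^ k := by
        rw [← mul_pow]
        norm_num
      have a7 : (N : ℝ) ^ (2 * k) = (N : ℝ) ^ k * (N : ℝ) ^ k := by
        rw [two_mul, pow_add]
      have a8 : 8 * (2 ^ k * 2 ^ k) * Real.log X ≤ Y := by
        rw [← a6]
        exact h2
      have p1 : 0 ≤ T * (N : ℝ) ^ k * Y := by positivity
      have p2 : 0 ≤ (N : ℝ) ^ k * (N : ℝ) ^ k * Y := by positivity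
      calc (2 * T + 4 * (2 ^ k * (N : ℝ) ^ k) * (2 * Real.log X)) * (2 ^ k * (N : ℝ) ^ k * Y) =
          (2 * 2 ^ k) * (T * (N : ℝ) ^ k * Y) +
            (8 * (2 ^ k * 2 ^ k) * Real.log X) * ((N : ℝ) ^ k * (N : ℝ) ^ k * Y) := by ring
        _ ≤ Y * (T * (N : ℝ) ^ k * Y) + Y * ((N : ℝ) ^ k * (N : ℝ) ^ k * Y) :=
            add_le_add (mul_le_mul_of_nonneg_right a4 p1) (mul_le_mul_of_nonneg_right a8 p2)
        _ = (Y * Y) * ((N : ℝ) ^ (2 * k) + T * (N : ℝ) ^ k) := by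
            rw [a7]
            ring
        _ ≤ Y ^ 16 * ((N : ℝ) ^ (2 * k) + T * (N : ℝ) ^ k) :=
            mul_le_mul_of_nonneg_right a5 (by positivity)
    rw [← hY16, ← add_div, mul_div_assoc', le_div_iff₀ (by positivity)]
    exact e3.trans (e4.trans e5)
  -- Huxley
  have b2 : volume.real B ≤ (X : ℝ) ^ e1 * ((N : ℝ) ^ (2 * k) / V ^ (2 * k) +
      T * (N : ℝ) ^ (4 * k) / V ^ (6 * k)) := by
    have hh := hux X M (⇑(g ^ k)) (V ^ k) T B hX3a hM1 hNX (by positivity) hT hTX hBm hB hVt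
    rw [← hSdef, ← pow_mul, ← pow_mul, mul_comm k 2, mul_comm k 6] at hh
    refine hh.trans ?_
    have a1 : M * S ≤ 16 ^ k * Y ^ 3 * (N : ℝ) ^ (2 * k) := by
      have c1 : M * S ≤ M * (M * Y) := mul_le_mul_of_nonneg_left hS (by positivity)
      have c2 : (M : ℝ) * (M * Y) = 4 ^ k * Y * (N : ℝ) ^ (2 * k) := by
        have c3 : (4 : ℝ) ^ k = 2 ^ k * 2 ^ k := by
          rw [← mul_pow]
          norm_num
        rw [hMR, c3, two_mul, pow_add]
        ring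
      have c4 : (4 : ℝ) ^ k ≤ 16 ^ k := pow_le_pow_left₀ (by norm_num) (by norm_num) k
      have c5 : Y ≤ Y ^ 3 := le_self_pow₀ hY1 (by norm_num)
      have c6 : (4 : ℝ) ^ k * Y ≤ 16 ^ k * Y ^ 3 := mul_le_mul c4 c5 hY0.le (by positivity)
      have c7 : 4 ^ k * Y * (N : ℝ) ^ (2 * k) ≤ 16 ^ k * Y ^ 3 * (N : ℝ) ^ (2 * k) :=
        mul_le_mul_of_nonneg_right c6 (by positivity)
      linarith
    have a2 : M * S ^ 3 ≤ 16 ^ k * Y ^ 3 * (N : ℝ) ^ (4 * k) := by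
      have c1 : S ^ 3 ≤ (M * Y) ^ 3 := pow_le_pow_left₀ hS0 hS 3
      have c2 : (M : ℝ) * S ^ 3 ≤ M * (M * Y) ^ 3 := mul_le_mul_of_nonneg_left c1 (by positivity)
      have c3 : (M : ℝ) * (M * Y) ^ 3 = 16 ^ k * Y ^ 3 * (N : ℝ) ^ (4 * k) := by
        have c4 : (16 : ℝ) ^ k = (2 ^ k) ^ 4 := by
          rw [← pow_mul, mul_comm, pow_mul]
          norm_num
        have c5 : (N : ℝ) ^ (4 * k) = ((N : ℝ) ^ k) ^ 4 := by
          rw [← pow_mul, mul_comm]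
        rw [hMR, c4, c5]
        ring
      linarith
    have p1 : 0 < V ^ (2 * k) := by positivity
    have p2 : 0 < V ^ (6 * k) := by positivity
    have a3 : M * S / V ^ (2 * k) ≤ 16 ^ k * Y ^ 3 * ((N : ℝ) ^ (2 * k) / V ^ (2 * k)) := by
      rw [mul_div_assoc']
      exact div_le_div_of_nonneg_right a1 p1.le
    have a4 : T * M * S ^ 3 / V ^ (6 * k) ≤
        16 ^ k * Y ^ 3 * (T * (N : ℝ) ^ (4 * k) / V ^ (6 * k)) := by
      rw [mul_div_assoc']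
      refine div_le_div_of_nonneg_right ?_ p2.le
      have := mul_le_mul_of_nonneg_left a2 (by linarith : (0 : ℝ) ≤ T)
      linarith
    have p3 : 0 ≤ (N : ℝ) ^ (2 * k) / V ^ (2 * k) + T * (N : ℝ) ^ (4 * k) / V ^ (6 * k) := by
      positivity
    calc C0 * Real.log X ^ 6 * (M * S / V ^ (2 * k) + T * M * S ^ 3 / V ^ (6 * k)) ≤
        C0 * Real.log X ^ 6 * (16 ^ k * Y ^ 3 * ((N : ℝ) ^ (2 * k) / V ^ (2 * k)) +
          16 ^ k * Y ^ 3 * (T * (N : ℝ) ^ (4 * k) / V ^ (6 * k))) :=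
          mul_le_mul_of_nonneg_left (add_le_add a3 a4) (by positivity)
      _ = (C0 * 16 ^ k * Real.log X ^ 6) * Y ^ 3 * ((N : ℝ) ^ (2 * k) / V ^ (2 * k) +
          T * (N : ℝ) ^ (4 * k) / V ^ (6 * k)) := by ring
      _ ≤ Y * Y ^ 3 * ((N : ℝ) ^ (2 * k) / V ^ (2 * k) +
          T * (N : ℝ) ^ (4 * k) / V ^ (6 * k)) :=
          mul_le_mul_of_nonneg_right (mul_le_mul_of_nonneg_right h3 (by positivity)) p3
      _ ≤ Y ^ 16 * ((N : ℝ) ^ (2 * k) / V ^ (2 * k) +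
          T * (N : ℝ) ^ (4 * k) / V ^ (6 * k)) := by
          refine mul_le_mul_of_nonneg_right ?_ p3
          rw [← pow_succ']
          exact pow_le_pow_right₀ hY1 (by norm_num)
      _ = _ := by rw [hY16]
  rcases min_choice (T * (N : ℝ) ^ k / V ^ (2 * k)) (T * (N : ℝ) ^ (4 * k) / V ^ (6 * k)) with
    h | h
  · rw [h]
    exact b1
  · rw [h]
    exact b2

end Pool.Agent.H88.PSI
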