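import Pool.Agent.H88.PSI.Tmax
import Pool.Agent.H88.PSI.Edg
import Pool.Agent.H88.PSI.Pw

/-!
# PSI Sho: short windows, type I

`Q = X^(1/1000)` bounds `20 L tau(m)^5` for `m ≤ 3X` (`tau_eps`).  `M = 2X/k ≤ 4 X^(13/24)`, `ti_max` with `M' x = x/k` (for `x < 2X`; `min (x/k) M`), `r = 2 ⌈L⌉`-ish:
`≤ L^C d^2 (16 X^(13/12) + X) Q^2 H`, divided by `H^2`: `≤ X^(11/12 + 1/100)`.  Edge (`ti_edge`): the zone has at most `H/k + 1 ≤ 2` elements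
(`H ≤ X^(1/3) ≤ k`): `(∑_zone |a m| (1/m + 1/H))^2 ≤ 4 ∑_zone Q^2/m^2 + 8 Q^2/H^2`, `zone_sum` with `b m = 1/m^2`: total `≤ 8 Q^2 H + 8 X Q^2/H^2`.
-/

set_option autoImplicit false

namespace Pool.Agent.H88.PSI

open Finset

/-- powers of logarithms are small -/
private theorem Sho_log (s C : ℝ) (hs : 0 < s) (hC : 0 < C) (c : ℕ) :
    ∀ᶠ x : ℕ in Filter.atTop, C * Real.log x ^ c ≤ (x : ℝ) ^ s := by
  have h1 := (isLittleO_log_rpow_rpow_atTop (c : ℝ) hs).bound (c := 1 / C) (by positivity)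
  have h2 := h1.and (Filter.eventually_ge_atTop (1 : ℝ))
  filter_upwards [(tendsto_natCast_atTop_atTop (R := ℝ)).eventually h2] with x hx
  obtain ⟨h4, h5⟩ := hx
  have hl : 0 ≤ Real.log x := Real.log_nonneg h5
  rw [Real.rpow_natCast, Real.norm_of_nonneg (by positivity),
    Real.norm_of_nonneg (by positivity)] at h4
  calc C * Real.log x ^ c ≤ C * (1 / C * (x : ℝ) ^ s) := mul_le_mul_of_nonneg_left h4 hC.le
    _ = (x : ℝ) ^ s := by field_simp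

private theorem Sho_inv_sq (N : ℕ) : ∑ m ∈ Icc 1 N, 1 / (m : ℝ) ^ 2 ≤ 2 := by
  have h := sum_Ioo_inv_sq_le (α := ℝ) 0 (N + 1)
  have e : Ioo 0 (N + 1) = Icc 1 N := by
    ext m
    simp only [mem_Ioo, mem_Icc]
    omega
  rw [e] at h
  have e2 : ∑ m ∈ Icc 1 N, 1 / (m : ℝ) ^ 2 = ∑ m ∈ Icc 1 N, ((m : ℝ) ^ 2)⁻¹ :=
    sum_congr rfl fun m _ => one_div _
  rw [e2]
  refine h.trans ?_
  norm_num

/-- the edge term at one point -/
private theorem Sho_pt {a : ArithmeticFunction ℝ} {d u H k x N : ℕ} {Q : ℝ} (hd : 1 ≤ d)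
    (hk : 1 ≤ k) (hu : Nat.Coprime u d) (hH : 1 ≤ H) (hHk : H ≤ k)
    (hxN : x + H ≤ N) (hQ : ∀ m ≤ N, |a m| ≤ Q) :
    ‖W (cl d u (hi 0 k * a)) H x / H - ((Bk a d k x : ℝ) : ℂ)‖ ^ 2 ≤
      4 * Q ^ 2 * ∑ m ∈ Ioc (x / k) ((x + H) / k), 1 / (m : ℝ) ^ 2 + 4 * Q ^ 2 / (H : ℝ) ^ 2 +
        2 / (H : ℝ) ^ 2 *
          (∑ m ∈ (Icc 1 (x / k)).filter (fun m => Nat.Coprime m d), a m * em d u H m x) ^ 2 := by
  have hH0 : (0 : ℝ) < H := by exact_mod_cast hH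
  obtain ⟨S, hS⟩ : ∃ S : ℝ, S = ∑ m ∈ (Icc 1 (x / k)).filter (fun m => Nat.Coprime m d),
    a m * cnt d u H m x := ⟨_, rfl⟩
  obtain ⟨R, hR⟩ : ∃ R : ℝ, R = ∑ m ∈ (Icc 1 (x / k)).filter (fun m => Nat.Coprime m d),
    a m * em d u H m x := ⟨_, rfl⟩
  obtain ⟨G, hG⟩ : ∃ G : ℂ, G = W (cl d u (hi 0 k * a)) H x := ⟨_, rfl⟩
  have h1 := ti_edge a d u H k x hd hk hu
  have h2 := bk_eq a d u H k x hH
  rw [← hS, ← hG] at h1
  rw [← hS, ← hR] at h2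
  rw [← hG, ← hR]
  have e1 : G / H - ((Bk a d k x : ℝ) : ℂ) = (G - (S : ℂ)) / H + ((R / H : ℝ) : ℂ) := by
    rw [← h2]
    push_cast
    ring
  obtain ⟨E, hE⟩ : ∃ E : ℝ, E = ‖G - (S : ℂ)‖ := ⟨_, rfl⟩
  rw [← hE] at h1
  have hE0 : 0 ≤ E := by
    rw [hE]
    exact norm_nonneg _
  have h3 : ‖G / H - ((Bk a d k x : ℝ) : ℂ)‖ ≤ E / H + |R| / H := by
    rw [e1]
    refine (norm_add_le _ _).trans ?_
    rw [norm_div, Complex.norm_natCast, ← hE, Complex.norm_real, Real.norm_eq_abs, abs_div,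
      abs_of_pos hH0]
  have hcard : (Ioc (x / k) ((x + H) / k)).card ≤ 1 := by
    rw [Nat.card_Ioc]
    have h4 : (x + H) / k ≤ (x + k) / k := Nat.div_le_div_right (by omega)
    rw [Nat.add_div_right x (by omega)] at h4
    omega
  have hcard' : ((Ioc (x / k) ((x + H) / k)).card : ℝ) ≤ 1 := by exact_mod_cast hcard
  have h5 : (E / H) ^ 2 ≤ Q ^ 2 * (2 * ∑ m ∈ Ioc (x / k) ((x + H) / k), 1 / (m : ℝ) ^ 2 +
      2 / (H : ℝ) ^ 2) := by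
    have h6 : E / H ≤ ∑ m ∈ Ioc (x / k) ((x + H) / k), |a m| * (1 / m + 1 / H) := by
      rw [div_le_iff₀ hH0, sum_mul]
      refine h1.trans (le_of_eq (sum_congr rfl fun m _ => ?_))
      field_simp
    have h7 := pow_le_pow_left₀ (by positivity) h6 2
    refine h7.trans (sq_sum_le_card_mul_sum_sq.trans ?_)
    have h8 : ∀ m ∈ Ioc (x / k) ((x + H) / k), (|a m| * (1 / (m : ℝ) + 1 / H)) ^ 2 ≤
        Q ^ 2 * (2 * (1 / (m : ℝ) ^ 2) + 2 / (H : ℝ) ^ 2) := by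
      intro m hm
      have hm' := mem_Ioc.1 hm
      have hmN : m ≤ N := by
        have := Nat.div_le_self (x + H) k
        omega
      rw [mul_pow]
      refine mul_le_mul (pow_le_pow_left₀ (abs_nonneg _) (hQ m hmN) 2) ?_ (sq_nonneg _)
        (sq_nonneg _)
      have h9 : (1 / (m : ℝ) + 1 / H) ^ 2 ≤ 2 * (1 / (m : ℝ)) ^ 2 + 2 * (1 / (H : ℝ)) ^ 2 := by
        nlinarith [sq_nonneg (1 / (m : ℝ) - 1 / H)]
      refine h9.trans (le_of_eq ?_)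
      rw [one_div_pow, one_div_pow]
      ring
    have h10 : 0 ≤ ∑ m ∈ Ioc (x / k) ((x + H) / k), (|a m| * (1 / (m : ℝ) + 1 / H)) ^ 2 :=
      sum_nonneg fun _ _ => sq_nonneg _
    refine (mul_le_of_le_one_left h10 hcard').trans ((sum_le_sum h8).trans ?_)
    rw [← mul_sum, sum_add_distrib, ← mul_sum, sum_const, nsmul_eq_mul]
    refine mul_le_mul_of_nonneg_left ?_ (sq_nonneg Q)
    have h11 := mul_le_mul_of_nonneg_right hcard' (by positivity : 0 ≤ 2 / (H : ℝ) ^ 2)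
    linarith
  have h6 := pow_le_pow_left₀ (norm_nonneg _) h3 2
  refine h6.trans ?_
  have h7 : (E / H + |R| / H) ^ 2 ≤ 2 * (E / H) ^ 2 + 2 * (|R| / H) ^ 2 := by
    nlinarith [sq_nonneg (E / H - |R| / H)]
  refine h7.trans ?_
  have h8 : 2 * (|R| / H) ^ 2 = 2 / (H : ℝ) ^ 2 * R ^ 2 := by
    rw [div_pow, sq_abs]
    ring
  rw [h8]
  have h9 : Q ^ 2 * (2 * ∑ m ∈ Ioc (x / k) ((x + H) / k), 1 / (m : ℝ) ^ 2 +
      2 / (H : ℝ) ^ 2) * 2 = 4 * Q ^ 2 * ∑ m ∈ Ioc (x / k) ((x + H) / k), 1 / (m : ℝ) ^ 2 +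
      4 * Q ^ 2 / (H : ℝ) ^ 2 := by ring
  linarith

theorem ti_short (B : ℕ) : ∃ X0 : ℕ, ∀ X : ℕ, X0 ≤ X →
    ∀ (d u H k : ℕ) (a : ArithmeticFunction ℝ), 1 ≤ d → (d : ℝ) ≤ Real.log X ^ B → Nat.Coprime u d →
    (X : ℝ) ^ (1 / 6 : ℝ) ≤ H → (H : ℝ) ≤ (X : ℝ) ^ (1 / 3 : ℝ) →
    (X : ℝ) ^ (11 / 24 : ℝ) / 2 ≤ k → (∀ m, |a m| ≤ 20 * Real.log X * tau m ^ 5) →
    ∑ x ∈ Ico X (2 * X), ‖W (cl d u (hi 0 k * a)) H x / H - ((Bk a d k x : ℝ) : ℂ)‖ ^ 2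
      ≤ (X : ℝ) ^ (49 / 50 : ℝ) := by
  obtain ⟨C, hC, htau⟩ := tau_eps (1 / 10000) (by norm_num)
  have ev1 := Sho_log (1 / 2000) (20 * (4 * C) ^ 5) (by norm_num) (by positivity) 1
  have ev2 := Sho_log (1 / 100) 7488000 (by norm_num) (by norm_num) (2 * B + 5)
  have ev3 := Sho_log (1 / 100) 24 (by norm_num) (by norm_num) 0
  have ev4 : ∀ᶠ x : ℕ in Filter.atTop, 1 ≤ Real.log x :=
    (Real.tendsto_log_atTop.comp tendsto_natCast_atTop_atTop).eventually_ge_atTop 1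
  obtain ⟨X0, hX0⟩ := Filter.eventually_atTop.1
    (((ev1.and ev2).and (ev3.and ev4)).and (Filter.eventually_ge_atTop 3))
  refine ⟨X0, fun X hX d u H k a hd hdB hu hH6 hH3 hk ha => ?_⟩
  obtain ⟨⟨⟨f1, f2⟩, f3, f4⟩, f5⟩ := hX0 X hX
  rw [pow_one] at f1
  rw [pow_zero, mul_one] at f3
  obtain ⟨L, hL⟩ : ∃ L : ℝ, L = Real.log X := ⟨_, rfl⟩
  rw [← hL] at f1 f2 f4 hdB ha
  have hX3 : (3 : ℝ) ≤ X := by exact_mod_cast f5
  have hX1 : (1 : ℝ) ≤ X := by linarith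
  have hXpos : (0 : ℝ) < X := by linarith
  have hL0 : 0 < L := by linarith
  have hadd : ∀ s t : ℝ, (X : ℝ) ^ s * (X : ℝ) ^ t = (X : ℝ) ^ (s + t) := fun s t =>
    (Real.rpow_add hXpos s t).symm
  have hmono : ∀ s t : ℝ, s ≤ t → (X : ℝ) ^ s ≤ (X : ℝ) ^ t := fun s t h =>
    Real.rpow_le_rpow_of_exponent_le hX1 h
  have hpos : ∀ s : ℝ, 0 < (X : ℝ) ^ s := fun s => Real.rpow_pos_of_pos hXpos s
  have hone : ∀ s : ℝ, 0 ≤ s → 1 ≤ (X : ℝ) ^ s := fun s h => Real.one_le_rpow hX1 h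
  -- H and k
  have hH1 : (1 : ℝ) ≤ H := (hone (1 / 6) (by norm_num)).trans hH6
  have hH0 : (0 : ℝ) < H := by linarith
  have hH1' : 1 ≤ H := by exact_mod_cast hH1
  have hHkR : (H : ℝ) ≤ k := by
    refine hH3.trans (le_trans ?_ hk)
    rw [le_div_iff₀ (by norm_num)]
    have h1 : (X : ℝ) ^ (1 / 3 : ℝ) * (X : ℝ) ^ (1 / 8 : ℝ) = (X : ℝ) ^ (11 / 24 : ℝ) := by
      rw [hadd]
      norm_num
    rw [← h1]
    refine mul_le_mul_of_nonneg_left ?_ (hpos _).le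
    have := hmono (1 / 100) (1 / 8) (by norm_num)
    linarith
  have hHk : H ≤ k := by exact_mod_cast hHkR
  have hk1 : 1 ≤ k := hH1'.trans hHk
  have hHXR : (H : ℝ) ≤ X := by
    refine hH3.trans ?_
    have := hmono (1 / 3) 1 (by norm_num)
    rwa [Real.rpow_one] at this
  have hHX : H ≤ X := by exact_mod_cast hHXR
  -- Q
  obtain ⟨Q, hQ⟩ : ∃ Q : ℝ, Q = (X : ℝ) ^ (1 / 1000 : ℝ) := ⟨_, rfl⟩
  have hQ0 : 0 < Q := by
    rw [hQ]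
    exact hpos _
  have hQ2 : Q ^ 2 = (X : ℝ) ^ (1 / 500 : ℝ) := by
    rw [hQ, sq, hadd]
    norm_num
  have haQ : ∀ m ≤ 3 * X, |a m| ≤ Q := by
    intro m hm
    refine (ha m).trans ?_
    have hmX : (m : ℝ) ≤ 3 * X := by exact_mod_cast hm
    have ht0 : 0 ≤ tau m := by
      unfold tau
      positivity
    have h1 : tau m ≤ 4 * C * (X : ℝ) ^ (1 / 10000 : ℝ) := by
      refine (htau m).trans ?_
      have h2 : (m : ℝ) ^ (1 / 10000 : ℝ) ≤ 3 * (X : ℝ) ^ (1 / 10000 : ℝ) := by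
        calc (m : ℝ) ^ (1 / 10000 : ℝ) ≤ (3 * (X : ℝ)) ^ (1 / 10000 : ℝ) :=
              Real.rpow_le_rpow (Nat.cast_nonneg m) hmX (by norm_num)
          _ = (3 : ℝ) ^ (1 / 10000 : ℝ) * (X : ℝ) ^ (1 / 10000 : ℝ) :=
              Real.mul_rpow (by norm_num) hXpos.le
          _ ≤ 3 * (X : ℝ) ^ (1 / 10000 : ℝ) := by
              refine mul_le_mul_of_nonneg_right ?_ (hpos _).le
              have := Real.rpow_le_rpow_of_exponent_le (by norm_num : (1 : ℝ) ≤ 3)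
                (by norm_num : (1 / 10000 : ℝ) ≤ 1)
              rwa [Real.rpow_one] at this
      have h3 := hone (1 / 10000) (by norm_num)
      have h4 := mul_le_mul_of_nonneg_left h2 (by linarith : 0 ≤ C)
      have h5 := mul_le_mul_of_nonneg_left h3 (by linarith : 0 ≤ C)
      linarith
    have h2 := pow_le_pow_left₀ ht0 h1 5
    have h3 : (4 * C * (X : ℝ) ^ (1 / 10000 : ℝ)) ^ 5 = (4 * C) ^ 5 * (X : ℝ) ^ (1 / 2000 : ℝ) := by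
      rw [mul_pow, ← Real.rpow_natCast ((X : ℝ) ^ (1 / 10000 : ℝ)) 5, ← Real.rpow_mul hXpos.le]
      norm_num
    rw [h3] at h2
    calc 20 * L * tau m ^ 5 ≤ 20 * L * ((4 * C) ^ 5 * (X : ℝ) ^ (1 / 2000 : ℝ)) :=
          mul_le_mul_of_nonneg_left h2 (by positivity)
      _ = (20 * (4 * C) ^ 5 * L) * (X : ℝ) ^ (1 / 2000 : ℝ) := by ring
      _ ≤ (X : ℝ) ^ (1 / 2000 : ℝ) * (X : ℝ) ^ (1 / 2000 : ℝ) :=
          mul_le_mul_of_nonneg_right f1 (hpos _).le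
      _ = Q := by
          rw [hadd, hQ]
          norm_num
  -- M and r
  obtain ⟨M, hM⟩ : ∃ M : ℕ, M = 2 * X / k + 1 := ⟨_, rfl⟩
  have hM1 : 1 ≤ M := by
    rw [hM]
    exact Nat.le_add_left 1 _
  have hk0 : (0 : ℝ) < k := by exact_mod_cast hk1
  have hMR : (M : ℝ) ≤ 5 * (X : ℝ) ^ (13 / 24 : ℝ) := by
    have h1 : ((2 * X / k : ℕ) : ℝ) ≤ 2 * X / k := by
      have := Nat.cast_div_le (α := ℝ) (m := 2 * X) (n := k)
      push_cast at this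
      exact this
    have h2 : 2 * (X : ℝ) / k ≤ 4 * (X : ℝ) ^ (13 / 24 : ℝ) := by
      rw [div_le_iff₀ hk0]
      have h3 : (X : ℝ) ^ (13 / 24 : ℝ) * (X : ℝ) ^ (11 / 24 : ℝ) = X := by
        rw [hadd]
        norm_num
      have h4 := mul_le_mul_of_nonneg_left hk (by positivity : 0 ≤ 4 * (X : ℝ) ^ (13 / 24 : ℝ))
      have h5 : 4 * (X : ℝ) ^ (13 / 24 : ℝ) * ((X : ℝ) ^ (11 / 24 : ℝ) / 2) =
          2 * ((X : ℝ) ^ (13 / 24 : ℝ) * (X : ℝ) ^ (11 / 24 : ℝ)) := by ring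
      rw [h5, h3] at h4
      exact h4
    have h3 := hone (13 / 24) (by norm_num)
    rw [hM]
    push_cast
    linarith
  have hM1X : (M : ℝ) + 1 ≤ X := by
    have h3 := hone (13 / 24) (by norm_num)
    have h4 : (X : ℝ) ^ (13 / 24 : ℝ) * (X : ℝ) ^ (11 / 24 : ℝ) = X := by
      rw [hadd]
      norm_num
    have h5 : 24 ≤ (X : ℝ) ^ (11 / 24 : ℝ) := f3.trans (hmono _ _ (by norm_num))
    have h6 := mul_le_mul_of_nonneg_left h5 (hpos (13 / 24)).le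
    rw [h4] at h6
    linarith
  have hMX : M ≤ X := by
    have : (M : ℝ) ≤ X := by linarith
    exact_mod_cast this
  obtain ⟨r, hr⟩ : ∃ r : ℕ, r = Nat.log 2 (M + 1) + 1 := ⟨_, rfl⟩
  have hr1 : M + 1 < 2 ^ r := by
    rw [hr]
    exact Nat.lt_pow_succ_log_self (by norm_num) _
  have hr2 : (r : ℝ) ≤ 3 * L := by
    have h1 : (2 : ℕ) ^ Nat.log 2 (M + 1) ≤ M + 1 := Nat.pow_log_le_self 2 (by omega)
    have h2 : (2 : ℝ) ^ Nat.log 2 (M + 1) ≤ X := by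
      have h3 : ((2 ^ Nat.log 2 (M + 1) : ℕ) : ℝ) ≤ ((M + 1 : ℕ) : ℝ) := by exact_mod_cast h1
      push_cast at h3
      linarith
    have h3 := Real.log_le_log (by positivity) h2
    rw [Real.log_pow, ← hL] at h3
    have h4 : (1 / 2 : ℝ) ≤ Real.log 2 := by
      have := Real.log_two_gt_d9
      linarith
    have h5 : (Nat.log 2 (M + 1) : ℝ) * (1 / 2) ≤ L :=
      (mul_le_mul_of_nonneg_left h4 (Nat.cast_nonneg _)).trans h3
    rw [hr]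
    push_cast
    linarith
  have hlogM : 0 ≤ Real.log M ∧ 1 + Real.log M ≤ 2 * L := by
    have h1 : Real.log M ≤ L := by
      rw [hL]
      exact Real.log_le_log (by exact_mod_cast hM1) (by exact_mod_cast hMX)
    exact ⟨Real.log_natCast_nonneg M, by linarith⟩
  -- the error terms
  have hmax := ti_max d u H M X r hd hH1' (by omega) hM1 hr1 a Q
    (fun m hm => haQ m (by have := (mem_Icc.1 hm).2; omega)) (fun x => min (x / k) M)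
    (fun x => min_le_right _ _)
  have hmax' : ∑ x ∈ Ico X (2 * X),
      (∑ m ∈ (Icc 1 (x / k)).filter (fun m => Nat.Coprime m d), a m * em d u H m x) ^ 2 ≤
      1000 * (r : ℝ) ^ 2 * (d : ℝ) ^ 2 * ((M : ℝ) ^ 2 + X) * Q ^ 2 * (1 + Real.log M) ^ 3 * H := by
    refine le_trans (le_of_eq (sum_congr rfl fun x hx => ?_)) hmax
    have hx' := (mem_Ico.1 hx).2
    have h1 : x / k ≤ 2 * X / k := Nat.div_le_div_right (by omega)
    have h2 : min (x / k) M = x / k := by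
      refine min_eq_left ?_
      rw [hM]
      exact h1.trans (Nat.le_succ _)
    rw [h2]
  -- the sum
  have hsum : ∑ x ∈ Ico X (2 * X),
      ‖W (cl d u (hi 0 k * a)) H x / H - ((Bk a d k x : ℝ) : ℂ)‖ ^ 2 ≤
      4 * Q ^ 2 * (H * 2) + 4 * Q ^ 2 / (H : ℝ) ^ 2 * X + 2 / (H : ℝ) ^ 2 *
        (1000 * (r : ℝ) ^ 2 * (d : ℝ) ^ 2 * ((M : ℝ) ^ 2 + X) * Q ^ 2 *
          (1 + Real.log M) ^ 3 * H) := by
    refine (sum_le_sum fun x hx => Sho_pt (N := 3 * X) (Q := Q) hd hk1 hu hH1' hHk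
      (by have := (mem_Ico.1 hx).2; omega) haQ).trans ?_
    rw [sum_add_distrib, sum_add_distrib, ← mul_sum, ← mul_sum, sum_const, Nat.card_Ico,
      nsmul_eq_mul]
    have e1 : 2 * X - X = X := by omega
    rw [e1]
    have h1 := zone_sum X H k hk1 (by omega) hHX (fun m => 1 / (m : ℝ) ^ 2)
      (fun m => by positivity)
    have h2 := mul_le_mul_of_nonneg_left (Sho_inv_sq (3 * X)) hH0.le
    have h3 := mul_le_mul_of_nonneg_left (h1.trans h2) (by positivity : 0 ≤ 4 * Q ^ 2)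
    have h4 := mul_le_mul_of_nonneg_left hmax' (by positivity : 0 ≤ 2 / (H : ℝ) ^ 2)
    have h5 : (X : ℝ) * (4 * Q ^ 2 / (H : ℝ) ^ 2) = 4 * Q ^ 2 / (H : ℝ) ^ 2 * X := by ring
    rw [h5]
    exact add_le_add (add_le_add h3 le_rfl) h4
  refine hsum.trans ?_
  -- sizes
  have g1 : 4 * Q ^ 2 * (H * 2) + 4 * Q ^ 2 / (H : ℝ) ^ 2 * X ≤
      1 / 2 * (X : ℝ) ^ (49 / 50 : ℝ) := by
    have h1 : (H : ℝ) ≤ (X : ℝ) ^ (2 / 3 : ℝ) := hH3.trans (hmono _ _ (by norm_num))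
    have h2 : (X : ℝ) / (H : ℝ) ^ 2 ≤ (X : ℝ) ^ (2 / 3 : ℝ) := by
      rw [div_le_iff₀ (by positivity)]
      have h3 := pow_le_pow_left₀ (hpos _).le hH6 2
      have h4 : (X : ℝ) ^ (2 / 3 : ℝ) * ((X : ℝ) ^ (1 / 6 : ℝ)) ^ 2 = X := by
        rw [sq, hadd, hadd]
        norm_num
      calc (X : ℝ) = (X : ℝ) ^ (2 / 3 : ℝ) * ((X : ℝ) ^ (1 / 6 : ℝ)) ^ 2 := h4.symm
        _ ≤ _ := mul_le_mul_of_nonneg_left h3 (hpos _).le
    have h5 : 4 * Q ^ 2 * (H * 2) + 4 * Q ^ 2 / (H : ℝ) ^ 2 * X ≤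
        12 * (Q ^ 2 * (X : ℝ) ^ (2 / 3 : ℝ)) := by
      have h6 := mul_le_mul_of_nonneg_left h1 (by positivity : 0 ≤ 8 * Q ^ 2)
      have h7 := mul_le_mul_of_nonneg_left h2 (by positivity : 0 ≤ 4 * Q ^ 2)
      have h8 : 4 * Q ^ 2 / (H : ℝ) ^ 2 * X = 4 * Q ^ 2 * (X / (H : ℝ) ^ 2) := by ring
      rw [h8]
      linarith
    refine h5.trans ?_
    rw [hQ2, hadd]
    have h9 := mul_le_mul_of_nonneg_right f3 (hpos (1 / 500 + 2 / 3)).le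
    rw [hadd] at h9
    have h10 := hmono (1 / 100 + (1 / 500 + 2 / 3)) (49 / 50) (by norm_num)
    linarith
  have g2 : 2 / (H : ℝ) ^ 2 * (1000 * (r : ℝ) ^ 2 * (d : ℝ) ^ 2 * ((M : ℝ) ^ 2 + X) * Q ^ 2 *
      (1 + Real.log M) ^ 3 * H) ≤ 1 / 2 * (X : ℝ) ^ (49 / 50 : ℝ) := by
    have e1 : 2 / (H : ℝ) ^ 2 * (1000 * (r : ℝ) ^ 2 * (d : ℝ) ^ 2 * ((M : ℝ) ^ 2 + X) * Q ^ 2 *
        (1 + Real.log M) ^ 3 * H) = 2000 * ((r : ℝ) ^ 2 * (d : ℝ) ^ 2 * (1 + Real.log M) ^ 3) *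
        (((M : ℝ) ^ 2 + X) / H) * Q ^ 2 := by
      field_simp
      ring
    have h1 : (r : ℝ) ^ 2 ≤ (3 * L) ^ 2 := pow_le_pow_left₀ (Nat.cast_nonneg r) hr2 2
    have h2 : (d : ℝ) ^ 2 ≤ (L ^ B) ^ 2 := pow_le_pow_left₀ (Nat.cast_nonneg d) hdB 2
    have h3 : (1 + Real.log M) ^ 3 ≤ (2 * L) ^ 3 :=
      pow_le_pow_left₀ (by linarith [hlogM.1]) hlogM.2 3
    have h4 : (r : ℝ) ^ 2 * (d : ℝ) ^ 2 * (1 + Real.log M) ^ 3 ≤
        (3 * L) ^ 2 * (L ^ B) ^ 2 * (2 * L) ^ 3 :=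
      mul_le_mul (mul_le_mul h1 h2 (by positivity) (by positivity)) h3
        (pow_nonneg (by linarith [hlogM.1]) 3) (by positivity)
    have h5 : (3 * L) ^ 2 * (L ^ B) ^ 2 * (2 * L) ^ 3 = 72 * L ^ (2 * B + 5) := by
      rw [pow_add, pow_mul']
      ring
    rw [h5] at h4
    have h6 : ((M : ℝ) ^ 2 + X) / H ≤ 26 * (X : ℝ) ^ (11 / 12 : ℝ) := by
      rw [div_le_iff₀ hH0]
      have h7 := pow_le_pow_left₀ (Nat.cast_nonneg M) hMR 2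
      have h8 : (5 * (X : ℝ) ^ (13 / 24 : ℝ)) ^ 2 = 25 * (X : ℝ) ^ (13 / 12 : ℝ) := by
        rw [mul_pow, sq ((X : ℝ) ^ (13 / 24 : ℝ)), hadd]
        norm_num
      rw [h8] at h7
      have h9 : (X : ℝ) ≤ (X : ℝ) ^ (13 / 12 : ℝ) := by
        have := hmono 1 (13 / 12) (by norm_num)
        rwa [Real.rpow_one] at this
      have h10 : (X : ℝ) ^ (11 / 12 : ℝ) * (X : ℝ) ^ (1 / 6 : ℝ) = (X : ℝ) ^ (13 / 12 : ℝ) := by
        rw [hadd]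
        norm_num
      have h11 := mul_le_mul_of_nonneg_left hH6 (by positivity : 0 ≤ 26 * (X : ℝ) ^ (11 / 12 : ℝ))
      have h12 : 26 * (X : ℝ) ^ (11 / 12 : ℝ) * (X : ℝ) ^ (1 / 6 : ℝ) =
          26 * ((X : ℝ) ^ (11 / 12 : ℝ) * (X : ℝ) ^ (1 / 6 : ℝ)) := by ring
      rw [h12, h10] at h11
      linarith
    have h13 : 2000 * ((r : ℝ) ^ 2 * (d : ℝ) ^ 2 * (1 + Real.log M) ^ 3) *
        (((M : ℝ) ^ 2 + X) / H) ≤ 2000 * (72 * L ^ (2 * B + 5)) *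
          (26 * (X : ℝ) ^ (11 / 12 : ℝ)) :=
      mul_le_mul (mul_le_mul_of_nonneg_left h4 (by norm_num)) h6 (by positivity) (by positivity)
    rw [e1]
    refine (mul_le_mul_of_nonneg_right h13 (sq_nonneg Q)).trans ?_
    rw [hQ2]
    have h14 : 2000 * (72 * L ^ (2 * B + 5)) * (26 * (X : ℝ) ^ (11 / 12 : ℝ)) *
        (X : ℝ) ^ (1 / 500 : ℝ) = 1 / 2 * (7488000 * L ^ (2 * B + 5)) *
          ((X : ℝ) ^ (11 / 12 : ℝ) * (X : ℝ) ^ (1 / 500 : ℝ)) := by ring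
    rw [h14, hadd]
    have h15 := mul_le_mul_of_nonneg_right f2 (hpos (11 / 12 + 1 / 500)).le
    rw [hadd] at h15
    have h16 := hmono (1 / 100 + (11 / 12 + 1 / 500)) (49 / 50) (by norm_num)
    linarith
  linarith

end Pool.Agent.H88.PSI
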