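import Pool.Agent.H88.PSI.Dls
import Pool.Agent.H88.PSI.Ems

/-!
# PSI Tls: large sieve bound for sums of `em`

`em_sum`, `|(1/d) ∑_b ·|^2 ≤ (1/d) ∑_b |·|^2`, `dual_ls` for every `b` (`Ico X (2X) = Ioc (X-1) (X-1+X)`), `dk_sum` (if `(q, d) > 1` the inner sum over
`m` is empty as `(m, d) = 1` on `S`).
-/

set_option autoImplicit false

namespace Pool.Agent.H88.PSI

open Finset

open Pool.Agent.H91.PK (ee)

private theorem Tls_norm_ee (t : ℝ) : ‖ee t‖ = 1 := by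
  unfold Pool.Agent.H91.PK.ee
  have : (2 * (Real.pi : ℂ) * (t : ℂ) * Complex.I) = ((2 * Real.pi * t : ℝ) : ℂ) * Complex.I := by
    push_cast
    ring
  rw [this, Complex.norm_exp_ofReal_mul_I]

theorem ti_ls (d u H M X : ℕ) (hd : 1 ≤ d) (hH : 1 ≤ H) (hX : 1 ≤ X) (S : Finset ℕ)
    (hS : S ⊆ Icc 1 M) (hSd : ∀ m ∈ S, Nat.Coprime m d) (a : ℕ → ℝ) :
    ∑ x ∈ Ico X (2 * X), (∑ m ∈ S, a m * em d u H m x) ^ 2
      ≤ 400 * (d : ℝ) ^ 2 * ((M : ℝ) ^ 2 + X) * ∑ q ∈ Icc 1 M,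
        (∑ m ∈ S.filter (fun m => q ∣ m), |a m| / m) ^ 2 * min ((q : ℝ) ^ 2) (q * H) := by
  have hdr : (0 : ℝ) < d := by exact_mod_cast hd
  set C : ℕ → ℕ → ℕ → ℂ := fun b q c => if q = 1 ∧ b = 0 then 0 else
            ((∑ m ∈ S.filter (fun m => q ∣ m), a m / m : ℝ) : ℂ) *
              dk H ((c : ℝ) / q + (b : ℝ) / d) with hC
  set I : ℕ → ℕ → ℂ := fun b x => ∑ q ∈ Icc 1 M, ∑ c ∈ (Icc 1 q).filter (fun c => Nat.Coprime c q),
    C b q c * ee ((x : ℝ) * c / q) with hI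
  have h1 : ∀ x : ℕ, (∑ m ∈ S, a m * em d u H m x) ^ 2 ≤ 1 / (d : ℝ) * ∑ b ∈ range d, ‖I b x‖ ^ 2 := by
    intro x
    have e1 := em_sum d u H M x hd S hS a
    have e2 : (∑ m ∈ S, a m * em d u H m x) ^ 2 = ‖((∑ m ∈ S, a m * em d u H m x : ℝ) : ℂ)‖ ^ 2 := by
      rw [Complex.norm_real, Real.norm_eq_abs, sq_abs]
    rw [e2, e1, norm_mul, mul_pow]
    have e3 : ‖(1 / (d : ℂ))‖ = 1 / (d : ℝ) := by
      rw [norm_div, norm_one, Complex.norm_natCast]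
    rw [e3]
    have e4 : ‖∑ b ∈ range d, ee (-((b : ℝ) * u / d)) * (ee ((x : ℝ) * b / d) *
        ∑ q ∈ Icc 1 M, ∑ c ∈ (Icc 1 q).filter (fun c => Nat.Coprime c q),
          (if q = 1 ∧ b = 0 then 0 else
            ((∑ m ∈ S.filter (fun m => q ∣ m), a m / m : ℝ) : ℂ) *
              dk H ((c : ℝ) / q + (b : ℝ) / d)) * ee ((x : ℝ) * c / q))‖ ≤ ∑ b ∈ range d, ‖I b x‖ := by
      refine (norm_sum_le _ _).trans (le_of_eq ?_)
      refine sum_congr rfl fun b _ => ?_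
      rw [norm_mul, norm_mul, Tls_norm_ee, Tls_norm_ee, one_mul, one_mul]
    have e5 : (∑ b ∈ range d, ‖I b x‖) ^ 2 ≤ d * ∑ b ∈ range d, ‖I b x‖ ^ 2 := by
      have := sq_sum_le_card_mul_sum_sq (s := range d) (f := fun b => ‖I b x‖)
      rwa [card_range] at this
    have e6 := pow_le_pow_left₀ (norm_nonneg _) e4 2
    calc (1 / (d : ℝ)) ^ 2 * _ ≤ (1 / (d : ℝ)) ^ 2 * (d * ∑ b ∈ range d, ‖I b x‖ ^ 2) :=
          mul_le_mul_of_nonneg_left (e6.trans e5) (by positivity)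
      _ = 1 / (d : ℝ) * ∑ b ∈ range d, ‖I b x‖ ^ 2 := by
          field_simp
  have hIco : Ico X (2 * X) = Ioc (X - 1) (X - 1 + X) := by
    ext x
    rw [mem_Ico, mem_Ioc]
    omega
  set A : ℕ → ℝ := fun q => (∑ m ∈ S.filter (fun m => q ∣ m), |a m| / m) ^ 2 * min ((q : ℝ) ^ 2) (q * H) with hA
  have hA0 : ∀ q, 0 ≤ A q := by
    intro q
    rw [hA]
    positivity
  have h2 : ∀ b ∈ range d, ∑ x ∈ Ico X (2 * X), ‖I b x‖ ^ 2 ≤
      ((M : ℝ) ^ 2 + Real.pi * X) * (100 * (d : ℝ) ^ 2 * ∑ q ∈ Icc 1 M, A q) := by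
    intro b hb
    have hb' := mem_range.1 hb
    rw [hIco]
    refine (dual_ls M (X - 1) X (C b)).trans ?_
    refine mul_le_mul_of_nonneg_left ?_ (by positivity)
    rw [mul_sum]
    refine sum_le_sum fun q hq => ?_
    have hq' := mem_Icc.1 hq
    by_cases h0 : q = 1 ∧ b = 0
    · have e1 : ∑ c ∈ (Icc 1 q).filter (fun c => Nat.Coprime c q), ‖C b q c‖ ^ 2 = 0 := by
        refine sum_eq_zero fun c _ => ?_
        rw [hC]
        simp only
        rw [if_pos h0, norm_zero]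
        norm_num
      rw [e1]
      exact mul_nonneg (by positivity) (hA0 q)
    · have e1 : ∑ c ∈ (Icc 1 q).filter (fun c => Nat.Coprime c q), ‖C b q c‖ ^ 2 =
          (∑ m ∈ S.filter (fun m => q ∣ m), a m / m) ^ 2 *
            ∑ c ∈ (Icc 1 q).filter (fun c => Nat.Coprime c q), ‖dk H ((c : ℝ) / q + (b : ℝ) / d)‖ ^ 2 := by
        rw [mul_sum]
        refine sum_congr rfl fun c _ => ?_
        rw [hC]
        simp only
        rw [if_neg h0, norm_mul, mul_pow, Complex.norm_real, Real.norm_eq_abs, sq_abs]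
      rw [e1]
      by_cases hqd : Nat.Coprime q d
      · have e2 := dk_sum H q d b hH hq'.1 hd hb' hqd h0
        have e3 : (∑ m ∈ S.filter (fun m => q ∣ m), a m / m) ^ 2 ≤ (∑ m ∈ S.filter (fun m => q ∣ m), |a m| / m) ^ 2 := by
          rw [← sq_abs]
          refine pow_le_pow_left₀ (abs_nonneg _) ?_ 2
          refine (abs_sum_le_sum_abs _ _).trans (le_of_eq ?_)
          refine sum_congr rfl fun m _ => ?_
          rw [abs_div, Nat.abs_cast]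
        calc (∑ m ∈ S.filter (fun m => q ∣ m), a m / m) ^ 2 * _
            ≤ (∑ m ∈ S.filter (fun m => q ∣ m), |a m| / m) ^ 2 * (100 * (d : ℝ) ^ 2 * min ((q : ℝ) ^ 2) (q * H)) :=
              mul_le_mul e3 e2 (sum_nonneg fun _ _ => by positivity) (by positivity)
          _ = 100 * (d : ℝ) ^ 2 * A q := by
              rw [hA]
              ring
      · have e2 : S.filter (fun m => q ∣ m) = ∅ := by
          rw [filter_eq_empty_iff]
          intro m hm hqm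
          exact hqd (Nat.Coprime.coprime_dvd_left hqm (hSd m hm))
        rw [e2, sum_empty]
        have : 0 ≤ 100 * (d : ℝ) ^ 2 * A q := mul_nonneg (by positivity) (hA0 q)
        linarith
  have h3 : ∑ x ∈ Ico X (2 * X), (∑ m ∈ S, a m * em d u H m x) ^ 2 ≤
      1 / (d : ℝ) * ∑ b ∈ range d, ∑ x ∈ Ico X (2 * X), ‖I b x‖ ^ 2 := by
    refine (sum_le_sum fun x _ => h1 x).trans (le_of_eq ?_)
    rw [← mul_sum, sum_comm]
  refine h3.trans ?_
  have h4 := sum_le_sum h2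
  rw [sum_const, card_range, nsmul_eq_mul] at h4
  have hs0 : 0 ≤ ∑ q ∈ Icc 1 M, A q := sum_nonneg fun q _ => hA0 q
  calc 1 / (d : ℝ) * ∑ b ∈ range d, ∑ x ∈ Ico X (2 * X), ‖I b x‖ ^ 2
      ≤ 1 / (d : ℝ) * (d * (((M : ℝ) ^ 2 + Real.pi * X) * (100 * (d : ℝ) ^ 2 * ∑ q ∈ Icc 1 M, A q))) :=
        mul_le_mul_of_nonneg_left h4 (by positivity)
    _ = ((M : ℝ) ^ 2 + Real.pi * X) * (100 * (d : ℝ) ^ 2 * ∑ q ∈ Icc 1 M, A q) := by
        field_simp
    _ ≤ (4 * ((M : ℝ) ^ 2 + X)) * (100 * (d : ℝ) ^ 2 * ∑ q ∈ Icc 1 M, A q) := by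
        refine mul_le_mul_of_nonneg_right ?_ (by positivity)
        have hpi := Real.pi_le_four
        have hX0 : (0 : ℝ) ≤ X := Nat.cast_nonneg X
        nlinarith [sq_nonneg (M : ℝ)]
    _ = 400 * (d : ℝ) ^ 2 * ((M : ℝ) ^ 2 + X) * ∑ q ∈ Icc 1 M, A q := by ring

end Pool.Agent.H88.PSI
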