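import Pool.Agent.H88.PSI.Tls
import Pool.Agent.H88.PSI.Bin

/-!
# PSI Tmax: maximal version of `ti_ls`

`bin_dec` for `f m = a m em(m)` (`m ≤ M`, `(m, d) = 1`, else `0`) and `M' x + 1 < 2^r`; `ti_ls` for every block; for fixed `l` the blocks are disjoint, so
`∑_J (∑_{m ∈ J, q ∣ m} |a m|/m)^2 ≤ (∑_{m ≤ M, q ∣ m} |a m|/m)^2 ≤ (Q (1 + log M)/q)^2`; `∑_q min(q^2, qH)/q^2 ≤ H + H (1 + log M)`.
-/

set_option autoImplicit false

namespace Pool.Agent.H88.PSI

open Finset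

private theorem Tmax_harm (n : ℕ) : ∑ k ∈ Icc 1 n, 1 / (k : ℝ) ≤ 1 + Real.log n := by
  have h := harmonic_le_one_add_log n
  have e : ((harmonic n : ℚ) : ℝ) = ∑ k ∈ Icc 1 n, 1 / (k : ℝ) := by
    rw [harmonic_eq_sum_Icc]
    push_cast
    exact Finset.sum_congr rfl fun k _ => by rw [one_div]
  rw [← e]
  exact h

private theorem Tmax_mult (M q : ℕ) (hq : 1 ≤ q) :
    ∑ m ∈ (Icc 1 M).filter (fun m => q ∣ m), 1 / (m : ℝ) ≤ (1 + Real.log M) / q := by
  have h1 : (Icc 1 M).filter (fun m => q ∣ m) ⊆ (Icc 1 M).image (fun k => q * k) := by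
    intro m hm
    rw [mem_filter, mem_Icc] at hm
    obtain ⟨⟨hm1, hm2⟩, k, rfl⟩ := hm
    rw [mem_image]
    refine ⟨k, ?_, rfl⟩
    rw [mem_Icc]
    constructor
    · rcases Nat.eq_zero_or_pos k with h | h
      · subst h; simp at hm1
      · exact h
    · exact le_trans (Nat.le_mul_of_pos_left k hq) hm2
  calc ∑ m ∈ (Icc 1 M).filter (fun m => q ∣ m), 1 / (m : ℝ)
      ≤ ∑ m ∈ (Icc 1 M).image (fun k => q * k), 1 / (m : ℝ) :=
        Finset.sum_le_sum_of_subset_of_nonneg h1 fun _ _ _ => by positivity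
    _ = ∑ k ∈ Icc 1 M, 1 / ((q * k : ℕ) : ℝ) := by
        rw [Finset.sum_image]
        intro x _ y _ hxy
        exact Nat.eq_of_mul_eq_mul_left hq hxy
    _ = (∑ k ∈ Icc 1 M, 1 / (k : ℝ)) / q := by
        rw [Finset.sum_div]
        refine Finset.sum_congr rfl fun k _ => ?_
        rw [Nat.cast_mul, div_div, mul_comm]
    _ ≤ (1 + Real.log M) / q := by
        gcongr
        exact Tmax_harm M

private theorem Tmax_sq {ι : Type*} (s : Finset ι) (g : ι → ℝ) (hg : ∀ i ∈ s, 0 ≤ g i) :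
    ∑ i ∈ s, g i ^ 2 ≤ (∑ i ∈ s, g i) ^ 2 := by
  calc ∑ i ∈ s, g i ^ 2 ≤ ∑ i ∈ s, g i * ∑ j ∈ s, g j := by
        refine Finset.sum_le_sum fun i hi => ?_
        rw [sq]
        exact mul_le_mul_of_nonneg_left (Finset.single_le_sum hg hi) (hg i hi)
    _ = _ := by rw [← Finset.sum_mul, sq]

theorem ti_max (d u H M X r : ℕ) (hd : 1 ≤ d) (hH : 1 ≤ H) (hX : 1 ≤ X) (hM : 1 ≤ M)
    (hr : M + 1 < 2 ^ r) (a : ℕ → ℝ) (Q : ℝ) (ha : ∀ m ∈ Icc 1 M, |a m| ≤ Q) (M' : ℕ → ℕ)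
    (hM' : ∀ x, M' x ≤ M) :
    ∑ x ∈ Ico X (2 * X),
        (∑ m ∈ (Icc 1 (M' x)).filter (fun m => Nat.Coprime m d), a m * em d u H m x) ^ 2
      ≤ 1000 * (r : ℝ) ^ 2 * (d : ℝ) ^ 2 * ((M : ℝ) ^ 2 + X) * Q ^ 2 * (1 + Real.log M) ^ 3 * H := by
  classical
  have hQ0 : 0 ≤ Q := (abs_nonneg _).trans (ha 1 (mem_Icc.mpr ⟨le_rfl, hM⟩))
  have hMr : (1 : ℝ) ≤ M := by exact_mod_cast hM
  have hlog0 : 0 ≤ Real.log M := Real.log_nonneg hMr
  set Λ : ℝ := 1 + Real.log M with hΛ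
  have hΛ0 : 0 ≤ Λ := by linarith
  set T : Finset ℕ := (Icc 1 M).filter (fun m => Nat.Coprime m d) with hT
  set f : ℕ → ℕ → ℝ := fun x m => if m ∈ T then a m * em d u H m x else 0 with hf
  -- the blocks
  set SJ : ℕ → ℕ → Finset ℕ := fun l j => T.filter (fun m => m / 2 ^ l = j) with hSJ
  have hblock : ∀ x l j, ∑ m ∈ Ico (j * 2 ^ l) ((j + 1) * 2 ^ l), f x m =
      ∑ m ∈ SJ l j, a m * em d u H m x := by
    intro x l j
    rw [hf, hSJ]
    simp only
    rw [← Finset.sum_filter]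
    refine Finset.sum_congr ?_ fun _ _ => rfl
    ext m
    simp only [mem_filter, mem_Ico]
    rw [Nat.div_eq_iff (by positivity)]
    constructor
    · rintro ⟨⟨h1, h2⟩, h3⟩
      refine ⟨h3, ?_, ?_⟩
      · linarith
      · have : (j + 1) * 2 ^ l = j * 2 ^ l + 2 ^ l := by ring
        omega
    · rintro ⟨h3, h1, h2⟩
      refine ⟨⟨?_, ?_⟩, h3⟩
      · linarith
      · have h4 : (j + 1) * 2 ^ l = j * 2 ^ l + 2 ^ l := by ring
        have h5 : 0 < 2 ^ l := by positivity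
        omega
  have hinit : ∀ x, ∑ m ∈ (Icc 1 (M' x)).filter (fun m => Nat.Coprime m d), a m * em d u H m x =
      ∑ m ∈ range (M' x + 1), f x m := by
    intro x
    rw [hf]
    simp only
    rw [← Finset.sum_filter]
    refine Finset.sum_congr ?_ fun _ _ => rfl
    ext m
    simp only [hT, mem_filter, mem_range, mem_Icc]
    have := hM' x
    constructor
    · rintro ⟨⟨h1, h2⟩, h3⟩
      exact ⟨by omega, ⟨h1, by omega⟩, h3⟩
    · rintro ⟨h1, ⟨h2, h4⟩, h3⟩
      exact ⟨⟨h2, by omega⟩, h3⟩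
  have hstep : ∀ x, (∑ m ∈ (Icc 1 (M' x)).filter (fun m => Nat.Coprime m d),
      a m * em d u H m x) ^ 2 ≤ r * ∑ l ∈ range r, ∑ j ∈ range (2 ^ (r - l)),
      (∑ m ∈ SJ l j, a m * em d u H m x) ^ 2 := by
    intro x
    rw [hinit]
    have h1 := bin_dec r (f x) (M' x + 1) (by have := hM' x; omega)
    refine h1.trans (le_of_eq ?_)
    simp only [hblock]
  -- the sum over one level
  have hlev : ∀ l ∈ range r, ∑ j ∈ range (2 ^ (r - l)), ∑ x ∈ Ico X (2 * X),
      (∑ m ∈ SJ l j, a m * em d u H m x) ^ 2 ≤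
      400 * (d : ℝ) ^ 2 * ((M : ℝ) ^ 2 + X) * (Q ^ 2 * Λ ^ 3 * H) := by
    intro l hl
    rw [mem_range] at hl
    have h1 : ∀ j ∈ range (2 ^ (r - l)), ∑ x ∈ Ico X (2 * X),
        (∑ m ∈ SJ l j, a m * em d u H m x) ^ 2 ≤
        400 * (d : ℝ) ^ 2 * ((M : ℝ) ^ 2 + X) * ∑ q ∈ Icc 1 M,
          (∑ m ∈ (SJ l j).filter (fun m => q ∣ m), |a m| / m) ^ 2
            * min ((q : ℝ) ^ 2) (q * H) := by
      intro j _
      refine ti_ls d u H M X hd hH hX (SJ l j) ?_ ?_ a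
      · exact (Finset.filter_subset _ _).trans (Finset.filter_subset _ _)
      · intro m hm
        simp only [hSJ, hT, mem_filter] at hm
        exact hm.1.2
    refine (Finset.sum_le_sum h1).trans ?_
    rw [← Finset.mul_sum, Finset.sum_comm]
    refine mul_le_mul_of_nonneg_left ?_ (by positivity)
    have h2 : ∀ q ∈ Icc 1 M, ∑ j ∈ range (2 ^ (r - l)),
        (∑ m ∈ (SJ l j).filter (fun m => q ∣ m), |a m| / m) ^ 2 * min ((q : ℝ) ^ 2) (q * H) ≤
        Q ^ 2 * Λ ^ 2 * H * (1 / (q : ℝ)) := by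
      intro q hq
      rw [mem_Icc] at hq
      have hq0 : (0 : ℝ) < q := by exact_mod_cast hq.1
      rw [← Finset.sum_mul]
      have h3 : ∑ j ∈ range (2 ^ (r - l)),
          (∑ m ∈ (SJ l j).filter (fun m => q ∣ m), |a m| / m) ^ 2 ≤ (Q * (Λ / q)) ^ 2 := by
        refine (Tmax_sq _ _ fun j _ => Finset.sum_nonneg fun m _ => by positivity).trans ?_
        have h4 : ∑ j ∈ range (2 ^ (r - l)), ∑ m ∈ (SJ l j).filter (fun m => q ∣ m), |a m| / m =
            ∑ m ∈ T.filter (fun m => q ∣ m), |a m| / (m : ℝ) := by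
          have h5 : ∀ j, (SJ l j).filter (fun m => q ∣ m) =
              (T.filter (fun m => q ∣ m)).filter (fun m => m / 2 ^ l = j) := by
            intro j
            rw [hSJ]
            simp only
            rw [Finset.filter_comm]
          simp only [h5]
          refine Finset.sum_fiberwise_of_maps_to (fun m hm => ?_) _
          simp only [hT, mem_filter, mem_Icc] at hm
          rw [mem_range, Nat.div_lt_iff_lt_mul (by positivity), ← pow_add,
            Nat.sub_add_cancel hl.le]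
          omega
        rw [h4]
        have h6 : ∑ m ∈ T.filter (fun m => q ∣ m), |a m| / (m : ℝ) ≤ Q * (Λ / q) := by
          calc ∑ m ∈ T.filter (fun m => q ∣ m), |a m| / (m : ℝ)
              ≤ ∑ m ∈ T.filter (fun m => q ∣ m), Q * (1 / (m : ℝ)) := by
                refine Finset.sum_le_sum fun m hm => ?_
                simp only [hT, mem_filter] at hm
                rw [mul_one_div]
                gcongr
                exact ha m hm.1.1
            _ ≤ ∑ m ∈ (Icc 1 M).filter (fun m => q ∣ m), Q * (1 / (m : ℝ)) := by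
                refine Finset.sum_le_sum_of_subset_of_nonneg ?_ fun _ _ _ => by positivity
                exact Finset.filter_subset_filter _ (Finset.filter_subset _ _)
            _ = Q * ∑ m ∈ (Icc 1 M).filter (fun m => q ∣ m), 1 / (m : ℝ) := by
                rw [Finset.mul_sum]
            _ ≤ Q * (Λ / q) := mul_le_mul_of_nonneg_left (Tmax_mult M q hq.1) hQ0
        have h7 : 0 ≤ ∑ m ∈ T.filter (fun m => q ∣ m), |a m| / (m : ℝ) :=
          Finset.sum_nonneg fun _ _ => by positivity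
        exact pow_le_pow_left₀ h7 h6 2
      have h8 : min ((q : ℝ) ^ 2) (q * H) ≤ q * H := min_le_right _ _
      have h9 : (0 : ℝ) ≤ min ((q : ℝ) ^ 2) (q * H) := le_min (by positivity) (by positivity)
      calc _ ≤ (Q * (Λ / q)) ^ 2 * (q * H) := by gcongr
        _ = Q ^ 2 * Λ ^ 2 * H * (1 / (q : ℝ)) := by
            field_simp
    refine (Finset.sum_le_sum h2).trans ?_
    rw [← Finset.mul_sum]
    calc Q ^ 2 * Λ ^ 2 * H * ∑ q ∈ Icc 1 M, 1 / (q : ℝ) ≤ Q ^ 2 * Λ ^ 2 * H * Λ := by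
          gcongr
          exact Tmax_harm M
      _ = Q ^ 2 * Λ ^ 3 * H := by ring
  calc ∑ x ∈ Ico X (2 * X),
        (∑ m ∈ (Icc 1 (M' x)).filter (fun m => Nat.Coprime m d), a m * em d u H m x) ^ 2
      ≤ ∑ x ∈ Ico X (2 * X), (r * ∑ l ∈ range r, ∑ j ∈ range (2 ^ (r - l)),
          (∑ m ∈ SJ l j, a m * em d u H m x) ^ 2) := Finset.sum_le_sum fun x _ => hstep x
    _ = r * ∑ l ∈ range r, ∑ j ∈ range (2 ^ (r - l)), ∑ x ∈ Ico X (2 * X),
          (∑ m ∈ SJ l j, a m * em d u H m x) ^ 2 := by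
        rw [← Finset.mul_sum, Finset.sum_comm]
        congr 1
        refine Finset.sum_congr rfl fun l _ => ?_
        rw [Finset.sum_comm]
    _ ≤ r * ∑ l ∈ range r, (400 * (d : ℝ) ^ 2 * ((M : ℝ) ^ 2 + X) * (Q ^ 2 * Λ ^ 3 * H)) := by
        gcongr with l hl
        exact hlev l hl
    _ = 400 * (r : ℝ) ^ 2 * (d : ℝ) ^ 2 * ((M : ℝ) ^ 2 + X) * Q ^ 2 * Λ ^ 3 * H := by
        rw [Finset.sum_const, Finset.card_range, nsmul_eq_mul]
        ring
    _ ≤ 1000 * (r : ℝ) ^ 2 * (d : ℝ) ^ 2 * ((M : ℝ) ^ 2 + X) * Q ^ 2 * Λ ^ 3 * H := by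
        gcongr
        norm_num

end Pool.Agent.H88.PSI
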